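import Pool.Agent.Work.MP_e97a4d_nt.Hyp.SizeDefs

set_option autoImplicit false

noncomputable section

namespace Pool.Agent.Work.MP_e97a4d_nt.Hyp

private lemma exists_nz {σ ι : Type} [Finite ι] (F : ι → MvPolynomial σ ℤ) (h : ∀ i, F i ≠ 0) :
    ∃ x : σ → ℤ, ∀ i, MvPolynomial.eval x (F i) ≠ 0 := by
  classical
  have := Fintype.ofFinite ι
  have h1 : ∏ i, F i ≠ 0 := Finset.prod_ne_zero_iff.2 fun i _ => h i
  by_contra hcon
  push Not at hcon
  apply h1
  apply MvPolynomial.funext
  intro x
  obtain ⟨i, hi⟩ := hcon x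
  rw [map_prod, map_zero]
  exact Finset.prod_eq_zero (Finset.mem_univ i) hi

/-- Generic families of linear forms exist. -/
theorem exists_gen (P : Type) [Finite P] (n : ℕ) : ∃ L : P → Fin n → ℤ, Gen L := by
  classical
  let A : Type := {p : Fin n → P // Function.Injective p}
  let B : Type := {pq : (Pair n → P) × (Pair n → P) // Function.Injective (Sum.elim pq.1 pq.2)}
  let F : A ⊕ B → MvPolynomial (P × Fin n) ℤ := fun ab =>
    Sum.elim
      (fun a => (Matrix.of fun i k => (MvPolynomial.X (a.1 i, k) : MvPolynomial (P × Fin n) ℤ)).det)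
      (fun b => (Matrix.of fun s t : Pair n =>
        (MvPolynomial.X (b.1.2 s, t.1.1) : MvPolynomial (P × Fin n) ℤ) * MvPolynomial.X (b.1.1 s, t.1.2) -
          MvPolynomial.X (b.1.2 s, t.1.2) * MvPolynomial.X (b.1.1 s, t.1.1)).det) ab
  have hevA : ∀ (x : P × Fin n → ℤ) (a : A), MvPolynomial.eval x (F (Sum.inl a)) =
      (Matrix.of fun i k => x (a.1 i, k)).det := by
    intro x a
    simp only [F, Sum.elim_inl]
    rw [RingHom.map_det]
    congr 1
    ext i k
    simp
  have hevB : ∀ (x : P × Fin n → ℤ) (b : B), MvPolynomial.eval x (F (Sum.inr b)) =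
      (Matrix.of fun s t : Pair n =>
        x (b.1.2 s, t.1.1) * x (b.1.1 s, t.1.2) - x (b.1.2 s, t.1.2) * x (b.1.1 s, t.1.1)).det := by
    intro x b
    simp only [F, Sum.elim_inr]
    rw [RingHom.map_det]
    congr 1
    ext s t
    simp
  have hF : ∀ ab, F ab ≠ 0 := by
    rintro (a | b) h0
    · let x : P × Fin n → ℤ := fun ak => if ak.1 = a.1 ak.2 then 1 else 0
      have h1 := hevA x a
      rw [h0, map_zero] at h1
      have h2 : (Matrix.of fun i k => x (a.1 i, k)) = (1 : Matrix (Fin n) (Fin n) ℤ) := by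
        ext i k
        simp only [Matrix.of_apply, x, Matrix.one_apply]
        exact if_congr a.2.eq_iff rfl rfl
      rw [h2, Matrix.det_one] at h1
      exact one_ne_zero h1.symm
    · let x : P × Fin n → ℤ := fun ak =>
        if ∃ s : Pair n, (ak.1 = b.1.2 s ∧ ak.2 = s.1.1) ∨ (ak.1 = b.1.1 s ∧ ak.2 = s.1.2) then 1 else 0
      have hp : Function.Injective b.1.1 := fun s t hst =>
        Sum.inl_injective (b.2 (show Sum.elim b.1.1 b.1.2 (Sum.inl s) = Sum.elim b.1.1 b.1.2 (Sum.inl t) from hst))
      have hq : Function.Injective b.1.2 := fun s t hst =>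
        Sum.inr_injective (b.2 (show Sum.elim b.1.1 b.1.2 (Sum.inr s) = Sum.elim b.1.1 b.1.2 (Sum.inr t) from hst))
      have hpq : ∀ s t, b.1.1 s ≠ b.1.2 t := fun s t hst =>
        Sum.inl_ne_inr (b.2 (show Sum.elim b.1.1 b.1.2 (Sum.inl s) = Sum.elim b.1.1 b.1.2 (Sum.inr t) from hst))
      have hxq : ∀ (s : Pair n) (k : Fin n), x (b.1.2 s, k) = if k = s.1.1 then 1 else 0 := by
        intro s k
        refine if_congr ?_ rfl rfl
        constructor
        · rintro ⟨t, ⟨h1, h2⟩ | ⟨h1, h2⟩⟩
          · rw [hq h1]; exact h2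
          · exact absurd h1.symm (hpq _ _)
        · intro h
          exact ⟨s, Or.inl ⟨rfl, h⟩⟩
      have hxp : ∀ (s : Pair n) (k : Fin n), x (b.1.1 s, k) = if k = s.1.2 then 1 else 0 := by
        intro s k
        refine if_congr ?_ rfl rfl
        constructor
        · rintro ⟨t, ⟨h1, h2⟩ | ⟨h1, h2⟩⟩
          · exact absurd h1 (hpq _ _)
          · rw [hp h1]; exact h2
        · intro h
          exact ⟨s, Or.inr ⟨rfl, h⟩⟩
      have h1 := hevB x b
      rw [h0, map_zero] at h1
      have h2 : (Matrix.of fun s t : Pair n =>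
        x (b.1.2 s, t.1.1) * x (b.1.1 s, t.1.2) - x (b.1.2 s, t.1.2) * x (b.1.1 s, t.1.1)) =
          (1 : Matrix (Pair n) (Pair n) ℤ) := by
        ext s t
        simp only [Matrix.of_apply, hxq, hxp, Matrix.one_apply]
        by_cases hst : s = t
        · subst hst
          have hne : s.1.2 ≠ s.1.1 := s.2.ne'
          simp [hne]
        · rw [if_neg hst]
          by_cases h3 : t.1.1 = s.1.1
          · by_cases h4 : t.1.2 = s.1.2
            · exfalso; apply hst; apply Subtype.ext; exact Prod.ext h3.symm h4.symm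
            · have h5 : t.1.2 ≠ s.1.1 := by
                rw [← h3]; exact t.2.ne'
              simp [h4, h5]
          · by_cases h4 : t.1.2 = s.1.1
            · have h5 : t.1.1 ≠ s.1.2 := by
                intro h5
                have h6 := t.2
                have h7 := s.2
                rw [h4, h5] at h6
                exact absurd h6 (lt_asymm h7)
              simp [h3, h5]
            · simp [h3, h4]
      rw [h2, Matrix.det_one] at h1
      exact one_ne_zero h1.symm
  obtain ⟨x, hx⟩ := exists_nz F hF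
  refine ⟨fun a k => x (a, k), ?_, ?_⟩
  · intro p hp
    have := hx (Sum.inl ⟨p, hp⟩)
    rw [hevA] at this
    exact this
  · intro p q hpq
    have := hx (Sum.inr ⟨(p, q), hpq⟩)
    rw [hevB] at this
    exact this

theorem Gen.map {P R R' : Type} [CommRing R] [CommRing R'] {n : ℕ} {L : P → Fin n → R} (hL : Gen L)
    (φ : R →+* R') (hφ : Function.Injective φ) : Gen fun p k => φ (L p k) := by
  classical
  constructor
  · intro p hp h0
    apply hL.g1 p hp
    apply hφ
    rw [map_zero, RingHom.map_det, ← h0]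
    congr 1
  · intro p q hpq h0
    apply hL.g2 p q hpq
    apply hφ
    rw [map_zero, RingHom.map_det, ← h0]
    congr 1
    ext s t
    simp

/-- A nonzero vector is annihilated by few members of a generic family. -/
theorem Gen.card_zero {P : Type} [Fintype P] {n : ℕ} {K : Type} [Field K] {L : P → Fin (n + 1) → K}
    (hL : Gen L) (x : Fin (n + 1) → K) (hx : x ≠ 0) (S : Finset P) (hS : ∀ p ∈ S, ∑ k, L p k * x k = 0) :
    S.card ≤ n := by
  classical
  by_contra hcon
  obtain ⟨T, hTS, hT⟩ := Finset.exists_subset_card_eq (show n + 1 ≤ S.card by omega)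
  have e : Fin (n + 1) ≃ T := (Fintype.equivFinOfCardEq (by simpa using hT)).symm
  set p : Fin (n + 1) → P := fun i => (e i : P) with hp
  have hpi : Function.Injective p := Subtype.val_injective.comp e.injective
  have hdet := hL.g1 p hpi
  apply hx
  have hmul : (Matrix.of fun i k => L (p i) k).mulVec x = 0 := by
    ext i
    simp only [Matrix.mulVec, dotProduct, Matrix.of_apply, Pi.zero_apply]
    exact hS _ (hTS (e i).2)
  exact Matrix.eq_zero_of_mulVec_eq_zero hdet hmul

end Pool.Agent.Work.MP_e97a4d_nt.Hyp
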