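import Pool.Agent.Work.MP_e97a4d_nt.Hyp.SizeDefs

set_option autoImplicit false

noncomputable section

namespace Pool.Agent.Work.MP_e97a4d_nt.Hyp

open MvPolynomial

/-- the linear form with coefficients `L` -/
def linPoly {R : Type} [CommRing R] {n : ℕ} (L : Fin n → R) : MvPolynomial (Fin n) R :=
  ∑ k, C (L k) * X k

private lemma eval_linPoly {n : ℕ} (L v : Fin n → ℂ) : eval v (linPoly L) = ∑ k, L k * v k := by
  simp [linPoly]

private lemma pderiv_linPoly {n : ℕ} (L : Fin n → ℂ) (k : Fin n) : pderiv k (linPoly L) = C (L k) := by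
  classical
  simp only [linPoly, map_sum]
  rw [Finset.sum_eq_single k]
  · simp [pderiv_C_mul]
  · intro b _ hb
    rw [pderiv_C_mul, pderiv_X_of_ne hb]
    simp
  · simp

private lemma eval_pderiv {n N : ℕ} (G : MvPolynomial (Fin n) ℂ) (L v : Fin n → ℂ) (k : Fin n) :
    eval v (pderiv k (G * linPoly L ^ N)) =
      eval v (pderiv k G) * (∑ l, L l * v l) ^ N + eval v G * (N * (∑ l, L l * v l) ^ (N - 1) * L k) := by
  rw [Derivation.leibniz, Derivation.leibniz_pow, pderiv_linPoly]
  simp only [smul_eq_mul, map_add, map_mul, map_pow, eval_linPoly, nsmul_eq_mul, map_natCast, eval_C]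
  ring

/-- Outside the base locus the gradients of the polynomials `G ℓ_j ^ N` span everything. -/
theorem rank_out {n J e N : ℕ} (hJ : 2 * n + 1 ≤ J) (G : MvPolynomial (Fin (n + 1)) ℂ)
    (hG : G.IsHomogeneous e) (L : Fin J → Fin (n + 1) → ℂ)
    (hL : ∀ p : Fin (n + 1) → Fin J, Function.Injective p → (Matrix.of fun i k => L (p i) k).det ≠ 0)
    (hN : 0 < N) (v : Fin (n + 1) → ℂ) (hv : v ≠ 0) (hGv : eval v G ≠ 0) :
    LinearIndependent ℂ fun (k : Fin (n + 1)) (j : Fin J) =>
      eval v (pderiv k (G * linPoly (L j) ^ N)) := by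
  classical
  -- a vector killed by `n + 1` of the forms vanishes
  have key : ∀ (S : Finset (Fin J)) (w : Fin (n + 1) → ℂ), n + 1 ≤ S.card →
      (∀ j ∈ S, ∑ k, L j k * w k = 0) → w = 0 := by
    intro S w hS hw
    obtain ⟨T, hTS, hT⟩ := Finset.exists_subset_card_eq hS
    have e : Fin (n + 1) ≃ T := (Fintype.equivFinOfCardEq (by simpa using hT)).symm
    set p : Fin (n + 1) → Fin J := fun i => (e i : Fin J) with hp
    have hpi : Function.Injective p := Subtype.val_injective.comp e.injective
    have hdet := hL p hpi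
    have hmul : (Matrix.of fun i k => L (p i) k).mulVec w = 0 := by
      ext i
      simp only [Matrix.mulVec, dotProduct, Matrix.of_apply, Pi.zero_apply]
      exact hw _ (hTS (e i).2)
    exact Matrix.eq_zero_of_mulVec_eq_zero hdet hmul
  -- at least `n + 1` of the forms do not vanish at `v`
  set Z : Finset (Fin J) := Finset.univ.filter fun j => ∑ k, L j k * v k = 0 with hZ
  have hZc : Z.card ≤ n := by
    by_contra h
    exact hv (key Z v (by omega) (fun j hj => (Finset.mem_filter.1 hj).2))
  have hZcc : n + 1 ≤ Zᶜ.card := by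
    rw [Finset.card_compl, Fintype.card_fin]; omega
  rw [Fintype.linearIndependent_iff]
  intro c hc
  -- the vector `w`
  set DG : ℂ := ∑ k, c k * eval v (pderiv k G) with hDG
  have hw : (fun k => DG * v k + N * eval v G * c k) = (0 : Fin (n + 1) → ℂ) := by
    apply key Zᶜ _ hZcc
    intro j hj
    have hlj : ∑ k, L j k * v k ≠ 0 := by
      intro h
      exact (Finset.mem_compl.1 hj) (Finset.mem_filter.2 ⟨Finset.mem_univ _, h⟩)
    have h1 := congrFun hc j
    simp only [Finset.sum_apply, Pi.smul_apply, smul_eq_mul, Pi.zero_apply, eval_pderiv] at h1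
    set l : ℂ := ∑ k, L j k * v k with hl
    have h2 : l ^ (N - 1) * (∑ k, L j k * (DG * v k + N * eval v G * c k)) = 0 := by
      rw [← h1]
      have hNl : l ^ N = l ^ (N - 1) * l := by
        rw [← pow_succ]; congr 1; omega
      have e1 : ∑ k, L j k * (DG * v k + N * eval v G * c k) = DG * l + N * eval v G * ∑ k, L j k * c k := by
        rw [hl, Finset.mul_sum, Finset.mul_sum, ← Finset.sum_add_distrib]
        exact Finset.sum_congr rfl fun k _ => by ring
      have e2 : ∑ k, c k * (eval v (pderiv k G) * l ^ N + eval v G * (N * l ^ (N - 1) * L j k)) =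
          DG * l ^ N + eval v G * N * l ^ (N - 1) * ∑ k, L j k * c k := by
        rw [hDG, Finset.sum_mul, Finset.mul_sum, ← Finset.sum_add_distrib]
        exact Finset.sum_congr rfl fun k _ => by ring
      rw [e1, e2, hNl]; ring
    exact (mul_eq_zero.1 h2).resolve_left (pow_ne_zero _ hlj)
  have hwk : ∀ k, DG * v k + N * eval v G * c k = 0 := fun k => congrFun hw k
  have hEul : ∑ k, v k * eval v (pderiv k G) = e * eval v G := by
    have := congrArg (eval v) hG.sum_X_mul_pderiv
    simpa [map_sum, nsmul_eq_mul] using this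
  have hNc : (N : ℂ) ≠ 0 := by exact_mod_cast hN.ne'
  -- `DG (e + N) G(v) = 0`
  have hDG0 : DG = 0 := by
    have h3 : ∑ k, (DG * v k + N * eval v G * c k) * eval v (pderiv k G) = 0 :=
      Finset.sum_eq_zero fun k _ => by rw [hwk k, zero_mul]
    have h4 : DG * (e * eval v G) + N * eval v G * DG = 0 := by
      rw [← h3, ← hEul]
      conv_lhs => rw [hDG]
      rw [← hDG, Finset.mul_sum, hDG, Finset.mul_sum, ← Finset.sum_add_distrib]
      exact Finset.sum_congr rfl fun k _ => by ring
    have h5 : DG * (eval v G * ((e + N : ℕ) : ℂ)) = 0 := by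
      rw [← h4]; push_cast; ring
    rcases mul_eq_zero.1 h5 with h | h
    · exact h
    · rcases mul_eq_zero.1 h with h | h
      · exact absurd h hGv
      · exfalso
        have : e + N = 0 := by exact_mod_cast h
        omega
  intro k
  have h6 := hwk k
  rw [hDG0, zero_mul, zero_add] at h6
  exact (mul_eq_zero.1 h6).resolve_left (mul_ne_zero hNc hGv)

/-- On the base locus the gradient of `G ℓ ^ N` is a multiple of the gradient of `G`. -/
theorem rank_on {n N : ℕ} (G : MvPolynomial (Fin (n + 1)) ℂ) (L : Fin (n + 1) → ℂ)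
    (v : Fin (n + 1) → ℂ) (hGv : eval v G = 0) (k : Fin (n + 1)) :
    eval v (pderiv k (G * linPoly L ^ N)) = (∑ l, L l * v l) ^ N * eval v (pderiv k G) := by
  rw [eval_pderiv, hGv]; ring

end Pool.Agent.Work.MP_e97a4d_nt.Hyp
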