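import Mathlib

set_option autoImplicit false
set_option linter.style.haveILetI false

noncomputable section

namespace Pool.Agent.Work.MP_e97a4d_nt.Hyp

/-- Real numbers algebraically independent over a countable field. -/
theorem exists_real_algInd (k : Subfield ℂ) (hk : (k : Set ℂ).Countable) (P : Type) [Finite P] :
    ∃ a : P → ℝ, AlgebraicIndependent k fun p => (a p : ℂ) := by
  classical
  haveI : Countable k := hk.to_subtype
  obtain ⟨u, -, hu⟩ := exists_maximal_algebraicIndependent (R := k) (A := ℂ) ∅
    (Set.range ((↑) : ℝ → ℂ)) (Set.empty_subset _)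
    (by
      haveI : IsEmpty (↥(∅ : Set ℂ)) := Set.isEmpty_coe_sort.2 rfl
      exact algebraicIndependent_empty)
  have hinf : u.Infinite := by
    by_contra hfin
    rw [Set.not_infinite] at hfin
    haveI : Countable (Algebra.adjoin k u) := by
      have h1 : Countable (MvPolynomial u k) := by
        haveI : Countable u := hfin.countable.to_subtype
        rw [← Cardinal.mk_le_aleph0_iff]
        refine (MvPolynomial.cardinalMk_le_max (σ := u) (R := k)).trans ?_
        exact max_le (max_le (Cardinal.mk_le_aleph0_iff.2 inferInstance)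
          (Cardinal.mk_le_aleph0_iff.2 inferInstance)) le_rfl
      have h2 : (Algebra.adjoin k u : Set ℂ) =
          Set.range (MvPolynomial.aeval (R := k) ((↑) : u → ℂ)) := by
        have h0 := Algebra.adjoin_range_eq_range_aeval k ((↑) : u → ℂ)
        rw [Subtype.range_coe] at h0
        rw [h0]
        rfl
      have h3 : (Algebra.adjoin k u : Set ℂ).Countable := by
        rw [h2]; exact Set.countable_range _
      exact h3.to_subtype
    have h4 := Algebraic.countable (Algebra.adjoin k u) ℂ
    have h5 : Set.range ((↑) : ℝ → ℂ) ⊆ {x : ℂ | IsAlgebraic (Algebra.adjoin k u) x} := by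
      intro x hx
      by_contra hx'
      have h6 : AlgebraicIndepOn k id (insert x u) := by
        refine AlgebraicIndepOn.insert hu.prop.1 ?_
        rw [Set.image_id]
        exact hx'
      have h7 := hu.le_of_ge ⟨h6, Set.insert_subset hx hu.prop.2⟩ (Set.subset_insert _ _)
      have h8 : x ∈ u := h7 (Set.mem_insert _ _)
      exact hx' (isAlgebraic_algebraMap (⟨x, Algebra.subset_adjoin h8⟩ : Algebra.adjoin k u))
    have h9 : (Set.range ((↑) : ℝ → ℂ)).Countable := h4.mono h5
    have h10 : (Set.univ : Set ℝ).Countable := by
      rw [← Set.image_univ] at h9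
      exact Set.countable_of_injective_of_countable_image Complex.ofReal_injective.injOn h9
    exact Cardinal.not_countable_real h10
  haveI : Infinite u := hinf.to_subtype
  haveI := Fintype.ofFinite P
  obtain ⟨f⟩ : Nonempty (P ↪ u) := by
    exact ⟨(Finite.equivFin P).toEmbedding.trans (Fin.valEmbedding.trans (Infinite.natEmbedding u))⟩
  have h1 : AlgebraicIndependent k (fun p => ((f p : u) : ℂ)) := hu.prop.1.comp f f.injective
  choose g hg using fun p => hu.prop.2 (f p).2
  refine ⟨g, ?_⟩
  have : (fun p => ((g p : ℝ) : ℂ)) = fun p => ((f p : u) : ℂ) := funext hg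
  rw [this]; exact h1

end Pool.Agent.Work.MP_e97a4d_nt.Hyp
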