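import Mathlib

set_option autoImplicit false

noncomputable section

namespace Pool.Agent.Work.MP_e97a4d_nt.Hyp

open Cardinal in
private theorem card_le_of_mem_adjoin {P : Type} [Fintype P] (k : Subfield ℂ) (a : P → ℂ)
    (ha : AlgebraicIndependent k a) (S : Set ℂ) (hS : S.Finite)
    (hm : ∀ p, a p ∈ IntermediateField.adjoin k S) : Fintype.card P ≤ S.ncard := by
  classical
  set K := IntermediateField.adjoin k S with hK
  let a' : P → K := fun p => ⟨a p, hm p⟩
  have ha' : AlgebraicIndependent k a' := by
    have h1 : AlgebraicIndependent k (K.val ∘ a') := ha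
    exact (AlgHom.algebraicIndependent_iff K.val K.val.injective).1 h1
  let s : Set K := {x | (x : ℂ) ∈ S}
  have hsfin : s.Finite := hS.preimage (Subtype.val_injective.injOn)
  have hscard : s.ncard ≤ S.ncard := by
    have h1 : (Subtype.val '' s).ncard = s.ncard :=
      Set.ncard_image_of_injective s Subtype.val_injective
    rw [← h1]
    refine Set.ncard_le_ncard ?_ hS
    rintro _ ⟨x, hx, rfl⟩
    exact hx
  have halg : Algebra.IsAlgebraic (Algebra.adjoin k s) K := by
    constructor
    rintro ⟨x, hx⟩
    induction hx using IntermediateField.adjoin_induction with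
    | mem x hx =>
      have h1 : (⟨x, IntermediateField.subset_adjoin k S hx⟩ : K) ∈ Algebra.adjoin k s :=
        Algebra.subset_adjoin hx
      exact isAlgebraic_algebraMap (R := Algebra.adjoin k s) (A := K) ⟨_, h1⟩
    | algebraMap x =>
      exact isAlgebraic_algebraMap (R := Algebra.adjoin k s) (A := K) (algebraMap k _ x)
    | add x y hx hy ihx ihy => exact ihx.add ihy
    | inv x hx ihx => exact ihx.inv
    | mul x y hx hy ihx ihy => exact ihx.mul ihy
  have h2 : #P ≤ Algebra.trdeg k K := ha'.cardinalMk_le_trdeg
  have h3 : Algebra.trdeg k K ≤ #s := Algebra.IsAlgebraic.trdeg_le_cardinalMk k s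
  have h4 : (Fintype.card P : Cardinal) ≤ (s.ncard : Cardinal) := by
    rw [Set.cast_ncard hsfin, ← Cardinal.mk_fintype]
    exact h2.trans h3
  exact (Nat.cast_le.1 h4).trans hscard

/-- Algebraically independent numbers do not satisfy `t + 1` independent linear equations over a field
generated by `t` elements. -/
theorem tr_lemma {P : Type} [Fintype P] (k : Subfield ℂ) (a : P → ℂ) (ha : AlgebraicIndependent k a)
    (t : ℕ) (y : Fin t → ℂ) (w : Fin (t + 1) → P → ℂ)
    (hw : ∀ i p, w i p ∈ IntermediateField.adjoin k (Set.range y)) (hli : LinearIndependent ℂ w) :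
    ¬ ∀ i, ∑ p, a p * w i p = 0 := by
  classical
  intro h0
  set L := IntermediateField.adjoin k (Set.range y) with hL
  let φ : (P → L) →ₗ[L] ℂ := Fintype.linearCombination L a
  let w' : Fin (t + 1) → P → L := fun i p => ⟨w i p, hw i p⟩
  have hli' : LinearIndependent L w' := by
    have h1 : LinearIndependent L w := by
      refine hli.restrict_scalars ?_
      intro x y hxy
      apply Subtype.ext
      have h2 : (x : ℂ) * 1 = (y : ℂ) * 1 := hxy
      simpa using h2
    exact LinearIndependent.of_comp ((Algebra.linearMap L ℂ).compLeft P) h1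
  have hker : ∀ i, w' i ∈ LinearMap.ker φ := by
    intro i
    rw [LinearMap.mem_ker]
    have h1 : φ (w' i) = ∑ p, w' i p • a p := Fintype.linearCombination_apply _ _ _
    rw [h1, ← h0 i]
    refine Finset.sum_congr rfl fun p _ => ?_
    have h2 : w' i p • a p = (w i p : ℂ) * a p := rfl
    rw [h2, mul_comm]
  have hli'' : LinearIndependent L (fun i => (⟨w' i, hker i⟩ : LinearMap.ker φ)) :=
    LinearIndependent.of_comp (LinearMap.ker φ).subtype hli'
  have hk := hli''.fintype_card_le_finrank
  rw [Fintype.card_fin] at hk
  have hrk := LinearMap.finrank_range_add_finrank_ker φ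
  rw [Module.finrank_fintype_fun_eq_card] at hrk
  have hrange : LinearMap.range φ = Submodule.span L (Set.range a) :=
    Fintype.range_linearCombination _ _
  obtain ⟨b, hb1, hb2, hb3⟩ := exists_linearIndependent L (Set.range a)
  have hbfin : b.Finite := (Set.finite_range a).subset hb1
  have : Fintype b := hbfin.fintype
  have hbcard : b.ncard = Module.finrank L (LinearMap.range φ) := by
    rw [hrange, ← hb2, finrank_span_set_eq_card hb3, Set.ncard_eq_toFinset_card']
  -- all `a p` are in the field generated by `y` and `b`
  have hmem : ∀ p, a p ∈ IntermediateField.adjoin k (Set.range y ∪ b) := by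
    intro p
    have h1 : a p ∈ Submodule.span L b := by
      rw [hb2]
      exact Submodule.subset_span ⟨p, rfl⟩
    have hLle : L ≤ IntermediateField.adjoin k (Set.range y ∪ b) :=
      IntermediateField.adjoin.mono k _ _ Set.subset_union_left
    refine Submodule.span_induction (p := fun x _ =>
      x ∈ IntermediateField.adjoin k (Set.range y ∪ b)) ?_ ?_ ?_ ?_ h1
    · intro x hx
      exact IntermediateField.subset_adjoin k _ (Or.inr hx)
    · exact zero_mem _
    · intro x y _ _ hx hy
      exact add_mem hx hy
    · intro l x _ hx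
      have h2 : l • x = (l : ℂ) * x := rfl
      rw [h2]
      exact mul_mem (hLle l.2) hx
  have hfin : (Set.range y ∪ b).Finite := (Set.finite_range y).union hbfin
  have h5 := card_le_of_mem_adjoin k a ha _ hfin hmem
  have h6 : (Set.range y ∪ b).ncard ≤ (Set.range y).ncard + b.ncard := Set.ncard_union_le _ _
  have h7 : (Set.range y).ncard ≤ t := by
    rw [← Set.image_univ]
    refine (Set.ncard_image_le Set.finite_univ).trans ?_
    rw [Set.ncard_univ, Nat.card_eq_fintype_card, Fintype.card_fin]
  omega

end Pool.Agent.Work.MP_e97a4d_nt.Hyp
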