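import Pool.Agent.Work.MP_e97a4d_nt.Hyp.Defs
import Pool.Agent.Work.MP_e97a4d_nt.Hyp.Trdeg
import Pool.Agent.Work.MP_e97a4d_nt.Hyp.RealInd

set_option autoImplicit false

noncomputable section

namespace Pool.Agent.Work.MP_e97a4d_nt.Hyp

open MvPolynomial NumberField

lemma smooth_eval₂_smul {R : Type} [CommRing R] {n : Type} [Fintype n] (g : MvPolynomial n R) (d : ℕ)
    (hg : g.IsHomogeneous d) (s : R →+* ℂ) (c : ℂ) (v : n → ℂ) :
    g.eval₂ s (fun i => c * v i) = c ^ d * g.eval₂ s v := by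
  rw [eval₂_eq, eval₂_eq, Finset.mul_sum]
  refine Finset.sum_congr rfl fun m hm => ?_
  have hd : ∑ i ∈ m.support, m i = d := (hg.degree_eq_sum_deg_support hm).symm
  simp_rw [mul_pow, Finset.prod_mul_distrib, Finset.prod_pow_eq_pow_sum, hd]
  ring

lemma smooth_int (P : Type) [Fintype P] (q : P → ℚ) :
    ∃ D : ℕ, D ≠ 0 ∧ ∃ b : P → ℤ, ∀ p, (b p : ℚ) = D * q p := by
  classical
  refine ⟨∏ p, (q p).den, Finset.prod_ne_zero_iff.2 fun p _ => (q p).den_nz,
    fun p => (q p).num * ((∏ p', (q p').den) / (q p).den : ℕ), fun p => ?_⟩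
  have hd : (q p).den ∣ ∏ p', (q p').den := Finset.dvd_prod_of_mem _ (Finset.mem_univ p)
  obtain ⟨e, he⟩ := hd
  simp only [he]
  rw [Nat.mul_div_cancel_left _ (q p).den_pos]
  push_cast
  have := Rat.mul_den_eq_num (q p)
  rw [mul_right_comm, mul_comm ((q p).den : ℚ) (q p), this]

lemma smooth_countable (F₀ : Type) [Field F₀] [NumberField F₀] : Countable F₀ :=
  (Module.finBasis ℚ F₀).equivFun.toEquiv.countable_iff.2 inferInstance

lemma smooth_mem {R : Type} [CommRing R] {n : Type} (k : Subfield ℂ) (Y : Set ℂ) (s : R →+* ℂ)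
    (hs : ∀ r, s r ∈ k) (v : n → ℂ) (hv : ∀ i, v i ∈ IntermediateField.adjoin k Y)
    (g : MvPolynomial n R) : g.eval₂ s v ∈ IntermediateField.adjoin k Y := by
  induction g using MvPolynomial.induction_on with
  | C r =>
    rw [eval₂_C]
    exact (IntermediateField.adjoin k Y).algebraMap_mem (⟨s r, hs r⟩ : k)
  | add p q hp hq => rw [eval₂_add]; exact add_mem hp hq
  | mul_X p i hp => rw [eval₂_mul, eval₂_X]; exact mul_mem hp (hv i)

/-- Existence of a smooth member with integral coefficients in a linear system. -/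
theorem exists_smooth {F₀ : Type} [Field F₀] [NumberField F₀] (σ : F₀ →+* ℂ) {m : ℕ} {P : Type}
    [Fintype P] (φ : P → MvPolynomial (Fin (m + 1)) (𝓞 F₀)) (d : ℕ) (hφ : ∀ p, (φ p).IsHomogeneous d)
    (TT : Set (Set (Fin (m + 1))))
    (h : ∀ T ∈ TT, ∀ v : Fin (m + 1) → ℂ, v ≠ 0 → (∀ t ∈ T, v t = 0) →
      ∃ (t : ℕ) (y : Fin t → Fin (m + 1)) (l₀ : Fin (m + 1)), v l₀ ≠ 0 ∧
        (∀ k, v k ≠ 0 → k = l₀ ∨ k ∈ Set.range y) ∧
        ∃ c : Fin (t + 1) → Fin (m + 1), (∀ k, c k ∉ T) ∧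
          LinearIndependent ℂ fun (k : Fin (t + 1)) (p : P) =>
            (pderiv (c k) (φ p)).eval₂ (σ.comp (algebraMap (𝓞 F₀) F₀)) v) :
    ∃ a : P → ℤ, (∀ p, a p ≠ 0) ∧ ∀ T ∈ TT, SmoothOn σ (∑ p, C (a p : 𝓞 F₀) * φ p) T := by
  classical
  set s : 𝓞 F₀ →+* ℂ := σ.comp (algebraMap (𝓞 F₀) F₀) with hs
  set g : Fin (m + 1) → P → (Fin (m + 1) → ℂ) → ℂ := fun k p v => (pderiv k (φ p)).eval₂ s v with hg
  have hgh : ∀ k p c v, g k p (fun i => c * v i) = c ^ (d - 1) * g k p v := fun k p c v =>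
    smooth_eval₂_smul _ _ (hφ p).pderiv s c v
  have hgc : ∀ k p, Continuous (g k p) := by
    intro k p
    have : g k p = fun v => eval v (map s (pderiv k (φ p))) := by
      funext v; rw [hg, eval_map]
    rw [this]
    exact MvPolynomial.continuous_eval _
  have hcount : Countable F₀ := smooth_countable F₀
  have hk : (σ.fieldRange : Set ℂ).Countable := by
    rw [RingHom.coe_fieldRange]; exact Set.countable_range _
  have hsk : ∀ r, s r ∈ σ.fieldRange := fun r => ⟨_, rfl⟩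
  obtain ⟨a₀, ha₀⟩ := exists_real_algInd σ.fieldRange hk P
  -- the gradient does not vanish for the independent coefficients
  have claim1 : ∀ T ∈ TT, ∀ v : Fin (m + 1) → ℂ, v ≠ 0 → (∀ t ∈ T, v t = 0) →
      ∃ k, k ∉ T ∧ ∑ p, (a₀ p : ℂ) * g k p v ≠ 0 := by
    intro T hT v hv hvT
    obtain ⟨t, y, l₀, hl₀, hy, c, hc, hli⟩ := h T hT v hv hvT
    by_contra hcon
    push Not at hcon
    set u : ℂ := (v l₀)⁻¹ with hu
    have hu0 : u ≠ 0 := inv_ne_zero hl₀
    refine tr_lemma σ.fieldRange (fun p => (a₀ p : ℂ)) ha₀ t (fun i => u * v (y i))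
      (fun i p => g (c i) p (fun i => u * v i)) ?_ ?_ ?_
    · intro i p
      refine smooth_mem _ _ s hsk _ (fun i => ?_) _
      by_cases hvi : v i = 0
      · rw [hvi, mul_zero]; exact zero_mem _
      · rcases hy i hvi with h1 | ⟨j, hj⟩
        · rw [h1, hu, inv_mul_cancel₀ hl₀]; exact one_mem _
        · refine IntermediateField.subset_adjoin _ _ ⟨j, ?_⟩
          simp only [hj]
    · have h1 : (fun (i : Fin (t + 1)) (p : P) => g (c i) p (fun i => u * v i)) =
          (fun _ : Fin (t + 1) => Units.mk0 (u ^ (d - 1)) (pow_ne_zero _ hu0)) •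
            (fun (i : Fin (t + 1)) (p : P) => g (c i) p v) := by
        funext i p
        rw [hgh]
        rfl
      rw [h1]
      exact hli.units_smul _
    · intro i
      have h2 := hcon (c i) (hc i)
      calc ∑ p, (a₀ p : ℂ) * g (c i) p (fun i => u * v i)
          = u ^ (d - 1) * ∑ p, (a₀ p : ℂ) * g (c i) p v := by
            rw [Finset.mul_sum]
            refine Finset.sum_congr rfl fun p _ => ?_
            rw [hgh]; ring
        _ = 0 := by rw [h2, mul_zero]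
  -- compactness
  have claim2 : ∀ T ∈ TT, ∀ᶠ a in nhds a₀, ∀ v ∈ {v : Fin (m + 1) → ℂ | ‖v‖ = 1 ∧ ∀ t ∈ T, v t = 0},
      ∃ k, k ∉ T ∧ ∑ p, ((a p : ℝ) : ℂ) * g k p v ≠ 0 := by
    intro T hT
    have hK : IsCompact {v : Fin (m + 1) → ℂ | ‖v‖ = 1 ∧ ∀ t ∈ T, v t = 0} := by
      have h1 : {v : Fin (m + 1) → ℂ | ‖v‖ = 1 ∧ ∀ t ∈ T, v t = 0} =
          Metric.sphere 0 1 ∩ ⋂ t ∈ T, {v : Fin (m + 1) → ℂ | v t = 0} := by
        ext v; simp
      rw [h1]
      refine (isCompact_sphere _ _).inter_right (isClosed_biInter fun t _ => ?_)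
      exact isClosed_eq (continuous_apply t) continuous_const
    refine hK.eventually_forall_of_forall_eventually fun v hv => ?_
    have hv0 : v ≠ 0 := by
      intro h0
      have := hv.1
      rw [h0, norm_zero] at this
      exact zero_ne_one this
    obtain ⟨k, hkT, hk0⟩ := claim1 T hT v hv0 hv.2
    have hcont : Continuous fun z : (P → ℝ) × (Fin (m + 1) → ℂ) =>
        ∑ p, ((z.1 p : ℝ) : ℂ) * g k p z.2 := by
      refine continuous_finsetSum _ fun p _ => ?_
      exact (Complex.continuous_ofReal.comp ((continuous_apply p).comp continuous_fst)).mul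
        ((hgc k p).comp continuous_snd)
    have h2 := hcont.continuousAt (x := (a₀, v)).eventually_ne hk0
    exact h2.mono fun z hz => ⟨k, hkT, hz⟩
  have claim3 : ∀ᶠ a in nhds a₀, ∀ T ∈ TT,
      ∀ v ∈ {v : Fin (m + 1) → ℂ | ‖v‖ = 1 ∧ ∀ t ∈ T, v t = 0},
      ∃ k, k ∉ T ∧ ∑ p, ((a p : ℝ) : ℂ) * g k p v ≠ 0 :=
    (Filter.eventually_all_finite (Set.toFinite TT)).2 claim2
  have claim4 : ∀ᶠ a in nhds a₀, ∀ p, a p ≠ 0 := by
    refine Filter.eventually_all.2 fun p => ?_
    have h1 : a₀ p ≠ 0 := by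
      have := ha₀.ne_zero p
      simpa using this
    exact (continuous_apply p).continuousAt.eventually_ne h1
  have hdense : DenseRange (Pi.map fun (_ : P) (q : ℚ) => (q : ℝ)) :=
    DenseRange.piMap fun _ => Rat.denseRange_cast
  obtain ⟨q, hq⟩ := hdense.mem_nhds (claim3.and claim4)
  obtain ⟨hq1, hq2⟩ := hq
  obtain ⟨D, hD, b, hb⟩ := smooth_int P q
  have hbC : ∀ p, (b p : ℂ) = D * (q p : ℂ) := by
    intro p
    have := congrArg (fun x : ℚ => (x : ℂ)) (hb p)
    push_cast at this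
    exact this
  refine ⟨b, fun p hp => ?_, fun T hT x hxT hx => ?_⟩
  · have h1 := hb p
    rw [hp] at h1
    have h2 : (q p : ℝ) ≠ 0 := hq2 p
    have h3 : q p ≠ 0 := by exact_mod_cast h2
    have h4 : (D : ℚ) * q p ≠ 0 := mul_ne_zero (by exact_mod_cast hD) h3
    exact h4 (by rw [← h1]; simp)
  · by_contra hx0
    have hn : ‖x‖ ≠ 0 := norm_ne_zero_iff.2 hx0
    set c : ℂ := ((‖x‖⁻¹ : ℝ) : ℂ) with hc
    have hv : ‖fun i => c * x i‖ = 1 := by
      have h1 : (fun i => c * x i) = c • x := rfl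
      rw [h1, norm_smul, hc, Complex.norm_real, norm_inv, norm_norm, inv_mul_cancel₀ hn]
    obtain ⟨k, hkT, hk0⟩ := hq1 T hT (fun i => c * x i) ⟨hv, fun t ht => by
      simp only [hxT t ht, mul_zero]⟩
    apply hk0
    have h2 := hx k hkT
    have h3 : (pderiv k (∑ p, C (b p : 𝓞 F₀) * φ p)).eval₂ s x = ∑ p, (b p : ℂ) * g k p x := by
      rw [map_sum, eval₂_sum]
      refine Finset.sum_congr rfl fun p _ => ?_
      rw [pderiv_C_mul, eval₂_mul, eval₂_C, map_intCast]
    rw [← hs, h3] at h2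
    have h4 : (D : ℂ) * ∑ p, (q p : ℂ) * g k p x = 0 := by
      rw [← h2, Finset.mul_sum]
      refine Finset.sum_congr rfl fun p _ => ?_
      rw [hbC]; ring
    have h5 : ∑ p, (q p : ℂ) * g k p x = 0 := by
      rcases mul_eq_zero.1 h4 with h6 | h6
      · exact absurd (by exact_mod_cast h6) hD
      · exact h6
    calc ∑ p, (((Pi.map (fun (_ : P) (q : ℚ) => (q : ℝ)) q) p : ℝ) : ℂ) * g k p (fun i => c * x i)
        = c ^ (d - 1) * ∑ p, (q p : ℂ) * g k p x := by
          rw [Finset.mul_sum]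
          refine Finset.sum_congr rfl fun p _ => ?_
          rw [hgh]
          simp only [Pi.map_apply]
          push_cast
          ring
      _ = 0 := by rw [h5, mul_zero]

end Pool.Agent.Work.MP_e97a4d_nt.Hyp
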