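import Pool.Agent.Work.MP_e97a4d_nt.Hyp.ClaimA
import Pool.Agent.Work.MP_e97a4d_nt.Hyp.Rank
import Pool.Agent.Work.MP_e97a4d_nt.Hyp.Smooth

set_option autoImplicit false

noncomputable section

namespace Pool.Agent.Work.MP_e97a4d_nt.Hyp

open MvPolynomial NumberField

/-- the first coordinates -/
def low {M : ℕ} {K : Type} (u : Fin (2 * M + 1 + 1) → K) : Fin (M + 1) → K :=
  fun k => u (Fin.castLE (by omega) k)

/-- the last coordinates -/
def thmA_y (M : ℕ) (k : Fin (M + 1)) : Fin (2 * M + 1 + 1) := ⟨M + 1 + k, by omega⟩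

theorem thmA_y_val (M : ℕ) (k : Fin (M + 1)) : (thmA_y M k : ℕ) = M + 1 + k := rfl

/-- the forms cutting out the variety -/
def thmA_G {R : Type} [CommRing R] (M e : ℕ) (E : Finset (MvPolynomial (Fin (M + 1)) R)) :
    {g // g ∈ E} ⊕ (Fin (M + 1) × Fin (2 * M + 1 + 1)) → MvPolynomial (Fin (2 * M + 1 + 1)) R
  | Sum.inl g => rename (Fin.castLE (by omega)) g.1
  | Sum.inr q => X (thmA_y M q.1) * X q.2 ^ (e - 1)

theorem thmA_G_homog {R : Type} [CommRing R] (M e : ℕ) (he : 1 ≤ e)
    (E : Finset (MvPolynomial (Fin (M + 1)) R)) (hE : ∀ g ∈ E, g.IsHomogeneous e)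
    (i : {g // g ∈ E} ⊕ (Fin (M + 1) × Fin (2 * M + 1 + 1))) : (thmA_G M e E i).IsHomogeneous e := by
  rcases i with g | q
  · exact (hE g.1 g.2).rename_isHomogeneous
  · have h1 := (isHomogeneous_X R (thmA_y M q.1)).mul (isHomogeneous_X_pow q.2 (e - 1))
    have h2 : 1 + (e - 1) = e := by omega
    rw [h2] at h1
    exact h1

theorem thmA_linPoly_homog {R : Type} [CommRing R] {n : ℕ} (L : Fin n → R) :
    (linPoly L).IsHomogeneous 1 :=
  IsHomogeneous.sum _ _ _ fun k _ => isHomogeneous_C_mul_X _ _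

theorem thmA_linPoly_map {R S : Type} [CommRing R] [CommRing S] (φ : R →+* S) {n : ℕ}
    (L : Fin n → R) : map φ (linPoly L) = linPoly fun k => φ (L k) := by
  unfold linPoly
  rw [map_sum]
  refine Finset.sum_congr rfl fun k _ => ?_
  rw [map_mul, map_C, map_X]

theorem thmA_pderiv {R S : Type} [CommRing R] [CommRing S] (φ : R →+* S) {n : ℕ} (k : Fin n)
    (p : MvPolynomial (Fin n) R) (v : Fin n → S) :
    (pderiv k p).eval₂ φ v = eval v (pderiv k (map φ p)) := by
  rw [pderiv_map, eval_map]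

/-- the rank condition -/
theorem thmA_rank {R : Type} [CommRing R] (φ : R →+* ℂ) (M e N : ℕ) (he : 1 ≤ e) (hN : 0 < N)
    (E : Finset (MvPolynomial (Fin (M + 1)) R)) (hE : ∀ g ∈ E, g.IsHomogeneous e) (J : ℕ)
    (hJ : 2 * (2 * M + 1) + 1 ≤ J)
    (L : ({g // g ∈ E} ⊕ (Fin (M + 1) × Fin (2 * M + 1 + 1))) × Fin J → Fin (2 * M + 1 + 1) → R)
    (hL : Gen fun p k => φ (L p k)) (T : Set (Fin (2 * M + 1 + 1)))
    (hT : ∀ t ∈ T, (t : ℕ) ≤ M) (v : Fin (2 * M + 1 + 1) → ℂ) (hv : v ≠ 0)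
    (hvT : ∀ t ∈ T, v t = 0) :
    ∃ (t : ℕ) (y : Fin t → Fin (2 * M + 1 + 1)) (l₀ : Fin (2 * M + 1 + 1)), v l₀ ≠ 0 ∧
        (∀ k, v k ≠ 0 → k = l₀ ∨ k ∈ Set.range y) ∧
        ∃ c : Fin (t + 1) → Fin (2 * M + 1 + 1), (∀ k, c k ∉ T) ∧
          LinearIndependent ℂ fun (k : Fin (t + 1))
            (p : ({g // g ∈ E} ⊕ (Fin (M + 1) × Fin (2 * M + 1 + 1))) × Fin J) =>
            (pderiv (c k) (thmA_G M e E p.1 * linPoly (L p) ^ N)).eval₂ φ v := by
  classical
  have hmap : ∀ p : ({g // g ∈ E} ⊕ (Fin (M + 1) × Fin (2 * M + 1 + 1))) × Fin J,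
      ∀ k, (pderiv k (thmA_G M e E p.1 * linPoly (L p) ^ N)).eval₂ φ v =
        eval v (pderiv k (map φ (thmA_G M e E p.1) * linPoly (fun k => φ (L p k)) ^ N)) := by
    intro p k
    rw [thmA_pderiv, map_mul, map_pow, thmA_linPoly_map]
  simp only [hmap]
  have hGh : ∀ i, (map φ (thmA_G M e E i)).IsHomogeneous e := fun i =>
    (thmA_G_homog M e he E hE i).map φ
  by_cases hcase : ∃ i, eval v (map φ (thmA_G M e E i)) ≠ 0
  · obtain ⟨i, hi⟩ := hcase
    obtain ⟨l₀, hl₀⟩ : ∃ l, v l ≠ 0 := Function.ne_iff.mp hv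
    have hl₀T : l₀ ∉ T := fun h => hl₀ (hvT l₀ h)
    set A : Finset (Fin (2 * M + 1 + 1)) := Finset.univ.filter fun k => k ∉ T ∧ k ≠ l₀ with hA
    set B : Finset (Fin (2 * M + 1 + 1)) := Finset.univ.filter fun k => k ∉ T with hB
    have hBA : B = insert l₀ A := by
      ext k
      simp only [hA, hB, Finset.mem_insert, Finset.mem_filter, Finset.mem_univ, true_and]
      constructor
      · intro h
        by_cases hk : k = l₀
        · exact Or.inl hk
        · exact Or.inr ⟨h, hk⟩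
      · rintro (rfl | h)
        · exact hl₀T
        · exact h.1
    have hBc : B.card = A.card + 1 := by
      rw [hBA, Finset.card_insert_of_notMem]
      simp [hA]
    refine ⟨A.card, fun s => A.orderEmbOfFin rfl s, l₀, hl₀, ?_, fun s => B.orderEmbOfFin hBc s, ?_, ?_⟩
    · intro k hk
      by_cases h : k = l₀
      · exact Or.inl h
      · right
        have hkA : k ∈ A := by
          rw [hA, Finset.mem_filter]
          exact ⟨Finset.mem_univ _, fun h' => hk (hvT k h'), h⟩
        have h2 : k ∈ Set.range (A.orderEmbOfFin rfl) := by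
          rw [Finset.range_orderEmbOfFin]
          exact hkA
        exact h2
    · intro k
      have h2 : B.orderEmbOfFin hBc k ∈ B := Finset.orderEmbOfFin_mem B hBc k
      exact (Finset.mem_filter.mp h2).2
    · have h1 := rank_out (n := 2 * M + 1) (J := J) (e := e) (N := N) hJ (map φ (thmA_G M e E i))
        (hGh i) (fun j k => φ (L (i, j) k)) (by
          intro p hp
          exact hL.g1 (fun s => (i, p s)) (fun x y h => hp (Prod.mk.inj h).2)) hN v hv hi
      have h2 := h1.comp (fun s => B.orderEmbOfFin hBc s) (B.orderEmbOfFin hBc).injective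
      refine LinearIndependent.of_comp (LinearMap.funLeft ℂ ℂ (fun j : Fin J => (i, j))) ?_
      exact h2
  · push Not at hcase
    have hy : ∀ k : Fin (M + 1), v (thmA_y M k) = 0 := by
      intro k
      obtain ⟨l, hl⟩ : ∃ l, v l ≠ 0 := Function.ne_iff.mp hv
      have h1 := hcase (Sum.inr (k, l))
      simp only [thmA_G, map_mul, map_pow, map_X, eval_X] at h1
      rcases mul_eq_zero.mp h1 with h2 | h2
      · exact h2
      · exact absurd h2 (pow_ne_zero _ hl)
    obtain ⟨l₀, hl₀⟩ : ∃ l, v l ≠ 0 := Function.ne_iff.mp hv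
    have hbig : ∀ k : Fin (2 * M + 1 + 1), M < (k : ℕ) → v k = 0 := by
      intro k hk
      have h1 : k = thmA_y M ⟨(k : ℕ) - (M + 1), by omega⟩ := by
        apply Fin.ext
        rw [thmA_y_val]
        simp only
        omega
      rw [h1]
      exact hy _
    have hl₀M : (l₀ : ℕ) ≤ M := by
      by_contra h
      exact hl₀ (hbig l₀ (by omega))
    set A : Finset (Fin (2 * M + 1 + 1)) := Finset.univ.filter fun k => (k : ℕ) ≤ M ∧ k ≠ l₀ with hA
    have hAc : A.card = M := by
      have h1 : insert l₀ A = Finset.univ.image (Fin.castLE (by omega) : Fin (M + 1) →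
          Fin (2 * M + 1 + 1)) := by
        ext k
        simp only [hA, Finset.mem_insert, Finset.mem_filter, Finset.mem_univ, true_and,
          Finset.mem_image]
        constructor
        · rintro (rfl | h)
          · exact ⟨⟨k, by omega⟩, rfl⟩
          · exact ⟨⟨k, by omega⟩, rfl⟩
        · rintro ⟨k', rfl⟩
          by_cases h : (Fin.castLE (by omega) k' : Fin (2 * M + 1 + 1)) = l₀
          · exact Or.inl h
          · refine Or.inr ⟨?_, h⟩
            have := k'.2
            simp only [Fin.val_castLE]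
            omega
      have h2 : (insert l₀ A).card = M + 1 := by
        rw [h1, Finset.card_image_of_injective _ (Fin.castLE_injective _), Finset.card_univ,
          Fintype.card_fin]
      rw [Finset.card_insert_of_notMem (by simp [hA])] at h2
      omega
    refine ⟨M, fun s => A.orderEmbOfFin hAc s, l₀, hl₀, ?_, thmA_y M, ?_, ?_⟩
    · intro k hk
      by_cases h : k = l₀
      · exact Or.inl h
      · right
        have hkA : k ∈ A := by
          rw [hA, Finset.mem_filter]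
          refine ⟨Finset.mem_univ _, ?_, h⟩
          by_contra h'
          exact hk (hbig k (by omega))
        have h2 : k ∈ Set.range (A.orderEmbOfFin hAc) := by
          rw [Finset.range_orderEmbOfFin]
          exact hkA
        exact h2
    · intro k hk
      have := hT _ hk
      rw [thmA_y_val] at this
      omega
    · -- a form which does not vanish at v
      have hj : ∀ k : Fin (M + 1), ∃ j : Fin J,
          ∑ l, φ (L (Sum.inr (k, l₀), j) l) * v l ≠ 0 := by
        intro k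
        by_contra hcon
        push Not at hcon
        have h1 := hL.card_zero v hv
          (Finset.univ.image fun j : Fin J =>
            ((Sum.inr (k, l₀), j) : ({g // g ∈ E} ⊕ (Fin (M + 1) × Fin (2 * M + 1 + 1))) × Fin J)) (by
            intro p hp
            rw [Finset.mem_image] at hp
            obtain ⟨j, -, rfl⟩ := hp
            exact hcon j)
        rw [Finset.card_image_of_injective _ (fun x y h => (Prod.mk.inj h).2), Finset.card_univ,
          Fintype.card_fin] at h1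
        omega
      choose j hj using hj
      rw [Fintype.linearIndependent_iff]
      intro g hg k'
      have h1 := congrFun hg (Sum.inr (k', l₀), j k')
      simp only [Finset.sum_apply, Pi.smul_apply, smul_eq_mul, Pi.zero_apply] at h1
      have h2 : ∀ k, eval v (pderiv (thmA_y M k) (map φ (thmA_G M e E (Sum.inr (k', l₀))) *
          linPoly (fun l => φ (L (Sum.inr (k', l₀), j k') l)) ^ N)) =
          if k = k' then (∑ l, φ (L (Sum.inr (k', l₀), j k') l) * v l) ^ N * v l₀ ^ (e - 1)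
          else 0 := by
        intro k
        rw [rank_on (n := 2 * M + 1) _ _ v (hcase _)]
        have h3 : thmA_y M k ≠ l₀ := by
          intro h
          have := congrArg Fin.val h
          rw [thmA_y_val] at this
          omega
        have h4 : eval v (pderiv (thmA_y M k) (map φ (thmA_G M e E (Sum.inr (k', l₀))))) =
            if k = k' then v l₀ ^ (e - 1) else 0 := by
          simp only [thmA_G, map_mul, map_pow, map_X, Derivation.leibniz, Derivation.leibniz_pow,
            pderiv_X_of_ne h3.symm, smul_zero, zero_add, pderiv_X]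
          by_cases hk : k = k'
          · subst hk
            simp
          · have h5 : thmA_y M k' ≠ thmA_y M k := by
              intro h
              have := congrArg Fin.val h
              rw [thmA_y_val, thmA_y_val] at this
              exact hk (Fin.ext (by omega))
            simp [hk, h5]
        rw [h4]
        by_cases hk : k = k'
        · simp [hk]
        · simp [hk]
      simp only [h2] at h1
      rw [Finset.sum_eq_single k'] at h1
      · rw [if_pos rfl] at h1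
        rcases mul_eq_zero.mp h1 with h6 | h6
        · exact h6
        · exact absurd h6 (mul_ne_zero (pow_ne_zero _ (hj k')) (pow_ne_zero _ hl₀))
      · intro k _ hk
        rw [if_neg hk, mul_zero]
      · intro h
        exact absurd (Finset.mem_univ _) h

/-- Every projective variety lies in a smooth hypersurface all of whose nonconstant entire curves lie in
the variety. -/
theorem thmA0 {F₀ : Type} [Field F₀] [NumberField F₀] (σ : F₀ →+* ℂ) (D₀ M e : ℕ) (he : 1 ≤ e)
    (E : Finset (MvPolynomial (Fin (M + 1)) (𝓞 F₀))) (hE : ∀ g ∈ E, g.IsHomogeneous e) :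
    ∃ (d : ℕ) (f : MvPolynomial (Fin (2 * M + 1 + 1)) (𝓞 F₀)) (ι : Type) (_ : Fintype ι)
      (G : ι → MvPolynomial (Fin (2 * M + 1 + 1)) (𝓞 F₀)),
      D₀ ≤ d ∧ f.IsHomogeneous d ∧
      (∀ T : Set (Fin (2 * M + 1 + 1)), (∀ t ∈ T, (t : ℕ) ≤ M) → SmoothOn σ f T) ∧
      (∀ i, (G i).IsHomogeneous e) ∧
      (∀ (K : Type) [Field K] (ρ : 𝓞 F₀ →+* K) (u : Fin (2 * M + 1 + 1) → K), u ≠ 0 →
        ((∀ i, (G i).eval₂ ρ u = 0) ↔
          (∀ k : Fin (2 * M + 1 + 1), M < (k : ℕ) → u k = 0) ∧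
            ∀ g ∈ E, g.eval₂ ρ (low u) = 0)) ∧
      (∀ (K : Type) [Field K] (ρ : 𝓞 F₀ →+* K) (u : Fin (2 * M + 1 + 1) → K),
        (∀ i, (G i).eval₂ ρ u = 0) → f.eval₂ ρ u = 0) ∧
      (∀ ξ : Fin (2 * M + 1 + 1) → Mero, ¬ RatioConst ξ → f.eval₂ (rhoM σ) ξ = 0 →
        ∀ i, (G i).eval₂ (rhoM σ) ξ = 0) := by
  classical
  set ι := {g // g ∈ E} ⊕ (Fin (M + 1) × Fin (2 * M + 1 + 1)) with hι
  set J := (2 * M + 1 + 1) ^ 3 + (2 * M + 1) + 2 with hJ
  set σ' : 𝓞 F₀ →+* ℂ := σ.comp (algebraMap (𝓞 F₀) F₀) with hσ'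
  obtain ⟨N₀, hN₀⟩ := claimA (2 * M + 1) e J ι le_rfl
  set N := N₀ + D₀ + 1 with hN
  obtain ⟨L₀, hL₀⟩ := exists_gen (ι × Fin J) (2 * M + 1 + 1)
  have hinj : Function.Injective σ' := by
    rw [hσ']
    exact σ.injective.comp (FaithfulSMul.algebraMap_injective (𝓞 F₀) F₀)
  have hchar : CharZero (𝓞 F₀) := inferInstance
  set L : ι × Fin J → Fin (2 * M + 1 + 1) → 𝓞 F₀ := fun p k => ((L₀ p k : ℤ) : 𝓞 F₀) with hL
  have hGen : Gen fun p k => σ' (L p k) := by
    have h1 := hL₀.map (σ'.comp (Int.castRingHom (𝓞 F₀)))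
      (hinj.comp Int.cast_injective)
    exact h1
  have hJ' : 2 * (2 * M + 1) + 1 ≤ J := by
    have h1 : 2 * M + 1 + 1 ≤ (2 * M + 1 + 1) ^ 3 := Nat.le_self_pow (by norm_num) _
    omega
  obtain ⟨a, ha, hsm⟩ := exists_smooth σ (P := ι × Fin J)
    (fun p => thmA_G M e E p.1 * linPoly (L p) ^ N) (e + N)
    (fun p => by
      have h1 := (thmA_G_homog M e he E hE p.1).mul ((thmA_linPoly_homog (L p)).pow N)
      rwa [one_mul] at h1)
    {T | ∀ t ∈ T, (t : ℕ) ≤ M}
    (fun T hT v hv hvT => thmA_rank σ' M e N he (by omega) E hE J hJ' L hGen T hT v hv hvT)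
  have hev : ∀ (K : Type) [Field K] (ρ : 𝓞 F₀ →+* K) (u : Fin (2 * M + 1 + 1) → K),
      (∑ p : ι × Fin J, C (a p : 𝓞 F₀) * (thmA_G M e E p.1 * linPoly (L p) ^ N)).eval₂ ρ u =
        ∑ p : ι × Fin J, ρ (a p : 𝓞 F₀) * (thmA_G M e E p.1).eval₂ ρ u *
          (∑ k, ρ (L p k) * u k) ^ N := by
    intro K _ ρ u
    rw [eval₂_sum]
    refine Finset.sum_congr rfl fun p _ => ?_
    rw [eval₂_mul, eval₂_mul, eval₂_C, eval₂_pow, linPoly, eval₂_sum, mul_assoc]
    simp only [eval₂_mul, eval₂_C, eval₂_X]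
  refine ⟨e + N, ∑ p : ι × Fin J, C (a p : 𝓞 F₀) * (thmA_G M e E p.1 * linPoly (L p) ^ N), ι,
    inferInstance, thmA_G M e E, by omega, ?_, hsm, thmA_G_homog M e he E hE, ?_, ?_, ?_⟩
  · refine IsHomogeneous.sum _ _ _ fun p _ => ?_
    have h1 := (thmA_G_homog M e he E hE p.1).mul ((thmA_linPoly_homog (L p)).pow N)
    rw [one_mul] at h1
    have h2 := (isHomogeneous_C (Fin (2 * M + 1 + 1)) ((a p : ℤ) : 𝓞 F₀)).mul h1
    rwa [zero_add] at h2
  · intro K _ ρ u hu
    constructor
    · intro h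
      refine ⟨fun k hk => ?_, fun g hg => ?_⟩
      · obtain ⟨l, hl⟩ : ∃ l, u l ≠ 0 := Function.ne_iff.mp hu
        have h1 := h (Sum.inr (⟨(k : ℕ) - (M + 1), by omega⟩, l))
        have h2 : thmA_y M ⟨(k : ℕ) - (M + 1), by omega⟩ = k := by
          apply Fin.ext
          rw [thmA_y_val]
          simp only
          omega
        simp only [thmA_G, eval₂_mul, eval₂_pow, eval₂_X, h2] at h1
        exact (mul_eq_zero.mp h1).resolve_right (pow_ne_zero _ hl)
      · have h1 := h (Sum.inl ⟨g, hg⟩)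
        simp only [thmA_G, eval₂_rename] at h1
        exact h1
    · rintro ⟨h1, h2⟩ (g | q)
      · simp only [thmA_G, eval₂_rename]
        exact h2 g.1 g.2
      · simp only [thmA_G, eval₂_mul, eval₂_X]
        rw [h1 (thmA_y M q.1) (by rw [thmA_y_val]; omega), zero_mul]
  · intro K _ ρ u h
    rw [hev]
    refine Finset.sum_eq_zero fun p _ => ?_
    rw [h p.1, mul_zero, zero_mul]
  · intro ξ hξ hf i
    rw [hev] at hf
    have hr : ∀ p : MvPolynomial (Fin (2 * M + 1 + 1)) (𝓞 F₀),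
        p.eval₂ (rhoM σ) ξ = MvPolynomial.aeval ξ (map σ' p) := by
      intro p
      rw [aeval_def, eval₂_map]
      rfl
    rw [hr]
    refine hN₀ N (by omega) (fun i => map σ' (thmA_G M e E i))
      (fun i => (thmA_G_homog M e he E hE i).map σ') (fun p k => σ' (L p k)) hGen
      (fun p => σ' (a p : 𝓞 F₀)) (fun p => ?_) ξ hξ ?_ i
    · intro h
      have h1 := (map_eq_zero_iff σ' hinj).mp h
      exact ha p (by exact_mod_cast h1)
    · rw [← hf]
      refine Finset.sum_congr rfl fun p _ => ?_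
      rw [hr]
      unfold lin
      congr 2

/-- `thmA0` with the normalisation `u 0 = 1`. -/
theorem thmA {F₀ : Type} [Field F₀] [NumberField F₀] (σ : F₀ →+* ℂ) (D₀ M e : ℕ) (he : 1 ≤ e)
    (E : Finset (MvPolynomial (Fin (M + 1)) (𝓞 F₀))) (hE : ∀ g ∈ E, g.IsHomogeneous e) :
    ∃ (d : ℕ) (f : MvPolynomial (Fin (2 * M + 1 + 1)) (𝓞 F₀)) (ι : Type) (_ : Fintype ι)
      (G : ι → MvPolynomial (Fin (2 * M + 1 + 1)) (𝓞 F₀)),
      D₀ ≤ d ∧ f.IsHomogeneous d ∧
      (∀ T : Set (Fin (2 * M + 1 + 1)), (∀ t ∈ T, (t : ℕ) ≤ M) → SmoothOn σ f T) ∧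
      (∀ i, (G i).IsHomogeneous e) ∧
      (∀ (K : Type) [Field K] (ρ : 𝓞 F₀ →+* K) (u : Fin (2 * M + 1 + 1) → K), u 0 = 1 →
        ((∀ i, (G i).eval₂ ρ u = 0) ↔
          (∀ k : Fin (2 * M + 1 + 1), M < (k : ℕ) → u k = 0) ∧
            ∀ g ∈ E, g.eval₂ ρ (low u) = 0)) ∧
      (∀ (K : Type) [Field K] (ρ : 𝓞 F₀ →+* K) (u : Fin (2 * M + 1 + 1) → K),
        (∀ i, (G i).eval₂ ρ u = 0) → f.eval₂ ρ u = 0) ∧
      (∀ ξ : Fin (2 * M + 1 + 1) → Mero, ¬ RatioConst ξ → f.eval₂ (rhoM σ) ξ = 0 →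
        ∀ i, (G i).eval₂ (rhoM σ) ξ = 0) := by
  obtain ⟨d, f, ι, hι, G, h1, h2, h3, h4, h5, h6, h7⟩ := thmA0 σ D₀ M e he E hE
  refine ⟨d, f, ι, hι, G, h1, h2, h3, h4, fun K _ ρ u hu => h5 K ρ u ?_, h6, h7⟩
  intro h
  rw [h] at hu
  exact zero_ne_one hu

end Pool.Agent.Work.MP_e97a4d_nt.Hyp
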