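import Pool.Agent.Work.MP_e97a4d_nt.Hyp.Mero
import Pool.Agent.Work.MP_e97a4d_nt.Sep.Defs

/-!
Systems of equations in coordinates, their points with values in a field with a set of valuation rings,
and the corresponding points of schemes.
-/

set_option autoImplicit false

noncomputable section

namespace Pool.Agent.Work.MP_e97a4d_nt.Hyp

open AlgebraicGeometry CategoryTheory IsDedekindDomain NumberField
open Pool.Agent.Work.MP_e97a4d_nt

/-- Projective coordinates `x_0, ..., x_m`, a number `s <= m` and a finite set of equations, always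
evaluated at tuples with `x_0 = 1`. -/
structure Sys (F₀ : Type) [Field F₀] where
  m : ℕ
  s : ℕ
  hs : s ≤ m
  E : Finset (MvPolynomial (Fin (m + 1)) (𝓞 F₀))

variable {F₀ : Type} [Field F₀]

/-- The points of the system with values in the field `K` (an algebra over `𝓞 F₀` by `ρ`): the tuples
`u` with `u_0 = 1` satisfying the equations such that for every valuation ring of `𝒱` the maximum of the
`|u_j|` is attained for some `j <= s`. -/
def CPts (S : Sys F₀) {K : Type} [Field K] (ρ : 𝓞 F₀ →+* K) (𝒱 : Set (ValuationSubring K)) :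
    Set (Fin (S.m + 1) → K) :=
  {u | u 0 = 1 ∧ (∀ e ∈ S.E, e.eval₂ ρ u = 0) ∧
    ∀ O ∈ 𝒱, ∀ j, ∃ k : Fin (S.m + 1), (k : ℕ) ≤ S.s ∧ O.valuation (u j) ≤ O.valuation (u k)}

/-- The point `x` of `V` with values in the field `K` extends over the valuation ring `O` of `K`. -/
def HasExt {V : Scheme.{0}} {K : Type} [Field K] (O : ValuationSubring K)
    (x : Spec (CommRingCat.of K) ⟶ V) : Prop :=
  ∃ y : Spec (CommRingCat.of O) ⟶ V, Spec.map (CommRingCat.ofHom (algebraMap O K)) ≫ y = x

/-- The points of `V` with values in `K` (over `ρ`), not in `V'`, which extend over all valuation rings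
in `𝒱`. -/
def Pts {V V' : Scheme.{0}} (π : V ⟶ Sep.SpO F₀) (i : V' ⟶ V) {K : Type} [Field K]
    (ρ : 𝓞 F₀ →+* K) (𝒱 : Set (ValuationSubring K)) : Set (Spec (CommRingCat.of K) ⟶ V) :=
  {x | x ≫ π = Spec.map (CommRingCat.ofHom ρ) ∧ x (⊥ : PrimeSpectrum K) ∉ Set.range i ∧
    ∀ O ∈ 𝒱, HasExt O x}

/-- `(V, V')` is described by the family `S` of systems: for every field `K` with a set of valuation
rings the points of `V` outside `V'` are in bijection with the points of the systems (every point of `V`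
may come from several systems of the family), compatibly with subfields. -/
def Describes {V V' : Scheme.{0}} (π : V ⟶ Sep.SpO F₀) (i : V' ⟶ V) {L : Type} (S : L → Sys F₀) : Prop :=
  ∀ (K : Type) [Field K] (ρ : 𝓞 F₀ →+* K) (𝒱 : Set (ValuationSubring K)),
    (∀ O ∈ 𝒱, ∀ a, ρ a ∈ O) →
    ∃ θ : ∀ l, CPts (S l) ρ 𝒱 → (Spec (CommRingCat.of K) ⟶ V),
      (∀ l, Function.Injective (θ l)) ∧
      Pts π i ρ 𝒱 = ⋃ l, Set.range (θ l) ∧
      ∀ (k : Type) [Field k] (τ : k →+* K) (ρ₀ : 𝓞 F₀ →+* k), ρ = τ.comp ρ₀ →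
        ∀ (l : L) (u : CPts (S l) ρ 𝒱),
          ((∃ p : Spec (CommRingCat.of k) ⟶ V, Spec.map (CommRingCat.ofHom τ) ≫ p = θ l u) ↔
            ∀ j, u.1 j ∈ Set.range τ)

/-- the field of meromorphic functions as an algebra over `𝓞 F₀` -/
def rhoM (σ : F₀ →+* ℂ) : 𝓞 F₀ →+* Mero :=
  (algebraMap ℂ Mero).comp (σ.comp (algebraMap (𝓞 F₀) F₀))

/-- the field `F` as an algebra over `𝓞 F₀` -/
def rhoF (F₀ : Type) [Field F₀] (F : Type) [Field F] [Algebra F₀ F] : 𝓞 F₀ →+* F :=
  (algebraMap F₀ F).comp (algebraMap (𝓞 F₀) F₀)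

/-- the valuation rings of the field of meromorphic functions -/
def VM : Set (ValuationSubring Mero) := Set.range Mz

/-- the valuation rings of a number field, outside `S` -/
def VF (F : Type) [Field F] [NumberField F] (S : Finset (HeightOneSpectrum (𝓞 F))) :
    Set (ValuationSubring F) :=
  (fun v : HeightOneSpectrum (𝓞 F) => (v.valuation F).valuationSubring) '' {v | v ∉ S}

/-- condition (i) for a system -/
def CurveS (σ : F₀ →+* ℂ) (S : Sys F₀) : Prop :=
  ∀ u ∈ CPts S (rhoM σ) VM, ∀ j, u j ∈ Set.range (algebraMap ℂ Mero)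

/-- condition (ii) for a system -/
def PointS (S : Sys F₀) : Prop :=
  ∀ (F : Type) [Field F] [NumberField F] [Algebra F₀ F] (T : Finset (HeightOneSpectrum (𝓞 F))),
    (CPts S (rhoF F₀ F) (VF F T)).Finite

/-- The hypersurface `f = 0` is smooth along the coordinate subspace `x_t = 0` (`t ∈ T`): the
first derivatives in the other directions have no common zero there. -/
def SmoothOn (σ : F₀ →+* ℂ) {m : ℕ} (f : MvPolynomial (Fin (m + 1)) (𝓞 F₀)) (T : Set (Fin (m + 1))) :
    Prop :=
  ∀ x : Fin (m + 1) → ℂ, (∀ t ∈ T, x t = 0) →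
    (∀ k ∉ T, (MvPolynomial.pderiv k f).eval₂ (σ.comp (algebraMap (𝓞 F₀) F₀)) x = 0) → x = 0

/-- all ratios of the tuple are constant -/
def RatioConst {n : Type} (ξ : n → Mero) : Prop :=
  ∃ (g : Mero) (c : n → ℂ), ∀ k, ξ k = c k • g

end Pool.Agent.Work.MP_e97a4d_nt.Hyp
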