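import Pool.Agent.Work.MP_e97a4d_nt.Hyp.IntFin

set_option autoImplicit false

noncomputable section

namespace Pool.Agent.Work.MP_e97a4d_nt.Hyp

open AlgebraicGeometry CategoryTheory CategoryTheory.Limits IsDedekindDomain NumberField
open Pool.Agent.Work.MP_e97a4d_nt

variable {F₀ : Type} [Field F₀] {V V' : Scheme.{0}}
variable {F : Type} [Field F] [NumberField F] {S : Finset (HeightOneSpectrum (𝓞 F))}

/-- lifting to a principal open subscheme -/
def spLift (s : SInt F S) {T : Scheme.{0}} (t : T ⟶ Spec (CommRingCat.of (SInt F S)))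
    (h : Set.range t ⊆ (PrimeSpectrum.basicOpen s : Set (PrimeSpectrum (SInt F S)))) :
    T ⟶ Spec (CommRingCat.of (Localization.Away s)) :=
  IsOpenImmersion.lift (spU s) t (by rw [range_spU]; exact h)

theorem spLift_fac (s : SInt F S) {T : Scheme.{0}} (t : T ⟶ Spec (CommRingCat.of (SInt F S)))
    (h : Set.range t ⊆ (PrimeSpectrum.basicOpen s : Set (PrimeSpectrum (SInt F S)))) :
    spLift s t h ≫ spU s = t := IsOpenImmersion.lift_fac _ _ _

theorem spLift_unique (s : SInt F S) {T : Scheme.{0}} (t : T ⟶ Spec (CommRingCat.of (SInt F S)))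
    (h : Set.range t ⊆ (PrimeSpectrum.basicOpen s : Set (PrimeSpectrum (SInt F S))))
    (l : T ⟶ Spec (CommRingCat.of (Localization.Away s))) (hl : l ≫ spU s = t) :
    l = spLift s t h := by
  rw [← cancel_mono (spU s), hl, spLift_fac]

theorem spLift_comp (s : SInt F S) {T T' : Scheme.{0}} (t : T ⟶ Spec (CommRingCat.of (SInt F S)))
    (h : Set.range t ⊆ (PrimeSpectrum.basicOpen s : Set (PrimeSpectrum (SInt F S))))
    (g : T' ⟶ T) (h' : Set.range (g ≫ t) ⊆ (PrimeSpectrum.basicOpen s : Set (PrimeSpectrum (SInt F S)))) :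
    g ≫ spLift s t h = spLift s (g ≫ t) h' := by
  apply spLift_unique
  rw [Category.assoc, spLift_fac]

/-- comparison of two local sections with the same generic point -/
theorem ig_compat (x₀ : Spec (CommRingCat.of F) ⟶ V) (s s' : SInt F S) (hs0 : s ≠ 0) (hs0' : s' ≠ 0)
    {A A' : CommRingCat.{0}} (j : Spec A ⟶ V) (j' : Spec A' ⟶ V) [IsOpenImmersion j]
    [IsOpenImmersion j'] (θ : A →+* Localization.Away s) (θ' : A' →+* Localization.Away s')
    (h : Spec.map (CommRingCat.ofHom ((spKappa s hs0).comp θ)) ≫ j = x₀)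
    (h' : Spec.map (CommRingCat.ofHom ((spKappa s' hs0').comp θ')) ≫ j' = x₀) :
    ∃ e : SInt F S, e ≠ 0 ∧ ∀ (T : Scheme.{0}) (t : T ⟶ Spec (CommRingCat.of (SInt F S)))
      (_ : Set.range t ⊆ (PrimeSpectrum.basicOpen (s * s' * e) : Set (PrimeSpectrum (SInt F S))))
      (h1 : Set.range t ⊆ (PrimeSpectrum.basicOpen s : Set (PrimeSpectrum (SInt F S))))
      (h2 : Set.range t ⊆ (PrimeSpectrum.basicOpen s' : Set (PrimeSpectrum (SInt F S)))),
      spLift s t h1 ≫ Spec.map (CommRingCat.ofHom θ) ≫ j =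
        spLift s' t h2 ≫ Spec.map (CommRingCat.ofHom θ') ≫ j' := by
  have hmem : (Spec.map (CommRingCat.ofHom ((spKappa s hs0).comp θ)) ≫ j) (⊥ : PrimeSpectrum F) ∈
      j'.opensRange := by
    rw [h, ← h']
    exact ⟨_, rfl⟩
  obtain ⟨a, ha, haj⟩ := exists_elt j ((spKappa s hs0).comp θ) j'.opensRange hmem
  obtain ⟨b, u, hu, hbu⟩ := sp_exists_div (S := S) (((spKappa s hs0).comp θ) a)
  have hb : b ≠ 0 := by
    rintro rfl
    rw [map_zero, mul_eq_zero] at hbu
    rcases hbu with h | h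
    · exact ha h
    · exact hu (sp_injective (by rw [h, map_zero]))
  refine ⟨b, hb, fun T t hr h1 h2 => ?_⟩
  set s₂ := s * s' * b with hs₂
  have hs₂0 : s₂ ≠ 0 := mul_ne_zero (mul_ne_zero hs0 hs0') hb
  let L₂ := Localization.Away s₂
  have hunit₂ : IsUnit (algebraMap (SInt F S) L₂ s₂) :=
    IsLocalization.map_units L₂ (⟨s₂, Submonoid.mem_powers s₂⟩ : Submonoid.powers s₂)
  have hunit : ∀ c, c ∣ s₂ → IsUnit (algebraMap (SInt F S) L₂ c) := fun c hc =>
    isUnit_of_dvd_unit (map_dvd _ hc) hunit₂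
  have hds : s ∣ s₂ := ⟨s' * b, by rw [hs₂]; ring⟩
  have hds' : s' ∣ s₂ := ⟨s * b, by rw [hs₂]; ring⟩
  have hdb : b ∣ s₂ := ⟨s * s', by rw [hs₂]; ring⟩
  let ρ : Localization.Away s →+* L₂ := IsLocalization.Away.lift s (hunit s hds)
  let ρ' : Localization.Away s' →+* L₂ := IsLocalization.Away.lift s' (hunit s' hds')
  have hρ : ρ.comp (algebraMap (SInt F S) (Localization.Away s)) = algebraMap (SInt F S) L₂ :=
    IsLocalization.Away.lift_comp _ _
  have hρ' : ρ'.comp (algebraMap (SInt F S) (Localization.Away s')) = algebraMap (SInt F S) L₂ :=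
    IsLocalization.Away.lift_comp _ _
  have hκ : (spKappa s₂ hs₂0).comp ρ = spKappa s hs0 := by
    apply IsLocalization.ringHom_ext (Submonoid.powers s)
    rw [RingHom.comp_assoc, hρ, spKappa_comp, spKappa_comp]
  have hκ' : (spKappa s₂ hs₂0).comp ρ' = spKappa s' hs0' := by
    apply IsLocalization.ringHom_ext (Submonoid.powers s')
    rw [RingHom.comp_assoc, hρ', spKappa_comp, spKappa_comp]
  -- the two morphisms agree over the small principal open subscheme
  have hua : IsUnit (ρ (θ a)) := by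
    have h3 : ρ (θ a) * algebraMap (SInt F S) L₂ u = algebraMap (SInt F S) L₂ b := by
      apply spKappa_injective s₂ hs₂0
      rw [map_mul, spKappa_apply, spKappa_apply, ← hbu]
      congr 1
      exact RingHom.congr_fun hκ (θ a)
    exact isUnit_of_mul_isUnit_left (h3 ▸ hunit b hdb)
  have hrange : Set.range (Spec.map (CommRingCat.ofHom (ρ.comp θ)) ≫ j) ⊆ Set.range j' := by
    rintro _ ⟨q, rfl⟩
    refine haj (Spec.map (CommRingCat.ofHom (ρ.comp θ)) q) ?_
    intro (hq : ρ (θ a) ∈ q.asIdeal)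
    exact q.2.ne_top (Ideal.eq_top_of_isUnit_mem _ hq hua)
  obtain ⟨γ, hγ⟩ := Spec.map_surjective (IsOpenImmersion.lift j' _ hrange)
  have hγ' : Spec.map (CommRingCat.ofHom γ.hom) ≫ j' =
      Spec.map (CommRingCat.ofHom (ρ.comp θ)) ≫ j := by
    have h3 : CommRingCat.ofHom γ.hom = γ := rfl
    rw [h3, hγ, IsOpenImmersion.lift_fac]
  have hγθ : γ.hom = ρ'.comp θ' := by
    have h3 : (spKappa s₂ hs₂0).comp γ.hom = (spKappa s₂ hs₂0).comp (ρ'.comp θ') := by
      apply map_comp_inj j'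
      rw [← RingHom.comp_assoc, hκ', h', CommRingCat.ofHom_comp, Spec.map_comp, Category.assoc, hγ',
        ← Category.assoc, ← Spec.map_comp, ← CommRingCat.ofHom_comp, ← RingHom.comp_assoc, hκ, h]
    ext c
    exact spKappa_injective s₂ hs₂0 (RingHom.congr_fun h3 c)
  have hl : spLift s t h1 = spLift s₂ t hr ≫ Spec.map (CommRingCat.ofHom ρ) := by
    symm
    apply spLift_unique
    rw [Category.assoc, ← Spec.map_comp, ← CommRingCat.ofHom_comp, hρ]
    exact spLift_fac s₂ t hr
  have hl' : spLift s' t h2 = spLift s₂ t hr ≫ Spec.map (CommRingCat.ofHom ρ') := by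
    symm
    apply spLift_unique
    rw [Category.assoc, ← Spec.map_comp, ← CommRingCat.ofHom_comp, hρ']
    exact spLift_fac s₂ t hr
  rw [hl, hl', Category.assoc, Category.assoc, ← Category.assoc (Spec.map (CommRingCat.ofHom ρ)),
    ← Category.assoc (Spec.map (CommRingCat.ofHom ρ')), ← Spec.map_comp, ← Spec.map_comp,
    ← CommRingCat.ofHom_comp, ← CommRingCat.ofHom_comp, ← hγθ, hγ']

/-- local sections with a given generic point -/
theorem ig_local (π : V ⟶ Sep.SpO F₀) [LocallyOfFiniteType π] [Algebra F₀ F]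
    (x₀ : Spec (CommRingCat.of F) ⟶ V) (hπ : x₀ ≫ π = Spec.map (CommRingCat.ofHom (rhoF F₀ F)))
    (hext : ∀ O ∈ VF F S, HasExt O x₀) (p : PrimeSpectrum (SInt F S)) :
    ∃ (s : SInt F S) (_ : s ∉ p.asIdeal) (hs0 : s ≠ 0) (A : CommRingCat.{0}) (j : Spec A ⟶ V)
      (_ : IsOpenImmersion j) (θ : A →+* Localization.Away s),
      Spec.map (CommRingCat.ofHom ((spKappa s hs0).comp θ)) ≫ j = x₀ := by
  -- it is enough to find a chart in which the functions are integral at `p`
  have key : ∀ (U : V.Opens) (hU : IsAffineOpen U) (ψ : Γ(V, U) →+* F),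
      Spec.map (CommRingCat.ofHom ψ) ≫ hU.fromSpec = x₀ →
      (∀ a, ∃ b s : SInt F S, s ∉ p.asIdeal ∧ ψ a * algebraMap (SInt F S) F s = algebraMap _ F b) →
      ∃ (s : SInt F S) (_ : s ∉ p.asIdeal) (hs0 : s ≠ 0) (A : CommRingCat.{0}) (j : Spec A ⟶ V)
      (_ : IsOpenImmersion j) (θ : A →+* Localization.Away s),
      Spec.map (CommRingCat.ofHom ((spKappa s hs0).comp θ)) ≫ j = x₀ := by
    intro U hU ψ hψ hb
    obtain ⟨α, hα⟩ := Spec.map_surjective (hU.fromSpec ≫ π)
    have hft : LocallyOfFiniteType (Spec.map α) := by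
      rw [hα]; infer_instance
    have hft' : α.hom.FiniteType := by
      rw [HasRingHomProperty.Spec_iff (P := @LocallyOfFiniteType)] at hft
      exact hft
    have h1 : ψ.comp α.hom = rhoF F₀ F := by
      have h2 := hπ
      rw [← hψ, Category.assoc, ← hα, ← Spec.map_comp] at h2
      exact congrArg CommRingCat.Hom.hom (Spec.map_injective h2)
    obtain ⟨s, hs, hs0, θ, hθ⟩ := sp_factor α.hom hft' ψ h1 p hb
    exact ⟨s, hs, hs0, Γ(V, U), hU.fromSpec, inferInstance, θ, by rw [hθ, hψ]⟩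
  by_cases hp : p = ⊥
  · obtain ⟨U, hU, hv, -⟩ := exists_isAffineOpen_mem_and_subset (X := V)
      (x := x₀ (⊥ : PrimeSpectrum F)) (U := ⊤) trivial
    have h1 : x₀ (⊥ : PrimeSpectrum F) ∈ Set.range hU.fromSpec := by
      rw [hU.range_fromSpec]; exact hv
    obtain ⟨ψ, hψ⟩ := exists_hom_of_mem x₀ hU.fromSpec h1
    refine key U hU ψ hψ fun a => ?_
    obtain ⟨b, s, hs, hbs⟩ := sp_exists_div (S := S) (ψ a)
    refine ⟨b, s, ?_, hbs⟩
    rw [hp]
    exact hs
  · obtain ⟨v, hv, hval⟩ := sp_prime_val p hp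
    obtain ⟨y, hy⟩ := hext _ ⟨v, hv, rfl⟩
    obtain ⟨U, hU, hpU, -⟩ := exists_isAffineOpen_mem_and_subset (X := V)
      (x := y (IsLocalRing.closedPoint (v.valuation F).valuationSubring)) (U := ⊤) trivial
    have h1 : (y ⁻¹ᵁ U : (Spec (CommRingCat.of (v.valuation F).valuationSubring)).Opens) = ⊤ :=
      (IsLocalRing.closedPoint_mem_iff (R := (v.valuation F).valuationSubring) _).1 hpU
    have h2 : Set.range y ⊆ Set.range hU.fromSpec := by
      rintro _ ⟨t, rfl⟩
      rw [hU.range_fromSpec]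
      have h3 : t ∈ (y ⁻¹ᵁ U : (Spec (CommRingCat.of (v.valuation F).valuationSubring)).Opens) := by
        rw [h1]; trivial
      exact h3
    obtain ⟨θ, hθ⟩ := Spec.map_surjective (IsOpenImmersion.lift hU.fromSpec y h2)
    have hθ' : Spec.map θ ≫ hU.fromSpec = y := by rw [hθ, IsOpenImmersion.lift_fac]
    refine key U hU ((algebraMap (v.valuation F).valuationSubring F).comp θ.hom) ?_ fun a => ?_
    · rw [← hy, ← hθ', ← Category.assoc, ← Spec.map_comp]
      rfl
    · apply hval
      exact (Valuation.mem_valuationSubring_iff _ _).1 (θ.hom a).2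

/-- Points which extend over all valuation rings outside `S` come from integral points. -/
theorem int_glue (π : V ⟶ Sep.SpO F₀) [LocallyOfFiniteType π] [QuasiCompact π] (i : V' ⟶ V)
    [IsClosedImmersion i] (F : Type) [Field F] [NumberField F] [Algebra F₀ F]
    (S : Finset (HeightOneSpectrum (𝓞 F))) (x₀ : Spec (CommRingCat.of F) ⟶ V)
    (hx₀ : x₀ ∈ Pts π i (rhoF F₀ F) (VF F S)) :
    ∃ x ∈ integralPoints π F S, gen x = x₀ ∧
      ¬ ∃ y : Spec (CommRingCat.of (SInt F S)) ⟶ V', y ≫ i = x := by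
  classical
  obtain ⟨hπ, hnot, hext⟩ := hx₀
  choose s hs hs0 A j hj θ hθ using ig_local (S := S) π x₀ hπ hext
  set d := s ⊥ with hd
  have hcomp := fun p => ig_compat x₀ (s ⊥) (s p) (hs0 ⊥) (hs0 p) (j ⊥) (j p) (θ ⊥) (θ p)
    (hθ ⊥) (hθ p)
  choose e he hcompat using hcomp
  let m : ∀ p, Spec (CommRingCat.of (Localization.Away (s p))) ⟶ V :=
    fun p => Spec.map (CommRingCat.ofHom (θ p)) ≫ j p
  let B : PrimeSpectrum (SInt F S) → Set (PrimeSpectrum (SInt F S)) :=
    fun p => PrimeSpectrum.zeroLocus {s ⊥ * s p * e p} \ {p}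
  have hs2 : ∀ p, s ⊥ * s p * e p ≠ 0 := fun p => mul_ne_zero (mul_ne_zero (hs0 ⊥) (hs0 p)) (he p)
  have hbot : ∀ p, (⊥ : PrimeSpectrum (SInt F S)) ∉ PrimeSpectrum.zeroLocus {s ⊥ * s p * e p} := by
    intro p hmem
    rw [PrimeSpectrum.mem_zeroLocus] at hmem
    exact hs2 p (hmem (Set.mem_singleton _))
  have hBcl : ∀ p, IsClosed (B p) := by
    intro p
    have h1 : (PrimeSpectrum.zeroLocus {s ⊥ * s p * e p}).Finite :=
      Vp.finite_of_isClosed _ (PrimeSpectrum.isClosed_zeroLocus _) (hbot p)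
    have h2 : B p = ⋃ q ∈ B p, ({q} : Set (PrimeSpectrum (SInt F S))) :=
      (Set.biUnion_of_singleton _).symm
    rw [h2]
    refine (h1.subset Set.sdiff_subset).isClosed_biUnion fun q hq => ?_
    apply Vp.isClosed_singleton_of_ne
    rintro rfl
    exact hbot p hq.1
  let ι := Option {p : PrimeSpectrum (SInt F S) // s ⊥ ∈ p.asIdeal}
  let pr : ι → PrimeSpectrum (SInt F S) := fun k => k.elim ⊥ (fun p => p.1)
  let O : ι → (Spec (CommRingCat.of (SInt F S))).Opens := fun k =>
    k.elim (PrimeSpectrum.basicOpen (s ⊥))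
      (fun p => PrimeSpectrum.basicOpen (s p.1) ⊓ ⟨(B p.1)ᶜ, (hBcl p.1).isOpen_compl⟩)
  have hOs : ∀ k, (O k : Set (Spec (CommRingCat.of (SInt F S)))) ⊆
      (PrimeSpectrum.basicOpen (s (pr k)) : Set (PrimeSpectrum (SInt F S))) := by
    intro k
    cases k with
    | none => exact le_rfl
    | some p => exact fun q hq => hq.1
  have hO : TopologicalSpace.IsOpenCover O := by
    rw [TopologicalSpace.IsOpenCover, eq_top_iff]
    intro q _
    rw [TopologicalSpace.Opens.mem_iSup]
    by_cases hq : s ⊥ ∈ q.asIdeal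
    · exact ⟨some ⟨q, hq⟩, hs q, fun h => h.2 rfl⟩
    · exact ⟨none, hq⟩
  have hrk : ∀ k, Set.range (O k).ι ⊆
      (PrimeSpectrum.basicOpen (s (pr k)) : Set (PrimeSpectrum (SInt F S))) := by
    intro k
    rw [Scheme.Opens.range_ι]
    exact hOs k
  let M : ∀ k, (O k).toScheme ⟶ V := fun k => spLift (s (pr k)) (O k).ι (hrk k) ≫ m (pr k)
  -- over the intersections everything is equal to the first section
  have hsome : ∀ (p : {p : PrimeSpectrum (SInt F S) // s ⊥ ∈ p.asIdeal}) (T : Scheme.{0})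
      (t : T ⟶ Spec (CommRingCat.of (SInt F S))) (h1 : Set.range t ⊆ (O (some p) : Set (Spec (CommRingCat.of (SInt F S)))))
      (h2 : ∀ q, t q ≠ p.1)
      (h3 : Set.range t ⊆ (PrimeSpectrum.basicOpen (s ⊥) : Set (PrimeSpectrum (SInt F S))))
      (h4 : Set.range t ⊆ (PrimeSpectrum.basicOpen (s p.1) : Set (PrimeSpectrum (SInt F S)))),
      spLift (s ⊥) t h3 ≫ m ⊥ = spLift (s p.1) t h4 ≫ m p.1 := by
    intro p T t h1 h2 h3 h4
    refine hcompat p.1 T t ?_ h3 h4
    rintro _ ⟨q, rfl⟩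
    have h5 := (h1 ⟨q, rfl⟩).2
    intro h6
    apply h5
    refine ⟨?_, fun h => h2 q h⟩
    rw [PrimeSpectrum.mem_zeroLocus, Set.singleton_subset_iff]
    exact h6
  have hkey : ∀ (k l : ι), k ≠ l → ∀ (T : Scheme.{0}) (t : T ⟶ Spec (CommRingCat.of (SInt F S)))
      (hk : Set.range t ⊆ (O k : Set (Spec (CommRingCat.of (SInt F S))))) (hl : Set.range t ⊆ (O l : Set (Spec (CommRingCat.of (SInt F S))))),
      spLift (s (pr k)) t (hk.trans (hOs k)) ≫ m (pr k) =
        spLift (s (pr l)) t (hl.trans (hOs l)) ≫ m (pr l) := by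
    intro k l hkl T t hk hl
    cases k with
    | none =>
      cases l with
      | none => exact absurd rfl hkl
      | some p =>
        refine hsome p T t hl (fun q hq => ?_) _ _
        have h1 : s ⊥ ∉ (t q).asIdeal := hk ⟨q, rfl⟩
        rw [hq] at h1
        exact h1 p.2
    | some p =>
      cases l with
      | none =>
        symm
        refine hsome p T t hk (fun q hq => ?_) _ _
        have h1 : s ⊥ ∉ (t q).asIdeal := hl ⟨q, rfl⟩
        rw [hq] at h1
        exact h1 p.2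
      | some p' =>
        have hpp : p.1 ≠ p'.1 := fun h => hkl (by rw [Subtype.ext h])
        -- a point of the second set other than its centre is in the first principal open set
        have h1 : ∀ (p p' : {p : PrimeSpectrum (SInt F S) // s ⊥ ∈ p.asIdeal}), p.1 ≠ p'.1 →
            Set.range t ⊆ (O (some p') : Set (Spec (CommRingCat.of (SInt F S)))) → ∀ q, t q ≠ p.1 := by
          intro p p' hpp hl q hq
          have h5 := (hl ⟨q, rfl⟩).2
          apply h5
          refine ⟨?_, fun h => hpp (hq.symm.trans h)⟩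
          rw [PrimeSpectrum.mem_zeroLocus, Set.singleton_subset_iff]
          have h6 : s ⊥ ∈ (t q).asIdeal := by rw [hq]; exact p.2
          exact Ideal.mul_mem_right _ _ (Ideal.mul_mem_right _ _ h6)
        have h2 := h1 p p' hpp hl
        have h3 := h1 p' p hpp.symm hk
        have h4 : Set.range t ⊆ (PrimeSpectrum.basicOpen (s ⊥) : Set (PrimeSpectrum (SInt F S))) := by
          rintro _ ⟨q, rfl⟩
          have h5 := (hk ⟨q, rfl⟩).2
          intro h6
          apply h5
          refine ⟨?_, fun h => h2 q h⟩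
          rw [PrimeSpectrum.mem_zeroLocus, Set.singleton_subset_iff]
          exact Ideal.mul_mem_right _ _ (Ideal.mul_mem_right _ _ h6)
        exact (hsome p T t hk h2 h4 (hk.trans (hOs (some p)))).symm.trans
          (hsome p' T t hl h3 h4 (hl.trans (hOs (some p'))))
  let 𝒰 : (Spec (CommRingCat.of (SInt F S))).OpenCover :=
    (Spec (CommRingCat.of (SInt F S))).openCoverOfIsOpenCover O hO
  have hcompat2 : ∀ k l : ι, pullback.fst (O k).ι (O l).ι ≫ M k = pullback.snd (O k).ι (O l).ι ≫ M l := by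
    intro k l
    by_cases hkl : k = l
    · subst hkl
      rw [fst_eq_snd_of_mono_eq]
    · have hk : Set.range (pullback.fst (O k).ι (O l).ι ≫ (O k).ι) ⊆ (O k : Set (Spec (CommRingCat.of (SInt F S)))) := by
        rintro _ ⟨t, rfl⟩
        rw [Scheme.Hom.comp_apply]
        exact (pullback.fst (O k).ι (O l).ι t).2
      have hl : Set.range (pullback.fst (O k).ι (O l).ι ≫ (O k).ι) ⊆ (O l : Set (Spec (CommRingCat.of (SInt F S)))) := by
        rintro _ ⟨t, rfl⟩
        rw [pullback.condition, Scheme.Hom.comp_apply]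
        exact (pullback.snd (O k).ι (O l).ι t).2
      have h1 := hkey k l hkl _ (pullback.fst (O k).ι (O l).ι ≫ (O k).ι) hk hl
      have h2 : pullback.fst (O k).ι (O l).ι ≫ M k =
          spLift (s (pr k)) (pullback.fst (O k).ι (O l).ι ≫ (O k).ι) (hk.trans (hOs k)) ≫ m (pr k) := by
        show pullback.fst (O k).ι (O l).ι ≫ spLift (s (pr k)) (O k).ι (hrk k) ≫ m (pr k) = _
        rw [← Category.assoc, spLift_comp]
      have h3 : pullback.snd (O k).ι (O l).ι ≫ M l =
          spLift (s (pr l)) (pullback.fst (O k).ι (O l).ι ≫ (O k).ι) (hl.trans (hOs l)) ≫ m (pr l) := by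
        show pullback.snd (O k).ι (O l).ι ≫ spLift (s (pr l)) (O l).ι (hrk l) ≫ m (pr l) = _
        rw [← Category.assoc]
        congr 1
        apply spLift_unique
        rw [Category.assoc, spLift_fac, pullback.condition]
      rw [h2, h3, h1]
  let x : Spec (CommRingCat.of (SInt F S)) ⟶ V := 𝒰.glueMorphisms M hcompat2
  have hx : (O none).ι ≫ x = M none := Scheme.Cover.ι_glueMorphisms 𝒰 M hcompat2 none
  have hgen : gen x = x₀ := by
    have h0 : Set.range (spU (s ⊥)) ⊆ Set.range (O none).ι := by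
      rw [range_spU, Scheme.Opens.range_ι]
      exact le_rfl
    have h1 : IsOpenImmersion.lift (O none).ι (spU (s ⊥)) h0 ≫ (O none).ι = spU (s ⊥) :=
      IsOpenImmersion.lift_fac _ _ _
    have h2 : spU (s ⊥) ≫ x = m ⊥ := by
      rw [← h1, Category.assoc, hx]
      show IsOpenImmersion.lift (O none).ι (spU (s ⊥)) h0 ≫ spLift (s ⊥) (O none).ι (hrk none) ≫ m ⊥ = m ⊥
      rw [← Category.assoc]
      have h3 : IsOpenImmersion.lift (O none).ι (spU (s ⊥)) h0 ≫ spLift (s ⊥) (O none).ι (hrk none) =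
          𝟙 _ := by
        rw [← cancel_mono (spU (s ⊥)), Category.assoc, spLift_fac, h1, Category.id_comp]
      rw [h3, Category.id_comp]
    show Spec.map (CommRingCat.ofHom (algebraMap (SInt F S) F)) ≫ x = x₀
    rw [← kappa_spU (s ⊥) (hs0 ⊥), Category.assoc, h2, ← hθ ⊥, CommRingCat.ofHom_comp, Spec.map_comp,
      Category.assoc]
  refine ⟨x, ?_, hgen, ?_⟩
  · show x ≫ π = Spec.map (CommRingCat.ofHom (structHom F₀ F S))
    obtain ⟨ρ, hρ⟩ := Spec.map_surjective (x ≫ π)
    have h1 : gen x ≫ π = Spec.map (CommRingCat.ofHom (rhoF F₀ F)) := by rw [hgen, hπ]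
    have h2 : Spec.map (CommRingCat.ofHom (algebraMap (SInt F S) F)) ≫ Spec.map ρ =
        Spec.map (CommRingCat.ofHom (rhoF F₀ F)) := by
      rw [hρ, ← h1]
      exact (Category.assoc _ _ _).symm
    rw [← Spec.map_comp] at h2
    have h3 := congrArg CommRingCat.Hom.hom (Spec.map_injective h2)
    rw [← hρ]
    congr 1
    ext r
    exact RingHom.congr_fun h3 r
  · rw [Vp.factors_iff_generic, ← gen_bot, hgen]
    exact hnot

end Pool.Agent.Work.MP_e97a4d_nt.Hyp
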