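import Pool.Agent.Work.MP_e97a4d_nt.Hyp.SPrime

set_option autoImplicit false

noncomputable section

namespace Pool.Agent.Work.MP_e97a4d_nt.Hyp

open AlgebraicGeometry CategoryTheory IsDedekindDomain NumberField
open Pool.Agent.Work.MP_e97a4d_nt

variable {F₀ : Type} [Field F₀] {V V' : Scheme.{0}}

/-- finite affine covers -/
theorem exists_finite_cover (π : V ⟶ Sep.SpO F₀) [QuasiCompact π] :
    ∃ (n : ℕ) (A : Fin n → CommRingCat.{0}) (j : ∀ k, Spec (A k) ⟶ V),
      (∀ k, IsOpenImmersion (j k)) ∧ ∀ v : V, ∃ k, v ∈ Set.range (j k) := by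
  classical
  have : CompactSpace V := by
    have h : CompactSpace (Sep.SpO F₀) := inferInstance
    have h1 := QuasiCompact.isCompact_preimage (f := π) Set.univ isOpen_univ isCompact_univ
    rw [Set.preimage_univ] at h1
    exact ⟨h1⟩
  have h1 : ∀ v : V, ∃ U : V.Opens, IsAffineOpen U ∧ v ∈ U := by
    intro v
    obtain ⟨U, hU, hv, -⟩ := exists_isAffineOpen_mem_and_subset (X := V) (x := v) (U := ⊤) trivial
    exact ⟨U, hU, hv⟩
  choose U hU hv using h1
  obtain ⟨t, ht⟩ := isCompact_univ.elim_finite_subcover (fun v : V => (U v : Set V))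
    (fun v => (U v).isOpen) (fun v _ => Set.mem_iUnion.2 ⟨v, hv v⟩)
  let e := t.equivFin
  refine ⟨t.card, fun k => Γ(V, U (e.symm k)), fun k => (hU (e.symm k)).fromSpec,
    fun k => inferInstance, fun v => ?_⟩
  obtain ⟨w, hw, hw'⟩ := Set.mem_iUnion₂.1 (ht (Set.mem_univ v))
  refine ⟨e ⟨w, hw⟩, ?_⟩
  rw [(hU _).range_fromSpec, e.symm_apply_apply]
  exact hw'

/-- Only finitely many integral points have the same generic point. -/
theorem int_fin (π : V ⟶ Sep.SpO F₀) [LocallyOfFiniteType π] [QuasiCompact π] (F : Type) [Field F]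
    [NumberField F] [Algebra F₀ F] (S : Finset (HeightOneSpectrum (𝓞 F)))
    (x₀ : Spec (CommRingCat.of F) ⟶ V) : {x ∈ integralPoints π F S | gen x = x₀}.Finite := by
  classical
  obtain ⟨n, A, j, hj, hcov⟩ := exists_finite_cover π
  -- the exceptional primes of two charts
  have h1 : ∀ k l : Fin n, ∃ Z : Set (PrimeSpectrum (SInt F S)), Z.Finite ∧
      ∀ (x : Spec (CommRingCat.of (SInt F S)) ⟶ V), gen x = x₀ → ∀ p ∉ Z, x p ∈ Set.range (j k) →
        x₀ (⊥ : PrimeSpectrum F) ∈ Set.range (j l) → x p ∈ Set.range (j l) := by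
    intro k l
    by_cases hk : x₀ (⊥ : PrimeSpectrum F) ∈ Set.range (j k)
    swap
    · refine ⟨∅, Set.finite_empty, fun x hx p _ hp _ => ?_⟩
      exfalso
      apply hk
      have h2 := sp_bot_mem x (j k).opensRange p hp
      rw [← gen_bot, hx] at h2
      exact h2
    by_cases hl : x₀ (⊥ : PrimeSpectrum F) ∈ Set.range (j l)
    swap
    · exact ⟨∅, Set.finite_empty, fun x _ p _ _ h => absurd h hl⟩
    obtain ⟨ψ, hψ⟩ := exists_hom_of_mem x₀ (j k) hk
    have hl' : (Spec.map (CommRingCat.ofHom ψ) ≫ j k) (⊥ : PrimeSpectrum F) ∈ (j l).opensRange := by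
      have h2 := congrArg (fun y : Spec (CommRingCat.of F) ⟶ V =>
        y (⊥ : PrimeSpectrum F) ∈ Set.range (j l)) hψ
      exact h2.mpr hl
    obtain ⟨a, ha, haj⟩ := exists_elt (j k) ψ (j l).opensRange hl'
    obtain ⟨b, s, hs, hbs⟩ := sp_exists_div (S := S) (ψ a)
    have hb : b ≠ 0 := by
      rintro rfl
      rw [map_zero, mul_eq_zero] at hbs
      rcases hbs with h | h
      · exact ha h
      · exact hs (sp_injective (by rw [h, map_zero]))
    refine ⟨PrimeSpectrum.zeroLocus {b}, ?_, fun x hx p hp hpk _ => ?_⟩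
    · apply Vp.finite_of_isClosed _ (PrimeSpectrum.isClosed_zeroLocus _)
      rw [PrimeSpectrum.mem_zeroLocus]
      intro h
      exact hb (h (Set.mem_singleton b))
    · obtain ⟨r, hr, hr2⟩ := sp_exists_elt x (j k).opensRange p hpk
      have hr0 : r ≠ 0 := fun h => hr (by rw [h]; exact zero_mem _)
      obtain ⟨θ, hθ⟩ := sp_chart x (j k) r hr2
      have h2 : (spKappa r hr0).comp θ = ψ := by
        apply map_comp_inj (j k)
        rw [CommRingCat.ofHom_comp, Spec.map_comp, Category.assoc, hθ, ← Category.assoc, kappa_spU,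
          hψ]
        exact hx
      have hp' : p ∈ Set.range (spU r) := by
        rw [range_spU]; exact hr
      obtain ⟨q, hq⟩ := hp'
      have h3 : x p = j k (Spec.map (CommRingCat.ofHom θ) q) := by
        rw [← hq, ← Scheme.Hom.comp_apply, ← Scheme.Hom.comp_apply, hθ]
      rw [h3]
      apply haj (Spec.map (CommRingCat.ofHom θ) q)
      intro (hmem : θ a ∈ q.asIdeal)
      apply hp
      rw [PrimeSpectrum.mem_zeroLocus, Set.singleton_subset_iff]
      have h4 : θ a * algebraMap (SInt F S) (Localization.Away r) s =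
          algebraMap (SInt F S) (Localization.Away r) b := by
        apply spKappa_injective r hr0
        rw [map_mul, spKappa_apply, spKappa_apply, ← hbs]
        congr 1
        exact RingHom.congr_fun h2 a
      have h5 : algebraMap (SInt F S) (Localization.Away r) b ∈ q.asIdeal := by
        rw [← h4]
        exact Ideal.mul_mem_right _ _ hmem
      have h6 : b ∈ (spU r q).asIdeal := h5
      rw [hq] at h6
      exact h6
  choose Z hZ hZ' using h1
  let P : Set (PrimeSpectrum (SInt F S)) := ⋃ k, ⋃ l, Z k l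
  have hP : P.Finite := Set.finite_iUnion fun k => Set.finite_iUnion fun l => hZ k l
  have hex : ∀ (x : Spec (CommRingCat.of (SInt F S)) ⟶ V) (p : PrimeSpectrum (SInt F S)),
      ∃ k, x p ∈ Set.range (j k) := fun x p => hcov (x p)
  choose idx hidx using hex
  have : Finite P := hP
  let Φ : {x ∈ integralPoints π F S | gen x = x₀} → (P → Fin n) := fun x p => idx x.1 p.1
  have hΦ : Function.Injective Φ := by
    rintro ⟨x, hx, hxg⟩ ⟨x', hx', hxg'⟩ h
    apply Subtype.ext
    show x = x'
    refine Scheme.hom_ext_of_forall x x' fun p => ?_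
    have hgg : gen x = gen x' := hxg.trans hxg'.symm
    by_cases hp : p ∈ P
    · have h2 : idx x p = idx x' p := congrFun h ⟨p, hp⟩
      exact sp_local_eq x x' hgg (j (idx x p)) p (hidx x p) (by rw [h2]; exact hidx x' p)
    · have hp' : p ∉ Z (idx x p) (idx x' p) := fun h => hp (Set.mem_iUnion₂.2 ⟨_, _, h⟩)
      have h2 : x₀ (⊥ : PrimeSpectrum F) ∈ Set.range (j (idx x' p)) := by
        have h3 := sp_bot_mem x' (j (idx x' p)).opensRange p (hidx x' p)
        rw [← gen_bot, hxg'] at h3
        exact h3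
      exact sp_local_eq x x' hgg (j (idx x' p)) p (hZ' _ _ x hxg p hp' (hidx x p) h2) (hidx x' p)
  have := Finite.of_injective Φ hΦ
  exact Set.toFinite _

/-- The generic point of an integral point. -/
theorem gen_mem (π : V ⟶ Sep.SpO F₀) (i : V' ⟶ V) [IsClosedImmersion i] (F : Type) [Field F]
    [NumberField F] [Algebra F₀ F] (S : Finset (HeightOneSpectrum (𝓞 F)))
    (x : Spec (CommRingCat.of (SInt F S)) ⟶ V) (hx : x ∈ integralPoints π F S)
    (hx' : ¬ ∃ y : Spec (CommRingCat.of (SInt F S)) ⟶ V', y ≫ i = x) :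
    gen x ∈ Pts π i (rhoF F₀ F) (VF F S) := by
  refine ⟨?_, ?_, ?_⟩
  · show (Spec.map (CommRingCat.ofHom (algebraMap (SInt F S) F)) ≫ x) ≫ π = _
    have h1 : x ≫ π = Spec.map (CommRingCat.ofHom (structHom F₀ F S)) := hx
    rw [Category.assoc, h1, ← Spec.map_comp]
    rfl
  · rw [gen_bot, ← Vp.factors_iff_generic]
    exact hx'
  · rintro _ ⟨v, hv, rfl⟩
    have hmem : ∀ r : SInt F S, algebraMap (SInt F S) F r ∈ (v.valuation F).valuationSubring := by
      intro r
      rw [Valuation.mem_valuationSubring_iff]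
      exact r.2 v hv
    refine ⟨Spec.map (CommRingCat.ofHom ((algebraMap (SInt F S) F).codRestrict
      (v.valuation F).valuationSubring.toSubring hmem)) ≫ x, ?_⟩
    rw [← Category.assoc, ← Spec.map_comp]
    rfl

end Pool.Agent.Work.MP_e97a4d_nt.Hyp
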