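import Pool.Agent.Work.MP_e97a4d_nt.Hyp.Defs
import Pool.Agent.Work.MP_e97a4d_nt.VpHolo

/-!
Change of charts for points with values in fields.
-/

set_option autoImplicit false

noncomputable section

namespace Pool.Agent.Work.MP_e97a4d_nt.Hyp

open AlgebraicGeometry CategoryTheory IsDedekindDomain NumberField
open Pool.Agent.Work.MP_e97a4d_nt

variable {V : Scheme.{0}}

theorem range_fieldPt {K : Type} [Field K] (x : Spec (CommRingCat.of K) ⟶ V) :
    Set.range x = {x (⊥ : PrimeSpectrum K)} := by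
  ext v
  constructor
  · rintro ⟨y, rfl⟩
    have : y = (⊥ : PrimeSpectrum K) := Subsingleton.elim (α := PrimeSpectrum K) _ _
    rw [this]; rfl
  · rintro rfl
    exact ⟨_, rfl⟩

theorem exists_hom_of_mem {K : Type} [Field K] (x : Spec (CommRingCat.of K) ⟶ V) {A : CommRingCat.{0}}
    (j : Spec A ⟶ V) [IsOpenImmersion j] (h : x (⊥ : PrimeSpectrum K) ∈ Set.range j) :
    ∃ g : A →+* K, Spec.map (CommRingCat.ofHom g) ≫ j = x := by
  have h1 : Set.range x ⊆ Set.range j := by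
    rw [range_fieldPt]
    rintro _ rfl
    exact h
  obtain ⟨g, hg⟩ := Spec.map_surjective (IsOpenImmersion.lift j x h1)
  refine ⟨g.hom, ?_⟩
  have h2 : CommRingCat.ofHom g.hom = g := rfl
  rw [h2, hg, IsOpenImmersion.lift_fac]

theorem comp_apply_bot {K : Type} [Field K] {A : CommRingCat.{0}} (j : Spec A ⟶ V) (g : A →+* K) :
    (Spec.map (CommRingCat.ofHom g) ≫ j) (⊥ : PrimeSpectrum K) = j (PrimeSpectrum.comap g ⊥) := rfl

/-- a principal open set inside an open set of the spectrum -/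
theorem exists_elt {K : Type} [Field K] {A : CommRingCat.{0}} (j : Spec A ⟶ V) (g : A →+* K)
    (O : V.Opens) (h : (Spec.map (CommRingCat.ofHom g) ≫ j) (⊥ : PrimeSpectrum K) ∈ O) :
    ∃ a : A, g a ≠ 0 ∧ ∀ p : PrimeSpectrum A, a ∉ p.asIdeal → j p ∈ O := by
  rw [comp_apply_bot] at h
  have h1 : PrimeSpectrum.comap g ⊥ ∈ (j ⁻¹ᵁ O : (Spec A).Opens) := h
  obtain ⟨_, ⟨b, rfl⟩, hpb, hbU⟩ := PrimeSpectrum.isTopologicalBasis_basic_opens.exists_subset_of_mem_open
    h1 (j ⁻¹ᵁ O).isOpen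
  refine ⟨b, fun h2 => hpb ?_, fun p hp => hbU hp⟩
  show g b ∈ (⊥ : Ideal K)
  rw [h2]
  exact zero_mem _

/-- Change of charts: over the principal open set of `a₁` the functions of the second chart are
quotients of functions of the first chart. -/
theorem transition {A₁ A₂ : CommRingCat.{0}} (j₁ : Spec A₁ ⟶ V) (j₂ : Spec A₂ ⟶ V) [IsOpenImmersion j₂]
    (a₁ : A₁) (h : ∀ p : PrimeSpectrum A₁, a₁ ∉ p.asIdeal → j₁ p ∈ Set.range j₂) :
    ∃ (β : A₂ → A₁) (k : A₂ → ℕ), ∀ (K : Type) [Field K] (g₁ : A₁ →+* K), g₁ a₁ ≠ 0 →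
      ∃ g₂ : A₂ →+* K, Spec.map (CommRingCat.ofHom g₁) ≫ j₁ = Spec.map (CommRingCat.ofHom g₂) ≫ j₂ ∧
        ∀ c, g₂ c = g₁ (β c) / g₁ a₁ ^ k c := by
  let L := Localization.Away a₁
  let q : Spec (CommRingCat.of L) ⟶ V := Spec.map (CommRingCat.ofHom (algebraMap A₁ L)) ≫ j₁
  have hq : Set.range q ⊆ Set.range j₂ := by
    rintro _ ⟨y, rfl⟩
    refine h (Spec.map (CommRingCat.ofHom (algebraMap A₁ L)) y) ?_
    intro (h : algebraMap A₁ L a₁ ∈ y.asIdeal)
    exact y.2.ne_top (Ideal.eq_top_of_isUnit_mem _ h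
      (IsLocalization.map_units L (⟨a₁, Submonoid.mem_powers a₁⟩ : Submonoid.powers a₁)))
  obtain ⟨θ, hθ⟩ := Spec.map_surjective (IsOpenImmersion.lift j₂ q hq)
  have hθ' : Spec.map θ ≫ j₂ = q := by
    rw [hθ, IsOpenImmersion.lift_fac]
  have h1 : ∀ c : A₂, ∃ (β : A₁) (k : ℕ), θ.hom c * algebraMap A₁ L a₁ ^ k = algebraMap A₁ L β := by
    intro c
    obtain ⟨⟨β, s⟩, hβ⟩ := IsLocalization.surj (Submonoid.powers a₁) (θ.hom c)
    obtain ⟨k, hk⟩ := s.2
    refine ⟨β, k, ?_⟩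
    rw [← hβ, ← map_pow]
    congr 2
  choose β k hβ using h1
  refine ⟨β, k, fun K _ g₁ hg => ?_⟩
  let G : L →+* K := IsLocalization.Away.lift a₁ (g := g₁) (isUnit_iff_ne_zero.2 hg)
  have hG : G.comp (algebraMap A₁ L) = g₁ := IsLocalization.Away.lift_comp _ _
  have hG' : ∀ a, G (algebraMap A₁ L a) = g₁ a := fun a => RingHom.congr_fun hG a
  refine ⟨G.comp θ.hom, ?_, fun c => ?_⟩
  · have h3 : Spec.map (CommRingCat.ofHom (G.comp θ.hom)) =
        Spec.map (CommRingCat.ofHom G) ≫ Spec.map θ := by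
      rw [← Spec.map_comp]; rfl
    rw [h3, Category.assoc, hθ', ← Category.assoc, ← Spec.map_comp, ← CommRingCat.ofHom_comp, hG]
  · rw [eq_div_iff (pow_ne_zero _ hg), RingHom.comp_apply, ← hG' (β c), ← hβ c, map_mul, map_pow, hG']

theorem map_comp_inj {A : CommRingCat.{0}} (j : Spec A ⟶ V) [Mono j]
    {R : Type} [CommRing R] {φ ψ : A →+* R}
    (h : Spec.map (CommRingCat.ofHom φ) ≫ j = Spec.map (CommRingCat.ofHom ψ) ≫ j) : φ = ψ := by
  rw [cancel_mono] at h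
  have := Spec.map_injective h
  have h2 := congrArg CommRingCat.Hom.hom this
  simpa using h2

end Pool.Agent.Work.MP_e97a4d_nt.Hyp
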