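import Pool.Agent.Work.MP_e97a4d_nt.Hyp.Defs
import Pool.Agent.Work.MP_e97a4d_nt.Sep.PSpace
import Pool.Agent.Work.MP_e97a4d_nt.Sep.MoveP
import Pool.Agent.Work.MP_e97a4d_nt.VpInt

set_option autoImplicit false

noncomputable section

namespace Pool.Agent.Work.MP_e97a4d_nt.Hyp

open AlgebraicGeometry CategoryTheory IsDedekindDomain NumberField
open HomogeneousLocalization
open Pool.Agent.Work.MP_e97a4d_nt.Sep Pool.Agent.Work.MP_e97a4d_nt.Sep.PSpace
open Pool.Agent.Work.MP_e97a4d_nt.Vp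

attribute [local instance] MvPolynomial.gradedAlgebra

namespace Bk

variable {F₀ : Type} [Field F₀] {m : ℕ}

theorem mk_eq (j : Fin (m + 1)) (n : ℕ) (q : MvPolynomial (Fin (m + 1)) (𝓞 F₀))
    (hq : q ∈ G F₀ m (n • 1)) :
    Away.mk (G F₀ m) (X_mem j) n q hq = MvPolynomial.eval₂ (cst F₀ j) (ratio F₀ j) q := by
  have hq' : q.IsHomogeneous n := by simpa using hq
  apply val_injective
  set L := Localization.Away (X F₀ j) with hL
  have hX : IsUnit (algebraMap _ L (X F₀ j)) := IsLocalization.Away.algebraMap_isUnit _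
  have h1 : (MvPolynomial.eval₂ (cst F₀ j) (ratio F₀ j) q).val =
      MvPolynomial.eval₂ ((algebraMap (MvPolynomial (Fin (m + 1)) (𝓞 F₀)) L).comp MvPolynomial.C)
        (fun i => (ratio F₀ j i).val) q := by
    have h2 : (MvPolynomial.eval₂ (cst F₀ j) (ratio F₀ j) q).val =
      algebraMap (A F₀ j) L (MvPolynomial.eval₂ (cst F₀ j) (ratio F₀ j) q) := rfl
    rw [h2, MvPolynomial.hom_eval₂]
    rfl
  have h3 : algebraMap _ L q = (algebraMap _ L (X F₀ j)) ^ n *
      MvPolynomial.eval₂ ((algebraMap (MvPolynomial (Fin (m + 1)) (𝓞 F₀)) L).comp MvPolynomial.C)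
        (fun i => (ratio F₀ j i).val) q := by
    have h4 : algebraMap _ L q = MvPolynomial.eval₂
        ((algebraMap (MvPolynomial (Fin (m + 1)) (𝓞 F₀)) L).comp MvPolynomial.C)
        (fun i => algebraMap _ L (X F₀ j) * (ratio F₀ j i).val) q := by
      have h5 : (fun i => algebraMap _ L (X F₀ j) * (ratio F₀ j i).val) =
          fun i => algebraMap _ L (X F₀ i) := by
        funext i; exact (val_ratio j i).symm
      rw [h5]
      have h6 := MvPolynomial.hom_eval₂ q MvPolynomial.C (algebraMap _ L) MvPolynomial.X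
      rw [MvPolynomial.eval₂_eta] at h6
      exact h6
    rw [h4, MvPolynomial.eval₂_eq', MvPolynomial.eval₂_eq', Finset.mul_sum]
    refine Finset.sum_congr rfl fun d hd => ?_
    have hd' : ∑ i, d i = n := by
      have := hq' (MvPolynomial.mem_support_iff.1 hd)
      rw [Finsupp.weight_apply] at this
      simpa [Finsupp.sum_fintype] using this
    simp_rw [mul_pow]
    rw [Finset.prod_mul_distrib, Finset.prod_pow_eq_pow_sum, hd']
    ring
  rw [h1, Away.val_mk, Localization.mk_eq_mk']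
  apply (hX.pow n).mul_left_cancel
  rw [← h3, mul_comm]
  have := IsLocalization.mk'_spec L q
    (⟨X F₀ j ^ n, n, rfl⟩ : Submonoid.powers (X F₀ j))
  simpa using this

/-- homomorphisms from the ring of a chart -/
theorem exists_hom {R : Type} [CommRing R] (ρ : 𝓞 F₀ →+* R) (j : Fin (m + 1)) (x : Fin (m + 1) → R)
    (hx : x j = 1) : ∃ φ : A F₀ j →+* R, φ.comp (cst F₀ j) = ρ ∧ ∀ i, φ (ratio F₀ j i) = x i := by
  let g : MvPolynomial (Fin (m + 1)) (𝓞 F₀) →+* R := MvPolynomial.eval₂Hom ρ x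
  have hg : IsUnit (g (X F₀ j)) := by
    show IsUnit (MvPolynomial.eval₂ ρ x (MvPolynomial.X j))
    rw [MvPolynomial.eval₂_X, hx]
    exact isUnit_one
  let h : Localization.Away (X F₀ j) →+* R := IsLocalization.Away.lift (X F₀ j) hg
  have hh : ∀ p, h (algebraMap _ _ p) = g p := fun p => IsLocalization.Away.lift_eq _ hg p
  refine ⟨h.comp (algebraMap (A F₀ j) (Localization.Away (X F₀ j))), ?_, ?_⟩
  · ext r
    show h ((cst F₀ j r).val) = ρ r
    rw [val_cst, hh]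
    exact MvPolynomial.eval₂_C _ _ _
  · intro i
    show h ((ratio F₀ j i).val) = x i
    have h1 := congrArg h (val_ratio j i)
    rw [map_mul, hh, hh] at h1
    have h2 : g (X F₀ j) = 1 := by
      show MvPolynomial.eval₂ ρ x (MvPolynomial.X j) = 1
      rw [MvPolynomial.eval₂_X, hx]
    rw [h2, one_mul] at h1
    rw [← h1]
    exact MvPolynomial.eval₂_X _ _ _

/-- when a point lies in a basic open subset -/
theorem mem_basicOpen {K : Type} [Field K] (j : Fin (m + 1)) (φ : A F₀ j →+* K) (d : ℕ) (hd : 0 < d)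
    (g : MvPolynomial (Fin (m + 1)) (𝓞 F₀)) (hg : g.IsHomogeneous d) :
    (Spec.map (CommRingCat.ofHom φ) ≫ chart F₀ j) (⊥ : PrimeSpectrum K) ∈ Proj.basicOpen (G F₀ m) g ↔
      g.eval₂ (φ.comp (cst F₀ j)) (fun i => φ (ratio F₀ j i)) ≠ 0 := by
  have h1 : (Spec.map (CommRingCat.ofHom φ) ≫ chart F₀ j) (⊥ : PrimeSpectrum K) ∈
      Proj.basicOpen (G F₀ m) g ↔ Spec.map (CommRingCat.ofHom φ) (⊥ : PrimeSpectrum K) ∈
        chart F₀ j ⁻¹ᵁ Proj.basicOpen (G F₀ m) g := Iff.rfl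
  have hg' : g ∈ G F₀ m d := hg
  rw [h1]
  unfold chart
  rw [Proj.awayι_preimage_basicOpen (G F₀ m) (X_mem j) one_pos hg' hd]
  have h2 : Away.isLocalizationElem (X_mem (F₀ := F₀) j) hg' =
      MvPolynomial.eval₂ (cst F₀ j) (ratio F₀ j) g := by
    unfold Away.isLocalizationElem
    rw [mk_eq, pow_one]
  rw [h2]
  show MvPolynomial.eval₂ (cst F₀ j) (ratio F₀ j) g ∉ (PrimeSpectrum.comap φ ⊥).asIdeal ↔ _
  have h3 : MvPolynomial.eval₂ (cst F₀ j) (ratio F₀ j) g ∈ (PrimeSpectrum.comap φ ⊥).asIdeal ↔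
      φ (MvPolynomial.eval₂ (cst F₀ j) (ratio F₀ j) g) = 0 := by
    show φ (MvPolynomial.eval₂ (cst F₀ j) (ratio F₀ j) g) ∈ (⊥ : PrimeSpectrum K).asIdeal ↔ _
    exact Ideal.mem_bot
  rw [h3, MvPolynomial.hom_eval₂]

instance : IsProper (psStr F₀ m) := by
  classical
  have h1 : Function.Bijective (algebraMap (𝓞 F₀) ((G F₀ m) 0)) := by
    constructor
    · intro a b hab
      have := congrArg Subtype.val hab
      exact MvPolynomial.C_injective _ _ this
    · rintro ⟨p, hp⟩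
      have hp' : p.IsHomogeneous 0 := hp
      refine ⟨MvPolynomial.coeff 0 p, Subtype.ext ?_⟩
      have h2 := MvPolynomial.totalDegree_eq_zero_iff_eq_C.1
        (Nat.le_zero.1 hp'.totalDegree_le)
      exact h2.symm
  have h2 : IsIso (Spec.map (CommRingCat.ofHom
      (algebraMap (𝓞 F₀) ((G F₀ m) 0)))) := by
    have h3 : IsIso (CommRingCat.ofHom (algebraMap (𝓞 F₀) ((G F₀ m) 0))) :=
      (ConcreteCategory.isIso_iff_bijective _).2 h1
    infer_instance
  have h3 : Algebra.FiniteType ((G F₀ m) 0) (MvPolynomial (Fin (m + 1)) (𝓞 F₀)) := by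
    refine ⟨Finset.univ.image MvPolynomial.X, ?_⟩
    rw [eq_top_iff]
    rintro x -
    have hx : x ∈ Algebra.adjoin (𝓞 F₀)
        (Set.range (MvPolynomial.X : Fin (m + 1) → MvPolynomial (Fin (m + 1)) (𝓞 F₀))) := by
      rw [MvPolynomial.adjoin_range_X]; trivial
    induction hx using Algebra.adjoin_induction with
    | mem x hx =>
      obtain ⟨i, rfl⟩ := hx
      exact Algebra.subset_adjoin (by simp)
    | algebraMap r =>
      exact Subalgebra.algebraMap_mem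
        (Algebra.adjoin ((G F₀ m) 0) _)
        (⟨MvPolynomial.C r, MvPolynomial.isHomogeneous_C _ _⟩ : (G F₀ m) 0)
    | add x y _ _ h1 h2 => exact add_mem h1 h2
    | mul x y _ _ h1 h2 => exact mul_mem h1 h2
  have h4 : IsProper (Proj.toSpecZero (G F₀ m)) := inferInstance
  unfold psStr
  infer_instance

/-- the open subscheme where one of the first `s + 1` coordinates is invertible -/
def Us (F₀ : Type) [Field F₀] (m s : ℕ) : (PS F₀ m).Opens :=
  ⨆ k : {k : Fin (m + 1) // (k : ℕ) ≤ s}, (chart F₀ k.1).opensRange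

theorem mem_Us {s : ℕ} {p : PS F₀ m} :
    p ∈ Us F₀ m s ↔ ∃ k : Fin (m + 1), (k : ℕ) ≤ s ∧ p ∈ (chart F₀ k).opensRange := by
  unfold Us
  rw [TopologicalSpace.Opens.mem_iSup]
  exact ⟨fun ⟨k, hk⟩ => ⟨k.1, k.2, hk⟩, fun ⟨k, h, hk⟩ => ⟨⟨k, h⟩, hk⟩⟩

/-- the open subset where one of the equations does not vanish -/
def NE (F₀ : Type) [Field F₀] (m : ℕ) (E : Finset (MvPolynomial (Fin (m + 1)) (𝓞 F₀))) :
    (PS F₀ m).Opens :=
  ⨆ e : {e // e ∈ E}, ⨆ k : Fin (m + 1), Proj.basicOpen (G F₀ m) (e.1 * MvPolynomial.X k)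

theorem mem_NE {E : Finset (MvPolynomial (Fin (m + 1)) (𝓞 F₀))} {p : PS F₀ m} :
    p ∈ NE F₀ m E ↔ ∃ e ∈ E, ∃ k, p ∈ Proj.basicOpen (G F₀ m) (e * MvPolynomial.X k) := by
  unfold NE
  simp only [TopologicalSpace.Opens.mem_iSup]
  exact ⟨fun ⟨e, k, hk⟩ => ⟨e.1, e.2, k, hk⟩, fun ⟨e, h, k, hk⟩ => ⟨⟨e, h⟩, k, hk⟩⟩

theorem mem_NE_iff {E : Finset (MvPolynomial (Fin (m + 1)) (𝓞 F₀))}
    (hE : ∀ e ∈ E, ∃ d, e.IsHomogeneous d) {K : Type} [Field K] (j : Fin (m + 1)) (φ : A F₀ j →+* K) :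
    (Spec.map (CommRingCat.ofHom φ) ≫ chart F₀ j) (⊥ : PrimeSpectrum K) ∈ NE F₀ m E ↔
      ∃ e ∈ E, e.eval₂ (φ.comp (cst F₀ j)) (fun i => φ (ratio F₀ j i)) ≠ 0 := by
  rw [mem_NE]
  constructor
  · rintro ⟨e, he, k, hk⟩
    obtain ⟨d, hd⟩ := hE e he
    rw [mem_basicOpen j φ (d + 1) (Nat.succ_pos _) _ (hd.mul (MvPolynomial.isHomogeneous_X _ _)),
      MvPolynomial.eval₂_mul] at hk
    exact ⟨e, he, left_ne_zero_of_mul hk⟩
  · rintro ⟨e, he, h⟩
    obtain ⟨d, hd⟩ := hE e he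
    refine ⟨e, he, j, ?_⟩
    rw [mem_basicOpen j φ (d + 1) (Nat.succ_pos _) _ (hd.mul (MvPolynomial.isHomogeneous_X _ _)),
      MvPolynomial.eval₂_mul, MvPolynomial.eval₂_X, ratio_self, map_one, mul_one]
    exact h

variable (s : ℕ) (E : Finset (MvPolynomial (Fin (m + 1)) (𝓞 F₀)))

/-- the closed subset defined by the equations, in the open subscheme `Us` -/
def ZE : TopologicalSpace.Closeds (Us F₀ m s).toScheme where
  carrier := (((Us F₀ m s).ι ⁻¹ᵁ (NE F₀ m E) : (Us F₀ m s).toScheme.Opens) :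
    Set (Us F₀ m s).toScheme)ᶜ
  isClosed' := (((Us F₀ m s).ι ⁻¹ᵁ (NE F₀ m E))).isOpen.isClosed_compl

/-- the scheme `V` -/
abbrev VV : Scheme.{0} := (Scheme.IdealSheafData.vanishingIdeal (ZE s E)).subscheme

/-- the inclusion of `V` in the open subscheme -/
abbrev jV : VV s E ⟶ (Us F₀ m s).toScheme := (Scheme.IdealSheafData.vanishingIdeal (ZE s E)).subschemeι

instance : IsClosedImmersion (jV s E) := inferInstance

/-- the inclusion of `V` in projective space -/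
def kV : VV s E ⟶ PS F₀ m := jV s E ≫ (Us F₀ m s).ι

instance : Mono (kV s E) := by unfold kV; infer_instance

theorem range_jV : Set.range (jV s E) = {p | (Us F₀ m s).ι p ∉ NE F₀ m E} := by

  rw [Scheme.IdealSheafData.range_subschemeι, Scheme.IdealSheafData.coe_support_vanishingIdeal]
  rfl

theorem mem_range_kV {p : PS F₀ m} : p ∈ Set.range (kV s E) ↔ p ∈ Us F₀ m s ∧ p ∉ NE F₀ m E := by
  constructor
  · rintro ⟨q, rfl⟩
    have h1 : jV s E q ∈ Set.range (jV s E) := ⟨q, rfl⟩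
    rw [range_jV] at h1
    exact ⟨(jV s E q).2, h1⟩
  · rintro ⟨h1, h2⟩
    have h3 : (⟨p, h1⟩ : Us F₀ m s) ∈ Set.range (jV s E) := by
      rw [range_jV]
      exact h2
    obtain ⟨q, hq⟩ := h3
    refine ⟨q, ?_⟩
    show (Us F₀ m s).ι (jV s E q) = p
    rw [hq]
    rfl

/-- lifting morphisms to `V` -/
theorem lift_kV {R : Type} [CommRing R] [IsDomain R] (g : Spec (CommRingCat.of R) ⟶ PS F₀ m)
    (h1 : Set.range g ⊆ Us F₀ m s) (h2 : g (⊥ : PrimeSpectrum R) ∉ NE F₀ m E) :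
    ∃ y : Spec (CommRingCat.of R) ⟶ VV s E, y ≫ kV s E = g := by
  have h3 : Set.range g ⊆ Set.range (Us F₀ m s).ι := by
    rw [Scheme.Opens.range_ι]
    exact h1
  let g' := IsOpenImmersion.lift (Us F₀ m s).ι g h3
  have hg' : g' ≫ (Us F₀ m s).ι = g := IsOpenImmersion.lift_fac _ _ _
  obtain ⟨y, hy⟩ := (factors_iff_generic (jV s E) g').2 (by
    rw [range_jV]
    show (Us F₀ m s).ι (g' (⊥ : PrimeSpectrum R)) ∉ NE F₀ m E
    have h4 : (Us F₀ m s).ι (g' (⊥ : PrimeSpectrum R)) = g (⊥ : PrimeSpectrum R) := by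
      rw [← hg']
      rfl
    rw [h4]
    exact h2)
  refine ⟨y, ?_⟩
  unfold kV
  rw [← Category.assoc, hy, hg']

/-- the closed subset `x_0 = 0` of `V` -/
def Z0 : TopologicalSpace.Closeds (VV s E) where
  carrier := ((kV s E ⁻¹ᵁ (chart F₀ 0).opensRange : (VV s E).Opens) : Set (VV s E))ᶜ
  isClosed' := (kV s E ⁻¹ᵁ (chart F₀ 0).opensRange).isOpen.isClosed_compl

/-- the scheme `V'` -/
abbrev VV' : Scheme.{0} := (Scheme.IdealSheafData.vanishingIdeal (Z0 s E)).subscheme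

/-- the inclusion of `V'` in `V` -/
abbrev iV : VV' s E ⟶ VV s E := (Scheme.IdealSheafData.vanishingIdeal (Z0 s E)).subschemeι

theorem not_mem_range_iV {p : VV s E} :
    p ∉ Set.range (iV s E) ↔ kV s E p ∈ (chart F₀ 0).opensRange := by
  rw [Scheme.IdealSheafData.range_subschemeι, Scheme.IdealSheafData.coe_support_vanishingIdeal]
  show p ∉ ((kV s E ⁻¹ᵁ (chart F₀ 0).opensRange : (VV s E).Opens) : Set (VV s E))ᶜ ↔ _
  rw [Set.mem_compl_iff, not_not]
  rfl

theorem Us_top (h : s = m) : Us F₀ m s = ⊤ := by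
  rw [eq_top_iff]
  intro p _
  rw [mem_Us]
  obtain ⟨k, hk⟩ := exists_chart p
  exact ⟨k, by have := k.2; omega, hk⟩

theorem isProper_kV (h : s = m) : IsProper (kV s E) := by
  have h1 : IsIso (Us F₀ m s).ι :=
    isIso_of_isOpenImmersion_of_opensRange_eq_top _ (by rw [Scheme.Opens.opensRange_ι, Us_top s h])
  unfold kV
  infer_instance

instance : LocallyOfFiniteType (kV s E) := by unfold kV; infer_instance

theorem quasiCompact_kV [NumberField F₀] : QuasiCompact (kV s E ≫ psStr F₀ m) := by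
  have h1 : IsLocallyNoetherian (PS F₀ m) := LocallyOfFiniteType.isLocallyNoetherian (psStr F₀ m)
  have h2 : QuasiCompact (Us F₀ m s).ι := inferInstance
  unfold kV
  infer_instance

/-- the point with coordinates `x` -/
theorem exists_pt {R : Type} [CommRing R] (ρ : 𝓞 F₀ →+* R) (j : Fin (m + 1)) (x : Fin (m + 1) → R)
    (hx : x j = 1) : ∃ φ : A F₀ j →+* R, φ.comp (cst F₀ j) = ρ ∧ (fun i => φ (ratio F₀ j i)) = x := by
  obtain ⟨φ, h1, h2⟩ := exists_hom ρ j x hx
  exact ⟨φ, h1, funext h2⟩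

theorem over_iff {R : Type} [CommRing R] {j : Fin (m + 1)} (φ : A F₀ j →+* R) (ρ : 𝓞 F₀ →+* R) :
    (Spec.map (CommRingCat.ofHom φ) ≫ chart F₀ j) ≫ psStr F₀ m = Spec.map (CommRingCat.ofHom ρ) ↔
      φ.comp (cst F₀ j) = ρ := by
  rw [Category.assoc, chart_psStr, ← Spec.map_comp, ← CommRingCat.ofHom_comp]
  constructor
  · intro h
    exact congrArg CommRingCat.Hom.hom (Spec.map_injective h)
  · intro h
    rw [h]

theorem range_chart_subset {R : Type} [CommRing R] {j : Fin (m + 1)} (φ : A F₀ j →+* R)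
    (hj : (j : ℕ) ≤ s) : Set.range (Spec.map (CommRingCat.ofHom φ) ≫ chart F₀ j) ⊆ Us F₀ m s := by
  rintro _ ⟨p, rfl⟩
  exact mem_Us.2 ⟨j, hj, ⟨_, rfl⟩⟩


/-- the image of the point of the spectrum of a field -/
theorem map_bot {R K : Type} [CommRing R] [IsDomain R] [Field K] (φ : R →+* K)
    (hφ : Function.Injective φ) :
    Spec.map (CommRingCat.ofHom φ) (⊥ : PrimeSpectrum K) = (⊥ : PrimeSpectrum R) := by
  apply PrimeSpectrum.ext
  change Ideal.comap φ ⊥ = ⊥
  exact (RingHom.injective_iff_ker_eq_bot _).1 hφ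

/-- a morphism from the spectrum of a local ring whose closed point lies in a chart -/
theorem factor_of_closed {R : Type} [CommRing R] [IsLocalRing R]
    (p : Spec (CommRingCat.of R) ⟶ PS F₀ m) (j : Fin (m + 1))
    (hj : p (IsLocalRing.closedPoint R) ∈ (chart F₀ j).opensRange) :
    ∃ φ : A F₀ j →+* R, p = Spec.map (CommRingCat.ofHom φ) ≫ chart F₀ j := by
  have h2 : Set.range p ⊆ Set.range (chart F₀ j) := by
    rintro _ ⟨x, rfl⟩
    have h3 : x ⤳ IsLocalRing.closedPoint R := IsLocalRing.specializes_closedPoint x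
    exact (h3.map p.continuous).mem_open (chart F₀ j).opensRange.isOpen hj
  obtain ⟨ψ, hψ⟩ := Spec.map_surjective (IsOpenImmersion.lift (chart F₀ j) _ h2)
  exact ⟨ψ.hom, by rw [CommRingCat.ofHom_hom, hψ, IsOpenImmersion.lift_fac]⟩

theorem comp_chart {R R' : Type} [CommRing R] [CommRing R'] {j : Fin (m + 1)} (g : R →+* R')
    (ψ : A F₀ j →+* R) : Spec.map (CommRingCat.ofHom (g.comp ψ)) ≫ chart F₀ j =
      Spec.map (CommRingCat.ofHom g) ≫ Spec.map (CommRingCat.ofHom ψ) ≫ chart F₀ j := by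
  rw [CommRingCat.ofHom_comp, Spec.map_comp, Category.assoc]

theorem chart_inj {R : Type} [CommRing R] {j : Fin (m + 1)} {φ ψ : A F₀ j →+* R}
    (h : Spec.map (CommRingCat.ofHom φ) ≫ chart F₀ j = Spec.map (CommRingCat.ofHom ψ) ≫ chart F₀ j) :
    φ = ψ := by
  rw [cancel_mono] at h
  exact congrArg CommRingCat.Hom.hom (Spec.map_injective h)

variable {s E}

/-- the point of `V` with given coordinates -/
theorem exists_point (hE : ∀ e ∈ E, ∃ d, e.IsHomogeneous d) {K : Type} [Field K] (ρ : 𝓞 F₀ →+* K)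
    (u : Fin (m + 1) → K) (h0 : u 0 = 1) (he : ∀ e ∈ E, e.eval₂ ρ u = 0) :
    ∃ (x : Spec (CommRingCat.of K) ⟶ VV s E) (φ : A F₀ (0 : Fin (m + 1)) →+* K),
      φ.comp (cst F₀ 0) = ρ ∧ (fun i => φ (ratio F₀ 0 i)) = u ∧
      x ≫ kV s E = Spec.map (CommRingCat.ofHom φ) ≫ chart F₀ 0 := by
  obtain ⟨φ, h1, h2⟩ := exists_pt ρ 0 u h0
  obtain ⟨x, hx⟩ := lift_kV s E (Spec.map (CommRingCat.ofHom φ) ≫ chart F₀ 0)
    (range_chart_subset s φ (by simp)) (by
      rw [mem_NE_iff hE]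
      rintro ⟨e, h3, h4⟩
      apply h4
      rw [h1, h2]
      exact he e h3)
  exact ⟨x, φ, h1, h2, hx⟩

theorem exists_coords (hE : ∀ e ∈ E, ∃ d, e.IsHomogeneous d) {K : Type} [Field K]
    (x : Spec (CommRingCat.of K) ⟶ VV s E)
    (hx : kV s E (x (⊥ : PrimeSpectrum K)) ∈ (chart F₀ (0 : Fin (m + 1))).opensRange) :
    ∃ φ : A F₀ (0 : Fin (m + 1)) →+* K, x ≫ kV s E = Spec.map (CommRingCat.ofHom φ) ≫ chart F₀ 0 ∧
      ∀ e ∈ E, e.eval₂ (φ.comp (cst F₀ 0)) (fun i => φ (ratio F₀ 0 i)) = 0 := by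
  obtain ⟨φ, hφ⟩ := factor_of_closed (x ≫ kV s E) 0 (by rw [MoveP.closedPoint_eq]; exact hx)
  refine ⟨φ, hφ, ?_⟩
  intro e he
  by_contra h
  have h1 : (Spec.map (CommRingCat.ofHom φ) ≫ chart F₀ 0) (⊥ : PrimeSpectrum K) ∈ NE F₀ m E :=
    (mem_NE_iff hE 0 φ).2 ⟨e, he, h⟩
  rw [← hφ] at h1
  exact ((mem_range_kV s E).1 ⟨x (⊥ : PrimeSpectrum K), rfl⟩).2 h1

theorem hasExt_iff {K : Type} [Field K] (O : ValuationSubring K) (ρ : 𝓞 F₀ →+* K)
    (hρ : ∀ a, ρ a ∈ O) (x : Spec (CommRingCat.of K) ⟶ VV s E) (φ : A F₀ (0 : Fin (m + 1)) →+* K)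
    (h0 : φ.comp (cst F₀ 0) = ρ) (hx : x ≫ kV s E = Spec.map (CommRingCat.ofHom φ) ≫ chart F₀ 0) :
    HasExt O x ↔ ∀ j, ∃ k : Fin (m + 1), (k : ℕ) ≤ s ∧
      O.valuation (φ (ratio F₀ 0 j)) ≤ O.valuation (φ (ratio F₀ 0 k)) := by
  have hinj : Function.Injective (algebraMap O K) := IsFractionRing.injective O K
  constructor
  · rintro ⟨y, hy⟩ j
    have h1 : (y ≫ kV s E) (IsLocalRing.closedPoint O) ∈ Us F₀ m s :=
      ((mem_range_kV s E).1 ⟨y (IsLocalRing.closedPoint O), rfl⟩).1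
    obtain ⟨k, hk, hk'⟩ := mem_Us.1 h1
    obtain ⟨ψ, hψ⟩ := factor_of_closed (y ≫ kV s E) k hk'
    refine ⟨k, hk, ?_⟩
    have h2 : Spec.map (CommRingCat.ofHom φ) ≫ chart F₀ 0 =
        Spec.map (CommRingCat.ofHom ((algebraMap O K).comp ψ)) ≫ chart F₀ k := by
      rw [← hx, ← hy, Category.assoc, hψ, comp_chart (algebraMap O K) ψ]
    rw [transition φ _ h2 j, map_mul]
    have h3 : O.valuation ((algebraMap O K).comp ψ (ratio F₀ k j)) ≤ 1 :=
      O.valuation_le_one (ψ (ratio F₀ k j))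
    calc _ ≤ O.valuation (φ (ratio F₀ 0 k)) * 1 := by gcongr
      _ = _ := mul_one _
  · intro h
    obtain ⟨j₀, hj₀⟩ := Finite.exists_max (fun j => O.valuation (φ (ratio F₀ (0 : Fin (m + 1)) j)))
    obtain ⟨k, hk, hk'⟩ := h j₀
    have hmax : ∀ i, O.valuation (φ (ratio F₀ 0 i)) ≤ O.valuation (φ (ratio F₀ 0 k)) :=
      fun i => (hj₀ i).trans hk'
    have hne : φ (ratio F₀ 0 k) ≠ 0 := by
      intro h1
      have h2 := hmax 0
      rw [h1, map_zero, ratio_self, map_one, map_one] at h2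
      exact absurd h2 (by simp)
    have hO : ∀ i, φ (ratio F₀ 0 i) / φ (ratio F₀ 0 k) ∈ O := by
      intro i
      rw [← O.valuation_le_one_iff, map_div₀]
      have h3 : O.valuation (φ (ratio F₀ 0 k)) ≠ 0 := (O.valuation.ne_zero_iff).2 hne
      rw [div_le_one₀ (zero_lt_iff.2 h3)]
      exact hmax i
    let ρ' : 𝓞 F₀ →+* O := ρ.codRestrict O.toSubring hρ
    obtain ⟨ψ, hψ1, hψ2⟩ := exists_pt (F₀ := F₀) (m := m) ρ' k
      (fun i => ⟨φ (ratio F₀ 0 i) / φ (ratio F₀ 0 k), hO i⟩) (Subtype.ext (div_self hne))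
    have h4 : (algebraMap O K).comp ρ' = ρ := rfl
    have h5 : Spec.map (CommRingCat.ofHom φ) ≫ chart F₀ 0 =
        Spec.map (CommRingCat.ofHom ((algebraMap O K).comp ψ)) ≫ chart F₀ k := by
      apply MoveP.coords_unique φ _ _ (φ (ratio F₀ 0 k))⁻¹ (inv_ne_zero hne)
      · intro i
        rw [RingHom.comp_apply, congrFun hψ2 i]
        show φ (ratio F₀ 0 i) / φ (ratio F₀ 0 k) = _
        rw [div_eq_inv_mul]
      · rw [chart_psStr, chart_psStr, ← Spec.map_comp, ← Spec.map_comp, ← CommRingCat.ofHom_comp,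
          ← CommRingCat.ofHom_comp, RingHom.comp_assoc, hψ1, h0, h4]
    have h6 : Spec.map (CommRingCat.ofHom (algebraMap O K)) ≫
        Spec.map (CommRingCat.ofHom ψ) ≫ chart F₀ k = x ≫ kV s E := by
      rw [hx, h5, comp_chart (algebraMap O K) ψ]
    obtain ⟨y, hy⟩ := lift_kV s E (Spec.map (CommRingCat.ofHom ψ) ≫ chart F₀ k)
      (range_chart_subset s ψ hk) (by
        have h7 := ((mem_range_kV s E).1 ⟨x (⊥ : PrimeSpectrum K), rfl⟩).2
        have h8 : kV s E (x (⊥ : PrimeSpectrum K)) =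
            (Spec.map (CommRingCat.ofHom ψ) ≫ chart F₀ k) (⊥ : PrimeSpectrum O) := by
          rw [← map_bot (algebraMap O K) hinj]
          show (x ≫ kV s E) (⊥ : PrimeSpectrum K) = _
          rw [← h6]
          rfl
        rw [h8] at h7
        exact h7)
    refine ⟨y, ?_⟩
    rw [← cancel_mono (kV s E), Category.assoc, hy, h6]

end Bk

open Bk in
/-- A system of homogeneous equations describes a quasi-projective scheme. -/
theorem backward {F₀ : Type} [Field F₀] [NumberField F₀] (S : Sys F₀)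
    (hS : ∀ e ∈ S.E, ∃ d, e.IsHomogeneous d) :
    ∃ (V V' : Scheme.{0}) (π : V ⟶ Sep.SpO F₀) (i : V' ⟶ V), LocallyOfFiniteType π ∧ QuasiCompact π ∧
      IsClosedImmersion i ∧ (S.s = S.m → IsProper π) ∧ Describes π i fun _ : Unit => S := by
  refine ⟨VV S.s S.E, VV' S.s S.E, kV S.s S.E ≫ psStr F₀ S.m, iV S.s S.E, inferInstance,
    quasiCompact_kV S.s S.E, inferInstance, ?_, ?_⟩
  · intro h
    have := isProper_kV S.s S.E h
    infer_instance
  intro K _ ρ 𝒱 h𝒱
  have key := fun (u : CPts S ρ 𝒱) => exists_point (s := S.s) hS ρ u.1 u.2.1 u.2.2.1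
  choose θ Φ h1 h2 h3 using key
  refine ⟨fun _ => θ, fun _ => ?_, ?_, ?_⟩
  · intro u u' h
    change θ u = θ u' at h
    apply Subtype.ext
    rw [← h2 u, ← h2 u']
    have h4 : Φ u = Φ u' := chart_inj (by rw [← h3, ← h3, h])
    rw [h4]
  · ext x
    simp only [Set.mem_iUnion, Set.mem_range, exists_const]
    constructor
    · rintro ⟨hx1, hx2, hx3⟩
      obtain ⟨φ, hφ, he⟩ := exists_coords hS x ((not_mem_range_iV S.s S.E).1 hx2)
      have h0 : φ.comp (cst F₀ 0) = ρ := by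
        rw [← over_iff φ ρ, ← hφ, Category.assoc]
        exact hx1
      rw [h0] at he
      let u : CPts S ρ 𝒱 := ⟨fun i => φ (ratio F₀ 0 i), by
        show φ (ratio F₀ 0 0) = 1
        rw [ratio_self, map_one], he, fun O hO =>
          (hasExt_iff O ρ (h𝒱 O hO) x φ h0 hφ).1 (hx3 O hO)⟩
      refine ⟨u, ?_⟩
      rw [← cancel_mono (kV S.s S.E), h3 u, hφ]
      have h5 : Φ u = φ := by
        apply PSpace.hom_ext
        · rw [h1 u, h0]
        · intro i
          exact congrFun (h2 u) i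
      rw [h5]
    · rintro ⟨u, rfl⟩
      refine ⟨?_, ?_, ?_⟩
      · rw [← Category.assoc, h3 u, over_iff]
        exact h1 u
      · rw [not_mem_range_iV]
        show (θ u ≫ kV S.s S.E) (⊥ : PrimeSpectrum K) ∈ _
        rw [h3 u]
        exact ⟨_, rfl⟩
      · intro O hO
        rw [hasExt_iff O ρ (h𝒱 O hO) (θ u) (Φ u) (h1 u) (h3 u)]
        intro j
        obtain ⟨k, hk, hk'⟩ := u.2.2.2 O hO j
        refine ⟨k, hk, ?_⟩
        rw [congrFun (h2 u) j, congrFun (h2 u) k]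
        exact hk'
  · intro k _ τ ρ₀ hρ _ u
    have hτ : Function.Injective τ := τ.injective
    constructor
    · rintro ⟨p, hp⟩ j
      change Spec.map (CommRingCat.ofHom τ) ≫ p = θ u at hp
      have h4 : (p ≫ kV S.s S.E) (IsLocalRing.closedPoint k) ∈
          (chart F₀ (0 : Fin (S.m + 1))).opensRange := by
        rw [MoveP.closedPoint_eq, ← map_bot τ hτ]
        show (Spec.map (CommRingCat.ofHom τ) ≫ p ≫ kV S.s S.E) (⊥ : PrimeSpectrum K) ∈ _
        rw [← Category.assoc, hp, h3 u]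
        exact ⟨_, rfl⟩
      obtain ⟨ψ, hψ⟩ := factor_of_closed (p ≫ kV S.s S.E) 0 h4
      have h5 : τ.comp ψ = Φ u := by
        apply chart_inj
        rw [← h3 u, ← hp, Category.assoc, hψ, CommRingCat.ofHom_comp, Spec.map_comp,
          Category.assoc]
      rw [← congrFun (h2 u) j, ← h5]
      exact ⟨_, rfl⟩
    · intro h
      choose w hw using h
      have hw0 : w 0 = 1 := hτ (by rw [hw, map_one]; exact u.2.1)
      have he : ∀ e ∈ S.E, e.eval₂ ρ₀ w = 0 := by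
        intro e he
        apply hτ
        rw [MvPolynomial.hom_eval₂, map_zero, ← hρ]
        have h4 : (fun i => τ (w i)) = u.1 := funext hw
        rw [h4]
        exact u.2.2.1 e he
      obtain ⟨p, ψ, h5, h6, h7⟩ := exists_point (s := S.s) hS ρ₀ w hw0 he
      refine ⟨p, ?_⟩
      rw [← cancel_mono (kV S.s S.E), Category.assoc, h7, h3 u, ← Category.assoc, ← Spec.map_comp,
        ← CommRingCat.ofHom_comp]
      have h8 : τ.comp ψ = Φ u := by
        apply PSpace.hom_ext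
        · rw [RingHom.comp_assoc, h5, h1 u, hρ]
        · intro i
          rw [RingHom.comp_apply, congrFun h6 i, hw, congrFun (h2 u) i]
      rw [h8]

end Pool.Agent.Work.MP_e97a4d_nt.Hyp

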