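import Pool.Agent.Work.MP_e97a4d_nt.Hyp.FinalDefs

set_option autoImplicit false

noncomputable section

namespace Pool.Agent.Work.MP_e97a4d_nt.Hyp

open IsDedekindDomain NumberField Filter

variable {F₀ : Type} [Field F₀]

private theorem bridge_eval (σ : F₀ →+* ℂ) {m : ℕ} (f : MvPolynomial (Fin (m + 1)) (𝓞 F₀))
    (u : Fin (m + 1) → ℂ → ℂ) (hu : ∀ k, Meromorphic (u k)) :
    ∃ h : Meromorphic (fun z => f.eval₂ (σ.comp (algebraMap (𝓞 F₀) F₀)) (fun k => u k z)),
      f.eval₂ (rhoM σ) (fun k => mk (u k) (hu k)) =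
        mk (fun z => f.eval₂ (σ.comp (algebraMap (𝓞 F₀) F₀)) (fun k => u k z)) h := by
  induction f using MvPolynomial.induction_on with
  | C a =>
    simp only [MvPolynomial.eval₂_C]
    exact ⟨Meromorphic.const _, rfl⟩
  | add p q hp hq =>
    obtain ⟨h1, e1⟩ := hp
    obtain ⟨h2, e2⟩ := hq
    simp only [MvPolynomial.eval₂_add]
    refine ⟨h1.add h2, ?_⟩
    rw [e1, e2, mk_add]
    rfl
  | mul_X p k hp =>
    obtain ⟨h1, e1⟩ := hp
    simp only [MvPolynomial.eval₂_mul, MvPolynomial.eval₂_X]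
    refine ⟨h1.mul (hu k), ?_⟩
    rw [e1, mk_mul]
    rfl

private theorem bridge_val (z : ℂ) (u v : Mero) :
    (Mz z).valuation u ≤ (Mz z).valuation v ↔ ord z v ≤ ord z u := by
  by_cases hv : v = 0
  · subst hv
    rw [map_zero, le_zero_iff, map_eq_zero, (ord_eq_top_iff z 0).2 rfl, top_le_iff, ord_eq_top_iff]
  · by_cases hu : u = 0
    · subst hu
      rw [map_zero, (ord_eq_top_iff z 0).2 rfl]
      simp
    · have h1 : (Mz z).valuation u ≤ (Mz z).valuation v ↔ (Mz z).valuation (u * v⁻¹) ≤ 1 := by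
        rw [map_mul, map_inv₀]
        have h0 : (0 : (Mz z).ValueGroup) < (Mz z).valuation v :=
          zero_lt_iff.2 ((Valuation.ne_zero_iff _).2 hv)
        rw [← div_eq_mul_inv, div_le_one₀ h0]
      rw [h1, ValuationSubring.valuation_le_one_iff, mem_Mz, ord_mul, ord_inv]
      have hu' : ord z u ≠ ⊤ := fun h => hu ((ord_eq_top_iff z u).1 h)
      have hv' : ord z v ≠ ⊤ := fun h => hv ((ord_eq_top_iff z v).1 h)
      obtain ⟨a, ha⟩ := WithTop.ne_top_iff_exists.1 hu'
      obtain ⟨b, hb⟩ := WithTop.ne_top_iff_exists.1 hv'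
      rw [← ha, ← hb]
      have e : ((a : WithTop ℤ) + -(b : WithTop ℤ)) = ((a + -b : ℤ) : WithTop ℤ) := rfl
      rw [e]
      have e0 : (0 : WithTop ℤ) = ((0 : ℤ) : WithTop ℤ) := rfl
      rw [e0, WithTop.coe_le_coe, WithTop.coe_le_coe]
      omega

theorem curveCond_iff (σ : F₀ →+* ℂ) {m s : ℕ} (hs : s ≤ m) (f : MvPolynomial (Fin (m + 1)) (𝓞 F₀)) :
    CurveCond σ s f ↔ CurveS σ (oneSys hs f) := by
  constructor
  · intro H (u : Fin (m + 1) → Mero) hu (j : Fin (m + 1))
    obtain ⟨h1, h2, h3⟩ := hu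
    change ∀ e ∈ ({f} : Finset (MvPolynomial (Fin (m + 1)) (𝓞 F₀))), _ at h2
    have h2' : f.eval₂ (rhoM σ) u = 0 := h2 f (Finset.mem_singleton_self f)
    have hmk : (fun k => mk (rep (u k)) (rep_mero (u k))) = u := by
      funext k
      exact mk_rep _
    obtain ⟨hm, he⟩ := bridge_eval σ f (fun k => rep (u k)) (fun k => rep_mero (u k))
    rw [hmk, h2', eq_comm, mk_eq_zero_iff] at he
    have h1' : mk (rep (u 0)) (rep_mero (u 0)) = mk 1 (Meromorphic.const 1) := by
      rw [mk_rep, mk_one]; exact h1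
    rw [mk_eq_iff] at h1'
    obtain ⟨c, hc⟩ := H (fun k => rep (u k)) (fun k => rep_mero (u k))
      (by
        filter_upwards [he, h1'] with z hz1 hz2
        exact ⟨hz2, hz1⟩)
      (by
        intro z j
        obtain ⟨k, hk, hk2⟩ := h3 (Mz z) ⟨z, rfl⟩ j
        exact ⟨k, hk, (bridge_val z _ _).1 hk2⟩) j
    refine ⟨c, ?_⟩
    rw [← mk_const, ← mk_rep (u j), mk_eq_iff]
    filter_upwards [hc] with z hz
    exact hz.symm
  · intro H u hu h1 h3 k
    obtain ⟨hm, he⟩ := bridge_eval σ f u hu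
    have hmem : (fun k => mk (u k) (hu k)) ∈ CPts (oneSys hs f) (rhoM σ) VM := by
      refine ⟨?_, ?_, ?_⟩
      · change mk (u 0) (hu 0) = 1
        rw [← mk_one, mk_eq_iff]
        filter_upwards [h1] with z hz
        exact hz.1
      · intro e hef
        have hef' : e = f := Finset.mem_singleton.1 hef
        rw [hef']
        refine he.trans ?_
        rw [mk_eq_zero_iff]
        filter_upwards [h1] with z hz
        exact hz.2
      · rintro O ⟨z, rfl⟩ j
        obtain ⟨k, hk, hk2⟩ := h3 z j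
        refine ⟨k, hk, (bridge_val z _ _).2 ?_⟩
        rw [ord_mk, ord_mk]
        exact hk2
    obtain ⟨c, hc⟩ := H _ hmem k
    refine ⟨c, ?_⟩
    have hc' : mk (fun _ => c) (Meromorphic.const c) = mk (u k) (hu k) := by
      rw [mk_const]; exact hc
    rw [mk_eq_iff] at hc'
    filter_upwards [hc'] with z hz
    exact hz.symm

theorem pointCond_iff {m s : ℕ} (hs : s ≤ m) (f : MvPolynomial (Fin (m + 1)) (𝓞 F₀)) :
    PointCond s f ↔ PointS (oneSys hs f) := by
  have key : ∀ (F : Type) [Field F] [NumberField F] [Algebra F₀ F]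
      (T : Finset (HeightOneSpectrum (𝓞 F))),
      CPts (oneSys hs f) (rhoF F₀ F) (VF F T) =
        {u : Fin (m + 1) → F | u 0 = 1 ∧
          f.eval₂ ((algebraMap F₀ F).comp (algebraMap (𝓞 F₀) F₀)) u = 0 ∧
          ∀ v ∉ T, ∀ j : Fin (m + 1), ∃ k : Fin (m + 1), (k : ℕ) ≤ s ∧
            v.valuation F (u j) ≤ v.valuation F (u k)} := by
    intro F _ _ _ T
    ext u
    constructor
    · rintro ⟨h1, h2, h3⟩
      refine ⟨h1, h2 f (Finset.mem_singleton_self f), ?_⟩
      intro v hv j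
      obtain ⟨k, hk, hk2⟩ := h3 _ ⟨v, hv, rfl⟩ j
      exact ⟨k, hk, ((v.valuation F).isEquiv_valuation_valuationSubring _ _).2 hk2⟩
    · rintro ⟨h1, h2, h3⟩
      refine ⟨h1, ?_, ?_⟩
      · intro e he
        have he' : e = f := Finset.mem_singleton.1 he
        rw [he']
        exact h2
      · rintro O ⟨v, hv, rfl⟩ j
        obtain ⟨k, hk, hk2⟩ := h3 v hv j
        exact ⟨k, hk, ((v.valuation F).isEquiv_valuation_valuationSubring _ _).1 hk2⟩
  unfold PointCond PointS
  constructor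
  · intro H F _ _ _ T
    rw [key F T]
    exact H F T
  · intro H F _ _ _ T
    have := H F T
    rw [key F T] at this
    exact this

end Pool.Agent.Work.MP_e97a4d_nt.Hyp
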