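import Pool.Agent.Work.MP_e97a4d_nt.Hyp.Trans

set_option autoImplicit false

noncomputable section

namespace Pool.Agent.Work.MP_e97a4d_nt.Hyp

open AlgebraicGeometry CategoryTheory IsDedekindDomain NumberField
open Pool.Agent.Work.MP_e97a4d_nt
open Vp Filter
open scoped Topology

variable {F₀ : Type} [Field F₀] {σ : F₀ →+* ℂ} {V V' : Scheme.{0}}

/-- the representative in normal form -/
def pcNf (u : Mero) : ℂ → ℂ := toMeromorphicNFOn (rep u) Set.univ

theorem pcNf_eventually (u : Mero) (z : ℂ) : rep u =ᶠ[𝓝[≠] z] pcNf u := by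
  have hf : MeromorphicOn (rep u) Set.univ := fun w _ => rep_mero u w
  exact (hf.toMeromorphicNFOn_eq_self_on_nhdsNE (Set.mem_univ z)).symm

theorem pcNf_analytic {u : Mero} {z : ℂ} (h : u ∈ Mz z) : AnalyticAt ℂ (pcNf u) z := by
  have hf : MeromorphicOn (rep u) Set.univ := fun w _ => rep_mero u w
  have h1 : MeromorphicNFAt (pcNf u) z :=
    meromorphicNFOn_toMeromorphicNFOn (rep u) Set.univ (Set.mem_univ z)
  rw [← h1.meromorphicOrderAt_nonneg_iff_analyticAt]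
  show 0 ≤ meromorphicOrderAt (toMeromorphicNFOn (rep u) Set.univ) z
  rw [meromorphicOrderAt_toMeromorphicNFOn hf (Set.mem_univ z)]
  exact h

theorem pcNf_evz {u : Mero} {z : ℂ} (h : u ∈ Mz z) : evz z ⟨u, h⟩ = pcNf u z := by
  refine evz_eq (f := rep u) (hf := rep_mero u) (mk_rep u).symm ?_
  have h1 : Tendsto (pcNf u) (𝓝[≠] z) (𝓝 (pcNf u z)) :=
    (pcNf_analytic h).continuousAt.tendsto.mono_left nhdsWithin_le_nhds
  exact h1.congr' (pcNf_eventually u z).symm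

theorem pc_eventually_mem (u : Mero) (z : ℂ) : ∀ᶠ w in 𝓝[≠] z, u ∈ Mz w := by
  filter_upwards [(rep_mero u z).eventually_analyticAt] with w hw
  exact hw.meromorphicOrderAt_nonneg

theorem pc_eventually_mem' {u : Mero} {z : ℂ} (h : u ∈ Mz z) : ∀ᶠ w in 𝓝 z, u ∈ Mz w := by
  have h1 := pc_eventually_mem u z
  rw [eventually_nhdsWithin_iff] at h1
  filter_upwards [h1] with w hw
  by_cases hwz : w = z
  · rw [hwz]; exact h
  · exact hw hwz

/-- if the values of `u` are `0` outside a discrete set then `u = 0` -/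
theorem pc_eq_zero {u : Mero} {z : ℂ} (h : ∀ᶠ w in 𝓝[≠] z, pcNf u w = 0) : u = 0 := by
  rw [← ord_eq_top_iff z u]
  apply meromorphicOrderAt_eq_top_iff.2
  filter_upwards [h, pcNf_eventually u z] with w hw hw'
  rw [hw', hw]

/-- a chart of a scheme with a point with values in the field of meromorphic functions -/
structure PcChart (π : V ⟶ Sep.SpO F₀) (x : Spec (CommRingCat.of Mero) ⟶ V) where
  A : CommRingCat.{0}
  j : Spec A ⟶ V
  oj : IsOpenImmersion j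
  φ : A →+* Mero
  hφ : Spec.map (CommRingCat.ofHom φ) ≫ j = x
  α : 𝓞 F₀ →+* A
  hα : j ≫ π = Spec.map (CommRingCat.ofHom α)
  ft : α.FiniteType

variable {π : V ⟶ Sep.SpO F₀} {x : Spec (CommRingCat.of Mero) ⟶ V}

/-- the point of the chart at `z` -/
def PcChart.ev (C : PcChart π x) (z : ℂ) (h : ∀ a, C.φ a ∈ Mz z) : Spec (CommRingCat.of ℂ) ⟶ V :=
  Spec.map (CommRingCat.ofHom ((evz z).comp (C.φ.codRestrict (Mz z).toSubring h))) ≫ C.j

theorem PcChart.hom_apply (C : PcChart π x) (z : ℂ) (h : ∀ a, C.φ a ∈ Mz z) (a : C.A) :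
    (evz z).comp (C.φ.codRestrict (Mz z).toSubring h) a = pcNf (C.φ a) z :=
  pcNf_evz (h a)

theorem PcChart.phi_alpha (C : PcChart π x) (hx : x ≫ π = Spec.map (CommRingCat.ofHom (rhoM σ)))
    (r : 𝓞 F₀) : C.φ (C.α r) = algebraMap ℂ Mero (σ (algebraMap (𝓞 F₀) F₀ r)) := by
  rw [← C.hφ, Category.assoc, C.hα, ← Spec.map_comp] at hx
  have h3 := congrArg CommRingCat.Hom.hom (Spec.map_injective hx)
  exact RingHom.congr_fun h3 r

/-- a chart of finite type is good near every good point, and outside a discrete set -/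
theorem PcChart.exists_gens (C : PcChart π x) (hx : x ≫ π = Spec.map (CommRingCat.ofHom (rhoM σ))) :
    ∃ s : Finset C.A, ∀ z : ℂ, (∀ a ∈ s, C.φ a ∈ Mz z) → ∀ a, C.φ a ∈ Mz z := by
  let _ : Algebra (𝓞 F₀) C.A := C.α.toAlgebra
  have hft : Algebra.FiniteType (𝓞 F₀) C.A := C.ft
  obtain ⟨s, hs⟩ := hft.out
  refine ⟨s, fun z hz a => ?_⟩
  have ha : a ∈ Algebra.adjoin (𝓞 F₀) (s : Set C.A) := by rw [hs]; trivial
  induction ha using Algebra.adjoin_induction with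
  | mem a ha => exact hz a ha
  | algebraMap r =>
    have h1 : C.φ (algebraMap (𝓞 F₀) C.A r) = _ := C.phi_alpha hx r
    rw [h1]
    exact algebraMap_mem_Mz _ _
  | add a b _ _ ha hb => rw [map_add]; exact add_mem ha hb
  | mul a b _ _ ha hb => rw [map_mul]; exact mul_mem ha hb

theorem PcChart.eventually (C : PcChart π x) (hx : x ≫ π = Spec.map (CommRingCat.ofHom (rhoM σ)))
    (z : ℂ) : ∀ᶠ w in 𝓝[≠] z, ∀ a, C.φ a ∈ Mz w := by
  obtain ⟨s, hs⟩ := C.exists_gens hx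
  have h1 : ∀ᶠ w in 𝓝[≠] z, ∀ a ∈ s, C.φ a ∈ Mz w :=
    (eventually_all_finset s).2 fun a _ => pc_eventually_mem _ z
  filter_upwards [h1] with w hw
  exact hs w hw

theorem PcChart.eventually' (C : PcChart π x) (hx : x ≫ π = Spec.map (CommRingCat.ofHom (rhoM σ)))
    {z : ℂ} (h : ∀ a, C.φ a ∈ Mz z) : ∀ᶠ w in 𝓝 z, ∀ a, C.φ a ∈ Mz w := by
  obtain ⟨s, hs⟩ := C.exists_gens hx
  have h1 : ∀ᶠ w in 𝓝 z, ∀ a ∈ s, C.φ a ∈ Mz w :=
    (eventually_all_finset s).2 fun a _ => pc_eventually_mem' (h a)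
  filter_upwards [h1] with w hw
  exact hs w hw

theorem PcChart.mem (C C' : PcChart π x) :
    (Spec.map (CommRingCat.ofHom C.φ) ≫ C.j) (⊥ : PrimeSpectrum Mero) ∈ Set.range C'.j := by
  have h : (Spec.map (CommRingCat.ofHom C'.φ) ≫ C'.j) (⊥ : PrimeSpectrum Mero) ∈ Set.range C'.j :=
    ⟨_, rfl⟩
  exact (congrArg (fun y : Spec (CommRingCat.of Mero) ⟶ V =>
    y (⊥ : PrimeSpectrum Mero) ∈ Set.range C'.j) (C'.hφ.trans C.hφ.symm)).mp h

/-- two charts give the same points outside a discrete set -/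
theorem PcChart.compat (C₁ C₂ : PcChart π x) (z : ℂ) :
    ∀ᶠ w in 𝓝[≠] z, ∀ (h₁ : ∀ a, C₁.φ a ∈ Mz w) (h₂ : ∀ a, C₂.φ a ∈ Mz w),
      C₁.ev w h₁ = C₂.ev w h₂ := by
  have := C₁.oj
  have := C₂.oj
  have hm : (Spec.map (CommRingCat.ofHom C₁.φ) ≫ C₁.j) (⊥ : PrimeSpectrum Mero) ∈ C₂.j.opensRange :=
    C₁.mem C₂
  obtain ⟨a, ha, haj⟩ := exists_elt C₁.j C₁.φ C₂.j.opensRange hm
  obtain ⟨β, k, htr⟩ := transition C₁.j C₂.j a haj
  obtain ⟨g₂, hg₂, hg₂'⟩ := htr Mero C₁.φ ha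
  have h3 : C₂.φ = g₂ := by
    apply map_comp_inj C₂.j
    rw [C₂.hφ, ← hg₂, C₁.hφ]
  have hne : ∀ᶠ w in 𝓝[≠] z, pcNf (C₁.φ a) w ≠ 0 := by
    have h4 := (meromorphicOrderAt_ne_top_iff_eventually_ne_zero (rep_mero (C₁.φ a) z)).1
      (fun h => ha ((ord_eq_top_iff z _).1 h))
    filter_upwards [h4, pcNf_eventually (C₁.φ a) z] with w hw hw'
    rwa [← hw']
  filter_upwards [hne] with w hw h₁ h₂
  set ψ₁ := (evz w).comp (C₁.φ.codRestrict (Mz w).toSubring h₁) with hψ₁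
  set ψ₂ := (evz w).comp (C₂.φ.codRestrict (Mz w).toSubring h₂) with hψ₂
  have hw' : ψ₁ a ≠ 0 := by
    rw [hψ₁, C₁.hom_apply]
    exact hw
  obtain ⟨γ, hγ, hγ'⟩ := htr ℂ ψ₁ hw'
  have h5 : ψ₂ = γ := by
    ext c
    rw [hγ' c, eq_div_iff (pow_ne_zero _ hw')]
    have h6 : (C₂.φ.codRestrict (Mz w).toSubring h₂) c *
        ((C₁.φ.codRestrict (Mz w).toSubring h₁) a) ^ k c =
        (C₁.φ.codRestrict (Mz w).toSubring h₁) (β c) := by
      apply Subtype.ext
      show C₂.φ c * C₁.φ a ^ k c = C₁.φ (β c)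
      rw [h3, hg₂' c, div_mul_cancel₀ _ (pow_ne_zero _ ha)]
    have h7 := congrArg (evz w) h6
    rw [map_mul, map_pow] at h7
    exact h7
  show Spec.map (CommRingCat.ofHom ψ₁) ≫ C₁.j = Spec.map (CommRingCat.ofHom ψ₂) ≫ C₂.j
  rw [h5, hγ]

/-- charts at the points -/
theorem pc_exists_chart [LocallyOfFiniteType π] (z : ℂ) (h : HasExt (Mz z) x) :
    ∃ C : PcChart π x, ∀ a, C.φ a ∈ Mz z := by
  obtain ⟨y, hy⟩ := h
  obtain ⟨U, hU, hpU, -⟩ := exists_isAffineOpen_mem_and_subset (X := V)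
    (x := y (IsLocalRing.closedPoint (Mz z))) (U := ⊤) trivial
  have h1 : (y ⁻¹ᵁ U : (Spec (CommRingCat.of (Mz z))).Opens) = ⊤ :=
    (IsLocalRing.closedPoint_mem_iff (R := Mz z) _).1 hpU
  have h2 : Set.range y ⊆ Set.range hU.fromSpec := by
    rintro _ ⟨t, rfl⟩
    rw [hU.range_fromSpec]
    have h3 : t ∈ (y ⁻¹ᵁ U : (Spec (CommRingCat.of (Mz z))).Opens) := by rw [h1]; trivial
    exact h3
  obtain ⟨θ, hθ⟩ := Spec.map_surjective (IsOpenImmersion.lift hU.fromSpec y h2)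
  have hθ' : Spec.map θ ≫ hU.fromSpec = y := by rw [hθ, IsOpenImmersion.lift_fac]
  obtain ⟨α, hα⟩ := Spec.map_surjective (hU.fromSpec ≫ π)
  have hft : LocallyOfFiniteType (Spec.map α) := by
    rw [hα]; infer_instance
  have hft' : α.hom.FiniteType := by
    rw [HasRingHomProperty.Spec_iff (P := @LocallyOfFiniteType)] at hft
    exact hft
  refine ⟨⟨Γ(V, U), hU.fromSpec, inferInstance, (algebraMap (Mz z) Mero).comp θ.hom, ?_, α.hom,
    hα.symm, hft'⟩, fun a => (θ.hom a).2⟩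
  rw [← hy, ← hθ', ← Category.assoc, ← Spec.map_comp]
  rfl

/-- A nonconstant point with values in the field of meromorphic functions, which extends over all
valuation rings of holomorphic germs, gives an entire curve. -/
theorem pt_to_curve (π : V ⟶ Sep.SpO F₀) [LocallyOfFiniteType π] (i : V' ⟶ V) [IsClosedImmersion i]
    (x : Spec (CommRingCat.of Mero) ⟶ V) (hx : x ∈ Pts π i (rhoM σ) VM)
    (hc : ¬ ∃ p : Spec (CommRingCat.of ℂ) ⟶ V,
      Spec.map (CommRingCat.ofHom (algebraMap ℂ Mero)) ≫ p = x) :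
    ∃ f : ℂ → (Spec (CommRingCat.of ℂ) ⟶ V), IsEntireCurve σ π f ∧
      ∃ z, ¬ ∃ p : Spec (CommRingCat.of ℂ) ⟶ V', p ≫ i = f z := by
  classical
  obtain ⟨hx1, hx2, hx3⟩ := hx
  have hch : ∀ z, ∃ C : PcChart π x, ∀ a, C.φ a ∈ Mz z := fun z =>
    pc_exists_chart z (hx3 _ ⟨z, rfl⟩)
  choose Cz hCz using hch
  set C₀ := Cz 0 with hC₀
  let f : ℂ → (Spec (CommRingCat.of ℂ) ⟶ V) := fun z =>
    if h : ∀ a, C₀.φ a ∈ Mz z then C₀.ev z h else (Cz z).ev z (hCz z)
  have hf0 : ∀ z (h : ∀ a, C₀.φ a ∈ Mz z), f z = C₀.ev z h := fun z h => dif_pos h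
  have hf1 : ∀ z (_ : ¬ ∀ a, C₀.φ a ∈ Mz z), f z = (Cz z).ev z (hCz z) := fun z h => dif_neg h
  -- near every point the curve is given by one chart
  have hloc : ∀ z, ∃ C : PcChart π x, ∀ᶠ w in 𝓝 z, ∃ h : ∀ a, C.φ a ∈ Mz w, f w = C.ev w h := by
    intro z
    by_cases hz : ∀ a, C₀.φ a ∈ Mz z
    · refine ⟨C₀, ?_⟩
      filter_upwards [C₀.eventually' hx1 hz] with w hw
      exact ⟨hw, hf0 w hw⟩
    · refine ⟨Cz z, ?_⟩
      have h1 := C₀.eventually hx1 z
      have h2 := C₀.compat (Cz z) z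
      rw [eventually_nhdsWithin_iff] at h1 h2
      filter_upwards [h1, h2, (Cz z).eventually' hx1 (hCz z)] with w hw1 hw2 hw3
      refine ⟨hw3, ?_⟩
      by_cases hwz : w = z
      · subst hwz
        exact hf1 w hz
      · rw [hf0 w (hw1 hwz)]
        exact hw2 hwz _ _
  have hholo : IsHolomorphicMap σ π f := by
    constructor
    · intro z
      obtain ⟨C, hC⟩ := hloc z
      obtain ⟨h, hz⟩ := hC.self_of_nhds
      rw [hz]
      show (Spec.map _ ≫ C.j) ≫ π = _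
      rw [Category.assoc, C.hα, ← Spec.map_comp]
      congr 1
      ext r
      show (evz z).comp (C.φ.codRestrict (Mz z).toSubring h) (C.α r) = _
      have h1 : (C.φ.codRestrict (Mz z).toSubring h) (C.α r) =
          ⟨algebraMap ℂ Mero (σ (algebraMap (𝓞 F₀) F₀ r)), algebraMap_mem_Mz _ _⟩ :=
        Subtype.ext (C.phi_alpha hx1 r)
      rw [RingHom.comp_apply, h1]
      exact evz_algebraMap _ _
    · intro z
      obtain ⟨C, hC⟩ := hloc z
      obtain ⟨D, hD1, hD2, hD3⟩ := mem_nhds_iff.1 hC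
      obtain ⟨hmem, -⟩ := hC.self_of_nhds
      let g : ℂ → (C.A →+* ℂ) := fun w =>
        if h : ∀ a, C.φ a ∈ Mz w then (evz w).comp (C.φ.codRestrict (Mz w).toSubring h)
        else (evz z).comp (C.φ.codRestrict (Mz z).toSubring hmem)
      have hg : ∀ w (h : ∀ a, C.φ a ∈ Mz w),
          g w = (evz w).comp (C.φ.codRestrict (Mz w).toSubring h) := fun w h => dif_pos h
      refine ⟨C.A, C.j, g, D, C.oj, hD2, hD3, ?_, ?_⟩
      · intro w hw
        obtain ⟨h, hw'⟩ := hD1 hw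
        rw [hw', hg w h]
        rfl
      · intro a
        have h1 : DifferentiableOn ℂ (pcNf (C.φ a)) D := by
          intro w hw
          obtain ⟨h, -⟩ := hD1 hw
          exact (pcNf_analytic (h a)).differentiableAt.differentiableWithinAt
        refine h1.congr fun w hw => ?_
        obtain ⟨h, -⟩ := hD1 hw
        show g w a = _
        rw [hg w h]
        exact C.hom_apply w h a
  refine ⟨f, ⟨hholo, ?_⟩, ?_⟩
  · by_contra hcon
    push Not at hcon
    apply hc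
    have := C₀.oj
    have h1 : ∀ᶠ w in 𝓝[≠] (0 : ℂ), ∀ a, C₀.φ a ∈ Mz w := C₀.eventually hx1 0
    obtain ⟨w₀, hw₀⟩ := h1.exists
    set γ := (evz w₀).comp (C₀.φ.codRestrict (Mz w₀).toSubring hw₀) with hγ
    refine ⟨Spec.map (CommRingCat.ofHom γ) ≫ C₀.j, ?_⟩
    refine Eq.trans ?_ C₀.hφ
    rw [← Category.assoc, ← Spec.map_comp]
    congr 2
    ext a
    show algebraMap ℂ Mero (γ a) = C₀.φ a
    have h2 : C₀.φ a - algebraMap ℂ Mero (γ a) = 0 := by
      apply pc_eq_zero (z := 0)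
      filter_upwards [h1] with w hw
      have h3 : C₀.ev w hw = C₀.ev w₀ hw₀ := by
        rw [← hf0, ← hf0]
        exact hcon _ _
      have h4 := map_comp_inj C₀.j h3
      have h5 := RingHom.congr_fun h4 a
      have h6 : C₀.φ a - algebraMap ℂ Mero (γ a) ∈ Mz w :=
        sub_mem (hw a) (algebraMap_mem_Mz _ _)
      rw [← pcNf_evz h6]
      have h7 : (⟨C₀.φ a - algebraMap ℂ Mero (γ a), h6⟩ : Mz w) =
          (C₀.φ.codRestrict (Mz w).toSubring hw) a - ⟨algebraMap ℂ Mero (γ a), algebraMap_mem_Mz _ _⟩ :=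
        rfl
      rw [h7, map_sub, evz_algebraMap]
      rw [sub_eq_zero]
      exact h5
    rw [sub_eq_zero] at h2
    exact h2.symm
  · by_contra hcon
    push Not at hcon
    apply hx2
    obtain ⟨I, hI⟩ := exists_ideal_chart i C₀.j
    rw [← factors_iff_mem_range]
    have h2 : ∀ a ∈ I, C₀.φ a = 0 := by
      intro a ha
      apply pc_eq_zero (z := 0)
      filter_upwards [C₀.eventually hx1 0] with w hw
      obtain ⟨p, hp⟩ := hcon w
      rw [hf0 w hw] at hp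
      have h1 := (hI ℂ ((evz w).comp (C₀.φ.codRestrict (Mz w).toSubring hw))).1 ⟨p, hp⟩ a ha
      rw [C₀.hom_apply] at h1
      exact h1
    obtain ⟨p, hp⟩ := (hI Mero C₀.φ).2 h2
    exact ⟨p, hp.trans C₀.hφ⟩

end Pool.Agent.Work.MP_e97a4d_nt.Hyp
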