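import Pool.Agent.Work.MP_e97a4d_nt.Hyp.CurveToPt
import Pool.Agent.Work.MP_e97a4d_nt.Hyp.PtToCurve
import Pool.Agent.Work.MP_e97a4d_nt.Hyp.IntGlue

set_option autoImplicit false

noncomputable section

namespace Pool.Agent.Work.MP_e97a4d_nt.Hyp

open AlgebraicGeometry CategoryTheory IsDedekindDomain NumberField
open Pool.Agent.Work.MP_e97a4d_nt

variable {F₀ : Type} [Field F₀] {V V' : Scheme.{0}}

private theorem cond_rhoM (σ : F₀ →+* ℂ) : ∀ O ∈ VM, ∀ a, rhoM σ a ∈ O := by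
  rintro O ⟨z, rfl⟩ a
  exact algebraMap_mem_Mz z _

private theorem cond_rhoF (F : Type) [Field F] [NumberField F] [Algebra F₀ F]
    (T : Finset (HeightOneSpectrum (𝓞 F))) : ∀ O ∈ VF F T, ∀ a, rhoF F₀ F a ∈ O := by
  rintro O ⟨v, _, rfl⟩ a
  change v.valuation F (algebraMap F₀ F (algebraMap (𝓞 F₀) F₀ a)) ≤ 1
  have h : algebraMap F₀ F (algebraMap (𝓞 F₀) F₀ a) =
      algebraMap (𝓞 F) F (RingOfIntegers.mapRingHom (algebraMap F₀ F) a) := rfl
  rw [h]
  exact v.valuation_le_one _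

/-- (i) for `(V, V')` in terms of the systems describing `(V, V')`. -/
theorem condI_iff (σ : F₀ →+* ℂ) (π : V ⟶ Sep.SpO F₀) [LocallyOfFiniteType π] (i : V' ⟶ V)
    [IsClosedImmersion i] {L : Type} (S : L → Sys F₀) (hS : Describes π i S) :
    CondI σ π i ↔ ∀ l, CurveS σ (S l) := by
  obtain ⟨θ, _, hU, hk⟩ := hS Mero (rhoM σ) VM (cond_rhoM σ)
  have hk' := hk ℂ (algebraMap ℂ Mero) (σ.comp (algebraMap (𝓞 F₀) F₀)) rfl
  constructor
  · intro H l u hu
    rw [← hk' l ⟨u, hu⟩]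
    by_contra hcon
    have hx : θ l ⟨u, hu⟩ ∈ Pts π i (rhoM σ) VM := by
      rw [hU]
      exact Set.mem_iUnion.2 ⟨l, ⟨u, hu⟩, rfl⟩
    obtain ⟨f, hf, z, hz⟩ := pt_to_curve π i _ hx hcon
    exact hz (H f hf z)
  · intro H f hf z
    by_contra hcon
    obtain ⟨x, hx, hxc⟩ := curve_to_pt π i f hf ⟨z, hcon⟩
    rw [hU] at hx
    obtain ⟨l, u, rfl⟩ := Set.mem_iUnion.1 hx
    exact hxc ((hk' l u).2 (H l u.1 u.2))

/-- (ii) for `(V, V')` in terms of the systems describing `(V, V')`. -/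
theorem condII_iff (π : V ⟶ Sep.SpO F₀) [LocallyOfFiniteType π] [QuasiCompact π] (i : V' ⟶ V)
    [IsClosedImmersion i] {L : Type} [Finite L] (S : L → Sys F₀) (hS : Describes π i S) :
    CondII π i ↔ ∀ l, PointS (S l) := by
  constructor
  · intro H l F _ _ _ T
    obtain ⟨θ, hinj, hU, _⟩ := hS F (rhoF F₀ F) (VF F T) (cond_rhoF F T)
    have hfin : (Pts π i (rhoF F₀ F) (VF F T)).Finite := by
      refine ((H F T).image gen).subset ?_
      intro x₀ hx₀
      obtain ⟨x, h1, h2, h3⟩ := int_glue π i F T x₀ hx₀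
      exact ⟨x, ⟨h1, h3⟩, h2⟩
    have h1 : (Set.range (θ l)).Finite := by
      refine hfin.subset ?_
      rw [hU]
      exact Set.subset_iUnion (fun l => Set.range (θ l)) l
    have h2 : Finite (CPts (S l) (rhoF F₀ F) (VF F T)) := by
      have : Finite (Set.range (θ l)) := h1
      exact Finite.of_injective (Set.rangeFactorization (θ l)) (fun a b hab => by
        apply hinj l
        exact congrArg Subtype.val hab)
    exact Set.toFinite _
  · intro H F _ _ _ T
    obtain ⟨θ, _, hU, _⟩ := hS F (rhoF F₀ F) (VF F T) (cond_rhoF F T)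
    have hfin : (Pts π i (rhoF F₀ F) (VF F T)).Finite := by
      rw [hU]
      refine Set.finite_iUnion (fun l => ?_)
      have : Finite (CPts (S l) (rhoF F₀ F) (VF F T)) := (H l F T).to_subtype
      exact Set.finite_range _
    refine (hfin.biUnion (fun x₀ _ => int_fin π F T x₀)).subset ?_
    rintro x ⟨h1, h2⟩
    exact Set.mem_biUnion (gen_mem π i F T x h1 h2) ⟨h1, rfl⟩

end Pool.Agent.Work.MP_e97a4d_nt.Hyp
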