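import Pool.Agent.Work.MP_e97a4d_nt.Hyp.PiecesDefs

set_option autoImplicit false

noncomputable section

namespace Pool.Agent.Work.MP_e97a4d_nt.Hyp

open AlgebraicGeometry CategoryTheory IsDedekindDomain NumberField

variable {F₀ : Type} [Field F₀] {V V' : Scheme.{0}}

/-- When a point of one of the pieces extends over a valuation ring. -/
theorem hasExt_iff {π : V ⟶ Sep.SpO F₀} {i : V' ⟶ V} (Q : Pieces π i) (l : Q.L) {K : Type} [Field K]
    (O : ValuationSubring K) (φ : Q.C l →+* K) :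
    HasExt O (Spec.map (CommRingCat.ofHom φ) ≫ Q.ι l) ↔
      ∃ (w : Q.W) (h : w ∈ Q.idx l), ∀ a : Q.A w, φ ((Q.α l w h).hom a) ∈ O := by
  constructor
  · rintro ⟨y, hy⟩
    obtain ⟨w, hw⟩ := Q.cover (y (IsLocalRing.closedPoint O))
    have := Q.oj w
    have hrange : Set.range y ⊆ Set.range (Q.j w) := by
      rintro _ ⟨x, rfl⟩
      have h1 : x ⤳ IsLocalRing.closedPoint O := IsLocalRing.specializes_closedPoint x
      have h2 : y x ⤳ y (IsLocalRing.closedPoint O) := h1.map y.continuous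
      exact h2.mem_open (Q.j w).isOpenEmbedding.isOpen_range hw
    set y' := IsOpenImmersion.lift (Q.j w) y hrange with hy'
    have hfac : y' ≫ Q.j w = y := IsOpenImmersion.lift_fac (Q.j w) y hrange
    have hwl : w ∈ Q.idx l := by
      by_contra hcon
      apply Q.idx_spec l w hcon ((Spec.map (CommRingCat.ofHom φ) ≫ Q.ι l) (⊥ : PrimeSpectrum K))
      · exact ⟨(Spec.map (CommRingCat.ofHom φ)) (⊥ : PrimeSpectrum K), rfl⟩
      · rw [← hy]
        exact hrange ⟨(Spec.map (CommRingCat.ofHom (algebraMap O K))) (⊥ : PrimeSpectrum K), rfl⟩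
    refine ⟨w, hwl, fun a => ?_⟩
    obtain ⟨ψ, hψ⟩ := Spec.map_surjective y'
    have h1 : Spec.map (CommRingCat.ofHom (algebraMap O K)) ≫ Spec.map ψ =
        Spec.map (CommRingCat.ofHom φ) ≫ Spec.map (Q.α l w hwl) := by
      rw [← cancel_mono (Q.j w), Category.assoc, Category.assoc, hψ, hfac, hy, Q.comp]
    rw [← Spec.map_comp, ← Spec.map_comp] at h1
    have h2 := Spec.map_injective h1
    have h3 := congrArg (fun f => f.hom a) h2
    change algebraMap O K (ψ.hom a) = φ ((Q.α l w hwl).hom a) at h3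
    rw [← h3]
    exact (ψ.hom a).2
  · rintro ⟨w, h, ha⟩
    let ψ : Q.A w →+* O := (φ.comp (Q.α l w h).hom).codRestrict O.toSubring ha
    refine ⟨Spec.map (CommRingCat.ofHom ψ) ≫ Q.j w, ?_⟩
    rw [← Category.assoc, ← Spec.map_comp, ← Q.comp l w h, ← Category.assoc, ← Spec.map_comp]
    rfl

end Pool.Agent.Work.MP_e97a4d_nt.Hyp
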