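import Mathlib

set_option autoImplicit false

noncomputable section

namespace Pool.Agent.Work.MP_e97a4d_nt.Hyp

open MvPolynomial

/-- Equations of an affine scheme of finite type, for a family of generators with `t_0 = 1`. -/
theorem nf {O : Type} [CommRing O] [IsNoetherianRing O] {C : Type} [CommRing C] (c : O →+* C) (M : ℕ)
    (t : Fin (M + 1) → C) (ht : t 0 = 1)
    (hgen : ∀ a : C, ∃ p : MvPolynomial (Fin (M + 1)) O, p.eval₂ c t = a) :
    ∃ E : Finset (MvPolynomial (Fin (M + 1)) O), ∀ (K : Type) [CommRing K] (ρ : O →+* K)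
      (u : Fin (M + 1) → K), ((∀ e ∈ E, e.eval₂ ρ u = 0) ↔
        ∃ φ : C →+* K, φ.comp c = ρ ∧ ∀ k, φ (t k) = u k) := by
  have _ := ht
  have hfg : (RingHom.ker (eval₂Hom c t)).FG := IsNoetherian.noetherian _
  obtain ⟨E, hE⟩ := hfg
  refine ⟨E, fun K _ ρ u => ⟨fun h => ?_, ?_⟩⟩
  · have hs : Function.Surjective (eval₂Hom c t) := fun a => hgen a
    have hle : RingHom.ker (eval₂Hom c t) ≤ RingHom.ker (eval₂Hom ρ u) := by
      rw [← hE]
      refine Ideal.span_le.2 fun e he => ?_
      exact (RingHom.mem_ker).2 (h e he)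
    refine ⟨(eval₂Hom c t).liftOfSurjective hs ⟨eval₂Hom ρ u, hle⟩, ?_, fun k => ?_⟩
    · ext a
      have h1 := RingHom.liftOfRightInverse_comp_apply (eval₂Hom c t) _ (Function.rightInverse_surjInv hs)
        ⟨eval₂Hom ρ u, hle⟩ (MvPolynomial.C a)
      simpa using h1
    · have h1 := RingHom.liftOfRightInverse_comp_apply (eval₂Hom c t) _ (Function.rightInverse_surjInv hs)
        ⟨eval₂Hom ρ u, hle⟩ (X k)
      simpa using h1
  · rintro ⟨φ, h1, h2⟩ e he
    have h3 : e.eval₂ c t = 0 := by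
      have : e ∈ RingHom.ker (eval₂Hom c t) := by
        rw [← hE]
        exact Ideal.subset_span he
      exact (RingHom.mem_ker).1 this
    have h4 : e.eval₂ ρ u = φ (e.eval₂ c t) := by
      rw [← h1, MvPolynomial.hom_eval₂]
      congr 1
      funext k
      exact (h2 k).symm
    rw [h4, h3, map_zero]

end Pool.Agent.Work.MP_e97a4d_nt.Hyp
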