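import Mathlib

set_option autoImplicit false

noncomputable section

namespace Pool.Agent.Work.MP_e97a4d_nt.Hyp

private theorem segre_max {Γ : Type*} [LinearOrder Γ] (n : ℕ) (f : Fin (n + 1) → Γ) :
    ∃ m, ∀ k, f k ≤ f m := by
  obtain ⟨m, -, hm⟩ := Finset.exists_max_image (Finset.univ : Finset (Fin (n + 1))) f ⟨0, Finset.mem_univ _⟩
  exact ⟨m, fun k => hm k (Finset.mem_univ k)⟩

/-- The maximum of the products of coordinates is attained where some index is zero iff one of the
families is integral. -/
theorem segre {K : Type} [Field K] (O : ValuationSubring K) {W : Type} [Fintype W] [DecidableEq W]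
    (n : W → ℕ) (Y : ∀ w, Fin (n w + 1) → K) (hY : ∀ w, Y w 0 = 1) (n' : ℕ) (c : Fin (n' + 1) → K)
    (hc : c 0 = 1) :
    (∀ ι : (∀ w, Fin (n w + 1)) × Fin (n' + 1), ∃ κ : (∀ w, Fin (n w + 1)) × Fin (n' + 1),
      (∃ w, κ.1 w = 0) ∧
      O.valuation ((∏ w, Y w (ι.1 w)) * c ι.2) ≤ O.valuation ((∏ w, Y w (κ.1 w)) * c κ.2)) ↔
    ∃ w, ∀ k, Y w k ∈ O := by
  constructor
  · intro h
    choose M hM using fun w => segre_max (n w) (fun k => O.valuation (Y w k))
    obtain ⟨m', hm'⟩ := segre_max n' (fun k => O.valuation (c k))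
    obtain ⟨κ, ⟨w0, hw0⟩, hκ⟩ := h (M, m')
    refine ⟨w0, fun k => ?_⟩
    rw [← O.valuation_le_one_iff]
    refine (hM w0 k).trans ?_
    have hpos : ∀ w, (1 : O.ValueGroup) ≤ O.valuation (Y w (M w)) := by
      intro w
      have := hM w 0
      rwa [hY w, map_one] at this
    have hcpos : (1 : O.ValueGroup) ≤ O.valuation (c m') := by
      have := hm' 0
      rwa [hc, map_one] at this
    have h1 : O.valuation (Y w0 (M w0)) * (∏ w ∈ Finset.univ.erase w0, O.valuation (Y w (M w))) *
        O.valuation (c m') ≤ 1 * (∏ w ∈ Finset.univ.erase w0, O.valuation (Y w (M w))) *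
        O.valuation (c m') := by
      have h2 : O.valuation ((∏ w, Y w (M w)) * c m') =
          O.valuation (Y w0 (M w0)) * (∏ w ∈ Finset.univ.erase w0, O.valuation (Y w (M w))) *
            O.valuation (c m') := by
        rw [map_mul, map_prod, Finset.mul_prod_erase _ (fun w => O.valuation (Y w (M w))) (Finset.mem_univ w0)]
      rw [← h2]
      refine hκ.trans ?_
      rw [map_mul, map_prod]
      refine mul_le_mul' ?_ (hm' _)
      rw [← Finset.mul_prod_erase _ (fun w => O.valuation (Y w (κ.1 w))) (Finset.mem_univ w0), hw0, hY w0,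
        map_one]
      refine mul_le_mul' le_rfl ?_
      exact Finset.prod_le_prod' fun w _ => hM w _
    have h3 : (0 : O.ValueGroup) < (∏ w ∈ Finset.univ.erase w0, O.valuation (Y w (M w))) *
        O.valuation (c m') := by
      have h4 : (∏ w ∈ Finset.univ.erase w0, O.valuation (Y w (M w))) ≠ 0 := by
        rw [Finset.prod_ne_zero_iff]
        intro w _ h0
        have := hpos w
        rw [h0] at this
        exact absurd (lt_of_lt_of_le zero_lt_one this) (lt_irrefl _)
      have h5 : O.valuation (c m') ≠ 0 := by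
        intro h0
        rw [h0] at hcpos
        exact absurd (lt_of_lt_of_le zero_lt_one hcpos) (lt_irrefl _)
      exact zero_lt_iff.2 (mul_ne_zero h4 h5)
    rw [mul_assoc, mul_assoc] at h1
    exact (mul_le_mul_iff_left₀ h3).1 h1
  · rintro ⟨w, hw⟩ ι
    refine ⟨(Function.update ι.1 w 0, ι.2), ⟨w, by simp⟩, ?_⟩
    rw [map_mul, map_mul, map_prod, map_prod]
    refine mul_le_mul' ?_ le_rfl
    refine Finset.prod_le_prod' fun w' _ => ?_
    by_cases h : w' = w
    · subst h
      have : Y w' ((Function.update ι.1 w' 0) w') = 1 := by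
        rw [Function.update_self, hY]
      show O.valuation (Y w' (ι.1 w')) ≤ O.valuation (Y w' ((Function.update ι.1 w' 0) w'))
      rw [this, map_one]
      exact (O.valuation_le_one_iff _).2 (hw _)
    · have : (Function.update ι.1 w 0) w' = ι.1 w' := Function.update_of_ne h _ _
      show O.valuation (Y w' (ι.1 w')) ≤ O.valuation (Y w' ((Function.update ι.1 w 0) w'))
      rw [this]

end Pool.Agent.Work.MP_e97a4d_nt.Hyp
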