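import Pool.Agent.Work.MP_e97a4d_nt.Hyp.PiecesEx
import Pool.Agent.Work.MP_e97a4d_nt.Hyp.NF
import Pool.Agent.Work.MP_e97a4d_nt.Hyp.Segre
import Pool.Agent.Work.MP_e97a4d_nt.Hyp.ExtIff

set_option autoImplicit false

noncomputable section

namespace Pool.Agent.Work.MP_e97a4d_nt.Hyp

open AlgebraicGeometry CategoryTheory IsDedekindDomain NumberField

variable {F₀ : Type} [Field F₀] [NumberField F₀] {V V' : Scheme.{0}}

theorem forward_enum {I : Type} [Finite I] (P : I → Prop) (i₀ : I) (h₀ : P i₀) :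
    ∃ (m s : ℕ) (_ : s ≤ m) (e : I ≃ Fin (m + 1)), e i₀ = 0 ∧ ∀ i, (e i : ℕ) ≤ s ↔ P i := by
  classical
  have := Fintype.ofFinite I
  obtain ⟨a, ⟨e1⟩⟩ := Finite.exists_equiv_fin {i // P i}
  obtain ⟨b, ⟨e2⟩⟩ := Finite.exists_equiv_fin {i // ¬ P i}
  obtain ⟨s, rfl⟩ : ∃ s, a = s + 1 := by
    have h1 : 0 < a := Fin.pos (e1 ⟨i₀, h₀⟩)
    exact ⟨a - 1, by omega⟩
  let e1' : {i // P i} ≃ Fin (s + 1) := e1.trans (Equiv.swap (e1 ⟨i₀, h₀⟩) 0)
  have h1 : e1' ⟨i₀, h₀⟩ = 0 := by simp [e1']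
  let e : I ≃ Fin (s + b + 1) :=
    ((Equiv.sumCompl P).symm.trans ((e1'.sumCongr e2).trans finSumFinEquiv)).trans
      (finCongr (by omega))
  have hP : ∀ i (h : P i), (e i : ℕ) = (e1' ⟨i, h⟩ : ℕ) := by
    intro i h
    simp [e, Equiv.sumCompl_symm_apply_of_pos h]
  have hN : ∀ i (h : ¬ P i), (e i : ℕ) = s + 1 + (e2 ⟨i, h⟩ : ℕ) := by
    intro i h
    simp [e, Equiv.sumCompl_symm_apply_of_neg h]
  refine ⟨s + b, s, by omega, e, ?_, ?_⟩
  · apply Fin.ext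
    rw [hP i₀ h₀, h1]
    simp
  · intro i
    by_cases h : P i
    · rw [hP i h]
      have := (e1' ⟨i, h⟩).2
      exact ⟨fun _ => h, fun _ => by omega⟩
    · rw [hN i h]
      exact ⟨fun h' => by omega, fun h' => absurd h' h⟩

theorem forward_gens {O A : Type} [CommRing O] [CommRing A] (c : O →+* A) (h : c.FiniteType) :
    ∃ (n : ℕ) (g : Fin (n + 1) → A), g 0 = 1 ∧
      ∀ a : A, ∃ p : MvPolynomial (Fin (n + 1)) O, p.eval₂ c g = a := by
  let _ := c.toAlgebra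
  have h1 : Algebra.FiniteType O A := h
  obtain ⟨n, f, hf⟩ := Algebra.FiniteType.iff_quotient_mvPolynomial''.1 h1
  refine ⟨n, Fin.cons 1 (fun k => f (MvPolynomial.X k)), by simp, ?_⟩
  intro a
  obtain ⟨p, rfl⟩ := hf a
  refine ⟨MvPolynomial.rename Fin.succ p, ?_⟩
  rw [MvPolynomial.eval₂_rename]
  have h2 : (Fin.cons 1 (fun k => f (MvPolynomial.X k)) : Fin (n + 1) → A) ∘ Fin.succ =
      fun k => f (MvPolynomial.X k) := by
    funext k
    simp
  rw [h2]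
  have h3 := MvPolynomial.aeval_unique f
  conv_rhs => rw [h3]
  rfl

theorem forward_mem {O A K : Type} [CommRing O] [CommRing A] [Field K] (B : ValuationSubring K)
    (c : O →+* A) {n : ℕ} (g : Fin n → A) (hg : ∀ a : A, ∃ p : MvPolynomial (Fin n) O, p.eval₂ c g = a)
    (φ : A →+* K) (h0 : ∀ a, φ (c a) ∈ B) :
    (∀ a, φ a ∈ B) ↔ ∀ k, φ (g k) ∈ B := by
  constructor
  · intro h k
    exact h _
  · intro h a
    obtain ⟨p, rfl⟩ := hg a
    rw [MvPolynomial.eval₂_eq, map_sum]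
    refine sum_mem fun d _ => ?_
    rw [map_mul, map_prod]
    refine mul_mem (h0 _) (prod_mem fun k _ => ?_)
    rw [map_pow]
    exact pow_mem (h k) _

/-- The system attached to one of the pieces. -/
theorem exists_sys {π : V ⟶ Sep.SpO F₀} {i : V' ⟶ V} (Q : Pieces π i) (l : Q.L) :
    ∃ (S : Sys F₀) (t : Fin (S.m + 1) → Q.C l), t 0 = 1 ∧
      (∀ a : Q.C l, ∃ p : MvPolynomial (Fin (S.m + 1)) (𝓞 F₀), p.eval₂ (Q.cst l) t = a) ∧
      ∀ (K : Type) [Field K] (ρ : 𝓞 F₀ →+* K) (𝒱 : Set (ValuationSubring K)),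
        (∀ O ∈ 𝒱, ∀ a, ρ a ∈ O) → ∀ u : Fin (S.m + 1) → K, u ∈ CPts S ρ 𝒱 ↔
          ∃ φ : Q.C l →+* K, φ.comp (Q.cst l) = ρ ∧ (∀ k, φ (t k) = u k) ∧
            ∀ O ∈ 𝒱, HasExt O (Spec.map (CommRingCat.ofHom φ) ≫ Q.ι l) := by
  classical
  let _ := Q.fW
  obtain ⟨n', c, hc0, hc⟩ := forward_gens (Q.cst l) (Q.ft l)
  choose n Y hY0 hY using fun w : {w // w ∈ Q.idx l} => forward_gens (Q.cstA w.1) (Q.ftA w.1)
  let YC : ∀ w : {w // w ∈ Q.idx l}, Fin (n w + 1) → Q.C l := fun w k => (Q.α l w.1 w.2).hom (Y w k)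
  let I := (∀ w : {w // w ∈ Q.idx l}, Fin (n w + 1)) × Fin (n' + 1)
  let T : I → Q.C l := fun ι => (∏ w, YC w (ι.1 w)) * c ι.2
  have hYC0 : ∀ w, YC w 0 = 1 := by
    intro w
    show (Q.α l w.1 w.2).hom (Y w 0) = 1
    rw [hY0, map_one]
  have hT0 : ∀ k, T (fun _ => 0, k) = c k := by
    intro k
    show (∏ w, YC w 0) * c k = c k
    rw [Finset.prod_eq_one (fun w _ => hYC0 w), one_mul]
  obtain ⟨w₀, hw₀⟩ := Q.idx_ne l
  obtain ⟨m, s, hs, e, he0, he⟩ := forward_enum (I := I) (fun ι => ∃ w, ι.1 w = 0) (fun _ => 0, 0)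
    ⟨⟨w₀, hw₀⟩, rfl⟩
  let t : Fin (m + 1) → Q.C l := fun k => T (e.symm k)
  have ht0 : t 0 = 1 := by
    show T (e.symm 0) = 1
    rw [← he0, Equiv.symm_apply_apply, hT0, hc0]
  have hgen : ∀ a : Q.C l, ∃ p : MvPolynomial (Fin (m + 1)) (𝓞 F₀), p.eval₂ (Q.cst l) t = a := by
    intro a
    obtain ⟨p, rfl⟩ := hc a
    refine ⟨MvPolynomial.rename (fun k => e (fun _ => 0, k)) p, ?_⟩
    rw [MvPolynomial.eval₂_rename]
    congr 1
    funext k
    show T (e.symm (e (fun _ => 0, k))) = c k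
    rw [Equiv.symm_apply_apply, hT0]
  obtain ⟨E, hE⟩ := nf (Q.cst l) m t ht0 hgen
  refine ⟨⟨m, s, hs, E⟩, t, ht0, hgen, ?_⟩
  intro K _ ρ 𝒱 hρ u
  have key : ∀ φ : Q.C l →+* K, φ.comp (Q.cst l) = ρ → (∀ k, φ (t k) = u k) → ∀ O ∈ 𝒱,
      ((∀ j : Fin (m + 1), ∃ k : Fin (m + 1), (k : ℕ) ≤ s ∧ O.valuation (u j) ≤ O.valuation (u k)) ↔
        HasExt O (Spec.map (CommRingCat.ofHom φ) ≫ Q.ι l)) := by
    intro φ hφ hφt O hO
    have hval : ∀ ι, u (e ι) = (∏ w, φ (YC w (ι.1 w))) * φ (c ι.2) := by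
      intro ι
      rw [← hφt]
      show φ (T (e.symm (e ι))) = _
      rw [Equiv.symm_apply_apply]
      show φ ((∏ w, YC w (ι.1 w)) * c ι.2) = _
      rw [map_mul, map_prod]
    have h1 := segre O n (fun w k => φ (YC w k)) (fun w => by rw [hYC0, map_one]) n'
      (fun k => φ (c k)) (by rw [hc0, map_one])
    rw [hasExt_iff Q l O φ]
    have h2 : (∃ (w : Q.W) (h : w ∈ Q.idx l), ∀ a : Q.A w, φ ((Q.α l w h).hom a) ∈ O) ↔
        ∃ w : {w // w ∈ Q.idx l}, ∀ k, φ (YC w k) ∈ O := by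
      have h3 : ∀ w : {w // w ∈ Q.idx l}, (∀ a : Q.A w.1, φ ((Q.α l w.1 w.2).hom a) ∈ O) ↔
          ∀ k, φ (YC w k) ∈ O := by
        intro w
        have h4 : ((Q.α l w.1 w.2).hom).comp (Q.cstA w.1) = Q.cst l := by
          have h5 : Spec.map (Q.α l w.1 w.2) ≫ Spec.map (CommRingCat.ofHom (Q.cstA w.1)) =
              Spec.map (CommRingCat.ofHom (Q.cst l)) := by
            rw [← Q.cstA_eq, ← Category.assoc, Q.comp, Q.cst_eq]
          rw [← Spec.map_comp] at h5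
          exact congrArg CommRingCat.Hom.hom (Spec.map_injective h5)
        refine forward_mem O (Q.cstA w.1) (Y w) (hY w) (φ.comp (Q.α l w.1 w.2).hom) ?_
        intro a
        have h6 : (φ.comp (Q.α l w.1 w.2).hom) (Q.cstA w.1 a) = ρ a := by
          have := congrArg (fun g : 𝓞 F₀ →+* Q.C l => φ (g a)) h4
          rw [← hφ]
          exact this
        rw [h6]
        exact hρ O hO a
      constructor
      · rintro ⟨w, h, hw⟩
        exact ⟨⟨w, h⟩, (h3 ⟨w, h⟩).1 hw⟩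
      · rintro ⟨w, hw⟩
        exact ⟨w.1, w.2, (h3 w).2 hw⟩
    rw [h2, ← h1]
    constructor
    · intro h ι
      obtain ⟨k, hk, hk'⟩ := h (e ι)
      refine ⟨e.symm k, (he _).1 (by rwa [Equiv.apply_symm_apply]), ?_⟩
      have h5 := hval (e.symm k)
      rw [Equiv.apply_symm_apply] at h5
      rw [← hval ι, ← h5]
      exact hk'
    · intro h j
      obtain ⟨κ, hκ, hκ'⟩ := h (e.symm j)
      refine ⟨e κ, (he κ).2 hκ, ?_⟩
      have h5 := hval (e.symm j)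
      rw [Equiv.apply_symm_apply] at h5
      rw [h5, hval κ]
      exact hκ'
  constructor
  · rintro ⟨hu0, huE, huv⟩
    obtain ⟨φ, h1, h2⟩ := (hE K ρ u).1 huE
    exact ⟨φ, h1, h2, fun O hO => (key φ h1 h2 O hO).1 (huv O hO)⟩
  · rintro ⟨φ, h1, h2, h3⟩
    exact ⟨by rw [← h2, ht0, map_one], (hE K ρ u).2 ⟨φ, h1, h2⟩,
      fun O hO => (key φ h1 h2 O hO).2 (h3 O hO)⟩

theorem forward_hom_ext {C K O : Type} [CommRing C] [CommRing K] [CommRing O] {n : ℕ} (c : O →+* C)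
    (t : Fin n → C) (hgen : ∀ a : C, ∃ p : MvPolynomial (Fin n) O, p.eval₂ c t = a)
    {φ ψ : C →+* K} (h0 : φ.comp c = ψ.comp c) (h : ∀ k, φ (t k) = ψ (t k)) : φ = ψ := by
  ext a
  obtain ⟨p, rfl⟩ := hgen a
  rw [MvPolynomial.hom_eval₂, MvPolynomial.hom_eval₂, h0]
  congr 1
  funext k
  exact h k

theorem forward_over {K : Type} [Field K] {π : V ⟶ Sep.SpO F₀} {i : V' ⟶ V} (Q : Pieces π i) (l : Q.L)
    (φ : Q.C l →+* K) (ρ : 𝓞 F₀ →+* K) :
    (Spec.map (CommRingCat.ofHom φ) ≫ Q.ι l) ≫ π = Spec.map (CommRingCat.ofHom ρ) ↔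
      φ.comp (Q.cst l) = ρ := by
  rw [Category.assoc, Q.cst_eq, ← Spec.map_comp, ← CommRingCat.ofHom_comp]
  constructor
  · intro h
    have := Spec.map_injective h
    exact congrArg CommRingCat.Hom.hom this
  · intro h
    rw [h]

/-- Every pair `(V, V')` of finite type is described by finitely many systems. -/
theorem forward (π : V ⟶ Sep.SpO F₀) [LocallyOfFiniteType π] [QuasiCompact π] (i : V' ⟶ V)
    [IsClosedImmersion i] : ∃ (L : Type) (_ : Finite L) (S : L → Sys F₀), Describes π i S := by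
  obtain ⟨Q⟩ := exists_pieces π i
  choose S t ht hgen hS using exists_sys Q
  refine ⟨Q.L, Q.fL, S, ?_⟩
  intro K _ ρ 𝒱 hρ
  have hφ : ∀ (l : Q.L) (u : CPts (S l) ρ 𝒱), ∃ φ : Q.C l →+* K, φ.comp (Q.cst l) = ρ ∧
      (∀ k, φ (t l k) = u.1 k) ∧ ∀ O ∈ 𝒱, HasExt O (Spec.map (CommRingCat.ofHom φ) ≫ Q.ι l) :=
    fun l u => (hS l K ρ 𝒱 hρ u.1).1 u.2
  choose φ h1 h2 h3 using hφ
  refine ⟨fun l u => Spec.map (CommRingCat.ofHom (φ l u)) ≫ Q.ι l, ?_, ?_, ?_⟩
  · intro l u u' h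
    have h4 := Q.inj l K _ _ h
    have h5 : φ l u = φ l u' := congrArg CommRingCat.Hom.hom (Spec.map_injective h4)
    apply Subtype.ext
    funext k
    rw [← h2, ← h2, h5]
  · ext x
    simp only [Set.mem_iUnion, Set.mem_range]
    constructor
    · rintro ⟨hx1, hx2, hx3⟩
      obtain ⟨l, hl⟩ := (Q.mem_iff _).1 hx2
      obtain ⟨y, hy⟩ := Q.lift l K x hl
      obtain ⟨ψ, hψ⟩ := Spec.map_surjective y
      have hψ' : Spec.map (CommRingCat.ofHom ψ.hom) ≫ Q.ι l = x := by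
        rw [← hy, ← hψ]
        rfl
      have h4 : (ψ.hom).comp (Q.cst l) = ρ := by
        rw [← forward_over Q l ψ.hom ρ, hψ', hx1]
      have h5 : (fun k => ψ.hom (t l k)) ∈ CPts (S l) ρ 𝒱 := by
        rw [hS l K ρ 𝒱 hρ]
        refine ⟨ψ.hom, h4, fun k => rfl, ?_⟩
        rw [hψ']
        exact hx3
      refine ⟨l, ⟨_, h5⟩, ?_⟩
      have h6 : φ l ⟨_, h5⟩ = ψ.hom := by
        refine forward_hom_ext (Q.cst l) (t l) (hgen l) ?_ ?_
        · rw [h1, h4]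
        · intro k
          rw [h2]
      rw [h6, hψ']
    · rintro ⟨l, u, rfl⟩
      refine ⟨(forward_over Q l _ ρ).2 (h1 l u), ?_, h3 l u⟩
      rw [Q.mem_iff]
      exact ⟨l, ⟨Spec.map (CommRingCat.ofHom (φ l u)) (⊥ : PrimeSpectrum K), rfl⟩⟩
  · intro k _ τ ρ₀ hτ l u
    constructor
    · rintro ⟨p, hp⟩ j
      have h4 : p (⊥ : PrimeSpectrum k) ∈ Set.range (Q.ι l) := by
        have h5 : p (⊥ : PrimeSpectrum k) =
            (Spec.map (CommRingCat.ofHom τ) ≫ p) (⊥ : PrimeSpectrum K) := by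
          have h6 : Spec.map (CommRingCat.ofHom τ) (⊥ : PrimeSpectrum K) = (⊥ : PrimeSpectrum k) :=
            Subsingleton.elim (α := PrimeSpectrum k) _ _
          exact (congrArg (fun q => p q) h6).symm
        rw [h5, hp]
        exact ⟨Spec.map (CommRingCat.ofHom (φ l u)) (⊥ : PrimeSpectrum K), rfl⟩
      obtain ⟨y, hy⟩ := Q.lift l k p h4
      obtain ⟨ψ, hψ⟩ := Spec.map_surjective y
      have h5 : (Spec.map (CommRingCat.ofHom τ) ≫ y) ≫ Q.ι l =
          Spec.map (CommRingCat.ofHom (φ l u)) ≫ Q.ι l := by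
        rw [Category.assoc, hy, hp]
      have h6 := Q.inj l K _ _ h5
      rw [← hψ, ← Spec.map_comp] at h6
      have h7 := Spec.map_injective h6
      have h8 : τ (ψ.hom (t l j)) = φ l u (t l j) := by
        have := congrArg (fun g => CommRingCat.Hom.hom g (t l j)) h7
        exact this
      exact ⟨_, by rw [h8, h2]⟩
    · intro hj
      choose v hv using hj
      have h4 : ∀ a : Q.C l, φ l u a ∈ τ.range := by
        intro a
        obtain ⟨p, rfl⟩ := hgen l a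
        rw [MvPolynomial.hom_eval₂, h1, hτ]
        refine ⟨p.eval₂ ρ₀ v, ?_⟩
        rw [MvPolynomial.hom_eval₂]
        congr 1
        funext j
        exact (hv j).trans (h2 l u j).symm
      let e := (RingEquiv.ofBijective τ.rangeRestrict
        ⟨fun a b hab => τ.injective (congrArg Subtype.val hab), τ.rangeRestrict_surjective⟩)
      let ψ : Q.C l →+* k := (e.symm : τ.range →+* k).comp ((φ l u).codRestrict τ.range h4)
      have h5 : τ.comp ψ = φ l u := by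
        ext a
        have h6 : e (e.symm ⟨φ l u a, h4 a⟩) = ⟨φ l u a, h4 a⟩ := e.apply_symm_apply _
        exact congrArg Subtype.val h6
      refine ⟨Spec.map (CommRingCat.ofHom ψ) ≫ Q.ι l, ?_⟩
      rw [← Category.assoc, ← Spec.map_comp, ← CommRingCat.ofHom_comp, h5]

end Pool.Agent.Work.MP_e97a4d_nt.Hyp
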