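import Pool.Agent.Work.MP_e97a4d_nt.Hyp.Defs

set_option autoImplicit false

noncomputable section

namespace Pool.Agent.Work.MP_e97a4d_nt.Hyp

open AlgebraicGeometry CategoryTheory IsDedekindDomain NumberField

variable {F₀ : Type} [Field F₀] {V V' : Scheme.{0}}

/-- the system with the condition on valuations removed -/
def Sys.full (S : Sys F₀) : Sys F₀ := ⟨S.m, S.m, le_rfl, S.E⟩

private theorem full_ext (π : V ⟶ Sep.SpO F₀) [IsProper π] {K : Type} [Field K] (ρ : 𝓞 F₀ →+* K)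
    (x : Spec (CommRingCat.of K) ⟶ V) (hx : x ≫ π = Spec.map (CommRingCat.ofHom ρ))
    (O : ValuationSubring K) (hO : ∀ a, ρ a ∈ O) : HasExt O x := by
  let ρ' : 𝓞 F₀ →+* O := ρ.codRestrict O.toSubring hO
  have hρ : (algebraMap O K).comp ρ' = ρ := by
    ext a
    rfl
  have hsq : CommSq x (Spec.map (CommRingCat.ofHom (algebraMap O K))) π
      (Spec.map (CommRingCat.ofHom ρ')) := by
    refine ⟨?_⟩
    rw [hx, ← Spec.map_comp, ← CommRingCat.ofHom_comp, hρ]
  let Sq : ValuativeCommSq π :=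
    { R := O, K := K, i₁ := x, i₂ := Spec.map (CommRingCat.ofHom ρ'), commSq := hsq }
  have hex : ValuativeCriterion.Existence π := by
    have h1 : UniversallyClosed π := inferInstance
    rw [UniversallyClosed.eq_valuativeCriterion] at h1
    exact h1.1
  have hl : Sq.commSq.HasLift := hex Sq
  exact ⟨Sq.commSq.lift, Sq.commSq.fac_left⟩

private theorem full_cpts (S : Sys F₀) {K : Type} [Field K] (ρ : 𝓞 F₀ →+* K)
    (𝒱 : Set (ValuationSubring K)) : CPts S.full ρ 𝒱 = CPts S ρ ∅ := by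
  ext u
  constructor
  · rintro ⟨h1, h2, -⟩
    exact ⟨h1, h2, fun O hO => absurd hO (Set.notMem_empty O)⟩
  · rintro ⟨h1, h2, -⟩
    exact ⟨h1, h2, fun O _ j => ⟨j, Nat.lt_succ_iff.1 j.2, le_rfl⟩⟩

/-- For proper `V` the conditions on valuations may be dropped. -/
theorem describes_full (π : V ⟶ Sep.SpO F₀) [IsProper π] (i : V' ⟶ V) [IsClosedImmersion i] {L : Type}
    (S : L → Sys F₀) (hS : Describes π i S) : Describes π i fun l => (S l).full := by
  intro K _ ρ 𝒱 h𝒱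
  obtain ⟨θ, h1, h2, h3⟩ := hS K ρ ∅ (fun O hO => absurd hO (Set.notMem_empty O))
  have e : ∀ l, ∀ u : CPts (S l).full ρ 𝒱, u.1 ∈ CPts (S l) ρ ∅ := by
    intro l u
    exact (full_cpts (S l) ρ 𝒱).subset u.2
  refine ⟨fun l u => θ l ⟨u.1, e l u⟩, ?_, ?_, ?_⟩
  · intro l u v huv
    have h4 := h1 l huv
    have h5 : u.1 = v.1 := congrArg (fun w : CPts (S l) ρ ∅ => w.1) h4
    exact Subtype.ext h5
  · have hP : Pts π i ρ 𝒱 = Pts π i ρ ∅ := by
      ext x
      constructor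
      · rintro ⟨a, b, -⟩
        exact ⟨a, b, fun O hO => absurd hO (Set.notMem_empty O)⟩
      · rintro ⟨a, b, -⟩
        exact ⟨a, b, fun O hO => full_ext π ρ x a O (h𝒱 O hO)⟩
    rw [hP, h2]
    apply Set.iUnion_congr
    intro l
    ext x
    constructor
    · rintro ⟨u, rfl⟩
      exact ⟨⟨u.1, (full_cpts (S l) ρ 𝒱).symm.subset u.2⟩, rfl⟩
    · rintro ⟨u, rfl⟩
      exact ⟨⟨u.1, e l u⟩, rfl⟩
  · intro k _ τ ρ₀ hρ l u
    exact h3 k τ ρ₀ hρ l ⟨u.1, e l u⟩

end Pool.Agent.Work.MP_e97a4d_nt.Hyp
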