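import Pool.Agent.Work.MP_e97a4d_nt.Hyp.Coord
import Pool.Agent.Work.MP_e97a4d_nt.Hyp.Cond
import Pool.Agent.Work.MP_e97a4d_nt.Hyp.Forward
import Pool.Agent.Work.MP_e97a4d_nt.Hyp.Backward
import Pool.Agent.Work.MP_e97a4d_nt.Hyp.Proper
import Pool.Agent.Work.MP_e97a4d_nt.Hyp.Bridge

set_option autoImplicit false

noncomputable section

namespace Pool.Agent.Work.MP_e97a4d_nt.Hyp

open AlgebraicGeometry CategoryTheory NumberField
open Pool.Agent.Work.MP_e97a4d_nt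

variable {F₀ : Type} [Field F₀] [NumberField F₀] {σ : F₀ →+* ℂ} {Δ : ℕ → ℕ}

theorem good_scheme {m s : ℕ} {f : MvPolynomial (Fin (m + 1)) (𝓞 F₀)} (hf : IsGood σ Δ m s f) :
    ∃ (V V' : Scheme.{0}) (π : V ⟶ Spec (CommRingCat.of (𝓞 F₀))) (i : V' ⟶ V),
      LocallyOfFiniteType π ∧ QuasiCompact π ∧ IsClosedImmersion i ∧ (s = m → IsProper π) ∧
      (CondI σ π i ↔ CurveCond σ s f) ∧ (CondII π i ↔ PointCond s f) := by
  obtain ⟨V, V', π, i, h1, h2, h3, h4, h5⟩ := backward (oneSys hf.hs f) (by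
    intro e he
    obtain ⟨d, -, hd⟩ := hf.deg
    rw [Finset.mem_singleton.1 he]
    exact ⟨d, hd⟩)
  refine ⟨V, V', π, i, h1, h2, h3, h4, ?_, ?_⟩
  · rw [condI_iff σ π i _ h5, curveCond_iff σ hf.hs]
    exact ⟨fun h => h (), fun h _ => h⟩
  · rw [condII_iff π i _ h5, pointCond_iff hf.hs]
    exact ⟨fun h => h (), fun h _ => h⟩

theorem scheme_good
    (H : ∀ (m : ℕ) (f : MvPolynomial (Fin (m + 1)) (𝓞 F₀)), IsGood σ Δ m m f →
      CurveCond σ m f → PointCond m f)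
    {V V' : Scheme.{0}} (π : V ⟶ Spec (CommRingCat.of (𝓞 F₀))) (i : V' ⟶ V)
    [LocallyOfFiniteType π] [QuasiCompact π] [IsClosedImmersion i] :
    ∃ (L : Type) (_ : Finite L) (m s : L → ℕ) (f : ∀ l, MvPolynomial (Fin (m l + 1)) (𝓞 F₀)),
      (∀ l, IsGood σ Δ (m l) (s l) (f l)) ∧ (IsProper π → ∀ l, s l = m l) ∧
      (CondI σ π i ↔ ∀ l, CurveCond σ (s l) (f l)) ∧ (CondII π i ↔ ∀ l, PointCond (s l) (f l)) := by
  have H' : ∀ (m : ℕ) (f : MvPolynomial (Fin (m + 1)) (𝓞 F₀)), IsGood σ Δ m m f →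
      CurveS σ (oneSys le_rfl f) → PointS (oneSys le_rfl f) := by
    intro m f hf h1
    rw [← pointCond_iff]
    rw [← curveCond_iff] at h1
    exact H m f hf h1
  have key : ∀ (L : Type) (_ : Finite L) (S : L → Sys F₀), Describes π i S →
      (IsProper π → ∀ l, (S l).s = (S l).m) →
      ∃ (L : Type) (_ : Finite L) (m s : L → ℕ) (f : ∀ l, MvPolynomial (Fin (m l + 1)) (𝓞 F₀)),
      (∀ l, IsGood σ Δ (m l) (s l) (f l)) ∧ (IsProper π → ∀ l, s l = m l) ∧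
      (CondI σ π i ↔ ∀ l, CurveCond σ (s l) (f l)) ∧ (CondII π i ↔ ∀ l, PointCond (s l) (f l)) := by
    intro L hL S hS hp
    choose m s f hf h1 h2 h3 using fun l => exists_equiv σ Δ H' (S l)
    refine ⟨L, hL, m, s, f, hf, fun hpr l => h1 l (hp hpr l), ?_, ?_⟩
    · rw [condI_iff σ π i S hS]
      exact forall_congr' fun l => by rw [curveCond_iff σ (hf l).hs, h2]
    · rw [condII_iff π i S hS]
      exact forall_congr' fun l => by rw [pointCond_iff (hf l).hs, h3]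
  obtain ⟨L, hL, S, hS⟩ := forward π i
  by_cases hpr : IsProper π
  · exact key L hL (fun l => (S l).full) (describes_full π i S hS) (fun _ l => rfl)
  · exact key L hL S hS (fun h => absurd h hpr)

theorem final (F₀ : Type) [Field F₀] [NumberField F₀] (σ : F₀ →+* ℂ) (Δ : ℕ → ℕ) :
    ((∀ (V V' : Scheme.{0}) (π : V ⟶ Spec (CommRingCat.of (𝓞 F₀))) (i : V' ⟶ V),
        LocallyOfFiniteType π → QuasiCompact π → IsClosedImmersion i → CondI σ π i → CondII π i) ↔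
      ∀ (m s : ℕ) (f : MvPolynomial (Fin (m + 1)) (𝓞 F₀)), IsGood σ Δ m s f →
        CurveCond σ s f → PointCond s f) ∧
    ((∀ (V V' : Scheme.{0}) (π : V ⟶ Spec (CommRingCat.of (𝓞 F₀))) (i : V' ⟶ V),
        LocallyOfFiniteType π → QuasiCompact π → IsClosedImmersion i → (CondI σ π i ↔ CondII π i)) ↔
      ∀ (m s : ℕ) (f : MvPolynomial (Fin (m + 1)) (𝓞 F₀)), IsGood σ Δ m s f →
        (CurveCond σ s f ↔ PointCond s f)) ∧
    ((∀ (V V' : Scheme.{0}) (π : V ⟶ Spec (CommRingCat.of (𝓞 F₀))) (i : V' ⟶ V),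
        IsProper π → IsClosedImmersion i → CondI σ π i → CondII π i) ↔
      ∀ (m : ℕ) (f : MvPolynomial (Fin (m + 1)) (𝓞 F₀)), IsGood σ Δ m m f →
        CurveCond σ m f → PointCond m f) ∧
    ((∀ (V V' : Scheme.{0}) (π : V ⟶ Spec (CommRingCat.of (𝓞 F₀))) (i : V' ⟶ V),
        IsProper π → IsClosedImmersion i → (CondI σ π i ↔ CondII π i)) ↔
      ∀ (m : ℕ) (f : MvPolynomial (Fin (m + 1)) (𝓞 F₀)), IsGood σ Δ m m f →
        (CurveCond σ m f ↔ PointCond m f)) := by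
  refine ⟨⟨?_, ?_⟩, ⟨?_, ?_⟩, ⟨?_, ?_⟩, ⟨?_, ?_⟩⟩
  · intro H m s f hf h
    obtain ⟨V, V', π, i, h1, h2, h3, -, h5, h6⟩ := good_scheme hf
    exact h6.1 (H V V' π i h1 h2 h3 (h5.2 h))
  · intro H V V' π i h1 h2 h3 h
    obtain ⟨L, hL, m, s, f, hf, -, h5, h6⟩ := scheme_good (fun m f hf => H m m f hf) π i
    exact h6.2 fun l => H _ _ _ (hf l) (h5.1 h l)
  · intro H m s f hf
    obtain ⟨V, V', π, i, h1, h2, h3, -, h5, h6⟩ := good_scheme hf
    rw [← h5, ← h6]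
    exact H V V' π i h1 h2 h3
  · intro H V V' π i h1 h2 h3
    obtain ⟨L, hL, m, s, f, hf, -, h5, h6⟩ := scheme_good (fun m f hf => (H m m f hf).1) π i
    rw [h5, h6]
    exact forall_congr' fun l => H _ _ _ (hf l)
  · intro H m f hf h
    obtain ⟨V, V', π, i, h1, h2, h3, h4, h5, h6⟩ := good_scheme hf
    exact h6.1 (H V V' π i (h4 rfl) h3 (h5.2 h))
  · intro H V V' π i h1 h3 h
    obtain ⟨L, hL, m, s, f, hf, h4, h5, h6⟩ := scheme_good H π i
    obtain rfl : s = m := funext (h4 h1)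
    exact h6.2 fun l => H _ _ (hf l) (h5.1 h l)
  · intro H m f hf
    obtain ⟨V, V', π, i, h1, h2, h3, h4, h5, h6⟩ := good_scheme hf
    rw [← h5, ← h6]
    exact H V V' π i (h4 rfl) h3
  · intro H V V' π i h1 h3
    obtain ⟨L, hL, m, s, f, hf, h4, h5, h6⟩ := scheme_good (fun m f hf => (H m f hf).1) π i
    obtain rfl : s = m := funext (h4 h1)
    rw [h5, h6]
    exact forall_congr' fun l => H _ _ (hf l)

end Pool.Agent.Work.MP_e97a4d_nt.Hyp
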