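import Pool.Agent.Work.MP_e97a4d_nt.Hyp.Final0

set_option autoImplicit false

noncomputable section

namespace Pool.Agent.Work.MP_e97a4d_nt.Hyp

open AlgebraicGeometry CategoryTheory IsDedekindDomain NumberField Filter
open HomogeneousLocalization
open Pool.Agent.Work.MP_e97a4d_nt Pool.Agent.Work.MP_e97a4d_nt.Sep
open Pool.Agent.Work.MP_e97a4d_nt.Sep.PSpace Pool.Agent.Work.MP_e97a4d_nt.Vp Bk

attribute [local instance] MvPolynomial.gradedAlgebra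

variable {F₀ : Type} [Field F₀] [NumberField F₀] {σ : F₀ →+* ℂ} {Δ : ℕ → ℕ}

/-- the scheme of a smooth form -/
theorem good0_iff {m s : ℕ} {f : MvPolynomial (Fin (m + 1)) (𝓞 F₀)} (hf : IsGood0 σ Δ m s f) :
    (NoCurve σ (kV s {f} ≫ psStr F₀ m) ↔ CurveCond0 σ s f) ∧
    (FinPts (kV s {f} ≫ psStr F₀ m) ↔ PointCond0 s f) := by
  have hE : ∀ e ∈ ({f} : Finset (MvPolynomial (Fin (m + 1)) (𝓞 F₀))), ∃ d, e.IsHomogeneous d := by
    intro e he
    obtain ⟨d, -, hd⟩ := hf.deg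
    rw [Finset.mem_singleton.1 he]
    exact ⟨d, hd⟩
  rw [noCurve_iff' σ (emb_kV s {f}) hf.hs hE, finPts_iff' (emb_kV s {f}) hf.hs hE,
    curveCond0_iff σ hf.hs, pointCond0_iff]
  exact ⟨Iff.rfl, Iff.rfl⟩

/-- the reduction for a given scheme -/
theorem scheme_good0 {m s s' : ℕ} (hs : s ≤ m) (hs' : s' = s ∨ (s = m ∧ s' = 2 * m + 1))
    {V : Scheme.{0}} (j : V ⟶ (Us F₀ m s).toScheme) [IsClosedImmersion j]
    (H : ∀ f : MvPolynomial (Fin (2 * m + 1 + 1)) (𝓞 F₀), IsGood0 σ Δ (2 * m + 1) s' f →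
      CurveCond0 σ s' f → PointCond0 s' f)
    (h : NoCurve σ ((j ≫ (Us F₀ m s).ι) ≫ psStr F₀ m)) :
    FinPts ((j ≫ (Us F₀ m s).ι) ≫ psStr F₀ m) := by
  obtain ⟨E, hE, hemb⟩ := exists_emb j
  obtain ⟨f, hf, h1, h2⟩ := exists_hyp0 σ Δ m s s' hs hs' E hE
  rw [finPts_iff' hemb hs hE]
  exact h2 (H f hf (h1 ((noCurve_iff' σ hemb hs hE).1 h)))

/-- a closed subscheme of projective space -/
theorem exists_j_proj {m : ℕ} {V : Scheme.{0}} (k : V ⟶ PS F₀ m) [IsClosedImmersion k] :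
    ∃ j : V ⟶ (Us F₀ m m).toScheme, IsClosedImmersion j ∧ j ≫ (Us F₀ m m).ι = k := by
  have h1 : IsIso (Us F₀ m m).ι :=
    isIso_of_isOpenImmersion_of_opensRange_eq_top _ (by rw [Scheme.Opens.opensRange_ι, Us_top m rfl])
  exact ⟨k ≫ inv (Us F₀ m m).ι, inferInstance, by rw [Category.assoc, IsIso.inv_hom_id,
    Category.comp_id]⟩

theorem Us_zero {m : ℕ} : Us F₀ m 0 = (chart F₀ (0 : Fin (m + 1))).opensRange := by
  ext p
  show p ∈ Us F₀ m 0 ↔ p ∈ (chart F₀ (0 : Fin (m + 1))).opensRange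
  rw [mem_Us]
  constructor
  · rintro ⟨k, hk, hp⟩
    have h0 : k = 0 := Fin.ext (by simpa using hk)
    rwa [h0] at hp
  · intro hp
    exact ⟨0, by simp, hp⟩

theorem exists_iso_zero {m : ℕ} : ∃ c : Spec (CommRingCat.of (A F₀ (0 : Fin (m + 1)))) ⟶
    (Us F₀ m 0).toScheme, IsIso c ∧ c ≫ (Us F₀ m 0).ι = chart F₀ 0 := by
  have h1 : Set.range (chart F₀ (0 : Fin (m + 1))) ⊆ Set.range (Us F₀ m 0).ι := by
    rw [Scheme.Opens.range_ι, Us_zero]
    exact subset_rfl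
  let c := IsOpenImmersion.lift (Us F₀ m 0).ι (chart F₀ (0 : Fin (m + 1))) h1
  have hc : c ≫ (Us F₀ m 0).ι = chart F₀ 0 := IsOpenImmersion.lift_fac _ _ _
  have h2 : IsOpenImmersion (c ≫ (Us F₀ m 0).ι) := by rw [hc]; infer_instance
  have h3 : IsOpenImmersion c := IsOpenImmersion.of_comp c (Us F₀ m 0).ι
  refine ⟨c, ?_, hc⟩
  refine isIso_of_isOpenImmersion_of_opensRange_eq_top _ ?_
  rw [eq_top_iff]
  rintro p -
  have hp : (Us F₀ m 0).ι p ∈ (chart F₀ (0 : Fin (m + 1))).opensRange := by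
    rw [← Us_zero]
    exact p.2
  obtain ⟨q, hq⟩ := hp
  refine ⟨q, ?_⟩
  apply (Us F₀ m 0).ι.isOpenEmbedding.injective
  show (c ≫ (Us F₀ m 0).ι) q = _
  rw [hc]
  exact hq

/-- an affine scheme of finite type -/
theorem exists_j_affine {V : Scheme.{0}} (π : V ⟶ SpO F₀) [IsAffine V] [LocallyOfFiniteType π] :
    ∃ (m : ℕ) (j : V ⟶ (Us F₀ m 0).toScheme), IsClosedImmersion j ∧
      (j ≫ (Us F₀ m 0).ι) ≫ psStr F₀ m = π := by
  let R : Type := Γ(V, ⊤)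
  let π' : Spec (CommRingCat.of R) ⟶ SpO F₀ := V.isoSpec.inv ≫ π
  obtain ⟨ρ, hρ⟩ := Spec.map_surjective π'
  have h1 : LocallyOfFiniteType (Spec.map ρ) := by rw [hρ]; infer_instance
  have h2 : ρ.hom.FiniteType := by
    rwa [HasRingHomProperty.Spec_iff (P := @LocallyOfFiniteType)] at h1
  let _ := ρ.hom.toAlgebra
  have h3 : Algebra.FiniteType (𝓞 F₀) R := h2
  obtain ⟨n, g, hg⟩ := Algebra.FiniteType.iff_quotient_mvPolynomial''.1 h3
  obtain ⟨φ, hφ1, hφ2⟩ := exists_pt (F₀ := F₀) (m := n) ρ.hom 0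
    (Fin.cons 1 (fun k => g (MvPolynomial.X k))) (by simp)
  have hsurj : Function.Surjective φ := by
    intro r
    obtain ⟨p, rfl⟩ := hg r
    refine ⟨(MvPolynomial.rename Fin.succ p).eval₂ (cst F₀ 0) (ratio F₀ 0), ?_⟩
    rw [MvPolynomial.hom_eval₂, hφ1, hφ2, MvPolynomial.eval₂_rename]
    have h4 : (Fin.cons 1 (fun k => g (MvPolynomial.X k)) : Fin (n + 1) → R) ∘ Fin.succ =
        fun k => g (MvPolynomial.X k) := by
      funext k
      simp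
    rw [h4]
    have h5 := MvPolynomial.aeval_unique g
    conv_rhs => rw [h5]
    rfl
  obtain ⟨c, hc, hc'⟩ := exists_iso_zero (F₀ := F₀) (m := n)
  have h6 : IsClosedImmersion (Spec.map (CommRingCat.ofHom φ)) :=
    IsClosedImmersion.spec_of_surjective _ hsurj
  refine ⟨n, V.isoSpec.hom ≫ Spec.map (CommRingCat.ofHom φ) ≫ c, inferInstance, ?_⟩
  simp only [Category.assoc]
  rw [reassoc_of% hc', chart_psStr, ← Spec.map_comp, ← CommRingCat.ofHom_comp, hφ1]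
  have h7 : Spec.map (CommRingCat.ofHom ρ.hom) = π' := hρ
  rw [h7]
  simp [π']

theorem isAffine_VV {m : ℕ} (E : Finset (MvPolynomial (Fin (m + 1)) (𝓞 F₀))) :
    IsAffine (VV 0 E) := by
  obtain ⟨c, hc, hc'⟩ := exists_iso_zero (F₀ := F₀) (m := m)
  have h1 : IsAffine (Us F₀ m 0).toScheme := IsAffine.of_isIso (inv c)
  exact isAffine_of_isAffineHom (jV 0 E)

/-- The reduction to smooth hypersurfaces, with empty exceptional set. -/
theorem final0 (F₀ : Type) [Field F₀] [NumberField F₀] (σ : F₀ →+* ℂ) (Δ : ℕ → ℕ) :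
    ((∀ (m s : ℕ) (V : Scheme.{0}) (j : V ⟶ (Us F₀ m s).toScheme), s ≤ m → IsClosedImmersion j →
        NoCurve σ ((j ≫ (Us F₀ m s).ι) ≫ psStr F₀ m) → FinPts ((j ≫ (Us F₀ m s).ι) ≫ psStr F₀ m)) ↔
      ∀ (m s : ℕ) (f : MvPolynomial (Fin (m + 1)) (𝓞 F₀)), IsGood0 σ Δ m s f →
        CurveCond0 σ s f → PointCond0 s f) ∧
    ((∀ (m : ℕ) (V : Scheme.{0}) (k : V ⟶ PS F₀ m), IsClosedImmersion k →
        NoCurve σ (k ≫ psStr F₀ m) → FinPts (k ≫ psStr F₀ m)) ↔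
      ∀ (m : ℕ) (f : MvPolynomial (Fin (m + 1)) (𝓞 F₀)), IsGood0 σ Δ m m f →
        CurveCond0 σ m f → PointCond0 m f) ∧
    ((∀ (V : Scheme.{0}) (π : V ⟶ SpO F₀), IsAffine V → LocallyOfFiniteType π →
        NoCurve σ π → FinPts π) ↔
      ∀ (m : ℕ) (f : MvPolynomial (Fin (m + 1)) (𝓞 F₀)), IsGood0 σ Δ m 0 f →
        CurveCond0 σ 0 f → PointCond0 0 f) := by
  refine ⟨⟨?_, ?_⟩, ⟨?_, ?_⟩, ⟨?_, ?_⟩⟩
  · intro H m s f hf h
    obtain ⟨h1, h2⟩ := good0_iff hf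
    exact h2.1 (H m s _ (jV s {f}) hf.hs inferInstance (h1.2 h))
  · intro H m s V j hs hj h
    exact scheme_good0 hs (Or.inl rfl) j (fun f hf => H _ _ f hf) h
  · intro H m f hf h
    obtain ⟨h1, h2⟩ := good0_iff hf
    have h3 : IsIso (Us F₀ m m).ι :=
      isIso_of_isOpenImmersion_of_opensRange_eq_top _
        (by rw [Scheme.Opens.opensRange_ι, Us_top m rfl])
    have h4 : IsClosedImmersion (kV m {f}) := by unfold kV; infer_instance
    exact h2.1 (H m _ (kV m {f}) h4 (h1.2 h))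
  · intro H m V k hk h
    obtain ⟨j, hj, rfl⟩ := exists_j_proj k
    exact scheme_good0 le_rfl (Or.inr ⟨rfl, rfl⟩) j (fun f hf => H _ f hf) h
  · intro H m f hf h
    obtain ⟨h1, h2⟩ := good0_iff hf
    have h3 := (emb_kV (F₀ := F₀) 0 {f}).lft
    exact h2.1 (H _ (kV 0 {f} ≫ psStr F₀ m) (isAffine_VV {f}) h3 (h1.2 h))
  · intro H V π hV hπ h
    obtain ⟨m, j, hj, rfl⟩ := exists_j_affine π
    exact scheme_good0 (Nat.zero_le _) (Or.inl rfl) j (fun f hf => H _ f hf) h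

theorem linCompl_eq (F₀ : Type) [Field F₀] (m s : ℕ) : linCompl F₀ m s = Us F₀ m s := by
  unfold linCompl Us
  simp only [opensRange_chart]

/-- The reduction to smooth hypersurfaces, with empty exceptional set. -/
theorem final0' (F₀ : Type) [Field F₀] [NumberField F₀] (σ : F₀ →+* ℂ) (Δ : ℕ → ℕ) :
    ((∀ (m s : ℕ) (V : Scheme.{0}) (j : V ⟶ (linCompl F₀ m s).toScheme), s ≤ m →
        IsClosedImmersion j → NoCurve σ (j ≫ (linCompl F₀ m s).ι ≫ psStr F₀ m) →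
        FinPts (j ≫ (linCompl F₀ m s).ι ≫ psStr F₀ m)) ↔
      ∀ (m s : ℕ) (f : MvPolynomial (Fin (m + 1)) (𝓞 F₀)), IsGood0 σ Δ m s f →
        CurveCond0 σ s f → PointCond0 s f) ∧
    ((∀ (m : ℕ) (V : Scheme.{0}) (k : V ⟶ PS F₀ m), IsClosedImmersion k →
        NoCurve σ (k ≫ psStr F₀ m) → FinPts (k ≫ psStr F₀ m)) ↔
      ∀ (m : ℕ) (f : MvPolynomial (Fin (m + 1)) (𝓞 F₀)), IsGood0 σ Δ m m f →
        CurveCond0 σ m f → PointCond0 m f) ∧
    ((∀ (V : Scheme.{0}) (π : V ⟶ SpO F₀), IsAffine V → LocallyOfFiniteType π →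
        NoCurve σ π → FinPts π) ↔
      ∀ (m : ℕ) (f : MvPolynomial (Fin (m + 1)) (𝓞 F₀)), IsGood0 σ Δ m 0 f →
        CurveCond0 σ 0 f → PointCond0 0 f) := by
  refine ⟨?_, (final0 F₀ σ Δ).2⟩
  rw [← (final0 F₀ σ Δ).1]
  refine forall_congr' fun m => forall_congr' fun s => ?_
  rw [linCompl_eq]
  simp only [Category.assoc]

end Pool.Agent.Work.MP_e97a4d_nt.Hyp
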