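import Mathlib

set_option autoImplicit false

noncomputable section

namespace Pool.Agent.Work.MP_e97a4d_nt.Hyp

/-- Many disjoint pairs or a large star. -/
theorem comb {α : Type} (P : Finset α) (R : α → α → Prop) (hR : ∀ x y, R x y → R y x)
    (hP : ∀ p ∈ P, ∃ q ∈ P, q ≠ p ∧ R p q) (A m : ℕ) (hcard : 2 * A * (m + 1) < P.card) :
    (∃ f g : Fin A → α, Function.Injective (Sum.elim f g) ∧
      ∀ s, f s ∈ P ∧ g s ∈ P ∧ R (f s) (g s)) ∨
    (∃ v ∈ P, ∃ h : Fin m → α, Function.Injective h ∧ ∀ i, h i ∈ P ∧ h i ≠ v ∧ R (h i) v) := by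
  classical
  set Q : ℕ → Prop := fun k => ∃ f g : Fin k → α, Function.Injective (Sum.elim f g) ∧
      ∀ s, f s ∈ P ∧ g s ∈ P ∧ R (f s) (g s) with hQ
  by_cases hA : Q A
  · exact Or.inl hA
  right
  have hQ0 : Q 0 := by
    refine ⟨Fin.elim0, Fin.elim0, ?_, fun s => s.elim0⟩
    intro a
    rcases a with a | a <;> exact a.elim0
  obtain ⟨k, hkA, hk, hk1⟩ : ∃ k, k < A ∧ Q k ∧ ¬ Q (k + 1) := by
    have hex : ∃ j, ¬ Q j := ⟨A, hA⟩
    have hs := Nat.find_spec hex
    have hne : Nat.find hex ≠ 0 := by
      intro h0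
      rw [h0] at hs
      exact hs hQ0
    obtain ⟨j, hj⟩ := Nat.exists_eq_succ_of_ne_zero hne
    refine ⟨j, ?_, ?_, ?_⟩
    · have := Nat.find_min' hex hA
      omega
    · have := Nat.find_min hex (m := j) (by omega)
      simpa using this
    · rw [hj] at hs
      exact hs
  obtain ⟨f, g, hinj, hfg⟩ := hk
  set M : Finset α := Finset.univ.image f ∪ Finset.univ.image g with hM
  have hMcard : M.card ≤ 2 * k := by
    refine (Finset.card_union_le _ _).trans ?_
    have h1 := Finset.card_image_le (s := (Finset.univ : Finset (Fin k))) (f := f)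
    have h2 := Finset.card_image_le (s := (Finset.univ : Finset (Fin k))) (f := g)
    simp only [Finset.card_univ, Fintype.card_fin] at h1 h2
    omega
  have hMP : ∀ x ∈ M, x ∈ P := by
    intro x hx
    rw [hM, Finset.mem_union, Finset.mem_image, Finset.mem_image] at hx
    rcases hx with ⟨s, -, rfl⟩ | ⟨s, -, rfl⟩
    · exact (hfg s).1
    · exact (hfg s).2.1
  have hfM : ∀ s, f s ∈ M := fun s => by
    rw [hM]; exact Finset.mem_union_left _ (Finset.mem_image_of_mem _ (Finset.mem_univ _))
  have hgM : ∀ s, g s ∈ M := fun s => by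
    rw [hM]; exact Finset.mem_union_right _ (Finset.mem_image_of_mem _ (Finset.mem_univ _))
  have hfi : Function.Injective f := fun a b h => by
    have := hinj (a₁ := Sum.inl a) (a₂ := Sum.inl b) (by simpa using h)
    simpa using this
  have hgi : Function.Injective g := fun a b h => by
    have := hinj (a₁ := Sum.inr a) (a₂ := Sum.inr b) (by simpa using h)
    simpa using this
  have hfgne : ∀ a b, f a ≠ g b := fun a b h => by
    have := hinj (a₁ := Sum.inl a) (a₂ := Sum.inr b) (by simpa using h)
    simp at this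
  -- partner
  choose! π hπP hπne hπR using hP
  have hπM : ∀ p ∈ P \ M, π p ∈ M := by
    intro p hp
    rw [Finset.mem_sdiff] at hp
    by_contra hnot
    apply hk1
    refine ⟨Fin.cons p f, Fin.cons (π p) g, ?_, ?_⟩
    · apply Function.Injective.sumElim
      · rw [Fin.cons_injective_iff]
        refine ⟨?_, hfi⟩
        rintro ⟨s, hs⟩
        exact hp.2 (hs ▸ hfM s)
      · rw [Fin.cons_injective_iff]
        refine ⟨?_, hgi⟩
        rintro ⟨s, hs⟩
        exact hnot (hs ▸ hgM s)
      · intro a b
        refine Fin.cases ?_ (fun a' => ?_) a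
        · refine Fin.cases ?_ (fun b' => ?_) b
          · simpa using (hπne p hp.1).symm
          · simp only [Fin.cons_zero, Fin.cons_succ]
            intro h
            exact hp.2 (h ▸ hgM b')
        · refine Fin.cases ?_ (fun b' => ?_) b
          · simp only [Fin.cons_zero, Fin.cons_succ]
            intro h
            exact hnot (h ▸ hfM a')
          · simpa using hfgne a' b'
    · intro s
      refine Fin.cases ?_ (fun s' => ?_) s
      · simpa using ⟨hp.1, hπP p hp.1, hπR p hp.1⟩
      · simpa using hfg s'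
  have hcard2 : 2 * A * m < (P \ M).card := by
    have h1 : P.card ≤ (P \ M).card + M.card := by
      have := Finset.card_le_card_sdiff_add_card (s := P) (t := M)
      omega
    have h2 : 2 * A * (m + 1) = 2 * A * m + 2 * A := by ring
    rw [h2] at hcard
    generalize 2 * A * m = X at *
    omega
  have hMne : M.Nonempty := by
    have : 0 < (P \ M).card := by omega
    obtain ⟨p, hp⟩ := Finset.card_pos.1 this
    exact ⟨_, hπM p hp⟩
  obtain ⟨v, hvM, hv⟩ := Finset.exists_le_card_fiber_of_mul_le_card_of_maps_to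
    (s := P \ M) (t := M) (f := π) (n := m) hπM hMne (by
      have : M.card * m ≤ 2 * A * m := Nat.mul_le_mul_right m (by omega)
      omega)
  obtain ⟨F, hF, hFc⟩ := Finset.exists_subset_card_eq hv
  refine ⟨v, hMP v hvM, fun i => ((F.equivFinOfCardEq hFc).symm i).1, ?_, ?_⟩
  · intro a b h
    exact (F.equivFinOfCardEq hFc).symm.injective (Subtype.ext h)
  · intro i
    have hi := hF ((F.equivFinOfCardEq hFc).symm i).2
    rw [Finset.mem_filter, Finset.mem_sdiff] at hi
    obtain ⟨⟨h1, h2⟩, h3⟩ := hi
    refine ⟨h1, ?_, ?_⟩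
    · intro h
      have h' : ((F.equivFinOfCardEq hFc).symm i).1 = v := h
      rw [h'] at h2
      exact h2 hvM
    · have := hπR _ h1
      rw [h3] at this
      exact this

end Pool.Agent.Work.MP_e97a4d_nt.Hyp
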