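import Pool.Agent.Work.MP_e97a4d_nt.Hyp.SizeDefs

set_option autoImplicit false

noncomputable section

namespace Pool.Agent.Work.MP_e97a4d_nt.Hyp

namespace PairsAux

theorem sum_pairs {n : ℕ} {M : Type} [AddCommMonoid M] (F : Fin n → Fin n → M) (hd : ∀ i, F i i = 0) :
    ∑ i, ∑ j, F i j = ∑ t : Pair n, (F t.1.1 t.1.2 + F t.1.2 t.1.1) := by
  classical
  rw [← Finset.sum_product', Finset.univ_product_univ, Finset.sum_add_distrib]
  have h1 : ∑ t : Pair n, F t.1.1 t.1.2
      = ∑ x ∈ (Finset.univ : Finset (Fin n × Fin n)).filter (fun x => x.1 < x.2), F x.1 x.2 := by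
    rw [← Finset.sum_subtype (s := (Finset.univ : Finset (Fin n × Fin n)).filter (fun x => x.1 < x.2))
      (p := fun x => x.1 < x.2) (by intro x; simp) (f := fun x => F x.1 x.2)]
  have h2 : ∑ t : Pair n, F t.1.2 t.1.1
      = ∑ x ∈ (Finset.univ : Finset (Fin n × Fin n)).filter (fun x => x.1 < x.2), F x.2 x.1 := by
    rw [← Finset.sum_subtype (s := (Finset.univ : Finset (Fin n × Fin n)).filter (fun x => x.1 < x.2))
      (p := fun x => x.1 < x.2) (by intro x; simp) (f := fun x => F x.2 x.1)]
  have h3 : ∑ x ∈ (Finset.univ : Finset (Fin n × Fin n)).filter (fun x => x.1 < x.2), F x.2 x.1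
      = ∑ x ∈ (Finset.univ : Finset (Fin n × Fin n)).filter (fun x => x.2 < x.1), F x.1 x.2 := by
    refine Finset.sum_bij' (fun x _ => x.swap) (fun x _ => x.swap) ?_ ?_ ?_ ?_ ?_
    · intro x hx; simpa using hx
    · intro x hx; simpa using hx
    · intro x _; simp
    · intro x _; simp
    · intro x _; simp
  have h4 : ∑ x ∈ (Finset.univ : Finset (Fin n × Fin n)).filter (fun x => ¬ x.1 < x.2), F x.1 x.2
      = ∑ x ∈ (Finset.univ : Finset (Fin n × Fin n)).filter (fun x => x.2 < x.1), F x.1 x.2 := by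
    symm
    apply Finset.sum_subset
    · intro x hx
      simp only [Finset.mem_filter, Finset.mem_univ, true_and] at hx ⊢
      exact not_lt.2 hx.le
    · intro x hx hx2
      simp only [Finset.mem_filter, Finset.mem_univ, true_and] at hx hx2
      have : x.1 = x.2 := le_antisymm (not_lt.1 hx2) (not_lt.1 hx)
      rw [this]
      exact hd _
  rw [h1, h2, h3, ← h4]
  exact (Finset.sum_filter_add_sum_filter_not Finset.univ (fun x : Fin n × Fin n => x.1 < x.2)
    (fun x => F x.1 x.2)).symm

theorem sz_sum {n : ℕ} {ξ : Fin n → Mero} (Z : SizeSys ξ) {ι : Type} (s : Finset ι) (f : ι → Mero)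
    (j : ℕ) (c : ℝ) (hc : 0 ≤ c) (h : ∀ i ∈ s, Z.Sz j c (f i)) : Z.Sz j (s.card * c) (∑ i ∈ s, f i) := by
  classical
  induction s using Finset.induction_on with
  | empty => simpa using Z.const j (D.map_zero)
  | insert a s ha ih =>
    rw [Finset.sum_insert ha, Finset.card_insert_of_notMem ha]
    have h1 := ih (fun i hi => h i (Finset.mem_insert_of_mem hi))
    have h2 := h a (Finset.mem_insert_self _ _)
    have h3 := Z.add hc (by positivity) h2 h1
    have : ((s.card + 1 : ℕ) : ℝ) * c = c + s.card * c := by push_cast; ring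
    rw [this]
    exact h3

theorem sz_prod {n : ℕ} {ξ : Fin n → Mero} (Z : SizeSys ξ) {ι : Type} (s : Finset ι) (f : ι → Mero)
    (j : ℕ) (c : ℝ) (hc : 0 ≤ c) (h : ∀ i ∈ s, Z.Sz j c (f i)) : Z.Sz j (s.card * c) (∏ i ∈ s, f i) := by
  classical
  induction s using Finset.induction_on with
  | empty => simpa using Z.const j (D.map_one_eq_zero)
  | insert a s ha ih =>
    rw [Finset.prod_insert ha, Finset.card_insert_of_notMem ha]
    have h1 := ih (fun i hi => h i (Finset.mem_insert_of_mem hi))
    have h2 := h a (Finset.mem_insert_self _ _)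
    have h3 := Z.mul hc (by positivity) h2 h1
    have : ((s.card + 1 : ℕ) : ℝ) * c = c + s.card * c := by push_cast; ring
    rw [this]
    exact h3

theorem sz_cmul {n : ℕ} {ξ : Fin n → Mero} (Z : SizeSys ξ) (j : ℕ) (c : ℝ) (hc : 0 ≤ c) (a : ℂ) (u : Mero)
    (h : Z.Sz j c u) : Z.Sz j c (algebraMap ℂ Mero a * u) := by
  have h1 := Z.mul le_rfl hc (Z.const j (D.map_algebraMap a)) h
  rwa [zero_add] at h1

theorem sz_neg {n : ℕ} {ξ : Fin n → Mero} (Z : SizeSys ξ) (j : ℕ) (c : ℝ) (hc : 0 ≤ c) (u : Mero)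
    (h : Z.Sz j c u) : Z.Sz j c (-u) := by
  have h1 := sz_cmul Z j c hc (-1) u h
  rwa [map_neg, map_one, neg_one_mul] at h1

theorem sz_det {n m : ℕ} {ξ : Fin n → Mero} (Z : SizeSys ξ) (M : Matrix (Fin m) (Fin m) Mero)
    (j : ℕ) (c : ℝ) (hc : 0 ≤ c) (h : ∀ a b, Z.Sz j c (M a b)) :
    Z.Sz j (m.factorial * (m * c)) M.det := by
  rw [Matrix.det_apply]
  have h1 := sz_sum Z (Finset.univ : Finset (Equiv.Perm (Fin m)))
    (fun σ => Equiv.Perm.sign σ • ∏ i, M (σ i) i) j (m * c) (by positivity) (by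
      intro σ _
      have h2 := sz_prod Z Finset.univ (fun i => M (σ i) i) j c hc (fun i _ => h _ _)
      rw [Finset.card_univ, Fintype.card_fin] at h2
      rcases Int.units_eq_one_or (Equiv.Perm.sign σ) with hs | hs
      · rw [hs, one_smul]; exact h2
      · rw [hs, Units.neg_smul, one_smul]; exact sz_neg Z j _ (by positivity) _ h2)
  rw [Finset.card_univ, Fintype.card_perm, Fintype.card_fin] at h1
  exact h1

end PairsAux

open PairsAux

/-- The kernel of the system `L_{q_s} - h_s L_{p_s}` has dimension at most one. -/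
theorem ker_le_one {n : ℕ} {ξ y : Fin (n + 1) → Mero} {P : Type} (L : P → Fin (n + 1) → ℂ) (hL : Gen L)
    (p q : Pair (n + 1) → P) (hpq : Function.Injective (Sum.elim p q)) (h : Pair (n + 1) → Mero)
    (h1 : ∀ s, lin (L (q s)) ξ = h s * lin (L (p s)) ξ)
    (h2 : ∀ s, lin (L (q s)) y = h s * lin (L (p s)) y) (k l : Fin (n + 1)) :
    ξ k * y l = ξ l * y k := by
  classical
  set M : Matrix (Pair (n + 1)) (Pair (n + 1)) ℂ := Matrix.of fun s t : Pair (n + 1) =>
      L (q s) t.1.1 * L (p s) t.1.2 - L (q s) t.1.2 * L (p s) t.1.1 with hM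
  have hdet : M.det ≠ 0 := hL.g2 p q hpq
  have hdet' : (M.map (algebraMap ℂ Mero)).det ≠ 0 := by
    have := RingHom.map_det (algebraMap ℂ Mero) M
    rw [RingHom.mapMatrix_apply] at this
    rw [← this]
    intro h0
    exact hdet ((algebraMap ℂ Mero).injective (by rw [h0, map_zero]))
  have hw : (M.map (algebraMap ℂ Mero)).mulVec (fun t : Pair (n + 1) =>
      ξ t.1.1 * y t.1.2 - ξ t.1.2 * y t.1.1) = 0 := by
    funext s
    show ∑ t : Pair (n + 1), _ = (0 : Mero)
    have h3 : lin (L (q s)) ξ * lin (L (p s)) y - lin (L (q s)) y * lin (L (p s)) ξ = 0 := by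
      rw [h1, h2]; ring
    rw [← h3]
    have h4 : lin (L (q s)) ξ * lin (L (p s)) y - lin (L (q s)) y * lin (L (p s)) ξ
        = ∑ i, ∑ j, algebraMap ℂ Mero (L (q s) i * L (p s) j) * (ξ i * y j - y i * ξ j) := by
      unfold lin
      rw [Finset.sum_mul_sum, Finset.sum_mul_sum, ← Finset.sum_sub_distrib]
      refine Finset.sum_congr rfl fun i _ => ?_
      rw [← Finset.sum_sub_distrib]
      refine Finset.sum_congr rfl fun j _ => ?_
      simp only [Algebra.smul_def, map_mul]
      ring
    rw [h4, sum_pairs]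
    · refine Finset.sum_congr rfl fun t _ => ?_
      simp only [hM, Matrix.map_apply, Matrix.of_apply, map_sub, map_mul]
      ring
    · intro i
      ring
  have hz := Matrix.eq_zero_of_mulVec_eq_zero hdet' hw
  rcases lt_trichotomy k l with hkl | hkl | hkl
  · have := congrFun hz ⟨(k, l), hkl⟩
    exact sub_eq_zero.1 this
  · rw [hkl]
  · have := congrFun hz ⟨(l, k), hkl⟩
    exact (sub_eq_zero.1 this).symm

/-- Many disjoint slow pairs. -/
theorem pairs {n : ℕ} {ξ : Fin (n + 1) → Mero} (Z : SizeSys ξ) {P : Type} (L : P → Fin (n + 1) → ℂ)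
    (hL : Gen L) (l₀ : Fin (n + 1)) (h1 : ξ l₀ = 1) (p q : Pair (n + 1) → P)
    (hpq : Function.Injective (Sum.elim p q)) (j : ℕ) (ε : ℝ) (hε : 0 ≤ ε)
    (hp : ∀ s, lin (L (p s)) ξ ≠ 0) (hs : ∀ s, Z.Sz j ε (lin (L (q s)) ξ / lin (L (p s)) ξ)) :
    ∀ k, Z.Sz j (2 * n.factorial * n * ε) (ξ k) := by
  classical
  set h : Pair (n + 1) → Mero := fun s => lin (L (q s)) ξ / lin (L (p s)) ξ with hh
  have hξ : ∀ s, lin (L (q s)) ξ = h s * lin (L (p s)) ξ := by
    intro s
    rw [hh]
    field_simp [hp s]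
  -- coefficients
  set c : Pair (n + 1) → Fin (n + 1) → Mero := fun s k =>
    algebraMap ℂ Mero (L (q s) k) + (-(algebraMap ℂ Mero (L (p s) k) * h s)) with hc
  have hcs : ∀ s k, Z.Sz j ε (c s k) := by
    intro s k
    have h3 := sz_neg Z j ε hε _ (sz_cmul Z j ε hε (L (p s) k) (h s) (hs s))
    have h4 := Z.add le_rfl hε (Z.const j (D.map_algebraMap (L (q s) k))) h3
    rwa [zero_add] at h4
  have hlin : ∀ (s : Pair (n + 1)) (y : Fin (n + 1) → Mero),
      ∑ k, c s k * y k = lin (L (q s)) y - h s * lin (L (p s)) y := by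
    intro s y
    unfold lin
    rw [Finset.mul_sum, ← Finset.sum_sub_distrib]
    refine Finset.sum_congr rfl fun k _ => ?_
    simp only [hc, Algebra.smul_def]
    ring
  set v : Pair (n + 1) → (Fin n → Mero) := fun s i => c s (l₀.succAbove i) with hv
  -- the rows span
  have hspan : Submodule.span Mero (Set.range v) = ⊤ := by
    by_contra hne
    obtain ⟨f, hf0, hf⟩ := Submodule.exists_dual_map_eq_bot_of_lt_top (lt_top_iff_ne_top.2 hne)
      inferInstance
    apply hf0
    set z : Fin n → Mero := fun i => f (Pi.single i 1) with hz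
    have hfz : ∀ w : Fin n → Mero, f w = ∑ i, w i * z i := by
      intro w
      conv_lhs => rw [← Finset.univ_sum_single w]
      rw [map_sum]
      refine Finset.sum_congr rfl fun i _ => ?_
      have : (Pi.single i (w i) : Fin n → Mero) = w i • Pi.single i 1 := by
        rw [← Pi.single_smul, smul_eq_mul, mul_one]
      rw [this, map_smul, smul_eq_mul]
    have hvz : ∀ s, ∑ i, v s i * z i = 0 := by
      intro s
      rw [← hfz]
      have : f (v s) ∈ (Submodule.span Mero (Set.range v)).map f :=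
        Submodule.mem_map_of_mem (Submodule.subset_span ⟨s, rfl⟩)
      rw [hf] at this
      exact this
    set y : Fin (n + 1) → Mero := Fin.insertNth l₀ 0 z with hy
    have hy0 : y l₀ = 0 := by rw [hy]; simp
    have hyi : ∀ i, y (l₀.succAbove i) = z i := by intro i; rw [hy]; simp
    have hy2 : ∀ s, lin (L (q s)) y = h s * lin (L (p s)) y := by
      intro s
      rw [← sub_eq_zero, ← hlin, Fin.sum_univ_succAbove _ l₀, hy0, mul_zero, zero_add]
      simp only [hyi]
      exact hvz s
    have hz0 : ∀ i, z i = 0 := by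
      intro i
      have := ker_le_one L hL p q hpq h hξ hy2 l₀ (l₀.succAbove i)
      rw [h1, hy0, one_mul, mul_zero, hyi] at this
      exact this
    apply LinearMap.ext
    intro w
    rw [hfz]
    simp [hz0]
  obtain ⟨κ, a, ha, hspan2, hli⟩ := exists_linearIndependent' Mero v
  rw [hspan] at hspan2
  let b : Module.Basis κ Mero (Fin n → Mero) := Module.Basis.mk hli hspan2.ge
  have hκ : Finite κ := Module.Finite.finite_basis b
  have := Fintype.ofFinite κ
  have hcardκ : Fintype.card κ = n := by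
    have := Module.finrank_eq_card_basis b
    rw [Module.finrank_fin_fun] at this
    exact this.symm
  let e : Fin n ≃ κ := (Fintype.equivFinOfCardEq hcardκ).symm
  set M : Matrix (Fin n) (Fin n) Mero := Matrix.of fun i => v (a (e i)) with hM
  have hMdet : M.det ≠ 0 := by
    have h3 : LinearIndependent Mero M.row := hli.comp e e.injective
    have h4 := Matrix.linearIndependent_rows_iff_isUnit.1 h3
    exact ((Matrix.isUnit_iff_isUnit_det _).1 h4).ne_zero
  set β : Fin n → Mero := fun i => - c (a (e i)) l₀ with hβ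
  have hMz : M.mulVec (fun i => ξ (l₀.succAbove i)) = β := by
    funext i
    show ∑ k, c (a (e i)) (l₀.succAbove k) * ξ (l₀.succAbove k) = - c (a (e i)) l₀
    have h3 := hlin (a (e i)) ξ
    rw [hξ, sub_self, Fin.sum_univ_succAbove _ l₀, h1, mul_one] at h3
    rw [eq_neg_iff_add_eq_zero, add_comm]
    exact h3
  have hcramer : ∀ i, M.det * ξ (l₀.succAbove i) = (M.updateCol i β).det := by
    intro i
    have h3 : M.cramer β = M.det • (fun i => ξ (l₀.succAbove i)) := by
      rw [← hMz, Matrix.cramer_eq_adjugate_mulVec, Matrix.mulVec_mulVec, Matrix.adjugate_mul,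
        Matrix.smul_mulVec, Matrix.one_mulVec]
    have h4 := congrFun h3 i
    rw [Matrix.cramer_apply] at h4
    rw [h4]
    rfl
  have hβs : ∀ i, Z.Sz j ε (β i) := fun i => sz_neg Z j ε hε _ (hcs _ _)
  intro k
  rcases Fin.eq_self_or_eq_succAbove l₀ k with hk | ⟨i, hk⟩
  · rw [hk, h1]
    exact Z.mono le_rfl (by positivity) (Z.const j D.map_one_eq_zero)
  · have h3 : ξ k = (M.updateCol i β).det * M.det⁻¹ := by
      rw [hk, ← hcramer i]
      field_simp
    rw [h3]
    have h4 := sz_det Z (M.updateCol i β) j ε hε (by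
      intro x z
      rw [Matrix.updateCol_apply]
      split_ifs
      · exact hβs _
      · exact hcs _ _)
    have h5 := Z.inv (by positivity) (sz_det Z M j ε hε (fun x z => hcs _ _))
    have h6 := Z.mul (by positivity) (by positivity) h4 h5
    have h7 : (n.factorial : ℝ) * (n * ε) + n.factorial * (n * ε) = 2 * n.factorial * n * ε := by ring
    rw [h7] at h6
    exact h6

end Pool.Agent.Work.MP_e97a4d_nt.Hyp
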