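import Mathlib

set_option autoImplicit false

noncomputable section

namespace Pool.Agent.Work.MP_e97a4d_nt.Hyp

open Filter Topology Metric Real ValueDistribution

private theorem growth_order_ne_top {F : ℂ → ℂ} (hF : Meromorphic F)
    (h : ¬ F =ᶠ[codiscrete ℂ] fun _ => 0) (z : ℂ) : meromorphicOrderAt F z ≠ ⊤ := by
  by_contra hz
  apply h
  have h1 : ∀ u, meromorphicOrderAt F u = ⊤ := by
    by_contra hcon
    push Not at hcon
    exact (hF.exists_meromorphicOrderAt_ne_top_iff_forall.1 hcon) z hz
  rw [Filter.EventuallyEq, Filter.Eventually]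
  show {x | F x = 0} ∈ codiscreteWithin Set.univ
  rw [mem_codiscreteWithin_iff_forall_mem_nhdsNE]
  intro x _
  have h2 := meromorphicOrderAt_eq_top_iff.1 (h1 x)
  filter_upwards [h2] with y hy
  exact Or.inl hy

/-- the points of a fibre of the exponential function -/
private def growthPt (w : ℂ) (j : ℕ) : ℂ := Complex.log w + 2 * π * Complex.I * j

private theorem growthPt_exp {w : ℂ} (hw : w ≠ 0) (j : ℕ) : Complex.exp (growthPt w j) = w := by
  unfold growthPt
  rw [Complex.exp_add, Complex.exp_log hw]
  have h1 : (2 * π * Complex.I * j : ℂ) = j * (2 * π * Complex.I) := by ring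
  rw [h1, Complex.exp_nat_mul_two_pi_mul_I, mul_one]

private theorem growthPt_inj (w : ℂ) : Function.Injective (growthPt w) := by
  intro i j h
  unfold growthPt at h
  have h1 : (2 * π * Complex.I : ℂ) ≠ 0 := by
    simp [Real.pi_ne_zero]
  have h2 := mul_left_cancel₀ h1 (add_left_cancel h)
  exact_mod_cast h2

private theorem growth_sum_le (w : ℂ) (K : ℕ) (D : Function.locallyFinsupp ℂ ℤ)
    (hD : 0 ≤ D) (h1 : ∀ j, 1 ≤ D (growthPt w j)) :
    ∑ j ∈ Finset.range K, Function.locallyFinsuppWithin.single (growthPt w j) (1 : ℤ) ≤ D := by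
  classical
  rw [Function.locallyFinsuppWithin.le_def]
  intro z
  have e1 : (∑ j ∈ Finset.range K,
      Function.locallyFinsuppWithin.single (growthPt w j) (1 : ℤ)) z =
      ∑ j ∈ Finset.range K, (if growthPt w j = z then (1 : ℤ) else 0) := by
    rw [Function.locallyFinsuppWithin.coe_sum]
    simp only [Finset.sum_apply]
    apply Finset.sum_congr rfl
    intro j _
    rw [Function.locallyFinsuppWithin.single_apply]
    simp only [eq_comm]
  rw [e1]
  by_cases hz : ∃ j, growthPt w j = z
  · obtain ⟨j, rfl⟩ := hz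
    have e2 : ∑ i ∈ Finset.range K, (if growthPt w i = growthPt w j then (1 : ℤ) else 0) =
        ∑ i ∈ Finset.range K, (if i = j then (1 : ℤ) else 0) := by
      apply Finset.sum_congr rfl
      intro i _
      simp only [(growthPt_inj w).eq_iff]
    rw [e2, Finset.sum_ite_eq']
    split_ifs
    · exact h1 j
    · exact hD _
  · push Not at hz
    rw [Finset.sum_eq_zero]
    · exact hD z
    · intro j _
      rw [if_neg (hz j)]

/-- Composition with the exponential function gives a function which is not rational. -/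
theorem growth_exp {f : ℂ → ℂ} (hf : Meromorphic f) (hc : ∀ c : ℂ, ¬ f =ᶠ[codiscrete ℂ] fun _ => c)
    (K : ℝ) : ∀ᶠ r : ℝ in atTop, K * Real.log r ≤ characteristic (fun z => f (Complex.exp z)) ⊤ r := by
  classical
  obtain ⟨w, hwf, hw0⟩ : ∃ w, AnalyticAt ℂ f w ∧ w ≠ 0 := by
    have h1 := (hf 0).eventually_analyticAt
    exact (h1.and self_mem_nhdsWithin).exists
  set a := f w with ha
  set F : ℂ → ℂ := fun z => f z - a with hF
  have hFm : Meromorphic F := fun z => (hf z).sub (MeromorphicAt.const a z)
  have hFc : ¬ F =ᶠ[codiscrete ℂ] fun _ => 0 := by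
    intro h
    apply hc a
    filter_upwards [h] with z hz
    exact sub_eq_zero.1 hz
  have hFtop := growth_order_ne_top hFm hFc
  have hFw : ∃ n : ℤ, 1 ≤ n ∧ meromorphicOrderAt F w = n := by
    have h1 : AnalyticAt ℂ F w := hwf.sub analyticAt_const
    have h2 := h1.meromorphicOrderAt_eq
    have h3 : analyticOrderAt F w ≠ 0 := by
      rw [h1.analyticOrderAt_ne_zero]
      simp [hF, ha]
    have h4 := hFtop w
    cases h5 : analyticOrderAt F w with
    | top =>
      rw [h5] at h2
      exact absurd h2 h4
    | coe n =>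
      rw [h5] at h2 h3
      refine ⟨n, ?_, ?_⟩
      · have : n ≠ 0 := by
          intro h; apply h3; rw [h]; rfl
        omega
      · rw [h2]; rfl
  obtain ⟨n, hn1, hn⟩ := hFw
  set g : ℂ → ℂ := fun z => f (Complex.exp z) - a with hg
  have hgF : g = F ∘ Complex.exp := rfl
  have hE : ∀ z, AnalyticAt ℂ Complex.exp z := fun z => by fun_prop
  have hgm : Meromorphic g := fun z => by
    rw [hgF]
    exact (hFm _).comp_analyticAt (hE z)
  have hfe : Meromorphic (fun z => f (Complex.exp z)) := fun z =>
    (hf (Complex.exp z)).comp_analyticAt (hE z)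
  have hord : ∀ j, meromorphicOrderAt g (growthPt w j) = n := by
    intro j
    rw [hgF, meromorphicOrderAt_comp_of_deriv_ne_zero (hE _)
      (by rw [Complex.deriv_exp]; exact Complex.exp_ne_zero _), growthPt_exp hw0, hn]
  set D := (MeromorphicOn.divisor g Set.univ)⁺ with hD
  have hD0 : 0 ≤ D := posPart_nonneg _
  have hDj : ∀ j, 1 ≤ D (growthPt w j) := by
    intro j
    rw [hD, Function.locallyFinsuppWithin.posPart_apply,
      MeromorphicOn.divisor_apply hgm.meromorphicOn (Set.mem_univ _), hord j,
      WithTop.untop₀_coe, posPart_of_nonneg (by omega)]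
    exact hn1
  obtain ⟨N, hN⟩ : ∃ N : ℕ, K + 1 ≤ N := exists_nat_ge _
  -- counting the zeros
  have hcount : ∀ᶠ r : ℝ in atTop,
      (N : ℝ) * Real.log r - ∑ j ∈ Finset.range N, Real.log ‖growthPt w j‖ ≤
        logCounting g 0 r := by
    have h1 : ∀ᶠ r : ℝ in atTop, ∀ j ∈ Finset.range N, ‖growthPt w j‖ ≤ r := by
      rw [eventually_all_finset]
      intro j _
      exact eventually_ge_atTop _
    filter_upwards [h1, eventually_ge_atTop 1] with r hr hr1
    rw [logCounting_zero, ← hD]
    refine le_trans ?_ (Function.locallyFinsuppWithin.logCounting_le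
      (growth_sum_le w N D hD0 hDj) hr1)
    rw [map_sum, Finset.sum_apply]
    have h2 : ∀ j ∈ Finset.range N, Function.locallyFinsuppWithin.logCounting
        (Function.locallyFinsuppWithin.single (growthPt w j) (1 : ℤ)) r =
        Real.log r - Real.log ‖growthPt w j‖ := by
      intro j hj
      rw [Function.locallyFinsuppWithin.logCounting_single_eq_log_sub_const (hr j hj)]
      simp
    rw [Finset.sum_congr rfl h2, Finset.sum_sub_distrib, Finset.sum_const, Finset.card_range,
      nsmul_eq_mul]
  set C1 := log⁺ ‖a‖ + Real.log 2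
  set C2 := max |Real.log ‖g 0‖| |Real.log ‖meromorphicTrailingCoeffAt g 0‖|
  have hlog : ∀ᶠ r : ℝ in atTop,
      C1 + C2 + ∑ j ∈ Finset.range N, Real.log ‖growthPt w j‖ ≤ Real.log r :=
    Real.tendsto_log_atTop.eventually_ge_atTop _
  filter_upwards [hcount, hlog, eventually_ge_atTop 1] with r h1 h2 h3
  have h4 := abs_characteristic_sub_characteristic_shift_le (a₀ := a) (r := r) hfe
  have h5 := characteristic_sub_characteristic_inv_le (R := r) hgm
  have h6 : logCounting g 0 r ≤ characteristic g⁻¹ ⊤ r := by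
    unfold characteristic
    rw [Pi.add_apply, logCounting_inv]
    have : 0 ≤ proximity g⁻¹ ⊤ r := proximity_nonneg r
    linarith
  have h7 : characteristic g ⊤ r - C1 ≤ characteristic (fun z => f (Complex.exp z)) ⊤ r := by
    have := (abs_le.1 h4).1
    have e : characteristic g ⊤ r = characteristic (fun z => f (Complex.exp z) - a) ⊤ r := rfl
    rw [e]
    linarith
  have h8 := (abs_le.1 h5).1
  have h9 : 0 ≤ Real.log r := Real.log_nonneg h3
  have h10 : (K + 1) * Real.log r ≤ N * Real.log r := mul_le_mul_of_nonneg_right hN h9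
  linarith

end Pool.Agent.Work.MP_e97a4d_nt.Hyp
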