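import Mathlib

set_option autoImplicit false

noncomputable section

namespace Pool.Agent.Work.MP_e97a4d_nt.Hyp

open Metric Real

private theorem sinInt_kernel (r : ℝ) (hr : 0 < r) (a : ℂ) (θ : ℝ) (h : |θ| ≤ π) :
    r * |θ| / π ≤ ‖circleMap 0 r (θ + Complex.arg a) - a‖ := by
  have hpi := Real.pi_pos
  have hcos := Real.cos_le_one_sub_mul_cos_sq h
  set ρ := ‖a‖ with hρ
  have hρ0 : 0 ≤ ρ := norm_nonneg a
  have h1 : circleMap 0 r (θ + Complex.arg a) - a =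
      Complex.exp (Complex.arg a * Complex.I) * (r * Complex.exp (θ * Complex.I) - ρ) := by
    have h2 := Complex.norm_mul_exp_arg_mul_I a
    rw [circleMap_zero, mul_sub, Complex.ofReal_add, add_mul, Complex.exp_add]
    have h3 : a = Complex.exp (Complex.arg a * Complex.I) * ρ := by
      rw [mul_comm, hρ]; exact h2.symm
    have h4 : ∀ x : ℂ, x - a = x - Complex.exp (Complex.arg a * Complex.I) * ρ := by
      intro x; rw [← h3]
    rw [h4]
    ring
  have h2 : ‖circleMap 0 r (θ + Complex.arg a) - a‖ ^ 2 = r ^ 2 + ρ ^ 2 - 2 * r * ρ * Real.cos θ := by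
    rw [h1, norm_mul, Complex.norm_exp_ofReal_mul_I, one_mul, ← Complex.normSq_eq_norm_sq,
      Complex.normSq_apply]
    simp only [Complex.sub_re, Complex.sub_im, Complex.mul_re, Complex.mul_im, Complex.ofReal_re,
      Complex.ofReal_im, Complex.exp_ofReal_mul_I_re, Complex.exp_ofReal_mul_I_im]
    have := Real.sin_sq_add_cos_sq θ
    linear_combination r ^ 2 * this
  have h3 : (r * |θ| / π) ^ 2 ≤ ‖circleMap 0 r (θ + Complex.arg a) - a‖ ^ 2 := by
    rw [h2]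
    have hs : (r * |θ| / π) ^ 2 = r ^ 2 * (θ ^ 2 / π ^ 2) := by
      rw [div_pow, mul_pow, sq_abs]; ring
    rw [hs]
    set s := θ ^ 2 / π ^ 2 with hs'
    have hs0 : 0 ≤ s := by positivity
    have hs1 : s ≤ 1 := by
      rw [hs', div_le_one (by positivity)]
      exact sq_le_sq' (by linarith [abs_le.1 h]) (abs_le.1 h).2
    have hc : Real.cos θ ≤ 1 - 2 * s := by
      have : 2 / π ^ 2 * θ ^ 2 = 2 * s := by rw [hs']; ring
      linarith
    have e1 : 2 * r * ρ * Real.cos θ ≤ 2 * r * ρ * (1 - 2 * s) :=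
      mul_le_mul_of_nonneg_left hc (by positivity)
    have e2 : s * (r - ρ) ^ 2 ≤ 1 * (r - ρ) ^ 2 := mul_le_mul_of_nonneg_right hs1 (sq_nonneg _)
    have e3 : 0 ≤ s * (2 * r * ρ + ρ ^ 2) := by positivity
    nlinarith
  exact le_of_sq_le_sq h3 (norm_nonneg _)

/-- the dominating function -/
private def sinIntG (θ : ℝ) : ℝ := θ ^ (-(1 / 2) : ℝ) + (2 * π - θ) ^ (-(1 / 2) : ℝ)

private theorem sinInt_G_int : IntervalIntegrable sinIntG MeasureTheory.volume 0 (2 * π) := by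
  unfold sinIntG
  have h1 : IntervalIntegrable (fun x : ℝ => x ^ (-(1 / 2) : ℝ)) MeasureTheory.volume 0 (2 * π) :=
    intervalIntegral.intervalIntegrable_rpow' (by norm_num)
  have h2 := h1.comp_sub_left (2 * π)
  rw [sub_zero, sub_self] at h2
  exact h1.add h2.symm

private theorem sinInt_rpow_le {x y : ℝ} (hx : 0 < x) (h : x ≤ y) :
    y ^ (-(1 / 2) : ℝ) ≤ x ^ (-(1 / 2) : ℝ) :=
  Real.rpow_le_rpow_of_nonpos hx h (by norm_num)

private theorem sinInt_bound (r : ℝ) (hr : 0 < r) (a : ℂ) (θ : ℝ) (h : θ ∈ Set.Ioo 0 (2 * π)) :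
    ‖circleMap 0 r (θ + Complex.arg a) - a‖ ^ (-(1 / 2) : ℝ) ≤
      (r / π) ^ (-(1 / 2) : ℝ) * sinIntG θ := by
  have hpi := Real.pi_pos
  have hc : 0 ≤ (r / π) ^ (-(1 / 2) : ℝ) := Real.rpow_nonneg (by positivity) _
  have key : ∀ t : ℝ, 0 < t → r * t / π ≤ ‖circleMap 0 r (θ + Complex.arg a) - a‖ →
      ‖circleMap 0 r (θ + Complex.arg a) - a‖ ^ (-(1 / 2) : ℝ) ≤
        (r / π) ^ (-(1 / 2) : ℝ) * t ^ (-(1 / 2) : ℝ) := by
    intro t ht h1
    rw [← Real.mul_rpow (by positivity) ht.le, show r / π * t = r * t / π by ring]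
    exact sinInt_rpow_le (by positivity) h1
  unfold sinIntG
  have g1 : 0 ≤ θ ^ (-(1 / 2) : ℝ) := Real.rpow_nonneg h.1.le _
  have g2 : 0 ≤ (2 * π - θ) ^ (-(1 / 2) : ℝ) := Real.rpow_nonneg (by linarith [h.2]) _
  rw [mul_add]
  rcases le_or_gt θ π with hθ | hθ
  · have h1 := sinInt_kernel r hr a θ (abs_le.2 ⟨by linarith [h.1], hθ⟩)
    rw [abs_of_pos h.1] at h1
    have h2 := key θ h.1 h1
    have h3 := mul_nonneg hc g2
    linarith
  · have h1 := sinInt_kernel r hr a (θ - 2 * π) (abs_le.2 ⟨by linarith, by linarith [h.2]⟩)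
    rw [abs_of_neg (by linarith [h.2]), show θ - 2 * π + Complex.arg a =
      (θ + Complex.arg a) - 2 * π by ring, (periodic_circleMap 0 r).sub_eq,
      show -(θ - 2 * π) = 2 * π - θ by ring] at h1
    have h2 := key (2 * π - θ) (by linarith [h.2]) h1
    have h3 := mul_nonneg hc g1
    linarith

private theorem sinInt_meas (r : ℝ) (a : ℂ) (c : ℝ) :
    Measurable fun θ : ℝ => ‖circleMap 0 r (θ + c) - a‖ ^ (-(1 / 2) : ℝ) := by
  have h1 : Measurable fun θ : ℝ => ‖circleMap 0 r (θ + c) - a‖ := by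
    have : Continuous fun θ : ℝ => ‖circleMap 0 r (θ + c) - a‖ := by
      have := continuous_circleMap 0 r
      fun_prop
    exact this.measurable
  exact h1.pow_const _

private theorem sinInt_int_shift (r : ℝ) (hr : 0 < r) (a : ℂ) :
    IntervalIntegrable
      (fun θ : ℝ => ‖circleMap 0 r (θ + Complex.arg a) - a‖ ^ (-(1 / 2) : ℝ))
      MeasureTheory.volume 0 (2 * π) := by
  have h1 := sinInt_G_int.const_mul ((r / π) ^ (-(1 / 2) : ℝ))
  refine h1.mono_fun (sinInt_meas r a _).aestronglyMeasurable ?_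
  rw [Set.uIoc_of_le Real.two_pi_pos.le]
  have h2 : ∀ᵐ θ : ℝ ∂MeasureTheory.volume, θ ≠ 2 * π := by
    rw [MeasureTheory.ae_iff]
    simp
  refine (MeasureTheory.ae_restrict_iff' measurableSet_Ioc).2 ?_
  filter_upwards [h2] with θ hθ hθ2
  have h3 := sinInt_bound r hr a θ ⟨hθ2.1, lt_of_le_of_ne hθ2.2 hθ⟩
  rw [Real.norm_of_nonneg (Real.rpow_nonneg (norm_nonneg _) _)]
  exact h3.trans (le_abs_self _)

private theorem sinInt_circleIntegrable (r : ℝ) (hr : 0 < r) (a : ℂ) :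
    CircleIntegrable (fun z : ℂ => ‖z - a‖ ^ (-(1 / 2) : ℝ)) 0 r := by
  have h1 := (sinInt_int_shift r hr a).comp_sub_right (Complex.arg a)
  simp only [sub_add_cancel, zero_add] at h1
  have h2 : Function.Periodic (fun θ : ℝ => ‖circleMap 0 r θ - a‖ ^ (-(1 / 2) : ℝ)) (2 * π) := by
    intro θ
    simp only [periodic_circleMap 0 r θ]
  rw [add_comm (2 * π)] at h1
  exact h2.intervalIntegrable Real.two_pi_pos.ne' h1 0 (2 * π)

private theorem sinInt_average_le (r : ℝ) (hr : 1 ≤ r) (a : ℂ) :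
    circleAverage (fun z : ℂ => ‖z - a‖ ^ (-(1 / 2) : ℝ)) 0 r ≤
      (2 * π)⁻¹ * ((1 / π) ^ (-(1 / 2) : ℝ) * ∫ θ in (0 : ℝ)..2 * π, sinIntG θ) := by
  have hpi := Real.pi_pos
  have hr0 : 0 < r := by linarith
  rw [circleAverage_eq_integral_add (Complex.arg a), smul_eq_mul]
  apply mul_le_mul_of_nonneg_left _ (by positivity)
  rw [← intervalIntegral.integral_const_mul]
  apply intervalIntegral.integral_mono_on_of_le_Ioo Real.two_pi_pos.le
    (sinInt_int_shift r hr0 a) (sinInt_G_int.const_mul _)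
  intro θ hθ
  refine (sinInt_bound r hr0 a θ hθ).trans ?_
  apply mul_le_mul_of_nonneg_right
  · exact sinInt_rpow_le (by positivity) (div_le_div_of_nonneg_right hr hpi.le)
  · unfold sinIntG
    exact add_nonneg (Real.rpow_nonneg hθ.1.le _) (Real.rpow_nonneg (by linarith [hθ.2]) _)

private theorem sinInt_sq (S : Finset ℂ) (f : ℂ → ℝ) (h : ∀ a ∈ S, 0 ≤ f a) :
    ∑ a ∈ S, f a ^ 2 ≤ (∑ a ∈ S, f a) ^ 2 := by
  classical
  induction S using Finset.induction_on with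
  | empty => simp
  | insert a S ha ih =>
    rw [Finset.sum_insert ha, Finset.sum_insert ha]
    have h1 := ih fun b hb => h b (Finset.mem_insert_of_mem hb)
    have h2 := h a (Finset.mem_insert_self _ _)
    have h3 : 0 ≤ ∑ b ∈ S, f b := Finset.sum_nonneg fun b hb => h b (Finset.mem_insert_of_mem hb)
    have h4 := mul_nonneg h2 h3
    nlinarith

private theorem sinInt_cmul {f : ℂ → ℝ} {r : ℝ} (h : CircleIntegrable f 0 r) (c : ℝ) :
    CircleIntegrable (fun z => c * f z) 0 r := IntervalIntegrable.const_mul h c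

private theorem sinInt_pt (S : Finset ℂ) (n : ℂ → ℕ) (z : ℂ) :
    log⁺ (∑ a ∈ S, (n a : ℝ) / ‖z - a‖) ≤
      2 * Real.log (1 + ∑ a ∈ S, (n a : ℝ) * ‖z - a‖ ^ (-(1 / 2) : ℝ)) := by
  set Y := ∑ a ∈ S, (n a : ℝ) * ‖z - a‖ ^ (-(1 / 2) : ℝ) with hY
  have hterm : ∀ a ∈ S, 0 ≤ (n a : ℝ) * ‖z - a‖ ^ (-(1 / 2) : ℝ) := fun a _ =>
    mul_nonneg (Nat.cast_nonneg _) (Real.rpow_nonneg (norm_nonneg _) _)
  have hY0 : 0 ≤ Y := Finset.sum_nonneg hterm
  have h1 : ∑ a ∈ S, (n a : ℝ) / ‖z - a‖ ≤ Y ^ 2 := by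
    calc ∑ a ∈ S, (n a : ℝ) / ‖z - a‖
        ≤ ∑ a ∈ S, ((n a : ℝ) * ‖z - a‖ ^ (-(1 / 2) : ℝ)) ^ 2 := by
          apply Finset.sum_le_sum
          intro a _
          rw [mul_pow]
          have e1 : (‖z - a‖ ^ (-(1 / 2) : ℝ)) ^ 2 = ‖z - a‖⁻¹ := by
            rw [← Real.rpow_natCast, ← Real.rpow_mul (norm_nonneg _)]
            norm_num
            rw [Real.rpow_neg_one]
          have e2 : (n a : ℝ) ≤ (n a : ℝ) ^ 2 := by
            have : n a ≤ n a ^ 2 := Nat.le_self_pow two_ne_zero _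
            exact_mod_cast this
          rw [e1, div_eq_mul_inv]
          exact mul_le_mul_of_nonneg_right e2 (by positivity)
      _ ≤ (∑ a ∈ S, (n a : ℝ) * ‖z - a‖ ^ (-(1 / 2) : ℝ)) ^ 2 :=
          sinInt_sq S _ hterm
  have h0 : 0 ≤ ∑ a ∈ S, (n a : ℝ) / ‖z - a‖ := Finset.sum_nonneg fun a _ => by positivity
  have h2 : ∑ a ∈ S, (n a : ℝ) / ‖z - a‖ ≤ (1 + Y) ^ 2 := by nlinarith
  refine (posLog_le_posLog h0 h2).trans ?_
  rw [posLog_pow, posLog_eq_log (by rw [abs_of_nonneg (by linarith)]; linarith)]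
  push_cast
  exact le_rfl

private theorem sinInt_log_le {Y m : ℝ} (hY : 0 ≤ Y) (hm : 0 ≤ m) :
    Real.log (1 + Y) ≤ Real.log (1 + m) + (Y - m) * (1 + m)⁻¹ := by
  have h1 := Real.log_le_sub_one_of_pos (x := (1 + Y) / (1 + m)) (by positivity)
  rw [Real.log_div (by positivity) (by positivity)] at h1
  have h2 : (1 + Y) / (1 + m) - 1 = (Y - m) * (1 + m)⁻¹ := by field_simp; ring
  linarith

private theorem sinInt_Y_int (S : Finset ℂ) (n : ℂ → ℕ) (r : ℝ) (hr : 0 < r) :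
    CircleIntegrable (fun z : ℂ => ∑ a ∈ S, (n a : ℝ) * ‖z - a‖ ^ (-(1 / 2) : ℝ)) 0 r := by
  have := CircleIntegrable.sum (c := (0 : ℂ)) (R := r) S
    (f := fun a => fun z : ℂ => (n a : ℝ) * ‖z - a‖ ^ (-(1 / 2) : ℝ)) (fun a _ => by
      exact (sinInt_circleIntegrable r hr a).const_mul (n a : ℝ))
  convert this using 1
  ext z
  simp

/-- The functions `log⁺ (∑ n_a / |z - a|)` are integrable on circles. -/
theorem circleIntegrable_sum (S : Finset ℂ) (n : ℂ → ℕ) (r : ℝ) :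
    CircleIntegrable (fun z : ℂ => log⁺ (∑ a ∈ S, (n a : ℝ) / ‖z - a‖)) 0 r := by
  have key : ∀ r : ℝ, 0 < r →
      CircleIntegrable (fun z : ℂ => log⁺ (∑ a ∈ S, (n a : ℝ) / ‖z - a‖)) 0 r := by
    intro r hr
    have h1 : IntervalIntegrable (fun θ : ℝ => 2 * ∑ a ∈ S, (n a : ℝ) *
        ‖circleMap 0 r θ - a‖ ^ (-(1 / 2) : ℝ)) MeasureTheory.volume 0 (2 * π) :=
      IntervalIntegrable.const_mul (sinInt_Y_int S n r hr) 2
    have h2 : Measurable fun θ : ℝ => log⁺ (∑ a ∈ S, (n a : ℝ) / ‖circleMap 0 r θ - a‖) := by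
      apply continuous_posLog.measurable.comp
      apply Finset.measurable_fun_sum
      intro a _
      apply Measurable.div measurable_const
      have : Continuous fun θ : ℝ => ‖circleMap 0 r θ - a‖ := by
        have := continuous_circleMap 0 r
        fun_prop
      exact this.measurable
    refine IntervalIntegrable.mono_fun h1 h2.aestronglyMeasurable (Filter.Eventually.of_forall ?_)
    intro θ
    have h3 := sinInt_pt S n (circleMap 0 r θ)
    have h4 : 0 ≤ ∑ a ∈ S, (n a : ℝ) * ‖circleMap 0 r θ - a‖ ^ (-(1 / 2) : ℝ) :=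
      Finset.sum_nonneg fun a _ => mul_nonneg (Nat.cast_nonneg _) (Real.rpow_nonneg (norm_nonneg _) _)
    have h5 := Real.log_le_sub_one_of_pos
      (x := 1 + ∑ a ∈ S, (n a : ℝ) * ‖circleMap 0 r θ - a‖ ^ (-(1 / 2) : ℝ)) (by linarith)
    show ‖log⁺ (∑ a ∈ S, (n a : ℝ) / ‖circleMap 0 r θ - a‖)‖ ≤
      ‖2 * ∑ a ∈ S, (n a : ℝ) * ‖circleMap 0 r θ - a‖ ^ (-(1 / 2) : ℝ)‖
    rw [Real.norm_of_nonneg posLog_nonneg]
    refine le_trans ?_ (le_abs_self _)
    linarith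
  rcases lt_trichotomy r 0 with h | h | h
  · have := key (-r) (by linarith)
    rwa [circleIntegrable_neg_radius] at this
  · rw [h]; exact circleIntegrable_zero_radius
  · exact key r h

/-- Mean of `log⁺ (∑ n_a / |z - a|)` on circles. -/
theorem mean_sum_le : ∃ C : ℝ, 0 ≤ C ∧ ∀ (S : Finset ℂ) (n : ℂ → ℕ) (r : ℝ), 1 ≤ r →
    circleAverage (fun z : ℂ => log⁺ (∑ a ∈ S, (n a : ℝ) / ‖z - a‖)) 0 r ≤
      2 * Real.log (1 + C * ∑ a ∈ S, (n a : ℝ)) := by
  set C := (2 * π)⁻¹ * ((1 / π) ^ (-(1 / 2) : ℝ) * ∫ θ in (0 : ℝ)..2 * π, sinIntG θ) with hC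
  have hC0 : 0 ≤ C := by
    refine le_trans ?_ (sinInt_average_le 1 le_rfl 0)
    apply circleAverage_nonneg_of_nonneg
    intro x _
    exact Real.rpow_nonneg (norm_nonneg _) _
  refine ⟨C, hC0, fun S n r hr => ?_⟩
  have hr0 : 0 < r := by linarith
  set m := C * ∑ a ∈ S, (n a : ℝ) with hm
  have hm0 : 0 ≤ m := mul_nonneg hC0 (Finset.sum_nonneg fun a _ => Nat.cast_nonneg _)
  have hYi := sinInt_Y_int S n r hr0
  have hYavg : circleAverage (fun z : ℂ => ∑ a ∈ S, (n a : ℝ) * ‖z - a‖ ^ (-(1 / 2) : ℝ)) 0 r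
      ≤ m := by
    rw [circleAverage_fun_sum (fun a _ => sinInt_cmul (sinInt_circleIntegrable r hr0 a) (n a : ℝ)),
      hm, Finset.mul_sum]
    apply Finset.sum_le_sum
    intro a _
    have h1 : circleAverage (fun z : ℂ => (n a : ℝ) * ‖z - a‖ ^ (-(1 / 2) : ℝ)) 0 r =
        (n a : ℝ) * circleAverage (fun z : ℂ => ‖z - a‖ ^ (-(1 / 2) : ℝ)) 0 r := by
      have := circleAverage_fun_smul (a := (n a : ℝ)) (c := (0 : ℂ)) (R := r)
        (f := fun z : ℂ => ‖z - a‖ ^ (-(1 / 2) : ℝ))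
      simpa [smul_eq_mul] using this
    rw [h1, mul_comm C]
    exact mul_le_mul_of_nonneg_left (sinInt_average_le r hr a) (Nat.cast_nonneg _)
  have hbi : CircleIntegrable (fun z : ℂ => 2 * (Real.log (1 + m) +
      ((∑ a ∈ S, (n a : ℝ) * ‖z - a‖ ^ (-(1 / 2) : ℝ)) - m) * (1 + m)⁻¹)) 0 r := by
    have h1 := sinInt_cmul ((sinInt_cmul (hYi.sub (circleIntegrable_const m 0 r)) ((1 + m)⁻¹)).add
      (circleIntegrable_const (Real.log (1 + m)) 0 r)) 2
    convert h1 using 1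
    ext z
    simp only [Pi.add_apply, Pi.sub_apply]
    ring
  have h1 : circleAverage (fun z : ℂ => log⁺ (∑ a ∈ S, (n a : ℝ) / ‖z - a‖)) 0 r ≤
      circleAverage (fun z : ℂ => 2 * (Real.log (1 + m) +
      ((∑ a ∈ S, (n a : ℝ) * ‖z - a‖ ^ (-(1 / 2) : ℝ)) - m) * (1 + m)⁻¹)) 0 r := by
    apply circleAverage_mono (circleIntegrable_sum S n r) hbi
    intro z _
    have h2 := sinInt_pt S n z
    have h3 : 0 ≤ ∑ a ∈ S, (n a : ℝ) * ‖z - a‖ ^ (-(1 / 2) : ℝ) :=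
      Finset.sum_nonneg fun a _ => mul_nonneg (Nat.cast_nonneg _) (Real.rpow_nonneg (norm_nonneg _) _)
    have h4 := sinInt_log_le h3 hm0
    linarith
  have h2 : circleAverage (fun z : ℂ => 2 * (Real.log (1 + m) +
      ((∑ a ∈ S, (n a : ℝ) * ‖z - a‖ ^ (-(1 / 2) : ℝ)) - m) * (1 + m)⁻¹)) 0 r =
      2 * Real.log (1 + m) + 2 * (1 + m)⁻¹ *
        (circleAverage (fun z : ℂ => ∑ a ∈ S, (n a : ℝ) * ‖z - a‖ ^ (-(1 / 2) : ℝ)) 0 r - m) := by
    have e1 : (fun z : ℂ => 2 * (Real.log (1 + m) +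
      ((∑ a ∈ S, (n a : ℝ) * ‖z - a‖ ^ (-(1 / 2) : ℝ)) - m) * (1 + m)⁻¹)) =
      fun z : ℂ => (2 * Real.log (1 + m) - 2 * (1 + m)⁻¹ * m) +
        (2 * (1 + m)⁻¹) • (∑ a ∈ S, (n a : ℝ) * ‖z - a‖ ^ (-(1 / 2) : ℝ)) := by
      ext z
      rw [smul_eq_mul]
      ring
    have e2 := circleAverage_fun_add (c := (0 : ℂ)) (R := r)
      (f₁ := fun _ : ℂ => 2 * Real.log (1 + m) - 2 * (1 + m)⁻¹ * m)
      (f₂ := fun z : ℂ => (2 * (1 + m)⁻¹) • (∑ a ∈ S, (n a : ℝ) * ‖z - a‖ ^ (-(1 / 2) : ℝ)))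
      (circleIntegrable_const _ _ _) (sinInt_cmul hYi _)
    rw [e1, e2, circleAverage_const, circleAverage_fun_smul, smul_eq_mul]
    ring
  rw [h2] at h1
  refine h1.trans ?_
  have h3 : 0 ≤ 2 * (1 + m)⁻¹ := by positivity
  have h4 := mul_le_mul_of_nonneg_left (sub_nonpos.2 hYavg) h3
  linarith

end Pool.Agent.Work.MP_e97a4d_nt.Hyp
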