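import Pool.Agent.Work.MP_e97a4d_nt.Hyp.Count
import Pool.Agent.Work.MP_e97a4d_nt.Hyp.SinInt

set_option autoImplicit false

noncomputable section

namespace Pool.Agent.Work.MP_e97a4d_nt.Hyp

open Metric Real ValueDistribution

/-- the logarithmic derivative vanishes (as a Lean function) at zeros and at non analytic points -/
private theorem ldl_zero {f : ℂ → ℂ} (hf : Meromorphic f) {z : ℂ}
    (h : ¬ (AnalyticAt ℂ f z ∧ f z ≠ 0)) : logDeriv f z = 0 := by
  rw [logDeriv_apply]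
  by_cases h1 : f z = 0
  · rw [h1, div_zero]
  · have h2 : ¬ AnalyticAt ℂ f z := fun ha => h ⟨ha, h1⟩
    have h3 : ¬ DifferentiableAt ℂ f z := by
      intro hd
      exact h2 ((hf z).analyticAt hd.continuousAt)
    rw [deriv_zero_of_not_differentiableAt h3, zero_div]

/-- a radius without zeros and poles -/
private theorem ldl_radius {f : ℂ → ℂ} (hf : Meromorphic f)
    (h0 : ∀ z, meromorphicOrderAt f z ≠ ⊤) {r R : ℝ} (hR : r < R) :
    ∃ ρ : ℝ, (R - r) / 3 ≤ ρ - r ∧ (R - r) / 3 ≤ R - ρ ∧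
      ∀ z : ℂ, ‖z‖ = ρ → meromorphicOrderAt f z = 0 := by
  have hinf : (Set.Ioo (r + (R - r) / 3) (R - (R - r) / 3)).Infinite :=
    Set.Ioo_infinite (by linarith)
  obtain ⟨ρ, hρ, hρ'⟩ := hinf.exists_notMem_finite ((finite_nu hf R).image (fun a => ‖a‖))
  rw [Set.mem_Ioo] at hρ
  refine ⟨ρ, by linarith [hρ.1], by linarith [hρ.2], ?_⟩
  intro z hz
  have hzR : z ∈ ball (0 : ℂ) R := by
    rw [mem_ball_zero_iff, hz]
    linarith [hρ.2]
  by_contra hcon
  apply hρ'
  refine ⟨z, ?_, hz⟩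
  change nu f R z ≠ 0
  unfold nu
  rw [MeromorphicOn.divisor_apply (fun w _ => hf w) hzR]
  intro hc
  rw [Int.natAbs_eq_zero] at hc
  rcases WithTop.untop₀_eq_zero.1 hc with h1 | h1
  · exact hcon h1
  · exact h0 z h1

/-- `log⁺ (2 t + c)` -/
private theorem ldl_two (t c : ℝ) : log⁺ (2 * t + c) ≤ log 2 + log⁺ 2 + log⁺ t + log⁺ c := by
  have h1 := posLog_add (x := 2 * t) (y := c)
  have h2 := posLog_mul (x := 2) (y := t)
  linarith

/-- The lemma on the logarithmic derivative. -/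
theorem ldl {f : ℂ → ℂ} (hf : Meromorphic f) (h0 : ∀ z, meromorphicOrderAt f z ≠ ⊤) :
    ∃ C : ℝ, 0 ≤ C ∧ ∀ r R : ℝ, 1 ≤ r → r < R →
      proximity (logDeriv f) ⊤ r ≤
        C * (1 + log⁺ (characteristic f ⊤ R) + log⁺ (1 / (R - r)) + log⁺ R) := by
  obtain ⟨C₁, hC₁, H₁⟩ := sum_nu_le hf h0
  obtain ⟨C₂, hC₂, H₂⟩ := mean_abs_log_le hf h0
  obtain ⟨C₃, hC₃, H₃⟩ := mean_sum_le
  set B : ℝ := 2 * log 2 + (log⁺ 576 + (log 2 + log⁺ 2 + log⁺ C₂)) +
    (log⁺ 3 + log⁺ 3 + (log 2 + log⁺ 2 + log⁺ C₁)) +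
    2 * (log 2 + log⁺ C₃ + (log⁺ 3 + (log 2 + log⁺ 2 + log⁺ C₁))) with hB
  have hlog2 : 0 ≤ log 2 := (log_pos (by norm_num)).le
  have hB0 : 0 ≤ B := by
    have := @posLog_nonneg 576
    have := @posLog_nonneg 2
    have := @posLog_nonneg 3
    have := @posLog_nonneg C₁
    have := @posLog_nonneg C₂
    have := @posLog_nonneg C₃
    rw [hB]
    positivity
  refine ⟨B + 6, by linarith, ?_⟩
  intro r R hr hR
  obtain ⟨ρ, hρ1, hρ2, hb⟩ := ldl_radius hf h0 hR
  have hRr : 0 < R - r := by linarith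
  have hρr : 0 < ρ - r := by linarith
  have hRρ : 0 < R - ρ := by linarith
  have hR1 : 1 ≤ R := by linarith
  set S := (finite_nu hf ρ).toFinset with hS
  set n : ℝ := ∑ a ∈ S, (nu f ρ a : ℝ) with hn
  set A : ℝ := circleAverage (fun w => |Real.log ‖f w‖|) 0 ρ with hA
  set T : ℝ := characteristic f ⊤ R with hT
  have hn0 : 0 ≤ n := Finset.sum_nonneg (fun a _ => Nat.cast_nonneg _)
  have hA0 : 0 ≤ A := by
    apply circleAverage_nonneg_of_nonneg
    intro x _
    exact abs_nonneg _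
  have hn1 : n ≤ R / (R - ρ) * (2 * T + C₁) := H₁ ρ R (by linarith) (by linarith)
  have hA1 : A ≤ 2 * T + C₂ := H₂ ρ R (by linarith) (by linarith)
  have hTC₁ : 0 ≤ 2 * T + C₁ := by
    by_contra hcon
    push Not at hcon
    have : R / (R - ρ) * (2 * T + C₁) < 0 := mul_neg_of_pos_of_neg (by positivity) hcon
    linarith
  have hTC₂ : 0 ≤ 2 * T + C₂ := hA0.trans hA1
  set A1 : ℝ := 64 * ρ / (ρ - r) ^ 2 * A with hA1d
  have hA10 : 0 ≤ A1 := by
    rw [hA1d]
    have : 0 ≤ ρ := by linarith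
    positivity
  -- pointwise bound
  have hpt : ∀ z ∈ sphere (0 : ℂ) |r|, log⁺ ‖logDeriv f z‖ ≤
      (2 * log 2 + log⁺ A1 + log⁺ (n * (1 / (ρ - r)))) +
        log⁺ (∑ a ∈ S, (nu f ρ a : ℝ) / ‖z - a‖) := by
    intro z hz
    rw [mem_sphere_zero_iff_norm, abs_of_nonneg (by linarith)] at hz
    by_cases hcase : AnalyticAt ℂ f z ∧ f z ≠ 0
    · have h1 := norm_logDeriv_le' (r := r) (ρ := ρ) (by linarith) (by linarith) hf hb hz.le
        hcase.1 hcase.2
      have h2 : ∑ a ∈ (finite_nu hf ρ).toFinset, nu f ρ a * (1 / ‖z - a‖ + 1 / (ρ - r)) =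
          (∑ a ∈ S, (nu f ρ a : ℝ) / ‖z - a‖) + n * (1 / (ρ - r)) := by
        rw [hn, Finset.sum_mul, ← Finset.sum_add_distrib]
        apply Finset.sum_congr rfl
        intro a _
        ring
      rw [h2] at h1
      have h3 : log⁺ ‖logDeriv f z‖ ≤
          log⁺ (A1 + ((∑ a ∈ S, (nu f ρ a : ℝ) / ‖z - a‖) + n * (1 / (ρ - r)))) :=
        posLog_le_posLog (norm_nonneg _) h1
      have h4 := posLog_add (x := A1)
        (y := (∑ a ∈ S, (nu f ρ a : ℝ) / ‖z - a‖) + n * (1 / (ρ - r)))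
      have h5 := posLog_add (x := ∑ a ∈ S, (nu f ρ a : ℝ) / ‖z - a‖) (y := n * (1 / (ρ - r)))
      linarith
    · rw [ldl_zero hf hcase, norm_zero, posLog_zero]
      have := @posLog_nonneg A1
      have := @posLog_nonneg (n * (1 / (ρ - r)))
      have := @posLog_nonneg (∑ a ∈ S, (nu f ρ a : ℝ) / ‖z - a‖)
      positivity
  have hint1 : CircleIntegrable (fun z => log⁺ ‖logDeriv f z‖) 0 r := by
    apply MeromorphicOn.circleIntegrable_posLog_norm
    intro z _
    exact (hf z).logDeriv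
  have hint2 : CircleIntegrable (fun z : ℂ => log⁺ (∑ a ∈ S, (nu f ρ a : ℝ) / ‖z - a‖)) 0 r :=
    circleIntegrable_sum S (nu f ρ) r
  have hmono := circleAverage_mono (f₂ := fun z : ℂ =>
      (2 * log 2 + log⁺ A1 + log⁺ (n * (1 / (ρ - r)))) +
        log⁺ (∑ a ∈ S, (nu f ρ a : ℝ) / ‖z - a‖)) hint1
    ((circleIntegrable_const _ _ _).add hint2) hpt
  rw [circleAverage_fun_add (circleIntegrable_const _ _ _) hint2, circleAverage_const] at hmono
  have hsum := H₃ S (nu f ρ) r hr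
  have hprox : proximity (logDeriv f) ⊤ r =
      circleAverage (fun z => log⁺ ‖logDeriv f z‖) 0 r := by
    rw [proximity_top]
  rw [hprox]
  -- logarithmic estimates
  set t : ℝ := log⁺ T with ht
  set d : ℝ := log⁺ (1 / (R - r)) with hd
  set q : ℝ := log⁺ R with hq
  have ht0 : 0 ≤ t := posLog_nonneg
  have hd0 : 0 ≤ d := posLog_nonneg
  have hq0 : 0 ≤ q := posLog_nonneg
  have hn2 : n ≤ 3 * (R * ((1 / (R - r)) * (2 * T + C₁))) := by
    refine hn1.trans ?_
    have e : 3 * (R * ((1 / (R - r)) * (2 * T + C₁))) = R / ((R - r) / 3) * (2 * T + C₁) := by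
      field_simp
    rw [e]
    apply mul_le_mul_of_nonneg_right _ hTC₁
    exact div_le_div_of_nonneg_left (by linarith) (by linarith) hρ2
  have hlogn : log⁺ n ≤ log⁺ 3 + (q + (d + (log 2 + log⁺ 2 + t + log⁺ C₁))) := by
    calc log⁺ n ≤ log⁺ (3 * (R * ((1 / (R - r)) * (2 * T + C₁)))) := posLog_le_posLog hn0 hn2
      _ ≤ log⁺ 3 + log⁺ (R * ((1 / (R - r)) * (2 * T + C₁))) := posLog_mul
      _ ≤ log⁺ 3 + (q + log⁺ ((1 / (R - r)) * (2 * T + C₁))) := by
          have := posLog_mul (x := R) (y := (1 / (R - r)) * (2 * T + C₁))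
          linarith
      _ ≤ log⁺ 3 + (q + (d + log⁺ (2 * T + C₁))) := by
          have := posLog_mul (x := 1 / (R - r)) (y := 2 * T + C₁)
          linarith
      _ ≤ _ := by
          have := ldl_two T C₁
          linarith
  have hlogn2 : log⁺ (n * (1 / (ρ - r))) ≤ log⁺ n + (log⁺ 3 + d) := by
    have h1 : (1 : ℝ) / (ρ - r) ≤ 3 * (1 / (R - r)) := by
      have e : 3 * (1 / (R - r)) = 1 / ((R - r) / 3) := by field_simp
      rw [e]
      exact div_le_div_of_nonneg_left (by norm_num) (by linarith) hρ1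
    calc log⁺ (n * (1 / (ρ - r))) ≤ log⁺ (n * (3 * (1 / (R - r)))) := by
          apply posLog_le_posLog (by positivity)
          exact mul_le_mul_of_nonneg_left h1 hn0
      _ ≤ log⁺ n + log⁺ (3 * (1 / (R - r))) := posLog_mul
      _ ≤ _ := by
          have := posLog_mul (x := 3) (y := 1 / (R - r))
          linarith
  have hlogA : log⁺ A1 ≤ log⁺ 576 + (q + (2 * d + (log 2 + log⁺ 2 + t + log⁺ C₂))) := by
    have h1 : A1 ≤ 576 * (R * ((1 / (R - r)) ^ 2 * (2 * T + C₂))) := by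
      have e1 : (1 : ℝ) / (ρ - r) ^ 2 ≤ 9 * (1 / (R - r)) ^ 2 := by
        have e : 9 * (1 / (R - r)) ^ 2 = 1 / ((R - r) / 3) ^ 2 := by
          field_simp
          norm_num
        rw [e]
        apply div_le_div_of_nonneg_left (by norm_num) (by positivity)
        exact pow_le_pow_left₀ (by linarith) hρ1 2
      calc A1 = 64 * (ρ * ((1 / (ρ - r) ^ 2) * A)) := by rw [hA1d]; ring
        _ ≤ 64 * (R * ((9 * (1 / (R - r)) ^ 2) * (2 * T + C₂))) := by
            apply mul_le_mul_of_nonneg_left _ (by norm_num)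
            apply mul_le_mul (by linarith) _ (by positivity) (by linarith)
            exact mul_le_mul e1 hA1 hA0 (by positivity)
        _ = _ := by ring
    calc log⁺ A1 ≤ log⁺ (576 * (R * ((1 / (R - r)) ^ 2 * (2 * T + C₂)))) :=
          posLog_le_posLog hA10 h1
      _ ≤ log⁺ 576 + log⁺ (R * ((1 / (R - r)) ^ 2 * (2 * T + C₂))) := posLog_mul
      _ ≤ log⁺ 576 + (q + log⁺ ((1 / (R - r)) ^ 2 * (2 * T + C₂))) := by
          have := posLog_mul (x := R) (y := (1 / (R - r)) ^ 2 * (2 * T + C₂))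
          linarith
      _ ≤ log⁺ 576 + (q + (log⁺ ((1 / (R - r)) ^ 2) + log⁺ (2 * T + C₂))) := by
          have := posLog_mul (x := (1 / (R - r)) ^ 2) (y := 2 * T + C₂)
          linarith
      _ ≤ _ := by
          have h2 := ldl_two T C₂
          have h3 : log⁺ ((1 / (R - r)) ^ 2) = 2 * d := by
            rw [posLog_pow, ← hd]; norm_num
          linarith
  have hlog3 : log (1 + C₃ * n) ≤ log 2 + (log⁺ C₃ + log⁺ n) := by
    have h1 : log (1 + C₃ * n) ≤ log⁺ (1 + C₃ * n) := le_max_right _ _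
    have h2 := posLog_add (x := 1) (y := C₃ * n)
    have h3 := posLog_mul (x := C₃) (y := n)
    rw [posLog_one] at h2
    linarith
  have hfin : circleAverage (fun z => log⁺ ‖logDeriv f z‖) 0 r ≤ B + 4 * t + 6 * d + 4 * q := by
    rw [hB]
    linarith
  refine hfin.trans ?_
  nlinarith [mul_nonneg hB0 ht0, mul_nonneg hB0 hd0, mul_nonneg hB0 hq0]

end Pool.Agent.Work.MP_e97a4d_nt.Hyp
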