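import Pool.Agent.Work.MP_e97a4d_nt.Hyp.Mero

set_option autoImplicit false

noncomputable section

namespace Pool.Agent.Work.MP_e97a4d_nt.Hyp

open Filter Topology

private theorem meroExp_locconst {f : ℂ → ℂ} {z : ℂ} (hf : AnalyticAt ℂ f z)
    (h : deriv f =ᶠ[𝓝[≠] z] 0) : (fun w => f w - f z) =ᶠ[𝓝[≠] z] 0 := by
  have h1 : deriv f =ᶠ[𝓝 z] 0 := by
    have h2 : ∀ᶠ w in 𝓝 z, deriv f w = 0 := by
      rcases hf.deriv.eventually_eq_zero_or_eventually_ne_zero with h3 | h3
      · exact h3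
      · obtain ⟨w, hw1, hw2⟩ := (h.and h3).exists
        exact absurd hw1 hw2
    exact h2
  have h4 : ∀ᶠ w in 𝓝 z, DifferentiableAt ℂ f w ∧ deriv f w = 0 := by
    filter_upwards [h1, hf.eventually_analyticAt] with w hw1 hw2
    exact ⟨hw2.differentiableAt, hw1⟩
  obtain ⟨r, hr, hball⟩ := Metric.eventually_nhds_iff_ball.1 h4
  have h5 : ∀ w ∈ Metric.ball z r, f w = f z := by
    intro w hw
    have h6 := (convex_ball z r).norm_image_sub_le_of_norm_deriv_le (𝕜 := ℂ) (f := f) (C := 0)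
      (fun x hx => (hball x hx).1) (fun x hx => by rw [(hball x hx).2, norm_zero])
      (Metric.mem_ball_self hr) hw
    rw [zero_mul] at h6
    exact sub_eq_zero.1 (norm_le_zero_iff.1 h6)
  have h7 : ∀ᶠ w in 𝓝 z, f w - f z = 0 := by
    filter_upwards [Metric.ball_mem_nhds z hr] with w hw
    rw [h5 w hw, sub_self]
  exact h7.filter_mono nhdsWithin_le_nhds

/-- A meromorphic function with derivative zero is constant. -/
theorem D_eq_zero_iff (u : Mero) : D u = 0 ↔ u ∈ Set.range (algebraMap ℂ Mero) := by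
  constructor
  · intro h
    obtain ⟨f, hf, rfl⟩ := exists_rep u
    rw [D_mk, mk_eq_zero_iff] at h
    obtain ⟨z, hz⟩ : ∃ z, AnalyticAt ℂ f z := by
      obtain ⟨z, hz⟩ := ((eventually_codiscrete.1 (analyticAt_codiscrete hf)) 0).exists
      exact ⟨z, hz⟩
    refine ⟨f z, ?_⟩
    have h1 := meroExp_locconst hz (eq_nhdsNE h z)
    have h2 : ord z (mk f hf - mk (fun _ => f z) (Meromorphic.const (f z))) = ⊤ := by
      rw [mk_sub, ord_mk, meromorphicOrderAt_eq_top_iff]
      exact h1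
    rw [ord_eq_top_iff, mk_const, sub_eq_zero] at h2
    exact h2.symm
  · rintro ⟨c, rfl⟩
    exact Derivation.map_algebraMap D c

theorem meromorphic_comp_exp {f : ℂ → ℂ} (hf : Meromorphic f) :
    Meromorphic (fun z => f (Complex.exp z)) := by
  intro z
  exact (hf (Complex.exp z)).comp_analyticAt analyticAt_cexp

private theorem meroExp_codiscrete {p : ℂ → Prop} (h : ∀ᶠ w in codiscrete ℂ, p w) :
    ∀ᶠ z in codiscrete ℂ, p (Complex.exp z) := by
  rw [eventually_codiscrete] at h ⊢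
  intro z
  have h1 : Tendsto Complex.exp (𝓝[≠] z) (𝓝[≠] (Complex.exp z)) :=
    (Complex.hasDerivAt_exp z).tendsto_nhdsNE (Complex.exp_ne_zero z)
  exact h1.eventually (h (Complex.exp z))

/-- composition with exp on the algebra of meromorphic functions -/
private def compExpAlg : meroAlg →ₐ[ℂ] Mero where
  toFun f := mk (fun z => (f : ℂ → ℂ) (Complex.exp z)) (meromorphic_comp_exp f.2)
  map_one' := rfl
  map_mul' _ _ := rfl
  map_zero' := rfl
  map_add' _ _ := rfl
  commutes' _ := rfl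

/-- composition with the exponential function -/
theorem exists_compExp : ∃ E : Mero →ₐ[ℂ] Mero, (∀ (f : ℂ → ℂ) (hf : Meromorphic f),
    E (mk f hf) = mk (fun z => f (Complex.exp z)) (meromorphic_comp_exp hf)) ∧
    ∀ u, E u ∈ Set.range (algebraMap ℂ Mero) → u ∈ Set.range (algebraMap ℂ Mero) := by
  have hker : ∀ f : meroAlg, f ∈ zeroIdeal → compExpAlg f = 0 := by
    intro f hf
    rw [mem_zeroIdeal] at hf
    show mk (fun z => (f : ℂ → ℂ) (Complex.exp z)) (meromorphic_comp_exp f.2) = 0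
    rw [mk_eq_zero_iff]
    exact meroExp_codiscrete hf
  let E : (meroAlg ⧸ zeroIdeal) →ₐ[ℂ] Mero := Ideal.Quotient.liftₐ zeroIdeal compExpAlg hker
  refine ⟨E, fun f hf => rfl, ?_⟩
  intro u hu
  obtain ⟨c, hc⟩ := hu
  refine ⟨c, ?_⟩
  let E' : Mero →ₐ[ℂ] Mero := E
  have hinj : Function.Injective E' := E'.toRingHom.injective
  apply hinj
  rw [AlgHom.commutes]
  exact hc

end Pool.Agent.Work.MP_e97a4d_nt.Hyp
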