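import Mathlib

set_option autoImplicit false

noncomputable section

namespace Pool.Agent.Work.MP_e97a4d_nt.Hyp

open Metric Real ValueDistribution

private theorem tLog_divisor {f : ℂ → ℂ} (hf : Meromorphic f)
    (h0 : ∀ z, meromorphicOrderAt f z ≠ ⊤) :
    (MeromorphicOn.divisor (logDeriv f) Set.univ)⁻ ≤
      (MeromorphicOn.divisor f Set.univ)⁺ + (MeromorphicOn.divisor f Set.univ)⁻ := by
  rw [Function.locallyFinsuppWithin.le_def]
  intro z
  have hl : Meromorphic (logDeriv f) := hf.logDeriv
  simp only [Function.locallyFinsuppWithin.coe_add, Pi.add_apply,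
    Function.locallyFinsuppWithin.posPart_apply, Function.locallyFinsuppWithin.negPart_apply]
  rw [MeromorphicOn.divisor_apply hf.meromorphicOn (Set.mem_univ z),
    MeromorphicOn.divisor_apply hl.meromorphicOn (Set.mem_univ z)]
  by_cases h1 : meromorphicOrderAt f z = 0
  · have h2 := meromorphicOrderAt_logDeriv_nonneg (hf z) h1
    have h3 : 0 ≤ (meromorphicOrderAt (logDeriv f) z).untop₀ := by
      cases h4 : meromorphicOrderAt (logDeriv f) z with
      | top => simp
      | coe n =>
        rw [h4] at h2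
        simpa using h2
    rw [h1, negPart_eq_zero.2 h3]
    simp
  · have h2 := meromorphicOrderAt_logDeriv_eq_neg_one (hf z) h1 (h0 z)
    rw [h2]
    obtain ⟨n, hn⟩ := WithTop.ne_top_iff_exists.1 (h0 z)
    rw [← hn] at h1 ⊢
    have h3 : n ≠ 0 := by
      intro h
      apply h1
      rw [h]
      rfl
    have h4 : ((-1 : WithTop ℤ)).untop₀ = -1 := rfl
    rw [h4, WithTop.untop₀_coe, posPart_add_negPart]
    have h5 : 1 ≤ |n| := Int.one_le_abs h3
    have h6 : ((-1 : ℤ))⁻ = 1 := rfl
    rw [h6]
    exact h5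

/-- The characteristic function of a logarithmic derivative. -/
theorem characteristic_logDeriv_le {f : ℂ → ℂ} (hf : Meromorphic f)
    (h0 : ∀ z, meromorphicOrderAt f z ≠ ⊤) :
    ∃ C : ℝ, 0 ≤ C ∧ ∀ r : ℝ, 1 ≤ r →
      characteristic (logDeriv f) ⊤ r ≤ 2 * characteristic f ⊤ r + proximity (logDeriv f) ⊤ r + C := by
  refine ⟨max |Real.log ‖f 0‖| |Real.log ‖meromorphicTrailingCoeffAt f 0‖|, by positivity,
    fun r hr => ?_⟩
  have h1 : logCounting (logDeriv f) ⊤ r ≤ logCounting f 0 r + logCounting f ⊤ r := by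
    rw [logCounting_top, logCounting_zero, logCounting_top, ← Pi.add_apply, ← map_add]
    exact Function.locallyFinsuppWithin.logCounting_le (tLog_divisor hf h0) hr
  have h2 : logCounting f ⊤ r ≤ characteristic f ⊤ r := by
    unfold characteristic
    rw [Pi.add_apply]
    have : 0 ≤ proximity f ⊤ r := proximity_nonneg r
    linarith
  have h3 : logCounting f 0 r ≤ characteristic f⁻¹ ⊤ r := by
    unfold characteristic
    rw [Pi.add_apply, logCounting_inv]
    have : 0 ≤ proximity f⁻¹ ⊤ r := proximity_nonneg r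
    linarith
  have h4 := characteristic_sub_characteristic_inv_le (R := r) hf
  have h5 := (abs_le.1 h4).1
  have h6 : characteristic (logDeriv f) ⊤ r =
      proximity (logDeriv f) ⊤ r + logCounting (logDeriv f) ⊤ r := rfl
  rw [h6]
  linarith

end Pool.Agent.Work.MP_e97a4d_nt.Hyp
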