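import Mathlib

set_option autoImplicit false

noncomputable section

namespace Pool.Agent.Work.MP_e97a4d_nt.Hyp

open Filter

/-- Good radii exist. -/
theorem exists_window {T : ℝ → ℝ} (hT : MonotoneOn T (Set.Ioi 0)) (hT' : Tendsto T atTop atTop)
    (r₀ : ℝ) : ∃ r ≥ r₀, 1 ≤ r ∧ 1 ≤ T r ∧ T (r + 1 / T r) ≤ 2 * T r := by
  by_contra hcon
  push Not at hcon
  obtain ⟨r₁, h1, h2⟩ := ((hT'.eventually_ge_atTop 1).and
    (eventually_ge_atTop (max r₀ 1))).exists
  have hr0 : r₀ ≤ r₁ := (le_max_left _ _).trans h2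
  have hr1 : 1 ≤ r₁ := (le_max_right _ _).trans h2
  let s : ℕ → ℝ := fun k => Nat.rec r₁ (fun _ x => x + 1 / T x) k
  have hs0 : s 0 = r₁ := rfl
  have hs1 : ∀ k, s (k + 1) = s k + 1 / T (s k) := fun k => rfl
  have key : ∀ k, r₁ ≤ s k ∧ (2 : ℝ) ^ k ≤ T (s k) ∧ s k ≤ r₁ + 2 * (1 - (1 / 2) ^ k) := by
    intro k
    induction k with
    | zero => exact ⟨le_of_eq hs0.symm, by rw [hs0, pow_zero]; exact h1, by rw [hs0]; simp⟩
    | succ k ih =>
      obtain ⟨ih1, ih2, ih3⟩ := ih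
      have hpos : (0 : ℝ) < 2 ^ k := by positivity
      have hT1 : 1 ≤ T (s k) := (one_le_pow₀ (by norm_num)).trans ih2
      have hlt := hcon (s k) (hr0.trans ih1) (hr1.trans ih1) hT1
      rw [← hs1 k] at hlt
      refine ⟨?_, ?_, ?_⟩
      · rw [hs1]
        have : 0 ≤ 1 / T (s k) := by positivity
        linarith
      · rw [pow_succ]
        linarith
      · rw [hs1]
        have h3 : 1 / T (s k) ≤ (1 / 2) ^ k := by
          rw [one_div_pow]
          exact one_div_le_one_div_of_le hpos ih2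
        rw [pow_succ]
        linarith
  obtain ⟨n, hn⟩ := pow_unbounded_of_one_lt (T (r₁ + 2)) (one_lt_two (α := ℝ))
  obtain ⟨k1, k2, k3⟩ := key n
  have h5 : s n ≤ r₁ + 2 := by
    have : (0 : ℝ) ≤ (1 / 2) ^ n := by positivity
    linarith
  have h6 : T (s n) ≤ T (r₁ + 2) := hT (by simp only [Set.mem_Ioi]; linarith)
    (by simp only [Set.mem_Ioi]; linarith) h5
  linarith

end Pool.Agent.Work.MP_e97a4d_nt.Hyp
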