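import Pool.Agent.Work.MP_e97a4d_nt.Hyp.SizeDefs
import Pool.Agent.Work.MP_e97a4d_nt.Hyp.MeroExp
import Pool.Agent.Work.MP_e97a4d_nt.Hyp.Ldl
import Pool.Agent.Work.MP_e97a4d_nt.Hyp.TLog
import Pool.Agent.Work.MP_e97a4d_nt.Hyp.Growth
import Pool.Agent.Work.MP_e97a4d_nt.Hyp.Window

set_option autoImplicit false

noncomputable section

namespace Pool.Agent.Work.MP_e97a4d_nt.Hyp

open Filter Topology Real ValueDistribution

private lemma T_nonneg' (u : Mero) {r : ℝ} (hr : 1 ≤ r) : 0 ≤ T u r := characteristic_nonneg hr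

private lemma T_mono' (u : Mero) : MonotoneOn (T u) (Set.Ioi 0) := characteristic_monotoneOn (rep_mero u)

private lemma T_const' (c : ℂ) {r : ℝ} (hr : 1 ≤ r) : T (algebraMap ℂ Mero c) r = log⁺ ‖c‖ := by
  have hr0 : r ≠ 0 := by linarith
  rw [← mk_const, T_mk _ hr0]
  have h1 : logCounting (fun _ : ℂ => c) (⊤ : WithTop ℂ) = 0 := logCounting_const
  have h2 : proximity (fun _ : ℂ => c) (⊤ : WithTop ℂ) r = log⁺ ‖c‖ := proximity_const
  simp only [characteristic, Pi.add_apply, h1, h2, Pi.zero_apply, add_zero]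

private lemma T_zero' {r : ℝ} (hr : 1 ≤ r) : T 0 r = 0 := by
  have := T_const' 0 hr
  simpa using this

private lemma T_add' (u v : Mero) {r : ℝ} (hr : 1 ≤ r) : T (u + v) r ≤ T u r + T v r + log 2 := by
  have hr0 : r ≠ 0 := by linarith
  obtain ⟨f, hf, rfl⟩ := exists_rep u
  obtain ⟨g, hg, rfl⟩ := exists_rep v
  rw [mk_add, T_mk _ hr0, T_mk _ hr0, T_mk _ hr0]
  exact characteristic_add_top_le hf hg hr

private lemma T_mul' (u v : Mero) {r : ℝ} (hr : 1 ≤ r) : T (u * v) r ≤ T u r + T v r := by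
  have hr0 : r ≠ 0 := by linarith
  by_cases hu : u = 0
  · rw [hu, zero_mul, T_zero' hr, zero_add]; exact T_nonneg' v hr
  by_cases hv : v = 0
  · rw [hv, mul_zero, T_zero' hr, add_zero]; exact T_nonneg' u hr
  obtain ⟨f, hf, rfl⟩ := exists_rep u
  obtain ⟨g, hg, rfl⟩ := exists_rep v
  rw [mk_mul, T_mk _ hr0, T_mk _ hr0, T_mk _ hr0]
  exact characteristic_mul_top_le hr hf (order_ne_top hf fun h => hu (mk_eq_zero_iff.2 h)) hg
    (order_ne_top hg fun h => hv (mk_eq_zero_iff.2 h))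

private lemma T_inv' (u : Mero) : ∃ C : ℝ, ∀ r : ℝ, 1 ≤ r → T u⁻¹ r ≤ T u r + C := by
  obtain ⟨f, hf, rfl⟩ := exists_rep u
  refine ⟨max |log ‖f 0‖| |log ‖meromorphicTrailingCoeffAt f 0‖|, fun r hr => ?_⟩
  have hr0 : r ≠ 0 := by linarith
  rw [mk_inv, T_mk _ hr0, T_mk _ hr0]
  have := (abs_le.1 (characteristic_sub_characteristic_inv_le hf (R := r))).1
  linarith

private lemma T_pow' (u : Mero) (N : ℕ) {r : ℝ} (hr : 1 ≤ r) : T (u ^ N) r = N * T u r := by
  have hr0 : r ≠ 0 := by linarith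
  obtain ⟨f, hf, rfl⟩ := exists_rep u
  rw [mk_pow, T_mk _ hr0, T_mk _ hr0, characteristic_pow_top hf]
  simp

private lemma T_logD' (u : Mero) (hu : u ≠ 0) : ∃ C : ℝ, 0 ≤ C ∧ ∀ r R : ℝ, 1 ≤ r → r < R →
    T (D u / u) r ≤ 2 * T u r + C * (2 + log⁺ (T u R) + log⁺ (1 / (R - r)) + log⁺ R) := by
  obtain ⟨f, hf, rfl⟩ := exists_rep u
  have hf0 := order_ne_top hf fun h => hu (mk_eq_zero_iff.2 h)
  obtain ⟨C1, hC1, h1⟩ := ldl hf hf0
  obtain ⟨C2, hC2, h2⟩ := characteristic_logDeriv_le hf hf0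
  refine ⟨C1 + C2, by linarith, fun r R hr hrR => ?_⟩
  have hr0 : r ≠ 0 := by linarith
  have hR0 : R ≠ 0 := by linarith
  have e1 : D (mk f hf) / mk f hf = mk (logDeriv f) (hf.deriv.div hf) := by
    rw [D_mk, mk_div]
    rfl
  rw [e1, T_mk _ hr0, T_mk _ hr0, T_mk _ hR0]
  have h3 := h1 r R hr hrR
  have h4 := h2 r hr
  have p1 : 0 ≤ log⁺ (characteristic f ⊤ R) := posLog_nonneg
  have p2 : 0 ≤ log⁺ (1 / (R - r)) := posLog_nonneg
  have p3 : 0 ≤ log⁺ R := posLog_nonneg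
  nlinarith [mul_nonneg hC1 p1, mul_nonneg hC1 p2, mul_nonneg hC1 p3, mul_nonneg hC2 p1,
    mul_nonneg hC2 p2, mul_nonneg hC2 p3]

private lemma posLog_le' {ε y : ℝ} (hε : 0 < ε) (hy : 0 ≤ y) : log⁺ y ≤ ε * y + |log ε| := by
  rcases hy.eq_or_lt with h | h
  · rw [← h]; simp
  · rw [posLog]
    apply max_le
    · positivity
    · have h1 := Real.log_le_sub_one_of_pos (mul_pos hε h)
      rw [Real.log_mul hε.ne' h.ne'] at h1
      have := neg_abs_le (log ε)
      linarith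

/-- size at most `c S` on the windows -/
private def SzP (S : ℝ → ℝ) (j : ℕ) (c : ℝ) (u : Mero) : Prop :=
  ∀ ε > 0, ∃ r₁ : ℝ, ∀ r : ℝ, 1 ≤ r → 1 ≤ S r → S (r + 1 / S r) ≤ 2 * S r → r₁ ≤ r →
    ∀ ρ : ℝ, r ≤ ρ → ρ ≤ r + 1 / ((j + 2) * S r) → T u ρ ≤ (c + ε) * S r

private lemma SzP.mk' {S : ℝ → ℝ} (hS : Tendsto S atTop atTop) {j : ℕ} {c : ℝ} {u : Mero} (A : ℝ)
    (h : ∀ ε > 0, ∃ B : ℝ, ∃ r₁ : ℝ, ∀ r : ℝ, 1 ≤ r → 1 ≤ S r → S (r + 1 / S r) ≤ 2 * S r → r₁ ≤ r →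
    ∀ ρ : ℝ, r ≤ ρ → ρ ≤ r + 1 / ((j + 2) * S r) → T u ρ ≤ (c + A * ε) * S r + B) : SzP S j c u := by
  intro ε hε
  obtain ⟨B, r₁, h1⟩ := h (ε / (2 * (|A| + 1))) (by positivity)
  obtain ⟨r₂, h2⟩ := Filter.eventually_atTop.1 (hS.eventually_ge_atTop (2 * |B| / ε))
  refine ⟨max r₁ r₂, fun r hr hSr hw hr1 ρ hρ hρ' => ?_⟩
  have h3 := h1 r hr hSr hw ((le_max_left _ _).trans hr1) ρ hρ hρ'
  have h4 := h2 r ((le_max_right _ _).trans hr1)
  rw [div_le_iff₀ hε] at h4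
  have h5 : A * (ε / (2 * (|A| + 1))) ≤ ε / 2 := by
    have h6 : A * (ε / (2 * (|A| + 1))) = (A / (|A| + 1)) * (ε / 2) := by
      field_simp
    rw [h6]
    have h7 : A / (|A| + 1) ≤ 1 := by
      rw [div_le_one (by positivity)]
      linarith [le_abs_self A]
    nlinarith
  have h8 : A * (ε / (2 * (|A| + 1))) * S r ≤ ε / 2 * S r :=
    mul_le_mul_of_nonneg_right h5 (by linarith)
  have h9 := le_abs_self B
  nlinarith

/-- The calculus of characteristic functions gives a size system for every tuple of the form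
`ξ ∘ exp`, `ξ` not constant. -/
theorem exists_sizeSys {n : ℕ} (ξ : Fin n → Mero) (h : ∃ k, ξ k ∉ Set.range (algebraMap ℂ Mero))
    (E : Mero →ₐ[ℂ] Mero) (hE : ∀ (f : ℂ → ℂ) (hf : Meromorphic f),
      E (mk f hf) = mk (fun z => f (Complex.exp z)) (meromorphic_comp_exp hf)) :
    Nonempty (SizeSys fun k => E (ξ k)) := by
  classical
  set S : ℝ → ℝ := fun r => ∑ k, T (E (ξ k)) r with hSdef
  have hSmono : MonotoneOn S (Set.Ioi 0) := by
    intro a ha b hb hab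
    exact Finset.sum_le_sum fun k _ => T_mono' _ ha hb hab
  have hTle : ∀ k (r : ℝ), 1 ≤ r → T (E (ξ k)) r ≤ S r := by
    intro k r hr
    exact Finset.single_le_sum (f := fun k => T (E (ξ k)) r) (fun k _ => T_nonneg' _ hr) (Finset.mem_univ k)
  have hSlog : ∀ K : ℝ, ∀ᶠ r in atTop, K * log r ≤ S r := by
    intro K
    obtain ⟨k, hk⟩ := h
    obtain ⟨f, hf, hfk⟩ := exists_rep (ξ k)
    have hc : ∀ c : ℂ, ¬ f =ᶠ[codiscrete ℂ] fun _ => c := by
      intro c hc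
      apply hk
      refine ⟨c, ?_⟩
      rw [hfk, ← mk_const, mk_eq_iff]
      exact hc.symm
    filter_upwards [growth_exp hf hc K, eventually_ge_atTop 1] with r hr hr1
    have h1 := hTle k r hr1
    rw [hfk, hE, T_mk _ (by linarith)] at h1
    exact hr.trans h1
  have hStop : Tendsto S atTop atTop := by
    refine tendsto_atTop_mono' _ (hSlog 1) ?_
    simpa using Real.tendsto_log_atTop
  have hwin : ∀ (j : ℕ) {r ρ : ℝ}, 1 ≤ S r → ρ ≤ r + 1 / ((j + 2) * S r) → ρ ≤ r + 1 / S r := by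
    intro j r ρ hSr hρ
    refine hρ.trans ?_
    have : 1 / (((j : ℝ) + 2) * S r) ≤ 1 / S r := by
      apply one_div_le_one_div_of_le (by linarith)
      have : (0 : ℝ) ≤ j := Nat.cast_nonneg j
      nlinarith
    linarith
  refine ⟨{ Sz := SzP S, mono := ?_, const := ?_, add := ?_, mul := ?_, inv := ?_, logD := ?_,
            root := ?_, base := ?_, final := ?_ }⟩
  · -- mono
    intro j j' c c' u hj hc hu ε hε
    obtain ⟨r₁, h1⟩ := hu ε hε
    refine ⟨r₁, fun r hr hSr hw hr1 ρ hρ hρ' => ?_⟩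
    have h2 : 1 / (((j' : ℝ) + 2) * S r) ≤ 1 / (((j : ℝ) + 2) * S r) := by
      apply one_div_le_one_div_of_le (by positivity)
      have : (j : ℝ) ≤ j' := by exact_mod_cast hj
      nlinarith
    refine (h1 r hr hSr hw hr1 ρ hρ (by linarith)).trans ?_
    nlinarith
  · -- const
    intro u j hu
    obtain ⟨c, rfl⟩ := (D_eq_zero_iff u).1 hu
    refine SzP.mk' hStop 0 fun ε hε => ⟨log⁺ ‖c‖, 1, fun r hr hSr hw hr1 ρ hρ hρ' => ?_⟩
    rw [T_const' c (hr.trans hρ)]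
    simp
  · -- add
    intro j c c' u v hc hc' hu hv
    refine SzP.mk' hStop 2 fun ε hε => ?_
    obtain ⟨r₁, h1⟩ := hu ε hε
    obtain ⟨r₂, h2⟩ := hv ε hε
    refine ⟨log 2, max r₁ r₂, fun r hr hSr hw hr1 ρ hρ hρ' => ?_⟩
    have h3 := h1 r hr hSr hw ((le_max_left _ _).trans hr1) ρ hρ hρ'
    have h4 := h2 r hr hSr hw ((le_max_right _ _).trans hr1) ρ hρ hρ'
    have h5 := T_add' u v (hr.trans hρ)
    linarith
  · -- mul
    intro j c c' u v hc hc' hu hv
    refine SzP.mk' hStop 2 fun ε hε => ?_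
    obtain ⟨r₁, h1⟩ := hu ε hε
    obtain ⟨r₂, h2⟩ := hv ε hε
    refine ⟨0, max r₁ r₂, fun r hr hSr hw hr1 ρ hρ hρ' => ?_⟩
    have h3 := h1 r hr hSr hw ((le_max_left _ _).trans hr1) ρ hρ hρ'
    have h4 := h2 r hr hSr hw ((le_max_right _ _).trans hr1) ρ hρ hρ'
    have h5 := T_mul' u v (hr.trans hρ)
    linarith
  · -- inv
    intro j c u hc hu
    obtain ⟨C, hC⟩ := T_inv' u
    refine SzP.mk' hStop 1 fun ε hε => ?_
    obtain ⟨r₁, h1⟩ := hu ε hε
    refine ⟨C, r₁, fun r hr hSr hw hr1 ρ hρ hρ' => ?_⟩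
    have h3 := h1 r hr hSr hw hr1 ρ hρ hρ'
    have h5 := hC ρ (hr.trans hρ)
    linarith
  · -- logD
    intro j c u hc hu0 hu
    obtain ⟨C, hC0, hC⟩ := T_logD' u hu0
    set a : ℝ := c + 1 with ha
    set b : ℝ := ((j : ℝ) + 2) * (j + 3) with hb
    have ha0 : 0 ≤ a := by linarith
    have hb0 : 0 ≤ b := by positivity
    refine SzP.mk' hStop (2 + C * (a + b + 1)) fun ε hε => ?_
    obtain ⟨r₁, h1⟩ := hu ε hε
    obtain ⟨r₂, h2⟩ := hu 1 one_pos
    obtain ⟨r₃, h3⟩ := Filter.eventually_atTop.1 (hSlog (1 / ε))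
    refine ⟨C * (2 + |log ε| + |log ε| + 1), max (max r₁ r₂) r₃, fun r hr hSr hw hr1 ρ hρ hρ' => ?_⟩
    have hr1' : r₁ ≤ r := ((le_max_left _ _).trans (le_max_left _ _)).trans hr1
    have hr2' : r₂ ≤ r := ((le_max_right _ _).trans (le_max_left _ _)).trans hr1
    have hr3' : r₃ ≤ r := (le_max_right _ _).trans hr1
    have hSpos : 0 < S r := by linarith
    set R : ℝ := r + 1 / (((j : ℝ) + 2) * S r) with hR
    have hgap : 1 / (b * S r) ≤ R - ρ := by
      have e1 : 1 / (((j : ℝ) + 2) * S r) - 1 / (((j + 1 : ℕ) + 2 : ℝ) * S r) = 1 / (b * S r) := by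
        push_cast
        rw [hb]
        field_simp
        ring
      linarith
    have hgap0 : 0 < 1 / (b * S r) := by positivity
    have hρR : ρ < R := by linarith
    have hρ1 : 1 ≤ ρ := hr.trans hρ
    have k1 := h1 r hr hSr hw hr1' ρ hρ hρR.le
    have k2 := h2 r hr hSr hw hr2' R (hρ.trans hρR.le) le_rfl
    have k3 := hC ρ R hρ1 hρR
    -- `log⁺ T(R)`
    have l1 : log⁺ (T u R) ≤ ε * (a * S r) + |log ε| := by
      refine (posLog_le' hε (T_nonneg' u (hρ1.trans hρR.le))).trans ?_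
      have : ε * T u R ≤ ε * (a * S r) := mul_le_mul_of_nonneg_left k2 hε.le
      linarith
    have l2 : log⁺ (1 / (R - ρ)) ≤ ε * (b * S r) + |log ε| := by
      have hRρ : 0 < R - ρ := by linarith
      refine (posLog_le' hε (by positivity)).trans ?_
      have h5 : 1 / (R - ρ) ≤ b * S r := by
        rw [div_le_iff₀ hRρ]
        rw [div_le_iff₀ (by positivity)] at hgap
        linarith
      have : ε * (1 / (R - ρ)) ≤ ε * (b * S r) := mul_le_mul_of_nonneg_left h5 hε.le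
      linarith
    have l3 : log⁺ R ≤ ε * S r + 1 := by
      have hR1 : 1 ≤ R := hρ1.trans hρR.le
      have hR2 : R ≤ 2 * r := by
        have : 1 / (((j : ℝ) + 2) * S r) ≤ 1 := by
          rw [div_le_one (by positivity)]
          have : (0 : ℝ) ≤ j := Nat.cast_nonneg j
          nlinarith
        linarith
      have h5 : log⁺ R = log R := by
        rw [posLog_eq_log]
        rw [abs_of_nonneg (by linarith)]
        exact hR1
      have h6 : log R ≤ log (2 * r) := Real.log_le_log (by linarith) hR2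
      rw [Real.log_mul (by norm_num) (by linarith)] at h6
      have h7 := h3 r hr3'
      rw [one_div, inv_mul_le_iff₀ hε] at h7
      have h8 : log 2 ≤ 1 := by
        have := Real.log_le_sub_one_of_pos (show (0 : ℝ) < 2 by norm_num)
        linarith
      linarith
    have l4 : C * (2 + log⁺ (T u R) + log⁺ (1 / (R - ρ)) + log⁺ R) ≤
        C * (2 + (ε * (a * S r) + |log ε|) + (ε * (b * S r) + |log ε|) + (ε * S r + 1)) :=
      mul_le_mul_of_nonneg_left (by linarith) hC0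
    calc T (D u / u) ρ ≤ 2 * ((c + ε) * S r) +
          C * (2 + (ε * (a * S r) + |log ε|) + (ε * (b * S r) + |log ε|) + (ε * S r + 1)) := by linarith
      _ = (2 * c + (2 + C * (a + b + 1)) * ε) * S r + C * (2 + |log ε| + |log ε| + 1) := by ring
  · -- root
    intro j c u N hN hu
    have hN' : (0 : ℝ) < N := by exact_mod_cast hN
    refine SzP.mk' hStop (1 / N) fun ε hε => ?_
    obtain ⟨r₁, h1⟩ := hu ε hε
    refine ⟨0, r₁, fun r hr hSr hw hr1 ρ hρ hρ' => ?_⟩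
    have h3 := h1 r hr hSr hw hr1 ρ hρ hρ'
    rw [T_pow' u N (hr.trans hρ)] at h3
    have h4 : T u ρ ≤ ((c + ε) * S r) / N := by
      rw [le_div_iff₀ hN']
      linarith
    refine h4.trans (le_of_eq ?_)
    ring
  · -- base
    intro k ε hε
    refine ⟨1, fun r hr hSr hw hr1 ρ hρ hρ' => ?_⟩
    have h1 := hwin 0 hSr hρ'
    have hρ0 : 1 ≤ ρ := hr.trans hρ
    have hpos : 0 < 1 / S r := by positivity
    have h2 : T (E (ξ k)) ρ ≤ T (E (ξ k)) (r + 1 / S r) :=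
      T_mono' _ (show (0 : ℝ) < ρ by linarith) (show (0 : ℝ) < r + 1 / S r by linarith) h1
    have h3 := hTle k (r + 1 / S r) (by linarith)
    nlinarith
  · -- final
    intro j c hu
    apply le_of_forall_pos_le_add
    intro δ hδ
    have hn : (0 : ℝ) ≤ n := Nat.cast_nonneg n
    have hex : ∀ k : Fin n, ∃ r₁ : ℝ, ∀ r : ℝ, 1 ≤ r → 1 ≤ S r → S (r + 1 / S r) ≤ 2 * S r → r₁ ≤ r →
        ∀ ρ : ℝ, r ≤ ρ → ρ ≤ r + 1 / ((j + 2) * S r) → T (E (ξ k)) ρ ≤ (c + δ / (n + 1)) * S r :=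
      fun k => hu k (δ / (n + 1)) (by positivity)
    choose r₁ h1 using hex
    obtain ⟨r, hr0, hr1, hSr, hw⟩ := exists_window hSmono hStop (∑ k, |r₁ k|)
    have hSpos : 0 < S r := by linarith
    have h2 : ∀ k, T (E (ξ k)) r ≤ (c + δ / (n + 1)) * S r := by
      intro k
      refine h1 k r hr1 hSr hw ?_ r le_rfl (by
        have : 0 ≤ 1 / (((j : ℝ) + 2) * S r) := by positivity
        linarith)
      have h3 : |r₁ k| ≤ ∑ k, |r₁ k| :=
        Finset.single_le_sum (f := fun k => |r₁ k|) (fun k _ => abs_nonneg _) (Finset.mem_univ k)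
      exact (le_abs_self _).trans (h3.trans hr0)
    have h4 : S r ≤ n * ((c + δ / (n + 1)) * S r) := by
      calc S r = ∑ k, T (E (ξ k)) r := rfl
        _ ≤ ∑ _k : Fin n, (c + δ / (n + 1)) * S r := Finset.sum_le_sum fun k _ => h2 k
        _ = n * ((c + δ / (n + 1)) * S r) := by simp
    have h5 : 1 ≤ n * (c + δ / (n + 1)) := by
      by_contra hcon
      push Not at hcon
      nlinarith
    have h6 : n * (δ / (n + 1)) ≤ δ := by
      rw [← mul_div_assoc, div_le_iff₀ (by positivity)]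
      nlinarith
    nlinarith

end Pool.Agent.Work.MP_e97a4d_nt.Hyp
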