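import Pool.Agent.Work.MP_e97a4d_nt.Hyp.SizeDefs

set_option autoImplicit false

noncomputable section

namespace Pool.Agent.Work.MP_e97a4d_nt.Hyp

private theorem D_algebraMap (c : ℂ) : D (algebraMap ℂ Mero c) = 0 := Derivation.map_algebraMap D c

private theorem sz_sum {n : ℕ} {ξ : Fin n → Mero} (Z : SizeSys ξ) {j : ℕ} {c : ℝ} (hc : 0 ≤ c)
    {α : Type} (s : Finset α) (u : α → Mero) (hu : ∀ i ∈ s, Z.Sz j c (u i)) :
    Z.Sz j (s.card * c) (∑ i ∈ s, u i) := by
  classical
  induction s using Finset.induction_on with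
  | empty =>
    rw [Finset.sum_empty, Finset.card_empty, Nat.cast_zero, zero_mul]
    exact Z.const j (map_zero D)
  | insert a s ha ih =>
    rw [Finset.sum_insert ha, Finset.card_insert_of_notMem ha]
    have h1 := ih fun i hi => hu i (Finset.mem_insert_of_mem hi)
    have h2 := Z.add hc (by positivity) (hu a (Finset.mem_insert_self a s)) h1
    refine Z.mono le_rfl (le_of_eq ?_) h2
    push_cast
    ring

/-- A star of slow ratios. -/
theorem star {n : ℕ} {ξ : Fin (n + 1) → Mero} (Z : SizeSys ξ) {P : Type} (L : P → Fin (n + 1) → ℂ)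
    (hL : Gen L) (l₀ : Fin (n + 1)) (h1 : ξ l₀ = 1) (v : P) (h : Fin n → P)
    (hh : Function.Injective h) (hv : ∀ i, h i ≠ v) (j : ℕ) (ε : ℝ) (hε : 0 ≤ ε)
    (hlv : lin (L v) ξ ≠ 0) (hs : ∀ i, Z.Sz j ε (lin (L (h i)) ξ / lin (L v) ξ)) :
    ∀ k, Z.Sz j (2 * n * ε) (ξ k) := by
  classical
  have hinj : Function.Injective (Fin.cons v h : Fin (n + 1) → P) := by
    rw [Fin.cons_injective_iff]
    refine ⟨?_, hh⟩
    rintro ⟨i, hi⟩
    exact hv i hi
  have hdet := hL.g1 _ hinj
  set A : Matrix (Fin (n + 1)) (Fin (n + 1)) ℂ :=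
    Matrix.of fun i k => L ((Fin.cons v h : Fin (n + 1) → P) i) k with hA
  have hunit : IsUnit A.det := isUnit_iff_ne_zero.2 hdet
  -- the forms
  have hmul : (A.map (algebraMap ℂ Mero)).mulVec ξ =
      fun i => lin (L ((Fin.cons v h : Fin (n + 1) → P) i)) ξ := by
    funext i
    rw [Matrix.mulVec, dotProduct, lin]
    refine Finset.sum_congr rfl fun k _ => ?_
    rw [Matrix.map_apply, hA, Matrix.of_apply, Algebra.smul_def]
  have hinv : (A⁻¹.map (algebraMap ℂ Mero)) * (A.map (algebraMap ℂ Mero)) = 1 := by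
    rw [← Matrix.map_mul, Matrix.nonsing_inv_mul A hunit,
      Matrix.map_one _ (map_zero _) (map_one _)]
  have hξ : ∀ k, ξ k = ∑ i, algebraMap ℂ Mero (A⁻¹ k i) *
      lin (L ((Fin.cons v h : Fin (n + 1) → P) i)) ξ := by
    intro k
    have h2 : (A⁻¹.map (algebraMap ℂ Mero)).mulVec ((A.map (algebraMap ℂ Mero)).mulVec ξ) = ξ := by
      rw [Matrix.mulVec_mulVec, hinv, Matrix.one_mulVec]
    rw [hmul] at h2
    have h3 := congrFun h2 k
    rw [← h3, Matrix.mulVec, dotProduct]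
    rfl
  have hratio : ∀ k, Z.Sz j (n * ε) (ξ k / lin (L v) ξ) := by
    intro k
    have e : ξ k / lin (L v) ξ = algebraMap ℂ Mero (A⁻¹ k 0) +
        ∑ i : Fin n, algebraMap ℂ Mero (A⁻¹ k i.succ) * (lin (L (h i)) ξ / lin (L v) ξ) := by
      conv_lhs => rw [hξ k]
      rw [Fin.sum_univ_succ, add_div, Finset.sum_div]
      congr 1
      · rw [Fin.cons_zero]
        exact mul_div_cancel_right₀ _ hlv
      · refine Finset.sum_congr rfl fun i _ => ?_
        rw [Fin.cons_succ, mul_div_assoc]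
    rw [e]
    have h3 : ∀ i ∈ (Finset.univ : Finset (Fin n)), Z.Sz j ε
        (algebraMap ℂ Mero (A⁻¹ k i.succ) * (lin (L (h i)) ξ / lin (L v) ξ)) := by
      intro i _
      have h4 := Z.mul le_rfl hε (Z.const j (D_algebraMap (A⁻¹ k i.succ))) (hs i)
      rwa [zero_add] at h4
    have h5 := sz_sum Z hε Finset.univ _ h3
    rw [Finset.card_univ, Fintype.card_fin] at h5
    have h6 := Z.add le_rfl (by positivity) (Z.const j (D_algebraMap (A⁻¹ k 0))) h5
    rwa [zero_add] at h6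
  intro k
  have hlv' : Z.Sz j (n * ε) (lin (L v) ξ) := by
    have h2 := hratio l₀
    rw [h1] at h2
    have h3 := Z.inv (by positivity) h2
    rwa [one_div, inv_inv] at h3
  have h2 := Z.mul (by positivity) (by positivity) (hratio k) hlv'
  rw [div_mul_cancel₀ _ hlv] at h2
  exact Z.mono le_rfl (by linarith) h2

end Pool.Agent.Work.MP_e97a4d_nt.Hyp
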