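import Pool.Agent.Work.MP_e97a4d_nt.Hyp.Defs
import Pool.Agent.Work.MP_e97a4d_nt.Hyp.Size
import Pool.Agent.Work.MP_e97a4d_nt.Hyp.Elim
import Pool.Agent.Work.MP_e97a4d_nt.Hyp.Comb
import Pool.Agent.Work.MP_e97a4d_nt.Hyp.Star
import Pool.Agent.Work.MP_e97a4d_nt.Hyp.Pairs
import Pool.Agent.Work.MP_e97a4d_nt.Hyp.GenL

set_option autoImplicit false

noncomputable section

namespace Pool.Agent.Work.MP_e97a4d_nt.Hyp

open MvPolynomial in
/-- sum of terms of size at most `c` -/
theorem claimA_sz_sum {n : ℕ} {ξ : Fin n → Mero} (Z : SizeSys ξ) {α : Type} (s : Finset α)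
    (f : α → Mero) (j : ℕ) (c : ℝ) (hc : 0 ≤ c) (h : ∀ a ∈ s, Z.Sz j c (f a)) :
    Z.Sz j (s.card * c) (∑ a ∈ s, f a) := by
  classical
  induction s using Finset.induction_on with
  | empty =>
    simp only [Finset.card_empty, Nat.cast_zero, zero_mul, Finset.sum_empty]
    exact Z.const j (map_zero D)
  | insert a s ha ih =>
    rw [Finset.sum_insert ha, Finset.card_insert_of_notMem ha]
    have h1 := Z.add hc (by positivity) (h a (Finset.mem_insert_self _ _))
      (ih fun b hb => h b (Finset.mem_insert_of_mem hb))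
    refine Z.mono le_rfl (le_of_eq ?_) h1
    push_cast
    ring

theorem claimA_sz_prod {n : ℕ} {ξ : Fin n → Mero} (Z : SizeSys ξ) {α : Type} (s : Finset α)
    (f : α → Mero) (j : ℕ) (c : α → ℝ) (hc : ∀ a ∈ s, 0 ≤ c a) (h : ∀ a ∈ s, Z.Sz j (c a) (f a)) :
    Z.Sz j (∑ a ∈ s, c a) (∏ a ∈ s, f a) := by
  classical
  induction s using Finset.induction_on with
  | empty =>
    simp only [Finset.sum_empty, Finset.prod_empty]
    exact Z.const j D.map_one_eq_zero
  | insert a s ha ih =>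
    rw [Finset.sum_insert ha, Finset.prod_insert ha]
    exact Z.mul (hc a (Finset.mem_insert_self _ _))
      (Finset.sum_nonneg fun b hb => hc b (Finset.mem_insert_of_mem hb))
      (h a (Finset.mem_insert_self _ _))
      (ih (fun b hb => hc b (Finset.mem_insert_of_mem hb))
        fun b hb => h b (Finset.mem_insert_of_mem hb))

theorem claimA_sz_pow {n : ℕ} {ξ : Fin n → Mero} (Z : SizeSys ξ) (u : Mero) (j : ℕ) (c : ℝ)
    (hc : 0 ≤ c) (h : Z.Sz j c u) (d : ℕ) : Z.Sz j (d * c) (u ^ d) := by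
  have h1 := claimA_sz_prod Z (Finset.range d) (fun _ => u) j (fun _ => c) (fun _ _ => hc)
    (fun _ _ => h)
  simpa using h1

theorem claimA_D_const (c : ℂ) : D (algebraMap ℂ Mero c) = 0 := D.map_algebraMap c

theorem claimA_sz_aeval {n : ℕ} {ξ : Fin n → Mero} (Z : SizeSys ξ) (e : ℕ)
    (G : MvPolynomial (Fin n) ℂ) (hG : G.IsHomogeneous e) (M : ℕ)
    (hM : ∀ s : Finset (Fin n →₀ ℕ), (∀ d ∈ s, d.degree = e) → s.card ≤ M) :
    Z.Sz 0 (M * (2 * e)) (MvPolynomial.aeval ξ G) := by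
  rw [MvPolynomial.aeval_def, MvPolynomial.eval₂_eq']
  have h1 := claimA_sz_sum Z G.support
    (fun d => algebraMap ℂ Mero (G.coeff d) * ∏ i, ξ i ^ d i) 0 (2 * e) (by positivity) (by
      intro d hd
      have h2 := claimA_sz_prod Z Finset.univ (fun i => ξ i ^ d i) 0 (fun i => (d i : ℝ) * 2)
        (fun i _ => by positivity) (fun i _ => claimA_sz_pow Z (ξ i) 0 2 (by norm_num) (Z.base i) (d i))
      have h3 : ∑ i, (d i : ℝ) * 2 = 2 * e := by
        have h4 : d.degree = e := by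
          have := hG (MvPolynomial.mem_support_iff.mp hd)
          rw [← this, Finsupp.degree_eq_weight_one]
          rfl
        rw [← Finset.sum_mul, ← Nat.cast_sum, ← Finsupp.degree_eq_sum, h4]
        ring
      rw [h3] at h2
      have h5 := Z.mul le_rfl (by positivity) (Z.const 0 (claimA_D_const (G.coeff d))) h2
      rw [zero_add] at h5
      exact h5)
  refine Z.mono le_rfl ?_ h1
  have h6 : (G.support.card : ℝ) ≤ M := by
    refine Nat.cast_le.mpr (hM G.support ?_)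
    intro d hd
    have := hG (MvPolynomial.mem_support_iff.mp hd)
    rw [← this, Finsupp.degree_eq_weight_one]
    rfl
  exact mul_le_mul_of_nonneg_right h6 (by positivity)

theorem claimA_sz_lin {n : ℕ} {ξ : Fin n → Mero} (Z : SizeSys ξ) (L : Fin n → ℂ) :
    Z.Sz 0 (n * 2) (lin L ξ) := by
  have h1 := claimA_sz_sum Z Finset.univ (fun k => L k • ξ k) 0 2 (by norm_num) (by
    intro k _
    rw [Algebra.smul_def]
    have h5 := Z.mul le_rfl (by norm_num) (Z.const 0 (claimA_D_const (L k))) (Z.base k)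
    rwa [zero_add] at h5)
  rw [Finset.card_univ, Fintype.card_fin] at h1
  exact h1

theorem claimA_card_pair (n : ℕ) : 2 * Fintype.card (Pair n) ≤ n ^ 2 := by
  have h : Fintype.card (Pair n ⊕ Pair n) ≤ Fintype.card (Fin n × Fin n) := by
    refine Fintype.card_le_of_injective
      (Sum.elim (fun q : Pair n => q.1) (fun q : Pair n => (q.1.2, q.1.1))) ?_
    rintro (⟨⟨a, b⟩, h⟩ | ⟨⟨a, b⟩, h⟩) (⟨⟨c, d⟩, h'⟩ | ⟨⟨c, d⟩, h'⟩) hq
    · simp only [Sum.elim_inl, Prod.mk.injEq] at hq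
      obtain ⟨rfl, rfl⟩ := hq
      rfl
    · simp only [Sum.elim_inl, Sum.elim_inr, Prod.mk.injEq] at hq
      obtain ⟨rfl, rfl⟩ := hq
      exact absurd h (not_lt.mpr h'.le)
    · simp only [Sum.elim_inl, Sum.elim_inr, Prod.mk.injEq] at hq
      obtain ⟨rfl, rfl⟩ := hq
      exact absurd h (not_lt.mpr h'.le)
    · simp only [Sum.elim_inr, Prod.mk.injEq] at hq
      obtain ⟨rfl, rfl⟩ := hq
      rfl
  rw [Fintype.card_sum, Fintype.card_prod, Fintype.card_fin] at h
  nlinarith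

theorem claimA_exists_M (n e : ℕ) : ∃ M : ℕ, ∀ s : Finset (Fin n →₀ ℕ),
    (∀ d ∈ s, d.degree = e) → s.card ≤ M := by
  classical
  refine ⟨(Finset.Iic (Finsupp.equivFunOnFinite.symm fun _ => e : Fin n →₀ ℕ)).card, ?_⟩
  intro s hs
  refine Finset.card_le_card ?_
  intro d hd
  rw [Finset.mem_Iic]
  intro i
  have h1 := hs d hd
  rw [Finsupp.degree_eq_sum] at h1
  have h2 : d i ≤ ∑ i, d i := Finset.single_le_sum (fun _ _ => Nat.zero_le _) (Finset.mem_univ i)
  simpa using h2.trans h1.le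

theorem claimA_lin_smul {n : ℕ} (L : Fin n → ℂ) (ξ : Fin n → Mero) (g : Mero) :
    lin L (fun k => g * ξ k) = g * lin L ξ := by
  unfold lin
  rw [Finset.mul_sum]
  refine Finset.sum_congr rfl fun k _ => ?_
  rw [Algebra.smul_def, Algebra.smul_def]
  ring

theorem claimA_aeval_smul {n : ℕ} (e : ℕ) (G : MvPolynomial (Fin n) ℂ) (hG : G.IsHomogeneous e)
    (ξ : Fin n → Mero) (g : Mero) :
    MvPolynomial.aeval (fun k => g * ξ k) G = g ^ e * MvPolynomial.aeval ξ G := by
  rw [MvPolynomial.aeval_def, MvPolynomial.aeval_def, MvPolynomial.eval₂_eq', MvPolynomial.eval₂_eq',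
    Finset.mul_sum]
  refine Finset.sum_congr rfl fun d hd => ?_
  have h4 : ∑ i, d i = e := by
    have := hG (MvPolynomial.mem_support_iff.mp hd)
    rw [← this, ← Finsupp.degree_eq_sum, Finsupp.degree_eq_weight_one]
    rfl
  have h5 : ∏ i, (g * ξ i) ^ d i = g ^ e * ∏ i, ξ i ^ d i := by
    rw [← h4, ← Finset.prod_pow_eq_pow_sum, ← Finset.prod_mul_distrib]
    exact Finset.prod_congr rfl fun i _ => mul_pow _ _ _
  rw [h5]
  ring

theorem claimA_lin_map {n : ℕ} (L : Fin n → ℂ) (ξ : Fin n → Mero) (E : Mero →ₐ[ℂ] Mero) :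
    lin L (fun k => E (ξ k)) = E (lin L ξ) := by
  unfold lin
  rw [map_sum]
  exact Finset.sum_congr rfl fun k _ => (map_smul E _ _).symm

theorem claimA_aeval_map {n : ℕ} (G : MvPolynomial (Fin n) ℂ) (ξ : Fin n → Mero)
    (E : Mero →ₐ[ℂ] Mero) :
    MvPolynomial.aeval (fun k => E (ξ k)) G = E (MvPolynomial.aeval ξ G) := by
  have : MvPolynomial.aeval (fun k => E (ξ k)) = E.comp (MvPolynomial.aeval (R := ℂ) ξ) := by
    apply MvPolynomial.algHom_ext
    intro i
    simp
  rw [this]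
  rfl

/-- Degeneracy of meromorphic solutions of `∑ a_p G_i(ξ) L_p(ξ) ^ N = 0`, `p = (i, j)`. -/
theorem claimA (n e J : ℕ) (ι : Type) [Fintype ι] (hJ : (n + 1) ^ 3 + n + 2 ≤ J) :
    ∃ N₀ : ℕ, ∀ N ≥ N₀, ∀ (G : ι → MvPolynomial (Fin (n + 1)) ℂ), (∀ i, (G i).IsHomogeneous e) →
    ∀ (L : ι × Fin J → Fin (n + 1) → ℂ), Gen L → ∀ a : ι × Fin J → ℂ, (∀ p, a p ≠ 0) →
    ∀ ξ : Fin (n + 1) → Mero, ¬ RatioConst ξ →
      ∑ p : ι × Fin J, algebraMap ℂ Mero (a p) * MvPolynomial.aeval ξ (G p.1) * (lin (L p) ξ) ^ N = 0 →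
      ∀ i, MvPolynomial.aeval ξ (G i) = 0 := by
  classical
  obtain ⟨M, hM⟩ := claimA_exists_M (n + 1) e
  set k : ℕ := Fintype.card (ι × Fin J) with hk
  set c : ℝ := M * (2 * e) with hc
  set c₁ : ℝ := ((n + 1 : ℕ) : ℝ) * 2 with hc₁
  have hc0 : 0 ≤ c := by positivity
  have hc10 : 0 ≤ c₁ := by positivity
  obtain ⟨C, hC0, hC⟩ := elim k c c₁ hc0 hc10
  obtain ⟨N₀, hN₀⟩ := exists_nat_gt (((n + 1 : ℕ) : ℝ) * (2 * n.factorial * n * C))
  refine ⟨N₀ + 1, fun N hN G hG L hL a ha ξ hξ hrel i₀ => ?_⟩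
  by_contra hi₀
  have hN0 : 0 < N := by omega
  have hNR : (0 : ℝ) < N := by exact_mod_cast hN0
  -- scaling
  obtain ⟨l₀, hl₀⟩ : ∃ l, ξ l ≠ 0 := by
    by_contra hcon
    push Not at hcon
    exact hξ ⟨0, fun _ => 0, fun k => by rw [hcon k, smul_zero]⟩
  set η : Fin (n + 1) → Mero := fun k => (ξ l₀)⁻¹ * ξ k with hη
  have hη1 : η l₀ = 1 := inv_mul_cancel₀ hl₀
  have hηc : ∃ k, η k ∉ Set.range (algebraMap ℂ Mero) := by
    by_contra hcon
    push Not at hcon
    choose b hb using hcon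
    refine hξ ⟨ξ l₀, b, fun k => ?_⟩
    rw [Algebra.smul_def, hb k, hη]
    field_simp
  obtain ⟨E, hE, -⟩ := exists_compExp
  obtain ⟨Z⟩ := exists_sizeSys η hηc E hE
  set ζ : Fin (n + 1) → Mero := fun k => E (η k) with hζ
  have hζ1 : ζ l₀ = 1 := by rw [hζ]; simp only [hη1, map_one]
  have hζG : ∀ i, MvPolynomial.aeval ζ (G i) =
      E ((ξ l₀)⁻¹ ^ e * MvPolynomial.aeval ξ (G i)) := by
    intro i
    rw [hζ, claimA_aeval_map, hη, claimA_aeval_smul e (G i) (hG i)]
  have hζL : ∀ p, lin (L p) ζ = E ((ξ l₀)⁻¹ * lin (L p) ξ) := by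
    intro p
    rw [hζ, claimA_lin_map, hη, claimA_lin_smul]
  have hEinj : Function.Injective E := E.toRingHom.injective
  -- the terms
  set P' : Finset (ι × Fin J) := Finset.univ.filter fun p =>
    MvPolynomial.aeval ζ (G p.1) ≠ 0 ∧ lin (L p) ζ ≠ 0 with hP'
  have hrel' : ∑ p ∈ P', (algebraMap ℂ Mero (a p) * MvPolynomial.aeval ζ (G p.1)) *
      (lin (L p) ζ) ^ N = 0 := by
    have h1 : ∑ p, (algebraMap ℂ Mero (a p) * MvPolynomial.aeval ζ (G p.1)) *
      (lin (L p) ζ) ^ N = E ((ξ l₀)⁻¹ ^ (e + N) * ∑ p : ι × Fin J,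
        algebraMap ℂ Mero (a p) * MvPolynomial.aeval ξ (G p.1) * (lin (L p) ξ) ^ N) := by
      rw [Finset.mul_sum, map_sum]
      refine Finset.sum_congr rfl fun p _ => ?_
      rw [hζG, hζL]
      conv_lhs => rw [← E.commutes (a p)]
      rw [← map_pow, ← map_mul, ← map_mul]
      congr 1
      ring
    rw [hrel, mul_zero, map_zero] at h1
    rw [← h1]
    refine Finset.sum_subset (Finset.filter_subset _ _) ?_
    intro p _ hp
    rw [hP', Finset.mem_filter] at hp
    simp only [Finset.mem_univ, true_and, not_and_or, not_not] at hp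
    rcases hp with hp | hp
    · rw [hp, mul_zero, zero_mul]
    · rw [hp, zero_pow hN0.ne', mul_zero]
  have hmem : ∀ p, p ∈ P' ↔ MvPolynomial.aeval ζ (G p.1) ≠ 0 ∧ lin (L p) ζ ≠ 0 := by
    intro p
    rw [hP', Finset.mem_filter]
    simp
  have hGi : MvPolynomial.aeval ζ (G i₀) ≠ 0 := by
    rw [hζG]
    intro h
    have h2 := (map_eq_zero_iff E hEinj).mp h
    rcases mul_eq_zero.mp h2 with h3 | h3
    · exact pow_ne_zero _ (inv_ne_zero hl₀) h3
    · exact hi₀ h3
  -- many terms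
  have hcard : (n + 1) ^ 3 < P'.card := by
    set B : Finset (ι × Fin J) := Finset.univ.filter fun p => lin (L p) ζ = 0 with hB
    have hBc : B.card ≤ n := by
      refine Gen.card_zero (hL.map (algebraMap ℂ Mero) (algebraMap ℂ Mero).injective) ζ ?_ B ?_
      · intro h
        rw [h] at hζ1
        exact zero_ne_one hζ1
      · intro p hp
        rw [hB, Finset.mem_filter] at hp
        have := hp.2
        unfold lin at this
        simpa only [Algebra.smul_def] using this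
    have hsub : (Finset.univ.image fun j : Fin J => (i₀, j)) ⊆ P' ∪ B := by
      intro p hp
      rw [Finset.mem_image] at hp
      obtain ⟨j, -, rfl⟩ := hp
      rw [Finset.mem_union]
      by_cases h : lin (L (i₀, j)) ζ = 0
      · right; rw [hB, Finset.mem_filter]; exact ⟨Finset.mem_univ _, h⟩
      · left; rw [hmem]; exact ⟨hGi, h⟩
    have h1 := Finset.card_le_card hsub
    rw [Finset.card_image_of_injective _ (fun x y h => (Prod.mk.inj h).2), Finset.card_univ,
      Fintype.card_fin] at h1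
    have h2 := Finset.card_union_le P' B
    omega
  set ε : ℝ := C / N with hε
  have hε0 : 0 ≤ ε := by positivity
  have hpart := hC Z N hN0 (ι × Fin J) P' (Finset.card_le_univ _)
    (fun p => algebraMap ℂ Mero (a p) * MvPolynomial.aeval ζ (G p.1)) (fun p => lin (L p) ζ) 0
    (by
      intro p hp
      rw [hmem] at hp
      refine ⟨mul_ne_zero ?_ hp.1, hp.2, ?_, claimA_sz_lin Z (L p)⟩
      · exact fun h => ha p ((map_eq_zero_iff _ (algebraMap ℂ Mero).injective).mp h)
      · have h5 := Z.mul le_rfl (by positivity) (Z.const 0 (claimA_D_const (a p)))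
          (claimA_sz_aeval Z e (G p.1) (hG p.1) M hM)
        rwa [zero_add] at h5) hrel'
  set j₀ := 0 + k with hj₀
  have hR : ∀ x y, Z.Sz j₀ ε (lin (L x) ζ / lin (L y) ζ) →
      Z.Sz j₀ ε (lin (L y) ζ / lin (L x) ζ) := by
    intro x y h
    rw [← inv_div]
    exact Z.inv hε0 h
  have hA : 2 * Fintype.card (Pair (n + 1)) * (n + 1) < P'.card := by
    have h1 := claimA_card_pair (n + 1)
    refine lt_of_le_of_lt ?_ hcard
    calc 2 * Fintype.card (Pair (n + 1)) * (n + 1) ≤ (n + 1) ^ 2 * (n + 1) :=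
          Nat.mul_le_mul_right _ h1
      _ = (n + 1) ^ 3 := by ring
  have hall : ∀ k, Z.Sz j₀ (2 * n.factorial * n * ε) (ζ k) := by
    rcases comb P' (fun x y => Z.Sz j₀ ε (lin (L x) ζ / lin (L y) ζ)) hR hpart
      (Fintype.card (Pair (n + 1))) n hA with ⟨f, g, hfg, hs⟩ | ⟨v, hv, h, hh, hs⟩
    · set eq := Fintype.equivFin (Pair (n + 1)) with heq
      refine pairs Z L hL l₀ hζ1 (fun s => g (eq s)) (fun s => f (eq s)) ?_ j₀ ε hε0 ?_ ?_
      · intro x y hxy
        rcases x with x | x <;> rcases y with y | y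
        · have h1 : g (eq x) = g (eq y) := hxy
          have := @hfg (Sum.inr (eq x)) (Sum.inr (eq y)) h1
          rw [Sum.inr.injEq, eq.injective.eq_iff] at this
          rw [this]
        · have h1 : g (eq x) = f (eq y) := hxy
          have := @hfg (Sum.inr (eq x)) (Sum.inl (eq y)) h1
          simp at this
        · have h1 : f (eq x) = g (eq y) := hxy
          have := @hfg (Sum.inl (eq x)) (Sum.inr (eq y)) h1
          simp at this
        · have h1 : f (eq x) = f (eq y) := hxy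
          have := @hfg (Sum.inl (eq x)) (Sum.inl (eq y)) h1
          rw [Sum.inl.injEq, eq.injective.eq_iff] at this
          rw [this]
      · intro s
        exact ((hmem _).mp (hs (eq s)).2.1).2
      · intro s
        exact (hs (eq s)).2.2
    · have h1 := star Z L hL l₀ hζ1 v h hh (fun i => (hs i).2.1) j₀ ε hε0 ((hmem v).mp hv).2
        (fun i => (hs i).2.2)
      intro k
      refine Z.mono le_rfl ?_ (h1 k)
      have h2 : (1 : ℝ) ≤ n.factorial := by exact_mod_cast Nat.one_le_iff_ne_zero.mpr n.factorial_ne_zero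
      have h3 : 0 ≤ (n : ℝ) * ε := by positivity
      nlinarith
  have hfin := Z.final hall
  have h4 : (N₀ : ℝ) + 1 ≤ N := by exact_mod_cast hN
  have h5 : ((n + 1 : ℕ) : ℝ) * (2 * n.factorial * n * ε) < 1 := by
    have h6 : ((n + 1 : ℕ) : ℝ) * (2 * n.factorial * n * ε) =
        (((n + 1 : ℕ) : ℝ) * (2 * n.factorial * n * C)) / N := by
      rw [hε]; ring
    rw [h6, div_lt_one hNR]
    linarith
  linarith

end Pool.Agent.Work.MP_e97a4d_nt.Hyp
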