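import Pool.Agent.Work.MP_e97a4d_nt.Hyp.Grad

set_option autoImplicit false

noncomputable section

namespace Pool.Agent.Work.MP_e97a4d_nt.Hyp

open Metric Real

/-- number of zeros and poles at `a`, in the open ball of radius `ρ` -/
def nu (f : ℂ → ℂ) (ρ : ℝ) (a : ℂ) : ℕ := (MeromorphicOn.divisor f (ball 0 ρ) a).natAbs

/-- the zeros and poles in the open ball of radius `ρ` (when there are only finitely many) -/
theorem finite_nu {f : ℂ → ℂ} (hf : Meromorphic f) (ρ : ℝ) : {a | nu f ρ a ≠ 0}.Finite := by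
  have h1 : MeromorphicOn f (closedBall 0 ρ) := fun z _ => hf z
  refine h1.divisor_ball_support_finite.subset ?_
  intro a ha
  simp only [nu, ne_eq, Int.natAbs_eq_zero, Set.mem_ofPred_eq] at ha
  exact ha

private lemma ld_mem {f : ℂ → ℂ} {ρ : ℝ} {a : ℂ} (ha : nu f ρ a ≠ 0) : a ∈ ball (0 : ℂ) ρ := by
  by_contra h
  apply ha
  simp [nu, Function.locallyFinsuppWithin.apply_eq_zero_of_notMem _ h]

/-- the logarithmic derivative of the canonical factor -/
private lemma ld_factor {ρ r : ℝ} (hr : 0 ≤ r) (hρ : r < ρ) {a z : ℂ} (ha : a ∈ ball (0 : ℂ) ρ)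
    (hz : ‖z‖ ≤ r) (hza : z ≠ a) :
    ‖logDeriv (Complex.canonicalFactor ρ a) z‖ ≤ 1 / ‖z - a‖ + 1 / (ρ - r) := by
  have hρ0 : 0 < ρ := hr.trans_lt hρ
  have hρc : (ρ : ℂ) ≠ 0 := by exact_mod_cast hρ0.ne'
  have hza' : z - a ≠ 0 := sub_ne_zero.2 hza
  have ha' : ‖a‖ < ρ := mem_ball_zero_iff.1 ha
  set c : ℂ := starRingEnd ℂ a with hc
  have hcn : ‖c‖ = ‖a‖ := Complex.norm_conj a
  have hlow : ρ ^ 2 - ‖a‖ * r ≤ ‖(ρ : ℂ) ^ 2 - c * z‖ := by
    have h1 := norm_sub_norm_le ((ρ : ℂ) ^ 2) (c * z)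
    rw [norm_pow, Complex.norm_real, Real.norm_of_nonneg hρ0.le, norm_mul, hcn] at h1
    have h2 : ‖a‖ * ‖z‖ ≤ ‖a‖ * r := mul_le_mul_of_nonneg_left hz (norm_nonneg a)
    linarith
  have hpos : 0 < ρ ^ 2 - ‖a‖ * r := by nlinarith [norm_nonneg a]
  have hne : (ρ : ℂ) ^ 2 - c * z ≠ 0 := norm_pos_iff.1 (hpos.trans_le hlow)
  have hd1 : HasDerivAt (fun w : ℂ => (ρ : ℂ) ^ 2 - c * w) (-c) z := by
    have := ((hasDerivAt_id z).const_mul c).const_sub ((ρ : ℂ) ^ 2)
    simpa using this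
  have hd2 : HasDerivAt (fun w : ℂ => (ρ : ℂ) * (w - a)) (ρ : ℂ) z := by
    have := ((hasDerivAt_id z).sub_const a).const_mul (ρ : ℂ)
    simpa using this
  have h1 : logDeriv (Complex.canonicalFactor ρ a) z = -c / ((ρ : ℂ) ^ 2 - c * z) - 1 / (z - a) := by
    rw [Complex.canonicalFactor_def, logDeriv_div (f := fun w : ℂ => (ρ : ℂ) ^ 2 - c * w)
      (g := fun w : ℂ => (ρ : ℂ) * (w - a)) z hne (mul_ne_zero hρc hza')
      hd1.differentiableAt hd2.differentiableAt, logDeriv_apply, logDeriv_apply, hd1.deriv, hd2.deriv]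
    congr 1
    field_simp
  rw [h1]
  refine (norm_sub_le _ _).trans ?_
  rw [add_comm]
  apply add_le_add
  · rw [norm_div, norm_one]
  · rw [norm_div, norm_neg, hcn]
    refine (div_le_div_of_nonneg_left (norm_nonneg a) hpos hlow).trans ?_
    rw [div_le_div_iff₀ hpos (by linarith)]
    nlinarith [norm_nonneg a]

/-- Pointwise bound for the logarithmic derivative of a meromorphic function. -/
theorem norm_logDeriv_le' {r ρ : ℝ} (hr : 0 ≤ r) (hρ : r < ρ) {f : ℂ → ℂ} (hf : Meromorphic f)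
    (hb : ∀ z, ‖z‖ = ρ → meromorphicOrderAt f z = 0) {z : ℂ} (hz : ‖z‖ ≤ r) (hfz : AnalyticAt ℂ f z)
    (hfz' : f z ≠ 0) :
    ‖logDeriv f z‖ ≤ 64 * ρ / (ρ - r) ^ 2 * circleAverage (fun w => |Real.log ‖f w‖|) 0 ρ +
      ∑ a ∈ (finite_nu hf ρ).toFinset, nu f ρ a * (1 / ‖z - a‖ + 1 / (ρ - r)) := by
  have hρ0 : 0 < ρ := hr.trans_lt hρ
  have hzb : z ∈ ball (0 : ℂ) ρ := by rw [mem_ball_zero_iff]; linarith
  have hmo : MeromorphicOn f (closedBall 0 ρ) := fun z _ => hf z
  have hz0 : meromorphicOrderAt f z = 0 := by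
    rw [hfz.meromorphicNFAt.meromorphicOrderAt_eq_zero_iff]
    exact hfz'
  have htop : ∀ u : (closedBall (0 : ℂ) ρ), meromorphicOrderAt f u ≠ ⊤ := by
    intro u
    have := (hf.exists_meromorphicOrderAt_ne_top_iff_forall).1 ⟨z, by rw [hz0]; simp⟩
    exact this u
  obtain ⟨h, D⟩ := hmo.exists_ecanonicalDecomp htop
  set S := (finite_nu hf ρ).toFinset with hS
  set d := MeromorphicOn.divisor f (ball 0 ρ) with hd
  have hmemS : ∀ a, a ∈ S ↔ d a ≠ 0 := by
    intro a
    rw [hS, Set.Finite.mem_toFinset, Set.mem_ofPred_eq, nu, ne_eq, Int.natAbs_eq_zero]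
  have hSball : ∀ a ∈ S, a ∈ ball (0 : ℂ) ρ := by
    intro a ha
    apply ld_mem (f := f)
    rw [hS, Set.Finite.mem_toFinset] at ha
    exact ha
  have hzS : ∀ a ∈ S, z ≠ a := by
    intro a ha h1
    rw [hmemS, ← h1, hd, MeromorphicOn.divisor_apply (hmo.mono_set ball_subset_closedBall) hzb,
      hz0] at ha
    exact ha rfl
  -- the factor
  set P : ℂ → ℂ := fun w => ∏ a ∈ S, Complex.canonicalFactor ρ a w ^ (-d a) with hP
  have hprod : (∏ᶠ u, (Complex.canonicalFactor ρ u) ^ (-d u)) = P := by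
    rw [finprod_eq_prod_of_mulSupport_subset (s := S)]
    · ext w
      simp [hP, Finset.prod_apply]
    · intro a ha
      rw [Finset.mem_coe, hmemS]
      intro h0
      apply ha
      simp [h0]
  have hsph : ∀ v, MeromorphicOn.divisor f (sphere 0 ρ) v = 0 := by
    intro v
    by_cases hv : v ∈ sphere (0 : ℂ) ρ
    · rw [MeromorphicOn.divisor_apply (hmo.mono_set sphere_subset_closedBall) hv,
        hb v (mem_sphere_zero_iff_norm.1 hv)]
      rfl
    · exact Function.locallyFinsuppWithin.apply_eq_zero_of_notMem _ hv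
  have heq : f =ᶠ[Filter.codiscreteWithin (closedBall 0 ρ)] fun w => P w * h w := by
    have h1 := D.eventuallyEq
    rw [hprod] at h1
    have h2 : (∏ᶠ v, (fun x : ℂ => x - v) ^ (MeromorphicOn.divisor f (sphere 0 ρ)) v) = 1 := by
      simp [hsph]
    rw [h2, mul_one] at h1
    exact h1
  have hPa : ∀ w ∈ closedBall (0 : ℂ) ρ, (∀ a ∈ S, w ≠ a) → AnalyticAt ℂ P w := by
    intro w hw hwS
    apply Finset.analyticAt_fun_prod
    intro a ha
    exact ((Complex.analyticOnNhd_canonicalFactor ρ a) w (hwS a ha)).zpow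
      (Complex.canonicalFactor_ne_zero (hSball a ha) hw (hwS a ha))
  -- near `z`
  have hzc : z ∈ closedBall (0 : ℂ) ρ := ball_subset_closedBall hzb
  have hnear : f =ᶠ[nhds z] fun w => P w * h w := by
    have h1 : f =ᶠ[nhdsWithin z {z}ᶜ] fun w => P w * h w := by
      refine MeromorphicAt.eventuallyEq_nhdsNE_of_eventuallyEq_codiscreteWithin_preperfect
        (U := closedBall 0 ρ) (hf z)
        ((hPa z hzc hzS).meromorphicAt.mul (D.analyticOnNhd z hzc).meromorphicAt) hzc ?_ heq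
      rw [← closure_ball 0 hρ0.ne']
      exact isOpen_ball.perfect_closure.2
    exact (hfz.continuousAt.eventuallyEq_nhds_iff_eventuallyEq_nhdsNE
      ((hPa z hzc hzS).continuousAt.mul (D.analyticOnNhd z hzc).continuousAt)).1 h1
  have hPne : ∀ a ∈ S, Complex.canonicalFactor ρ a z ^ (-d a) ≠ 0 := fun a ha =>
    zpow_ne_zero _ (Complex.canonicalFactor_ne_zero (hSball a ha) hzc (hzS a ha))
  have hfd : ∀ a ∈ S, DifferentiableAt ℂ (Complex.canonicalFactor ρ a) z := fun a ha =>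
    ((Complex.analyticOnNhd_canonicalFactor ρ a) z (hzS a ha)).differentiableAt
  have hlog : logDeriv f z = (∑ a ∈ S, ((-d a : ℤ) : ℂ) * logDeriv (Complex.canonicalFactor ρ a) z) +
      logDeriv h z := by
    rw [(logDeriv_congr_nhds hnear).eq_of_nhds, logDeriv_mul (f := P) (g := h) z
      (Finset.prod_ne_zero_iff.2 hPne) (D.ne_zero z hzc) (hPa z hzc hzS).differentiableAt
      (D.analyticOnNhd z hzc).differentiableAt]
    congr 1
    rw [hP, logDeriv_prod (f := fun a w => Complex.canonicalFactor ρ a w ^ (-d a)) hPne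
      (fun a ha => (hfd a ha).zpow
      (Or.inl (Complex.canonicalFactor_ne_zero (hSball a ha) hzc (hzS a ha))))]
    apply Finset.sum_congr rfl
    intro a ha
    exact logDeriv_fun_zpow (hfd a ha) _
  -- the mean
  have hmean : circleAverage (fun w => |Real.log ‖f w‖|) 0 ρ =
      circleAverage (fun w => |Real.log ‖h w‖|) 0 ρ := by
    apply circleAverage_congr_codiscreteWithin _ hρ0.ne'
    rw [abs_of_pos hρ0]
    have h1 := Filter.codiscreteWithin_mono (sphere_subset_closedBall (x := (0 : ℂ)) (ε := ρ)) heq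
    filter_upwards [h1, Filter.self_mem_codiscreteWithin (sphere (0 : ℂ) ρ)] with w hw hws
    have h2 : ‖P w‖ = 1 := by
      rw [hP, norm_prod]
      apply Finset.prod_eq_one
      intro a ha
      rw [norm_zpow, Complex.norm_canonicalFactor_eval_circle_eq_one (hSball a ha) hws, one_zpow]
    have h3 : f w = P w * h w := hw
    rw [h3, norm_mul, h2, one_mul]
  rw [hlog, hmean, add_comm]
  refine (norm_add_le _ _).trans ?_
  apply add_le_add
  · exact norm_logDeriv_le hr hρ D.analyticOnNhd D.ne_zero hz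
  · refine (norm_sum_le _ _).trans ?_
    apply Finset.sum_le_sum
    intro a ha
    rw [norm_mul]
    have h1 : ‖((-d a : ℤ) : ℂ)‖ = (nu f ρ a : ℝ) := by
      rw [Complex.norm_intCast, nu, ← hd, Nat.cast_natAbs]
      push_cast
      rw [abs_neg]
    rw [h1]
    exact mul_le_mul_of_nonneg_left (ld_factor hr hρ (hSball a ha) hz (hzS a ha)) (Nat.cast_nonneg _)

end Pool.Agent.Work.MP_e97a4d_nt.Hyp
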