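import Mathlib

/-!
The field `Mero` of meromorphic functions on the complex plane (functions which are meromorphic, up to
equality outside a closed discrete set), with its orders, valuation rings, derivation and the
characteristic function.
-/

set_option autoImplicit false

noncomputable section

namespace Pool.Agent.Work.MP_e97a4d_nt.Hyp

open Filter Topology

/-- the algebra of meromorphic functions -/
def meroAlg : Subalgebra ℂ (ℂ → ℂ) where
  carrier := {f | Meromorphic f}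
  mul_mem' hf hg := Meromorphic.mul hf hg
  add_mem' hf hg := Meromorphic.add hf hg
  algebraMap_mem' c := Meromorphic.const c

theorem eventually_codiscrete {p : ℂ → Prop} :
    (∀ᶠ w in codiscrete ℂ, p w) ↔ ∀ z : ℂ, ∀ᶠ w in 𝓝[≠] z, p w := by
  have h : codiscrete ℂ = ⨆ z : ℂ, 𝓝[≠] z := by
    simp [codiscrete, codiscreteWithin, Set.compl_eq_univ_sdiff]
  rw [h, Filter.eventually_iSup]

/-- the ideal of the functions vanishing outside a closed discrete set -/
def zeroIdeal : Ideal meroAlg where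
  carrier := {f | (f : ℂ → ℂ) =ᶠ[codiscrete ℂ] 0}
  zero_mem' := by
    show ((0 : meroAlg) : ℂ → ℂ) =ᶠ[codiscrete ℂ] 0
    exact Filter.EventuallyEq.rfl
  add_mem' {f g} hf hg := by
    have hf' : (f : ℂ → ℂ) =ᶠ[codiscrete ℂ] 0 := hf
    have hg' : (g : ℂ → ℂ) =ᶠ[codiscrete ℂ] 0 := hg
    show ((f : ℂ → ℂ) + (g : ℂ → ℂ)) =ᶠ[codiscrete ℂ] 0
    simpa using Filter.EventuallyEq.add hf' hg'
  smul_mem' c f hf := by
    have hf' : (f : ℂ → ℂ) =ᶠ[codiscrete ℂ] 0 := hf
    show ((c : ℂ → ℂ) * (f : ℂ → ℂ)) =ᶠ[codiscrete ℂ] 0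
    simpa using Filter.EventuallyEq.mul (Filter.EventuallyEq.refl _ (c : ℂ → ℂ)) hf'

theorem mem_zeroIdeal {f : meroAlg} : f ∈ zeroIdeal ↔ (f : ℂ → ℂ) =ᶠ[codiscrete ℂ] 0 := Iff.rfl

theorem order_ne_top {f : ℂ → ℂ} (hf : Meromorphic f) (h : ¬ f =ᶠ[codiscrete ℂ] 0) (z : ℂ) :
    meromorphicOrderAt f z ≠ ⊤ := by
  intro hz
  apply h
  rw [Filter.EventuallyEq, eventually_codiscrete]
  intro w
  have hf' : MeromorphicOn f Set.univ := fun x _ => hf x
  have h1 := MeromorphicOn.meromorphicOrderAt_ne_top_of_isPreconnected hf' (x := w) (y := z)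
    isPreconnected_univ trivial trivial
  by_contra h2
  apply h1 _ hz
  intro h3
  exact h2 (meromorphicOrderAt_eq_top_iff.1 h3)

theorem mul_inv_eq_one {f : ℂ → ℂ} (hf : Meromorphic f) (h : ¬ f =ᶠ[codiscrete ℂ] 0) :
    f * f⁻¹ =ᶠ[codiscrete ℂ] 1 := by
  rw [Filter.EventuallyEq, eventually_codiscrete]
  intro z
  filter_upwards [(meromorphicOrderAt_ne_top_iff_eventually_ne_zero (hf z)).1 (order_ne_top hf h z)]
    with w hw
  simp [hw]

instance : zeroIdeal.IsMaximal := by
  refine Ideal.isMaximal_def.2 ⟨?_, ?_⟩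
  · intro h
    have h1 : (1 : meroAlg) ∈ zeroIdeal := by rw [h]; trivial
    have h2 : (fun _ : ℂ => (1 : ℂ)) =ᶠ[codiscrete ℂ] 0 := h1
    rw [Filter.EventuallyEq, eventually_codiscrete] at h2
    obtain ⟨w, hw⟩ := (h2 0).exists
    exact one_ne_zero hw
  · intro J hJ
    obtain ⟨f, hfJ, hf⟩ := Set.exists_of_ssubset hJ
    rw [Ideal.eq_top_iff_one]
    have hf2 : Meromorphic (f : ℂ → ℂ) := f.2
    let g : meroAlg := ⟨(f : ℂ → ℂ)⁻¹, hf2.inv⟩
    have h1 : f * g - 1 ∈ zeroIdeal := by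
      show ((f : ℂ → ℂ) * (f : ℂ → ℂ)⁻¹ - 1) =ᶠ[codiscrete ℂ] 0
      have h2 := mul_inv_eq_one hf2 hf
      simpa using Filter.EventuallyEq.sub h2 (Filter.EventuallyEq.refl _ (1 : ℂ → ℂ))
    have h3 : f * g ∈ J := J.mul_mem_right _ hfJ
    have h4 : f * g - 1 ∈ J := hJ.1 h1
    have h5 := J.sub_mem h3 h4
    simpa using h5

/-- the field of meromorphic functions -/
def Mero : Type := meroAlg ⧸ zeroIdeal

instance : CommRing Mero := inferInstanceAs (CommRing (meroAlg ⧸ zeroIdeal))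

instance : Algebra ℂ Mero := inferInstanceAs (Algebra ℂ (meroAlg ⧸ zeroIdeal))

/-- the meromorphic function `f` as an element of the field -/
def mk (f : ℂ → ℂ) (hf : Meromorphic f) : Mero :=
  Ideal.Quotient.mk zeroIdeal ⟨f, hf⟩

theorem exists_rep (u : Mero) : ∃ (f : ℂ → ℂ) (hf : Meromorphic f), u = mk f hf := by
  obtain ⟨f, rfl⟩ := Ideal.Quotient.mk_surjective (I := zeroIdeal) u
  exact ⟨f, f.2, rfl⟩

theorem mk_eq_iff {f g : ℂ → ℂ} {hf : Meromorphic f} {hg : Meromorphic g} :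
    mk f hf = mk g hg ↔ f =ᶠ[codiscrete ℂ] g := by
  have h0 : mk f hf = mk g hg ↔ (f - g) =ᶠ[codiscrete ℂ] 0 :=
    Ideal.Quotient.eq (I := zeroIdeal) (x := ⟨f, hf⟩) (y := ⟨g, hg⟩)
  rw [h0]
  constructor
  · intro h
    filter_upwards [h] with w hw
    exact sub_eq_zero.1 hw
  · intro h
    filter_upwards [h] with w hw
    exact sub_eq_zero.2 hw

theorem mk_add {f g : ℂ → ℂ} (hf : Meromorphic f) (hg : Meromorphic g) :
    mk f hf + mk g hg = mk (f + g) (hf.add hg) := rfl

theorem mk_mul {f g : ℂ → ℂ} (hf : Meromorphic f) (hg : Meromorphic g) :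
    mk f hf * mk g hg = mk (f * g) (hf.mul hg) := rfl

theorem mk_neg {f : ℂ → ℂ} (hf : Meromorphic f) : - mk f hf = mk (-f) hf.neg := rfl

theorem mk_sub {f g : ℂ → ℂ} (hf : Meromorphic f) (hg : Meromorphic g) :
    mk f hf - mk g hg = mk (f - g) (hf.sub hg) := rfl

theorem mk_zero : mk 0 (Meromorphic.const 0) = 0 := rfl

theorem mk_one : mk 1 (Meromorphic.const 1) = 1 := rfl

theorem mk_const (c : ℂ) : mk (fun _ => c) (Meromorphic.const c) = algebraMap ℂ Mero c := rfl

theorem mk_pow {f : ℂ → ℂ} (hf : Meromorphic f) (n : ℕ) : mk f hf ^ n = mk (f ^ n) hf.pow := rfl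

theorem mk_eq_zero_iff {f : ℂ → ℂ} {hf : Meromorphic f} : mk f hf = 0 ↔ f =ᶠ[codiscrete ℂ] 0 := by
  rw [← mk_zero, mk_eq_iff]

instance : Nontrivial Mero := Ideal.Quotient.nontrivial_iff.2 (Ideal.IsMaximal.ne_top inferInstance)

theorem exists_mul_eq_one {u : Mero} (hu : u ≠ 0) : ∃ v : Mero, u * v = 1 := by
  obtain ⟨f, hf, rfl⟩ := exists_rep u
  refine ⟨mk f⁻¹ hf.inv, ?_⟩
  rw [mk_mul, ← mk_one, mk_eq_iff]
  exact mul_inv_eq_one hf (fun h2 => hu (mk_eq_zero_iff.2 h2))

open Classical in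
/-- the inverse -/
def inv' (u : Mero) : Mero := if h : u = 0 then 0 else (exists_mul_eq_one h).choose

theorem mul_inv' {u : Mero} (hu : u ≠ 0) : u * inv' u = 1 := by
  unfold inv'
  rw [dif_neg hu]
  exact (exists_mul_eq_one hu).choose_spec

instance : Field Mero where
  inv := inv'
  exists_pair_ne := ⟨0, 1, zero_ne_one⟩
  mul_inv_cancel _ h := mul_inv' h
  inv_zero := by unfold inv'; rw [dif_pos rfl]
  nnqsmul := _
  nnqsmul_def := fun _ _ => rfl
  qsmul := _
  qsmul_def := fun _ _ => rfl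

theorem mk_inv {f : ℂ → ℂ} (hf : Meromorphic f) : (mk f hf)⁻¹ = mk f⁻¹ hf.inv := by
  by_cases h : mk f hf = 0
  · rw [h, inv_zero, eq_comm, mk_eq_zero_iff]
    filter_upwards [mk_eq_zero_iff.1 h] with w hw
    simp [hw]
  · rw [inv_eq_iff_eq_inv, eq_comm]
    refine inv_eq_of_mul_eq_one_left ?_
    rw [mk_mul, ← mk_one, mk_eq_iff]
    exact mul_inv_eq_one hf (fun h2 => h (mk_eq_zero_iff.2 h2))

theorem mk_div {f g : ℂ → ℂ} (hf : Meromorphic f) (hg : Meromorphic g) :
    mk f hf / mk g hg = mk (f / g) (hf.div hg) := by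
  rw [div_eq_mul_inv, mk_inv, mk_mul]
  rfl

/-- a representative -/
def rep (u : Mero) : ℂ → ℂ := (exists_rep u).choose

theorem rep_mero (u : Mero) : Meromorphic (rep u) := (exists_rep u).choose_spec.choose

theorem mk_rep (u : Mero) : mk (rep u) (rep_mero u) = u := (exists_rep u).choose_spec.choose_spec.symm

theorem rep_mk {f : ℂ → ℂ} (hf : Meromorphic f) : rep (mk f hf) =ᶠ[codiscrete ℂ] f :=
  mk_eq_iff.1 (mk_rep (mk f hf))

theorem eq_nhdsNE {f g : ℂ → ℂ} (h : f =ᶠ[codiscrete ℂ] g) (z : ℂ) : f =ᶠ[𝓝[≠] z] g :=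
  eventually_codiscrete.1 h z

/-- the order at `z` -/
def ord (z : ℂ) (u : Mero) : WithTop ℤ := meromorphicOrderAt (rep u) z

theorem ord_mk (z : ℂ) {f : ℂ → ℂ} (hf : Meromorphic f) :
    ord z (mk f hf) = meromorphicOrderAt f z :=
  meromorphicOrderAt_congr (eq_nhdsNE (rep_mk hf) z)

theorem ord_mul (z : ℂ) (u v : Mero) : ord z (u * v) = ord z u + ord z v := by
  obtain ⟨f, hf, rfl⟩ := exists_rep u
  obtain ⟨g, hg, rfl⟩ := exists_rep v
  rw [mk_mul, ord_mk, ord_mk, ord_mk, meromorphicOrderAt_mul (hf z) (hg z)]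

theorem le_ord_add (z : ℂ) (u v : Mero) : min (ord z u) (ord z v) ≤ ord z (u + v) := by
  obtain ⟨f, hf, rfl⟩ := exists_rep u
  obtain ⟨g, hg, rfl⟩ := exists_rep v
  rw [mk_add, ord_mk, ord_mk, ord_mk]
  exact meromorphicOrderAt_add (hf z) (hg z)

theorem ord_neg (z : ℂ) (u : Mero) : ord z (-u) = ord z u := by
  obtain ⟨f, hf, rfl⟩ := exists_rep u
  rw [mk_neg, ord_mk, ord_mk]
  exact meromorphicOrderAt_neg.symm

theorem ord_inv (z : ℂ) (u : Mero) : ord z u⁻¹ = - ord z u := by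
  obtain ⟨f, hf, rfl⟩ := exists_rep u
  rw [mk_inv, ord_mk, ord_mk, meromorphicOrderAt_inv]

theorem ord_eq_top_iff (z : ℂ) (u : Mero) : ord z u = ⊤ ↔ u = 0 := by
  obtain ⟨f, hf, rfl⟩ := exists_rep u
  rw [ord_mk, mk_eq_zero_iff]
  constructor
  · intro h
    by_contra h2
    exact order_ne_top hf h2 z h
  · intro h
    exact meromorphicOrderAt_eq_top_iff.2 (eq_nhdsNE h z)

theorem ord_algebraMap (z c : ℂ) : 0 ≤ ord z (algebraMap ℂ Mero c) := by
  classical
  rw [← mk_const, ord_mk, meromorphicOrderAt_const]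
  split_ifs <;> simp

theorem ord_one (z : ℂ) : ord z 1 = 0 := by
  classical
  rw [← mk_one, ord_mk]
  have := meromorphicOrderAt_const (𝕜 := ℂ) z (1 : ℂ)
  rw [if_neg one_ne_zero] at this
  exact this

/-- the valuation ring of the functions holomorphic at `z` -/
def Mz (z : ℂ) : ValuationSubring Mero where
  carrier := {u | 0 ≤ ord z u}
  mul_mem' {u v} hu hv := by
    have hu' : 0 ≤ ord z u := hu
    have hv' : 0 ≤ ord z v := hv
    show 0 ≤ ord z (u * v)
    rw [ord_mul]
    exact add_nonneg hu' hv'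
  one_mem' := by
    show 0 ≤ ord z 1
    rw [ord_one]
  add_mem' {u v} hu hv := by
    have hu' : 0 ≤ ord z u := hu
    have hv' : 0 ≤ ord z v := hv
    show 0 ≤ ord z (u + v)
    exact (le_min hu' hv').trans (le_ord_add z u v)
  zero_mem' := by
    show 0 ≤ ord z 0
    rw [(ord_eq_top_iff z 0).2 rfl]
    exact le_top
  neg_mem' {u} hu := by
    have hu' : 0 ≤ ord z u := hu
    show 0 ≤ ord z (-u)
    rw [ord_neg]
    exact hu'
  mem_or_inv_mem' u := by
    show 0 ≤ ord z u ∨ 0 ≤ ord z u⁻¹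
    rw [ord_inv]
    by_cases h : ord z u = ⊤
    · left; rw [h]; exact le_top
    · lift ord z u to ℤ using h with n
      rcases le_total 0 n with h | h
      · left; exact_mod_cast h
      · right
        have : (0 : ℤ) ≤ -n := by omega
        exact_mod_cast this

theorem mem_Mz {z : ℂ} {u : Mero} : u ∈ Mz z ↔ 0 ≤ ord z u := Iff.rfl

theorem algebraMap_mem_Mz (z c : ℂ) : algebraMap ℂ Mero c ∈ Mz z := ord_algebraMap z c

theorem exists_value {z : ℂ} {u : Mero} (hu : u ∈ Mz z) : ∃ c : ℂ, Tendsto (rep u) (𝓝[≠] z) (𝓝 c) :=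
  tendsto_nhds_of_meromorphicOrderAt_nonneg (rep_mero u z) hu

/-- the value at `z` of a meromorphic function which is holomorphic at `z` -/
def value (z : ℂ) (u : Mz z) : ℂ := (exists_value u.2).choose

theorem tendsto_value (z : ℂ) (u : Mz z) : Tendsto (rep u.1) (𝓝[≠] z) (𝓝 (value z u)) :=
  (exists_value u.2).choose_spec

theorem value_eq {z : ℂ} {u : Mz z} {f : ℂ → ℂ} {hf : Meromorphic f} (h : u.1 = mk f hf) {c : ℂ}
    (hc : Tendsto f (𝓝[≠] z) (𝓝 c)) : value z u = c := by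
  have h1 : Tendsto (rep u.1) (𝓝[≠] z) (𝓝 c) := by
    rw [h]
    exact hc.congr' (eq_nhdsNE (rep_mk hf) z).symm
  exact tendsto_nhds_unique (tendsto_value z u) h1

/-- evaluation at `z` -/
def evz (z : ℂ) : Mz z →+* ℂ where
  toFun := value z
  map_one' := value_eq (f := 1) (hf := Meromorphic.const 1) mk_one.symm tendsto_const_nhds
  map_zero' := value_eq (f := 0) (hf := Meromorphic.const 0) mk_zero.symm tendsto_const_nhds
  map_mul' u v := by
    refine value_eq (f := rep u.1 * rep v.1) (hf := (rep_mero _).mul (rep_mero _)) ?_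
      ((tendsto_value z u).mul (tendsto_value z v))
    rw [← mk_mul (rep_mero _) (rep_mero _), mk_rep, mk_rep]
    rfl
  map_add' u v := by
    refine value_eq (f := rep u.1 + rep v.1) (hf := (rep_mero _).add (rep_mero _)) ?_
      ((tendsto_value z u).add (tendsto_value z v))
    rw [← mk_add (rep_mero _) (rep_mero _), mk_rep, mk_rep]
    rfl

theorem evz_eq {z : ℂ} {u : Mz z} {f : ℂ → ℂ} {hf : Meromorphic f} (h : u.1 = mk f hf) {c : ℂ}
    (hc : Tendsto f (𝓝[≠] z) (𝓝 c)) : evz z u = c := value_eq h hc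

theorem evz_algebraMap (z c : ℂ) : evz z ⟨algebraMap ℂ Mero c, algebraMap_mem_Mz z c⟩ = c :=
  evz_eq (f := fun _ => c) (hf := Meromorphic.const c) (mk_const c).symm tendsto_const_nhds

theorem deriv_congr {f g : ℂ → ℂ} (h : f =ᶠ[codiscrete ℂ] g) : deriv f =ᶠ[codiscrete ℂ] deriv g := by
  rw [Filter.EventuallyEq, eventually_codiscrete]
  intro z
  exact (eq_nhdsNE h z).nhdsNE_deriv

theorem analyticAt_codiscrete {f : ℂ → ℂ} (hf : Meromorphic f) : ∀ᶠ z in codiscrete ℂ, AnalyticAt ℂ f z :=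
  eventually_codiscrete.2 fun z => (hf z).eventually_analyticAt

/-- the derivation -/
def D : Derivation ℂ Mero Mero :=
  Derivation.mk'
    { toFun := fun u => mk (deriv (rep u)) (rep_mero u).deriv
      map_add' := by
        intro u v
        obtain ⟨f, hf, rfl⟩ := exists_rep u
        obtain ⟨g, hg, rfl⟩ := exists_rep v
        rw [mk_add, mk_add, mk_eq_iff]
        filter_upwards [deriv_congr (rep_mk (hf.add hg)), deriv_congr (rep_mk hf), deriv_congr (rep_mk hg),
          analyticAt_codiscrete hf, analyticAt_codiscrete hg] with z h1 h2 h3 h4 h5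
        rw [h1, Pi.add_apply, h2, h3, deriv_add h4.differentiableAt h5.differentiableAt]
      map_smul' := by
        intro c u
        obtain ⟨f, hf, rfl⟩ := exists_rep u
        have hc : c • mk f hf = mk (fun z => c * f z) ((Meromorphic.const c).mul hf) := by
          rw [Algebra.smul_def, ← mk_const, mk_mul]
          rfl
        rw [RingHom.id_apply, hc, Algebra.smul_def, ← mk_const, mk_mul, mk_eq_iff]
        filter_upwards [deriv_congr (rep_mk ((Meromorphic.const c).mul hf)), deriv_congr (rep_mk hf),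
          analyticAt_codiscrete hf] with z h1 h2 h3
        rw [Pi.mul_apply, h2]
        have h4 : deriv (fun z => c * f z) z = c * deriv f z := by
          rw [deriv_const_mul _ h3.differentiableAt]
        rw [← h4]
        exact h1 }
    (by
      intro u v
      obtain ⟨f, hf, rfl⟩ := exists_rep u
      obtain ⟨g, hg, rfl⟩ := exists_rep v
      simp only [LinearMap.coe_mk, AddHom.coe_mk, smul_eq_mul]
      rw [mk_mul, mk_mul, mk_mul, mk_add, mk_eq_iff]
      filter_upwards [deriv_congr (rep_mk (hf.mul hg)), deriv_congr (rep_mk hf), deriv_congr (rep_mk hg),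
          analyticAt_codiscrete hf, analyticAt_codiscrete hg] with z h1 h2 h3 h4 h5
      rw [h1, Pi.add_apply, Pi.mul_apply, Pi.mul_apply, h2, h3,
        deriv_mul h4.differentiableAt h5.differentiableAt]
      ring)

theorem D_mk {f : ℂ → ℂ} (hf : Meromorphic f) : D (mk f hf) = mk (deriv f) hf.deriv := by
  show mk (deriv (rep (mk f hf))) _ = _
  rw [mk_eq_iff]
  exact deriv_congr (rep_mk hf)

/-- the characteristic function -/
def T (u : Mero) (r : ℝ) : ℝ := ValueDistribution.characteristic (rep u) ⊤ r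

theorem T_mk {f : ℂ → ℂ} (hf : Meromorphic f) {r : ℝ} (hr : r ≠ 0) :
    T (mk f hf) r = ValueDistribution.characteristic f ⊤ r :=
  ValueDistribution.characteristic_congr_codiscrete (rep_mk hf) hr

end Pool.Agent.Work.MP_e97a4d_nt.Hyp
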