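import Mathlib

set_option autoImplicit false

noncomputable section

namespace Pool.Agent.Work.MP_e97a4d_nt.Hyp

open MvPolynomial

/-- the homogenized polynomial -/
private def hg {O : Type} [CommRing O] {M : ℕ} (e : ℕ) (p : MvPolynomial (Fin (M + 1)) O) :
    MvPolynomial (Fin (M + 1)) O :=
  ∑ j ∈ Finset.range (p.totalDegree + 1), homogeneousComponent j p * X 0 ^ (e - j)

private theorem hg_hom {O : Type} [CommRing O] {M : ℕ} {e : ℕ} {p : MvPolynomial (Fin (M + 1)) O}
    (h : p.totalDegree ≤ e) : (hg e p).IsHomogeneous e := by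
  unfold hg
  apply MvPolynomial.IsHomogeneous.sum
  intro j hj
  have hj' : j ≤ e := by
    have := Finset.mem_range.1 hj
    omega
  have h1 := (homogeneousComponent_isHomogeneous j p).mul
    (MvPolynomial.isHomogeneous_X_pow (R := O) (0 : Fin (M + 1)) (e - j))
  rwa [Nat.add_sub_cancel' hj'] at h1

private theorem hg_eval {O : Type} [CommRing O] {M : ℕ} (e : ℕ) (p : MvPolynomial (Fin (M + 1)) O)
    (R : Type) [CommRing R] (ρ : O →+* R) (u : Fin (M + 1) → R) (hu : u 0 = 1) :
    (hg e p).eval₂ ρ u = p.eval₂ ρ u := by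
  conv_rhs => rw [← MvPolynomial.sum_homogeneousComponent p]
  unfold hg
  rw [MvPolynomial.eval₂_sum, MvPolynomial.eval₂_sum]
  apply Finset.sum_congr rfl
  intro j _
  rw [MvPolynomial.eval₂_mul, MvPolynomial.eval₂_pow, MvPolynomial.eval₂_X, hu, one_pow, mul_one]

/-- Homogeneous equations of the same degree for tuples with `u_0 = 1`. -/
theorem homog {O : Type} [CommRing O] {M : ℕ} (E : Finset (MvPolynomial (Fin (M + 1)) O)) :
    ∃ (e : ℕ) (E' : Finset (MvPolynomial (Fin (M + 1)) O)), 1 ≤ e ∧ (∀ g ∈ E', g.IsHomogeneous e) ∧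
      ∀ (R : Type) [CommRing R] (ρ : O →+* R) (u : Fin (M + 1) → R), u 0 = 1 →
        ((∀ g ∈ E', g.eval₂ ρ u = 0) ↔ ∀ g ∈ E, g.eval₂ ρ u = 0) := by
  classical
  refine ⟨1 + E.sup totalDegree, E.image (hg (1 + E.sup totalDegree)), by omega, ?_, ?_⟩
  · intro g hgE
    obtain ⟨p, hp, rfl⟩ := Finset.mem_image.1 hgE
    apply hg_hom
    have := Finset.le_sup (f := totalDegree) hp
    omega
  · intro R _ ρ u hu
    constructor
    · intro h g hgE
      have := h _ (Finset.mem_image_of_mem _ hgE)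
      rwa [hg_eval _ _ _ _ _ hu] at this
    · intro h g hgE
      obtain ⟨p, hp, rfl⟩ := Finset.mem_image.1 hgE
      rw [hg_eval _ _ _ _ _ hu]
      exact h p hp

end Pool.Agent.Work.MP_e97a4d_nt.Hyp
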