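import Pool.Agent.Work.MP_e97a4d_nt.Hyp.Defs

set_option autoImplicit false

noncomputable section

namespace Pool.Agent.Work.MP_e97a4d_nt.Hyp

open MvPolynomial NumberField

/-- the exponents of degree `e` -/
private abbrev VB (m e : ℕ) : Type :=
  ↥(Finset.finsuppAntidiag (Finset.univ : Finset (Fin (m + 1))) e)

private theorem vb_sum {m e : ℕ} (β : VB m e) : ∑ k, (β : Fin (m + 1) →₀ ℕ) k = e :=
  (Finset.mem_finsuppAntidiag.1 β.2).1

/-- an exponent as an element of `VB` -/
private def mkVB {m e : ℕ} (β : Fin (m + 1) →₀ ℕ) (h : ∑ k, β k = e) : VB m e :=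
  ⟨β, Finset.mem_finsuppAntidiag.2 ⟨h, Finset.subset_univ _⟩⟩

private theorem mono_sum {m e : ℕ} (he : 1 ≤ e) (k l : Fin (m + 1)) :
    ∑ i, (Finsupp.single k 1 + Finsupp.single l (e - 1) : Fin (m + 1) →₀ ℕ) i = e := by
  simp only [Finsupp.add_apply, Finset.sum_add_distrib]
  rw [Finset.sum_eq_single k, Finset.sum_eq_single l]
  · simp; omega
  · intro b _ hb; simp [hb.symm]
  · simp
  · intro b _ hb; simp [hb.symm]
  · simp

/-- the exponent `e_k + (e - 1) e_l` -/
private def mono {m e : ℕ} (he : 1 ≤ e) (k l : Fin (m + 1)) : VB m e :=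
  mkVB (Finsupp.single k 1 + Finsupp.single l (e - 1)) (mono_sum he k l)

private theorem prod_mono {m e : ℕ} (he : 1 ≤ e) {K : Type} [CommRing K] (u : Fin (m + 1) → K)
    (k l : Fin (m + 1)) :
    ∏ i, u i ^ ((mono he k l : VB m e) : Fin (m + 1) →₀ ℕ) i = u k * u l ^ (e - 1) := by
  have h1 : ∀ i, u i ^ ((mono he k l : VB m e) : Fin (m + 1) →₀ ℕ) i =
      u i ^ ((Finsupp.single k 1 : Fin (m + 1) →₀ ℕ) i) *
        u i ^ ((Finsupp.single l (e - 1) : Fin (m + 1) →₀ ℕ) i) := by
    intro i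
    rw [← pow_add]
    rfl
  rw [Finset.prod_congr rfl (fun i _ => h1 i), Finset.prod_mul_distrib]
  rw [Finset.prod_eq_single k, Finset.prod_eq_single l]
  · simp
  · intro b _ hb; simp [hb.symm]
  · simp
  · intro b _ hb; simp [hb.symm]
  · simp

private theorem eval_hom {R : Type} [CommRing R] {m e : ℕ} {p : MvPolynomial (Fin (m + 1)) R}
    (hp : p.IsHomogeneous e) {K : Type} [CommRing K] (ρ : R →+* K) (u : Fin (m + 1) → K) :
    p.eval₂ ρ u = ∑ β : VB m e, ρ (coeff β p) * ∏ k, u k ^ (β : Fin (m + 1) →₀ ℕ) k := by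
  classical
  rw [MvPolynomial.eval₂_eq']
  rw [Finset.sum_coe_sort (Finset.finsuppAntidiag (Finset.univ : Finset (Fin (m + 1))) e)
    (fun β => ρ (coeff β p) * ∏ k, u k ^ β k)]
  apply Finset.sum_subset
  · intro d hd
    rw [Finset.mem_finsuppAntidiag]
    refine ⟨?_, Finset.subset_univ _⟩
    by_contra hne
    apply MvPolynomial.mem_support_iff.1 hd
    apply hp.coeff_eq_zero
    intro h
    apply hne
    rw [← h, Finsupp.degree_eq_sum]
  · intro d _ hd
    rw [MvPolynomial.notMem_support_iff.1 hd, map_zero, zero_mul]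

private theorem prod_scale {m e : ℕ} {K : Type} [CommRing K] (c : K) (u : Fin (m + 1) → K)
    (β : VB m e) :
    ∏ k, (c * u k) ^ (β : Fin (m + 1) →₀ ℕ) k = c ^ e * ∏ k, u k ^ (β : Fin (m + 1) →₀ ℕ) k := by
  simp only [mul_pow]
  rw [Finset.prod_mul_distrib, Finset.prod_pow_eq_pow_sum, vb_sum]

private theorem eval_scale {R : Type} [CommRing R] {m e : ℕ} {p : MvPolynomial (Fin (m + 1)) R}
    (hp : p.IsHomogeneous e) {K : Type} [CommRing K] (ρ : R →+* K) (c : K) (u : Fin (m + 1) → K) :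
    p.eval₂ ρ (fun k => c * u k) = c ^ e * p.eval₂ ρ u := by
  rw [eval_hom hp, eval_hom hp, Finset.mul_sum]
  apply Finset.sum_congr rfl
  intro β _
  rw [prod_scale]
  ring

section eqs

variable {R : Type} [CommRing R] {m M' e : ℕ} (he : 1 ≤ e) (ι : Option (VB m e) ≃ Fin (M' + 1))
  (f G : MvPolynomial (Fin (m + 1)) R)

private def eq1 : MvPolynomial (Fin (M' + 1)) R :=
  X (ι none) - ∑ β : VB m e, C (coeff β G) * X (ι (some β))

private def eq2 (β : VB m e) : MvPolynomial (Fin (M' + 1)) R :=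
  X (ι (some β)) ^ e - ∏ k, X (ι (some (mono he k k))) ^ (β : Fin (m + 1) →₀ ℕ) k

private def eq3 (q : VB m e × Fin (m + 1)) : MvPolynomial (Fin (M' + 1)) R :=
  X (ι (some q.1)) * X (ι (some (mono he q.2 q.2))) ^ (e - 1) -
    ∏ k, X (ι (some (mono he k q.2))) ^ (q.1 : Fin (m + 1) →₀ ℕ) k

private def eq4 (l : Fin (m + 1)) : MvPolynomial (Fin (M' + 1)) R :=
  rename (fun k => ι (some (mono he k l))) f

open Classical in
private def eqs : Finset (MvPolynomial (Fin (M' + 1)) R) :=
  {eq1 ι G} ∪ (Finset.univ.image (eq2 he ι)) ∪ (Finset.univ.image (eq3 he ι)) ∪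
    (Finset.univ.image (eq4 he ι f))

private theorem eqs_iff {K : Type} [CommRing K] (ρ : R →+* K) (U : Fin (M' + 1) → K) :
    (∀ g ∈ eqs he ι f G, g.eval₂ ρ U = 0) ↔
      (U (ι none) = ∑ β : VB m e, ρ (coeff β G) * U (ι (some β))) ∧
      (∀ β : VB m e, U (ι (some β)) ^ e =
        ∏ k, U (ι (some (mono he k k))) ^ (β : Fin (m + 1) →₀ ℕ) k) ∧
      (∀ (β : VB m e) (l : Fin (m + 1)), U (ι (some β)) * U (ι (some (mono he l l))) ^ (e - 1) =
        ∏ k, U (ι (some (mono he k l))) ^ (β : Fin (m + 1) →₀ ℕ) k) ∧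
      (∀ l : Fin (m + 1), f.eval₂ ρ (fun k => U (ι (some (mono he k l)))) = 0) := by
  classical
  have h1 : (eq1 ι G).eval₂ ρ U = 0 ↔
      U (ι none) = ∑ β : VB m e, ρ (coeff β G) * U (ι (some β)) := by
    unfold eq1
    rw [MvPolynomial.eval₂_sub, MvPolynomial.eval₂_sum, sub_eq_zero, MvPolynomial.eval₂_X]
    simp only [MvPolynomial.eval₂_mul, MvPolynomial.eval₂_C, MvPolynomial.eval₂_X]
  have h2 : ∀ β, (eq2 (R := R) he ι β).eval₂ ρ U = 0 ↔ U (ι (some β)) ^ e =
        ∏ k, U (ι (some (mono he k k))) ^ (β : Fin (m + 1) →₀ ℕ) k := by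
    intro β
    unfold eq2
    rw [MvPolynomial.eval₂_sub, MvPolynomial.eval₂_prod, sub_eq_zero, MvPolynomial.eval₂_pow,
      MvPolynomial.eval₂_X]
    simp only [MvPolynomial.eval₂_pow, MvPolynomial.eval₂_X]
  have h3 : ∀ q, (eq3 (R := R) he ι q).eval₂ ρ U = 0 ↔
      U (ι (some q.1)) * U (ι (some (mono he q.2 q.2))) ^ (e - 1) =
        ∏ k, U (ι (some (mono he k q.2))) ^ (q.1 : Fin (m + 1) →₀ ℕ) k := by
    intro q
    unfold eq3
    rw [MvPolynomial.eval₂_sub, MvPolynomial.eval₂_prod, sub_eq_zero, MvPolynomial.eval₂_mul,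
      MvPolynomial.eval₂_pow, MvPolynomial.eval₂_X, MvPolynomial.eval₂_X]
    simp only [MvPolynomial.eval₂_pow, MvPolynomial.eval₂_X]
  have h4 : ∀ l, (eq4 he ι f l).eval₂ ρ U = 0 ↔
      f.eval₂ ρ (fun k => U (ι (some (mono he k l)))) = 0 := by
    intro l
    unfold eq4
    rw [MvPolynomial.eval₂_rename]
    rfl
  constructor
  · intro h
    refine ⟨h1.1 (h _ ?_), fun β => (h2 β).1 (h _ ?_), fun β l => (h3 (β, l)).1 (h _ ?_),
      fun l => (h4 l).1 (h _ ?_)⟩
    · simp [eqs]
    · simp only [eqs, Finset.mem_union]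
      exact Or.inl (Or.inl (Or.inr (Finset.mem_image_of_mem _ (Finset.mem_univ _))))
    · simp only [eqs, Finset.mem_union]
      exact Or.inl (Or.inr (Finset.mem_image_of_mem _ (Finset.mem_univ _)))
    · simp only [eqs, Finset.mem_union]
      exact Or.inr (Finset.mem_image_of_mem _ (Finset.mem_univ _))
  · rintro ⟨k1, k2, k3, k4⟩ g hg
    simp only [eqs, Finset.mem_union, Finset.mem_singleton, Finset.mem_image, Finset.mem_univ,
      true_and] at hg
    rcases hg with ((rfl | ⟨β, rfl⟩) | ⟨q, rfl⟩) | ⟨l, rfl⟩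
    · exact h1.2 k1
    · exact (h2 β).2 (k2 β)
    · exact (h3 q).2 (k3 q.1 q.2)
    · exact (h4 l).2 (k4 l)

end eqs

/-- Equations of the image of `f = 0`, `G ≠ 0` under the map given by `G` and all monomials of degree
`e`. -/
theorem ver {F₀ : Type} [Field F₀] (σ : F₀ →+* ℂ) {m : ℕ}
    (f G : MvPolynomial (Fin (m + 1)) (𝓞 F₀)) (df e : ℕ) (hf : f.IsHomogeneous df) (he : 1 ≤ e)
    (hG : G.IsHomogeneous e)
    (h : ∀ ξ : Fin (m + 1) → Mero, ¬ RatioConst ξ → f.eval₂ (rhoM σ) ξ = 0 → G.eval₂ (rhoM σ) ξ = 0) :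
    ∃ (M' : ℕ) (E' : Finset (MvPolynomial (Fin (M' + 1)) (𝓞 F₀))),
      (∀ U : Fin (M' + 1) → Mero, U 0 = 1 → (∀ g ∈ E', g.eval₂ (rhoM σ) U = 0) →
        ∀ k, U k ∈ Set.range (algebraMap ℂ Mero)) ∧
      ∀ (K : Type) [Field K] (ρ : 𝓞 F₀ →+* K), ∃ θ : (Fin (m + 1) → K) → (Fin (M' + 1) → K),
        Set.InjOn θ {u | u 0 = 1 ∧ f.eval₂ ρ u = 0 ∧ G.eval₂ ρ u ≠ 0} ∧
        Set.MapsTo θ {u | u 0 = 1 ∧ f.eval₂ ρ u = 0 ∧ G.eval₂ ρ u ≠ 0}
          {U | U 0 = 1 ∧ ∀ g ∈ E', g.eval₂ ρ U = 0} := by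
  classical
  let M' : ℕ := Fintype.card (VB m e)
  let ι : Option (VB m e) ≃ Fin (M' + 1) :=
    (Equiv.optionCongr (Fintype.equivFin (VB m e))).trans (_root_.finSuccEquiv M').symm
  have hι : ι none = 0 := by
    simp [ι]
  refine ⟨M', eqs he ι f G, ?_, ?_⟩
  · intro U hU0 hU
    rw [eqs_iff] at hU
    obtain ⟨k1, k2, k3, k4⟩ := hU
    rw [hι, hU0] at k1
    -- some coordinate is not zero
    have hne : ∃ l : Fin (m + 1), U (ι (some (mono he l l))) ≠ 0 := by
      by_contra hall
      push Not at hall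
      have hz : ∀ β : VB m e, U (ι (some β)) = 0 := by
        intro β
        have h0 : U (ι (some β)) ^ e = 0 := by
          rw [k2 β]
          have : ∃ k, (β : Fin (m + 1) →₀ ℕ) k ≠ 0 := by
            by_contra hc
            push Not at hc
            have := vb_sum β
            rw [Finset.sum_eq_zero (fun i _ => hc i)] at this
            omega
          obtain ⟨k, hk⟩ := this
          apply Finset.prod_eq_zero (Finset.mem_univ k)
          rw [hall k, zero_pow hk]
        exact pow_eq_zero_iff (by omega) |>.1 h0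
      rw [Finset.sum_eq_zero (fun β _ => by rw [hz β, mul_zero])] at k1
      exact one_ne_zero k1
    obtain ⟨l, hl⟩ := hne
    let x : Fin (m + 1) → Mero := fun k => U (ι (some (mono he k l)))
    let c : Mero := U (ι (some (mono he l l))) ^ (e - 1)
    have hc : c ≠ 0 := pow_ne_zero _ hl
    have hx : ∀ β : VB m e, ∏ k, x k ^ (β : Fin (m + 1) →₀ ℕ) k = U (ι (some β)) * c :=
      fun β => (k3 β l).symm
    have hfx : f.eval₂ (rhoM σ) x = 0 := k4 l
    have hGx : G.eval₂ (rhoM σ) x = c := by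
      rw [eval_hom hG]
      simp only [hx]
      calc ∑ β : VB m e, (rhoM σ) (coeff β G) * (U (ι (some β)) * c)
          = (∑ β : VB m e, (rhoM σ) (coeff β G) * U (ι (some β))) * c := by
            rw [Finset.sum_mul]
            exact Finset.sum_congr rfl (fun β _ => by ring)
        _ = c := by rw [← k1, one_mul]
    have hrc : RatioConst x := by
      by_contra hr
      exact hc (hGx ▸ h x hr hfx)
    obtain ⟨g, b, hb⟩ := hrc
    have hb' : x = fun k => g * algebraMap ℂ Mero (b k) := by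
      funext k
      rw [hb k, Algebra.smul_def, mul_comm]
    let G0 : ℂ := G.eval₂ (σ.comp (algebraMap (𝓞 F₀) F₀)) b
    have hGG : G.eval₂ (rhoM σ) (fun k => algebraMap ℂ Mero (b k)) = algebraMap ℂ Mero G0 := by
      rw [eval_hom hG]
      simp only [G0]
      rw [eval_hom hG, map_sum]
      apply Finset.sum_congr rfl
      intro β _
      rw [map_mul, map_prod]
      simp only [map_pow]
      rfl
    have hG2 : c = g ^ e * algebraMap ℂ Mero G0 := by
      rw [← hGx, hb', eval_scale hG, hGG]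
    have hG0 : G0 ≠ 0 := by
      intro h0
      rw [h0, map_zero, mul_zero] at hG2
      exact hc hG2
    have hg : g ≠ 0 := by
      intro h0
      rw [h0, zero_pow (by omega), zero_mul] at hG2
      exact hc hG2
    intro k
    obtain ⟨o, rfl⟩ := ι.surjective k
    cases o with
    | none =>
      rw [hι, hU0]
      exact ⟨1, map_one _⟩
    | some β =>
      refine ⟨(∏ k, b k ^ (β : Fin (m + 1) →₀ ℕ) k) / G0, ?_⟩
      have h1 := hx β
      rw [hb', prod_scale, hG2] at h1
      have h2 : (∏ k, (algebraMap ℂ Mero (b k)) ^ (β : Fin (m + 1) →₀ ℕ) k) =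
          U (ι (some β)) * algebraMap ℂ Mero G0 := by
        apply mul_left_cancel₀ (pow_ne_zero e hg)
        rw [h1]
        ring
      have h3 : algebraMap ℂ Mero (∏ k, b k ^ (β : Fin (m + 1) →₀ ℕ) k) =
          U (ι (some β)) * algebraMap ℂ Mero G0 := by
        rw [← h2, map_prod]
        simp only [map_pow]
      have h4 : algebraMap ℂ Mero G0 ≠ 0 := by
        intro h0
        exact hG0 ((map_eq_zero _).1 h0)
      rw [map_div₀, h3, mul_div_assoc, div_self h4, mul_one]
  · intro K _ ρ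
    refine ⟨fun u k => Option.elim (ι.symm k) 1
      (fun β => (∏ i, u i ^ (β : Fin (m + 1) →₀ ℕ) i) / G.eval₂ ρ u), ?_, ?_⟩
    · intro u hu v hv huv
      obtain ⟨hu0, -, hu2⟩ := hu
      obtain ⟨hv0, -, hv2⟩ := hv
      have key : ∀ β : VB m e, (∏ i, u i ^ (β : Fin (m + 1) →₀ ℕ) i) / G.eval₂ ρ u =
          (∏ i, v i ^ (β : Fin (m + 1) →₀ ℕ) i) / G.eval₂ ρ v := by
        intro β
        have := congrFun huv (ι (some β))
        simpa using this
      have hGe : G.eval₂ ρ u = G.eval₂ ρ v := by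
        have := key (mono he 0 0)
        rw [prod_mono, prod_mono, hu0, hv0, one_pow, mul_one, one_div, one_div] at this
        exact inv_injective this
      funext k
      have := key (mono he k 0)
      rw [prod_mono, prod_mono, hu0, hv0, one_pow, mul_one, mul_one, hGe] at this
      exact (div_left_inj' hv2).1 this
    · rintro u ⟨hu0, hu1, hu2⟩
      refine ⟨?_, ?_⟩
      · show Option.elim (ι.symm 0) 1 _ = (1 : K)
        rw [← hι, Equiv.symm_apply_apply]
        rfl
      · rw [eqs_iff]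
        simp only [Equiv.symm_apply_apply, Option.elim_none, Option.elim_some, prod_mono]
        set g := G.eval₂ ρ u with hg
        refine ⟨?_, ?_, ?_, ?_⟩
        · have : ∑ β : VB m e, ρ (coeff β G) * ((∏ i, u i ^ (β : Fin (m + 1) →₀ ℕ) i) / g) =
              (∑ β : VB m e, ρ (coeff β G) * (∏ i, u i ^ (β : Fin (m + 1) →₀ ℕ) i)) / g := by
            rw [Finset.sum_div]
            exact Finset.sum_congr rfl (fun β _ => by ring)
          rw [this, ← eval_hom hG, ← hg, div_self hu2]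
        · intro β
          have h1 : ∀ k, u k * u k ^ (e - 1) / g = g⁻¹ * (u k ^ e) := by
            intro k
            rw [← pow_succ', Nat.sub_add_cancel he]
            field_simp
          simp only [h1]
          rw [prod_scale]
          simp only [← pow_mul]
          rw [div_pow, ← Finset.prod_pow]
          simp only [← pow_mul]
          rw [inv_pow, div_eq_inv_mul]
          congr 1
          exact Finset.prod_congr rfl (fun k _ => by rw [mul_comm])
        · intro β l
          have h1 : ∀ k, u k * u l ^ (e - 1) / g = (g⁻¹ * u l ^ (e - 1)) * u k := by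
            intro k
            field_simp
          simp only [h1]
          rw [prod_scale]
          have h2 : u l * u l ^ (e - 1) = u l ^ e := by
            rw [← pow_succ', Nat.sub_add_cancel he]
          obtain ⟨e', rfl⟩ : ∃ e', e = e' + 1 := ⟨e - 1, by omega⟩
          simp only [Nat.add_sub_cancel, mul_pow, inv_pow]
          rw [div_eq_mul_inv, pow_succ g e', mul_inv]
          ring
        · intro l
          have h1 : (fun k => u k * u l ^ (e - 1) / g) =
              fun k => (g⁻¹ * u l ^ (e - 1)) * u k := by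
            funext k
            field_simp
          rw [h1, eval_scale hf, hu1, mul_zero]

end Pool.Agent.Work.MP_e97a4d_nt.Hyp
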