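import Pool.Agent.Work.MP_e97a4d_nt.Hyp.CoordDefs
import Pool.Agent.Work.MP_e97a4d_nt.Hyp.ThmA
import Pool.Agent.Work.MP_e97a4d_nt.Hyp.Ver
import Pool.Agent.Work.MP_e97a4d_nt.Hyp.Homog

set_option autoImplicit false

noncomputable section

namespace Pool.Agent.Work.MP_e97a4d_nt.Hyp

open MvPolynomial NumberField

/-- extension by zero -/
private def ext0 {M : ℕ} {K : Type} [Zero K] (U : Fin (M + 1) → K) : Fin (2 * M + 1 + 1) → K :=
  fun k => if h : (k : ℕ) < M + 1 then U ⟨k, h⟩ else 0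

private theorem low_ext0 {M : ℕ} {K : Type} [Zero K] (U : Fin (M + 1) → K) : low (ext0 U) = U := by
  funext k
  show (if h : ((Fin.castLE (by omega) k : Fin (2 * M + 1 + 1)) : ℕ) < M + 1 then U ⟨_, h⟩ else 0) = U k
  rw [dif_pos (show ((Fin.castLE (by omega) k : Fin (2 * M + 1 + 1)) : ℕ) < M + 1 from k.2)]
  rfl

private theorem ratioConst_const {n : ℕ} {u : Fin (n + 1) → Mero} (h : RatioConst u) (h0 : u 0 = 1) :
    ∀ j, u j ∈ Set.range (algebraMap ℂ Mero) := by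
  obtain ⟨g, c, hc⟩ := h
  have h1 : algebraMap ℂ Mero (c 0) * g = 1 := by
    rw [← Algebra.smul_def, ← hc 0, h0]
  have hc0 : c 0 ≠ 0 := by
    intro h2
    rw [h2, map_zero, zero_mul] at h1
    exact zero_ne_one h1
  intro j
  refine ⟨c j / c 0, ?_⟩
  have h3 : algebraMap ℂ Mero (c 0) ≠ 0 := fun h => hc0 ((map_eq_zero _).1 h)
  have h4 : g = (algebraMap ℂ Mero (c 0))⁻¹ := eq_inv_of_mul_eq_one_right h1
  rw [hc j, Algebra.smul_def, map_div₀, h4, div_eq_mul_inv]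

/-- Finiteness of the solutions of `f = 0`, `G ≠ 0`, when all nonconstant meromorphic solutions of `f = 0`
satisfy `G = 0`, from (i) => (ii) for smooth hypersurfaces. -/
theorem claimB {F₀ : Type} [Field F₀] [NumberField F₀] (σ : F₀ →+* ℂ) (Δ : ℕ → ℕ)
    (H : ∀ (m : ℕ) (f : MvPolynomial (Fin (m + 1)) (𝓞 F₀)), IsGood σ Δ m m f →
      CurveS σ (oneSys le_rfl f) → PointS (oneSys le_rfl f))
    {m : ℕ} (f G : MvPolynomial (Fin (m + 1)) (𝓞 F₀)) (df e : ℕ) (hf : f.IsHomogeneous df) (he : 1 ≤ e)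
    (hG : G.IsHomogeneous e)
    (h : ∀ ξ : Fin (m + 1) → Mero, ¬ RatioConst ξ → f.eval₂ (rhoM σ) ξ = 0 → G.eval₂ (rhoM σ) ξ = 0)
    (F : Type) [Field F] [NumberField F] [Algebra F₀ F] :
    {u : Fin (m + 1) → F | u 0 = 1 ∧ f.eval₂ (rhoF F₀ F) u = 0 ∧ G.eval₂ (rhoF F₀ F) u ≠ 0}.Finite := by
  obtain ⟨M', E', hE1, hE2⟩ := ver σ f G df e hf he hG h
  obtain ⟨e2, E2, he2, hE2h, hE2e⟩ := homog E'
  obtain ⟨d, f2, ι, _, G2, hd, hf2, hsm, hGh, hGiff, hGf, hGM⟩ :=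
    thmA σ (Δ (2 * M' + 1)) M' e2 he2 E2 hE2h
  have hgood : IsGood σ Δ (2 * M' + 1) (2 * M' + 1) f2 := by
    refine ⟨le_rfl, ⟨d, hd, hf2⟩, hsm ∅ (by simp), hsm {0} (by simp), ?_⟩
    intro x hx _
    funext k
    exact hx k (Nat.lt_succ_iff.1 k.2)
  have hcurve : CurveS σ (oneSys le_rfl f2) := by
    intro u hu
    obtain ⟨hu0, hu1, -⟩ := hu
    have hfu : f2.eval₂ (rhoM σ) u = 0 := hu1 f2 (Finset.mem_singleton_self _)
    by_cases hr : RatioConst u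
    · exact ratioConst_const hr hu0
    · have h1 := (hGiff Mero (rhoM σ) u hu0).1 (hGM u hr hfu)
      obtain ⟨h2, h3⟩ := h1
      have hl0 : low u 0 = 1 := hu0
      have h4 := hE1 (low u) hl0 ((hE2e Mero (rhoM σ) (low u) hl0).1 h3)
      intro j
      by_cases hj : (j : ℕ) < M' + 1
      · exact h4 ⟨j, hj⟩
      · refine ⟨0, ?_⟩
        rw [map_zero]
        exact (h2 j (by omega)).symm
  have hfin : (CPts (oneSys (s := 2 * M' + 1) le_rfl f2) (rhoF F₀ F) (VF F ∅)).Finite :=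
    H (2 * M' + 1) f2 hgood hcurve F ∅
  have hcp : ∀ u : Fin (2 * M' + 1 + 1) → F, u 0 = 1 → f2.eval₂ (rhoF F₀ F) u = 0 →
      u ∈ CPts (oneSys (s := 2 * M' + 1) le_rfl f2) (rhoF F₀ F) (VF F ∅) := by
    intro u h0 h1
    refine ⟨h0, ?_, ?_⟩
    · intro p hp
      rw [Finset.mem_singleton.1 hp]
      exact h1
    · intro O _ j
      exact ⟨j, by have := j.2; exact Nat.lt_succ_iff.1 this, le_rfl⟩
  have hfin2 : {U : Fin (M' + 1) → F | U 0 = 1 ∧ ∀ g ∈ E', g.eval₂ (rhoF F₀ F) U = 0}.Finite := by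
    apply Set.Finite.of_injOn (f := ext0) _ _ hfin
    · rintro U ⟨hU0, hU1⟩
      have h0 : (ext0 U) 0 = 1 := by
        have : (ext0 U) 0 = U 0 := by simp [ext0]
        rw [this, hU0]
      apply hcp _ h0
      apply hGf F (rhoF F₀ F)
      rw [hGiff F (rhoF F₀ F) _ h0]
      refine ⟨?_, ?_⟩
      · intro k hk
        simp only [ext0]
        rw [dif_neg (by omega)]
      · rw [low_ext0, hE2e F (rhoF F₀ F) U hU0]
        exact hU1
    · intro U _ V _ hUV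
      rw [← low_ext0 U, ← low_ext0 V, hUV]
  obtain ⟨θ, hθ1, hθ2⟩ := hE2 F (rhoF F₀ F)
  exact Set.Finite.of_injOn hθ2 hθ1 hfin2

end Pool.Agent.Work.MP_e97a4d_nt.Hyp
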