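import Pool.Agent.Work.MP_e97a4d_nt.Hyp.ClaimB

set_option autoImplicit false

noncomputable section

namespace Pool.Agent.Work.MP_e97a4d_nt.Hyp

open MvPolynomial NumberField

/-- extension by zero -/
def coord_ext {M : ℕ} {K : Type} [Field K] (w : Fin (M + 1) → K) : Fin (2 * M + 1 + 1) → K :=
  fun k => if h : (k : ℕ) < M + 1 then w ⟨k, h⟩ else 0

theorem coord_low_ext {M : ℕ} {K : Type} [Field K] (w : Fin (M + 1) → K) : low (coord_ext w) = w := by
  funext k
  unfold low coord_ext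
  rw [dif_pos (by simp only [Fin.val_castLE]; omega)]
  rfl

theorem coord_ext_big {M : ℕ} {K : Type} [Field K] (w : Fin (M + 1) → K) (k : Fin (2 * M + 1 + 1))
    (hk : M < (k : ℕ)) : coord_ext w k = 0 := by
  unfold coord_ext
  rw [dif_neg (by omega)]

theorem coord_ext_small {M : ℕ} {K : Type} [Field K] (w : Fin (M + 1) → K) (k : Fin (M + 1)) :
    coord_ext w (Fin.castLE (by omega) k) = w k := congrFun (coord_low_ext w) k

theorem coord_ext_zero {M : ℕ} {K : Type} [Field K] (w : Fin (M + 1) → K) : coord_ext w 0 = w 0 :=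
  coord_ext_small w 0

theorem coord_ext_low {M : ℕ} {K : Type} [Field K] (u : Fin (2 * M + 1 + 1) → K)
    (h : ∀ k : Fin (2 * M + 1 + 1), M < (k : ℕ) → u k = 0) : coord_ext (low u) = u := by
  funext k
  unfold coord_ext low
  by_cases hk : (k : ℕ) < M + 1
  · rw [dif_pos hk]
    rfl
  · rw [dif_neg hk, h k (by omega)]

theorem coord_ext_inj {M : ℕ} {K : Type} [Field K] :
    Function.Injective (coord_ext : (Fin (M + 1) → K) → Fin (2 * M + 1 + 1) → K) := by
  intro w w' h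
  rw [← coord_low_ext w, h, coord_low_ext]

variable {F₀ : Type} [Field F₀] [NumberField F₀] (σ : F₀ →+* ℂ) (Δ : ℕ → ℕ)

/-- Every system is equivalent to a smooth hypersurface, as far as (i) and (ii) are concerned. -/
theorem exists_equiv
    (H : ∀ (m : ℕ) (f : MvPolynomial (Fin (m + 1)) (𝓞 F₀)), IsGood σ Δ m m f →
      CurveS σ (oneSys le_rfl f) → PointS (oneSys le_rfl f)) (S : Sys F₀) :
    ∃ (m s : ℕ) (f : MvPolynomial (Fin (m + 1)) (𝓞 F₀)) (hf : IsGood σ Δ m s f),
      (S.s = S.m → s = m) ∧ (CurveS σ (oneSys hf.hs f) ↔ CurveS σ S) ∧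
      (PointS (oneSys hf.hs f) ↔ PointS S) := by
  classical
  obtain ⟨M, s₀, hs₀, E⟩ := S
  obtain ⟨e, E', he, hE', hEE⟩ := homog E
  obtain ⟨d, f, ι, hι, G, hd, hfd, hsm, hG, hGE, hGf, hcurve⟩ := thmA σ (Δ (2 * M + 1)) M e he E' hE'
  set s : ℕ := if s₀ = M then 2 * M + 1 else s₀ with hs
  have hsm' : s ≤ 2 * M + 1 := by
    rw [hs]; split_ifs <;> omega
  have hs₀s : s₀ ≤ s := by
    rw [hs]; split_ifs <;> omega
  have hgood : IsGood σ Δ (2 * M + 1) s f := by
    refine ⟨hsm', ⟨d, hd, hfd⟩, hsm ∅ (by simp), hsm {0} (by simp), ?_⟩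
    by_cases h : s₀ = M
    · intro x hx _
      funext k
      refine hx k ?_
      have h1 : s = 2 * M + 1 := by rw [hs, if_pos h]
      have := k.2
      show (k : ℕ) ≤ s
      omega
    · refine hsm _ fun t ht => ?_
      have h1 : s = s₀ := by rw [hs, if_neg h]
      have h2 : (t : ℕ) ≤ s := ht
      omega
  -- the dictionary
  have hext : ∀ {K : Type} [Field K] (ρ : 𝓞 F₀ →+* K) (𝒱 : Set (ValuationSubring K))
      (w : Fin (M + 1) → K), w ∈ CPts (⟨M, s₀, hs₀, E⟩ : Sys F₀) ρ 𝒱 →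
      coord_ext w ∈ CPts (oneSys hgood.hs f) ρ 𝒱 ∧ ∀ i, (G i).eval₂ ρ (coord_ext w) = 0 := by
    intro K _ ρ 𝒱 w hw
    obtain ⟨hw0, hwE, hwv⟩ := hw
    have h0 : coord_ext w 0 = 1 := by rw [coord_ext_zero]; exact hw0
    have hGz : ∀ i, (G i).eval₂ ρ (coord_ext w) = 0 := by
      rw [hGE K ρ (coord_ext w) h0]
      refine ⟨fun k hk => coord_ext_big w k hk, ?_⟩
      rw [coord_low_ext]
      exact (hEE K ρ w hw0).mpr hwE
    refine ⟨⟨h0, ?_, ?_⟩, hGz⟩
    · intro g hg
      have hg' : g = f := Finset.mem_singleton.mp hg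
      rw [hg']
      exact hGf K ρ _ hGz
    · intro O hO j
      by_cases hj : (j : ℕ) < M + 1
      · obtain ⟨k, hk, hv⟩ := hwv O hO ⟨j, hj⟩
        refine ⟨Fin.castLE (show M + 1 ≤ 2 * M + 1 + 1 by omega) k, ?_, ?_⟩
        · exact le_trans hk hs₀s
        · have h1 : coord_ext w j = w ⟨j, hj⟩ := coord_ext_small w ⟨j, hj⟩
          have h2 : coord_ext w (Fin.castLE (show M + 1 ≤ 2 * M + 1 + 1 by omega) k) = w k :=
            coord_ext_small w k
          rw [h1]
          exact hv.trans (le_of_eq (congrArg _ h2.symm))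
      · refine ⟨0, Nat.zero_le _, ?_⟩
        have h1 : coord_ext w j = 0 := coord_ext_big w j (by omega)
        rw [h1, map_zero]
        exact zero_le
  have hlow : ∀ {K : Type} [Field K] (ρ : 𝓞 F₀ →+* K) (𝒱 : Set (ValuationSubring K))
      (u : Fin (2 * M + 1 + 1) → K), u ∈ CPts (oneSys hgood.hs f) ρ 𝒱 →
      (∀ i, (G i).eval₂ ρ u = 0) →
      low u ∈ CPts (⟨M, s₀, hs₀, E⟩ : Sys F₀) ρ 𝒱 ∧ coord_ext (low u) = u := by
    intro K _ ρ 𝒱 u hu hGz
    obtain ⟨hu0, -, huv⟩ := hu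
    have hu0' : u 0 = 1 := hu0
    obtain ⟨hbig, hE0⟩ := (hGE K ρ u hu0').mp hGz
    have hl0 : low u 0 = 1 := hu0'
    refine ⟨⟨hl0, (hEE K ρ (low u) hl0).mp hE0, ?_⟩, coord_ext_low u hbig⟩
    intro O hO j
    obtain ⟨k, hk, hv⟩ := huv O hO (Fin.castLE (show M + 1 ≤ 2 * M + 1 + 1 by omega) j)
    by_cases hkM : (k : ℕ) < M + 1
    · refine ⟨⟨k, hkM⟩, ?_, hv⟩
      have hk' : (k : ℕ) ≤ s := hk
      show (k : ℕ) ≤ s₀
      by_cases h : s₀ = M
      · omega
      · have h1 : s = s₀ := by rw [hs, if_neg h]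
        omega
    · refine ⟨0, Nat.zero_le _, ?_⟩
      have hk0 : u k = 0 := hbig k (by omega)
      have hv' : O.valuation (u (Fin.castLE (show M + 1 ≤ 2 * M + 1 + 1 by omega) j)) ≤
          O.valuation (u k) := hv
      rw [hk0, map_zero] at hv'
      exact hv'.trans zero_le
  refine ⟨2 * M + 1, s, f, hgood, ?_, ?_, ?_⟩
  · intro h
    have h' : s₀ = M := h
    rw [hs, if_pos h']
  · constructor
    · intro hC w hw j
      obtain ⟨h1, -⟩ := hext (rhoM σ) VM w hw
      have h2 := hC (coord_ext w) h1 (Fin.castLE (show M + 1 ≤ 2 * M + 1 + 1 by omega) j)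
      have h3 : coord_ext w (Fin.castLE (show M + 1 ≤ 2 * M + 1 + 1 by omega) j) = w j :=
        coord_ext_small w j
      rw [← h3]
      exact h2
    · intro hC u hu j
      have hu0 : u 0 = 1 := hu.1
      by_cases hR : RatioConst (u : Fin (2 * M + 1 + 1) → Mero)
      · obtain ⟨g, c, hg⟩ := hR
        have h0 : c 0 • g = 1 := by rw [← hg 0]; exact hu0
        have hc0 : c 0 ≠ 0 := by
          intro h
          rw [h, zero_smul] at h0
          exact zero_ne_one h0
        refine ⟨c j * (c 0)⁻¹, ?_⟩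
        have h1 : u j = c j • g := hg j
        have h2 : g = (c 0)⁻¹ • (1 : Mero) := by
          rw [← h0, smul_smul, inv_mul_cancel₀ hc0, one_smul]
        rw [h1, h2, smul_smul, Algebra.smul_def, mul_one]
      · have hf0 : f.eval₂ (rhoM σ) u = 0 := hu.2.1 f (Finset.mem_singleton_self f)
        obtain ⟨h1, h2⟩ := hlow (rhoM σ) VM u hu (hcurve u hR hf0)
        have h3 : coord_ext (low u) j = u j := congrFun h2 j
        rw [← h3]
        by_cases hj : (j : ℕ) < M + 1
        · have h4 : coord_ext (low u) j = low u ⟨j, hj⟩ := coord_ext_small (low u) ⟨j, hj⟩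
          rw [h4]
          exact hC (low u) h1 ⟨j, hj⟩
        · have h4 : coord_ext (low u) j = 0 := coord_ext_big (low u) j (by omega)
          rw [h4]
          exact ⟨0, map_zero _⟩
  · constructor
    · intro hP F _ _ _ T
      refine Set.Finite.of_finite_image ((hP F T).subset ?_) coord_ext_inj.injOn
      rintro _ ⟨w, hw, rfl⟩
      exact (hext (rhoF F₀ F) (VF F T) w hw).1
    · intro hP F _ _ _ T
      have h1 : (coord_ext '' CPts (⟨M, s₀, hs₀, E⟩ : Sys F₀) (rhoF F₀ F) (VF F T)).Finite :=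
        (hP F T).image _
      have h2 : (⋃ i, {u : Fin (2 * M + 1 + 1) → F | u 0 = 1 ∧ f.eval₂ (rhoF F₀ F) u = 0 ∧
          (G i).eval₂ (rhoF F₀ F) u ≠ 0}).Finite :=
        Set.finite_iUnion fun i => claimB σ Δ H f (G i) d e hfd he (hG i)
          (fun ξ hξ hf0 => hcurve ξ hξ hf0 i) F
      refine (h1.union h2).subset ?_
      intro u hu
      by_cases hGz : ∀ i, (G i).eval₂ (rhoF F₀ F) u = 0
      · left
        obtain ⟨h3, h4⟩ := hlow (rhoF F₀ F) (VF F T) u hu hGz
        exact ⟨low u, h3, h4⟩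
      · right
        push Not at hGz
        obtain ⟨i, hi⟩ := hGz
        exact Set.mem_iUnion.mpr ⟨i, hu.1, hu.2.1 f (Finset.mem_singleton_self f), hi⟩

end Pool.Agent.Work.MP_e97a4d_nt.Hyp
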