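import Pool.Agent.Work.MP_e97a4d_nt.Hyp.Defs

set_option autoImplicit false

noncomputable section

namespace Pool.Agent.Work.MP_e97a4d_nt.Hyp

open MvPolynomial NumberField

/-- `f` is a form of degree `>= Δ m` in `x_0, ..., x_m` such that the hypersurface `f = 0` and its
sections by `x_0 = 0` and by `x_0 = ... = x_s = 0` are smooth. -/
structure IsGood {F₀ : Type} [Field F₀] (σ : F₀ →+* ℂ) (Δ : ℕ → ℕ) (m s : ℕ)
    (f : MvPolynomial (Fin (m + 1)) (𝓞 F₀)) : Prop where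
  hs : s ≤ m
  deg : ∃ d, Δ m ≤ d ∧ f.IsHomogeneous d
  smooth : SmoothOn σ f ∅
  smooth₀ : SmoothOn σ f {0}
  smooth_s : SmoothOn σ f {k | (k : ℕ) ≤ s}

/-- the system of one equation -/
def oneSys {F₀ : Type} [Field F₀] {m s : ℕ} (hs : s ≤ m) (f : MvPolynomial (Fin (m + 1)) (𝓞 F₀)) :
    Sys F₀ := ⟨m, s, hs, {f}⟩

end Pool.Agent.Work.MP_e97a4d_nt.Hyp
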