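import Pool.Agent.Work.MP_e97a4d_nt.Hyp.LogDer

set_option autoImplicit false

noncomputable section

namespace Pool.Agent.Work.MP_e97a4d_nt.Hyp

open Metric Real ValueDistribution

/-- `T(f) + T(1/f) ≤ 2 T(f) + C`. -/
private lemma ct_first {f : ℂ → ℂ} (hf : Meromorphic f) :
    ∃ C : ℝ, 0 ≤ C ∧ ∀ R : ℝ, characteristic f ⊤ R + characteristic f⁻¹ ⊤ R ≤
      2 * characteristic f ⊤ R + C := by
  refine ⟨max |log ‖f 0‖| |log ‖meromorphicTrailingCoeffAt f 0‖|,
    le_max_of_le_left (abs_nonneg _), fun R => ?_⟩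
  have h1 := characteristic_sub_characteristic_inv_le (R := R) hf
  have h2 := (abs_le.1 h1).1
  linarith

open Classical in
/-- Number of zeros and poles in a disc. -/
theorem sum_nu_le {f : ℂ → ℂ} (hf : Meromorphic f) (h0 : ∀ z, meromorphicOrderAt f z ≠ ⊤) :
    ∃ C : ℝ, 0 ≤ C ∧ ∀ ρ R : ℝ, 1 ≤ ρ → ρ < R →
      (∑ a ∈ (finite_nu hf ρ).toFinset, (nu f ρ a : ℝ)) ≤
        R / (R - ρ) * (2 * characteristic f ⊤ R + C) := by
  obtain ⟨C, hC, hC'⟩ := ct_first hf
  refine ⟨C, hC, fun ρ R hρ hR => ?_⟩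
  have hR1 : 1 ≤ R := hρ.trans hR.le
  have hR0 : 0 < R := by linarith
  set S := (finite_nu hf ρ).toFinset with hS
  set D := MeromorphicOn.divisor f Set.univ with hD
  have hnu : ∀ a ∈ S, a ∈ ball (0 : ℂ) ρ ∧ (nu f ρ a : ℤ) = |D a| := by
    intro a ha
    rw [hS, Set.Finite.mem_toFinset, Set.mem_ofPred_eq] at ha
    have hab : a ∈ ball (0 : ℂ) ρ := by
      by_contra h
      apply ha
      simp [nu, Function.locallyFinsuppWithin.apply_eq_zero_of_notMem _ h]
    refine ⟨hab, ?_⟩
    rw [nu, MeromorphicOn.divisor_apply (fun z _ => hf z) hab, hD,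
      MeromorphicOn.divisor_apply (fun z _ => hf z) (Set.mem_univ a), Int.natCast_natAbs]
  -- the divisor `E`
  set E := ∑ a ∈ S, Function.locallyFinsuppWithin.single a (nu f ρ a : ℤ) with hE
  have hEle : E ≤ D⁺ + D⁻ := by
    intro z
    rw [hE, Function.locallyFinsuppWithin.coe_sum, Finset.sum_apply,
      Function.locallyFinsuppWithin.coe_add, Pi.add_apply]
    have hz : (D⁺ z : ℤ) + D⁻ z = |D z| := by
      rw [Function.locallyFinsuppWithin.posPart_apply, Function.locallyFinsuppWithin.negPart_apply]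
      exact posPart_add_negPart (D z)
    rw [hz]
    by_cases hzS : z ∈ S
    · rw [Finset.sum_eq_single z]
      · simp [Function.locallyFinsuppWithin.single_apply, (hnu z hzS).2]
      · intro a _ ha
        simp [Function.locallyFinsuppWithin.single_apply, ha.symm]
      · intro h
        exact absurd hzS h
    · rw [Finset.sum_eq_zero]
      · exact abs_nonneg _
      · intro a ha
        have : z ≠ a := fun h => hzS (h ▸ ha)
        simp [Function.locallyFinsuppWithin.single_apply, this]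
  have h1 := Function.locallyFinsuppWithin.logCounting_le hEle hR1
  have h2 : Function.locallyFinsuppWithin.logCounting E R =
      ∑ a ∈ S, (nu f ρ a : ℝ) * (log R - log ‖a‖) := by
    rw [hE, map_sum, Finset.sum_apply]
    apply Finset.sum_congr rfl
    intro a ha
    rw [Function.locallyFinsuppWithin.logCounting_single_eq_log_sub_const]
    · push_cast
      rfl
    · exact ((mem_ball_zero_iff.1 (hnu a ha).1).trans hR).le
  have h3 : (∑ a ∈ S, (nu f ρ a : ℝ)) * ((R - ρ) / R) ≤
      ∑ a ∈ S, (nu f ρ a : ℝ) * (log R - log ‖a‖) := by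
    rw [Finset.sum_mul]
    apply Finset.sum_le_sum
    intro a ha
    apply mul_le_mul_of_nonneg_left _ (Nat.cast_nonneg _)
    have h4 : (R - ρ) / R ≤ log R - log ρ := by
      rw [← log_div hR0.ne' (by linarith)]
      have := one_sub_inv_le_log_of_pos (show 0 < R / ρ by positivity)
      refine le_trans (le_of_eq ?_) this
      field_simp
    have h5 : log ‖a‖ ≤ log ρ := by
      by_cases ha0 : a = 0
      · rw [ha0, norm_zero, log_zero]
        exact log_nonneg hρ
      · exact log_le_log (norm_pos_iff.2 ha0) (mem_ball_zero_iff.1 (hnu a ha).1).le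
    linarith
  have h6 : Function.locallyFinsuppWithin.logCounting (D⁺ + D⁻) R ≤
      characteristic f ⊤ R + characteristic f⁻¹ ⊤ R := by
    rw [map_add, Pi.add_apply]
    have h7 : Function.locallyFinsuppWithin.logCounting D⁺ R = logCounting f 0 R := by
      rw [logCounting_zero]
    have h8 : Function.locallyFinsuppWithin.logCounting D⁻ R = logCounting f ⊤ R := by
      rw [logCounting_top]
    rw [h7, h8, characteristic, characteristic, Pi.add_apply, Pi.add_apply, logCounting_inv]
    have h9 := proximity_nonneg (f := f) (a := ⊤) R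
    have h10 := proximity_nonneg (f := f⁻¹) (a := ⊤) R
    simp only [Pi.zero_apply] at h9 h10
    linarith
  have hpos : 0 < R - ρ := by linarith
  have h11 : (∑ a ∈ S, (nu f ρ a : ℝ)) * ((R - ρ) / R) ≤ 2 * characteristic f ⊤ R + C := by
    refine h3.trans (h2 ▸ h1.trans (h6.trans (hC' R)))
  calc (∑ a ∈ S, (nu f ρ a : ℝ)) = R / (R - ρ) * ((∑ a ∈ S, (nu f ρ a : ℝ)) * ((R - ρ) / R)) := by
        field_simp
    _ ≤ R / (R - ρ) * (2 * characteristic f ⊤ R + C) :=
        mul_le_mul_of_nonneg_left h11 (by positivity)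

/-- The mean of `|log |f||` on circles. -/
theorem mean_abs_log_le {f : ℂ → ℂ} (hf : Meromorphic f) (h0 : ∀ z, meromorphicOrderAt f z ≠ ⊤) :
    ∃ C : ℝ, 0 ≤ C ∧ ∀ ρ R : ℝ, 1 ≤ ρ → ρ ≤ R →
      circleAverage (fun w => |Real.log ‖f w‖|) 0 ρ ≤ 2 * characteristic f ⊤ R + C := by
  obtain ⟨C, hC, hC'⟩ := ct_first hf
  refine ⟨C, hC, fun ρ R hρ hR => ?_⟩
  have hm : characteristic f ⊤ ρ ≤ characteristic f ⊤ R :=
    characteristic_monotoneOn hf (by simp only [Set.mem_Ioi]; linarith)
      (by simp only [Set.mem_Ioi]; linarith) hR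
  have h1 : circleAverage (fun w => |Real.log ‖f w‖|) 0 ρ = proximity f ⊤ ρ + proximity f⁻¹ ⊤ ρ := by
    rw [proximity_top, proximity_top, ← circleAverage_add]
    · congr 1
      ext w
      simp only [Pi.add_apply, Pi.inv_apply, norm_inv]
      rw [← half_mul_log_add_log_abs, ← half_mul_log_add_log_abs, log_inv, abs_neg]
      ring
    · exact hf.meromorphicOn.circleIntegrable_posLog_norm
    · exact hf.inv.meromorphicOn.circleIntegrable_posLog_norm
  have h2 : proximity f ⊤ ρ + proximity f⁻¹ ⊤ ρ ≤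
      characteristic f ⊤ ρ + characteristic f⁻¹ ⊤ ρ := by
    rw [characteristic, characteristic, Pi.add_apply, Pi.add_apply]
    have h3 := logCounting_nonneg (f := f) (e := ⊤) hρ
    have h4 := logCounting_nonneg (f := f⁻¹) (e := ⊤) hρ
    linarith
  rw [h1]
  refine h2.trans ((hC' ρ).trans ?_)
  linarith

end Pool.Agent.Work.MP_e97a4d_nt.Hyp
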