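import Pool.Agent.Work.MP_e97a4d_nt.Hyp.Trans

set_option autoImplicit false

noncomputable section

namespace Pool.Agent.Work.MP_e97a4d_nt.Hyp

open AlgebraicGeometry CategoryTheory IsDedekindDomain NumberField
open Pool.Agent.Work.MP_e97a4d_nt
open Vp
open scoped Topology

variable {F₀ : Type} [Field F₀] {σ : F₀ →+* ℂ} {V V' : Scheme.{0}}

/-- A holomorphic map which meets an open set is in the open set outside a discrete set. -/
theorem cp_eventually {π : V ⟶ Spec (CommRingCat.of (𝓞 F₀))}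
    {f : ℂ → (Spec (CommRingCat.of ℂ) ⟶ V)} (hf : IsHolomorphicMap σ π f) (O : V.Opens) {z₁ : ℂ}
    (h₁ : pt (f z₁) ∈ O) (z : ℂ) : ∀ᶠ w in 𝓝[≠] z, pt (f w) ∈ O := by
  let Z : TopologicalSpace.Closeds V := ⟨(O : Set V)ᶜ, O.isOpen.isClosed_compl⟩
  have hr : Set.range (Scheme.IdealSheafData.vanishingIdeal Z).subschemeι = (O : Set V)ᶜ := by
    rw [Scheme.IdealSheafData.range_subschemeι, Scheme.IdealSheafData.coe_support_vanishingIdeal]
    rfl
  have h2 : ∀ w, (∃ p : Spec (CommRingCat.of ℂ) ⟶ (Scheme.IdealSheafData.vanishingIdeal Z).subscheme,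
      p ≫ (Scheme.IdealSheafData.vanishingIdeal Z).subschemeι = f w) ↔ pt (f w) ∉ O := by
    intro w
    rw [factors_iff_mem_range, hr]
    rfl
  have h3 := eventually_not_mem π (Scheme.IdealSheafData.vanishingIdeal Z).subschemeι f hf
    ⟨z₁, by rw [h2]; exact fun h => h h₁⟩ z
  filter_upwards [h3] with w hw
  rw [h2] at hw
  exact not_not.1 hw

section

variable {π : V ⟶ Spec (CommRingCat.of (𝓞 F₀))} {f : ℂ → (Spec (CommRingCat.of ℂ) ⟶ V)}
  {B : CommRingCat.{0}} (j : Spec B ⟶ V) [IsOpenImmersion j]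

theorem cp_exists (z : ℂ) (h : pt (f z) ∈ Set.range j) :
    ∃ g : B →+* ℂ, Spec.map (CommRingCat.ofHom g) ≫ j = f z :=
  exists_hom_of_mem (f z) j h

open Classical in
/-- the function of `z` given by an element of the coordinate ring of the chart -/
def cpFun (f : ℂ → (Spec (CommRingCat.of ℂ) ⟶ V)) (b : B) (z : ℂ) : ℂ :=
  if h : pt (f z) ∈ Set.range j then (cp_exists (f := f) j z h).choose b else 0

theorem cpFun_eq {z : ℂ} (g : B →+* ℂ) (hg : Spec.map (CommRingCat.ofHom g) ≫ j = f z) (b : B) :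
    cpFun j f b z = g b := by
  have h : pt (f z) ∈ Set.range j := by
    rw [← hg]
    exact ⟨_, rfl⟩
  unfold cpFun
  rw [dif_pos h]
  have h1 := (cp_exists (f := f) j z h).choose_spec
  have h2 := map_comp_inj j (h1.trans hg.symm)
  rw [h2]

theorem cpFun_ne {z : ℂ} (h : pt (f z) ∉ Set.range j) (b : B) : cpFun j f b z = 0 := by
  unfold cpFun
  rw [dif_neg h]

theorem cp_differentiable (hf : IsHolomorphicMap σ π f) (b : B) {z : ℂ} (h : pt (f z) ∈ Set.range j) :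
    ∃ D : Set ℂ, IsOpen D ∧ z ∈ D ∧ DifferentiableOn ℂ (cpFun j f b) D := by
  obtain ⟨A, j', g, D, hj', hD, hz, hfg, hhol, hsub⟩ := exists_chart_in hf z j.opensRange h
  have hsub' : Set.range j' ⊆ Set.range j := hsub
  obtain ⟨θ, hθ⟩ := Spec.map_surjective (IsOpenImmersion.lift j j' hsub')
  have hθ' : Spec.map θ ≫ j = j' := by rw [hθ, IsOpenImmersion.lift_fac]
  refine ⟨D, hD, hz, (hhol (θ.hom b)).congr ?_⟩
  intro w hw
  refine cpFun_eq j ((g w).comp θ.hom) ?_ b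
  rw [hfg w hw, ← hθ', ← Category.assoc, ← Spec.map_comp]
  rfl

theorem cp_analyticAt (hf : IsHolomorphicMap σ π f) (b : B) {z : ℂ} (h : pt (f z) ∈ Set.range j) :
    AnalyticAt ℂ (cpFun j f b) z := by
  obtain ⟨D, hD, hz, h1⟩ := cp_differentiable j hf b h
  exact h1.analyticAt (hD.mem_nhds hz)

/-- the functions of the chart are meromorphic -/
theorem cp_meromorphic (hf : IsHolomorphicMap σ π f) {z₁ : ℂ} (h₁ : pt (f z₁) ∈ Set.range j) (b : B) :
    Meromorphic (cpFun j f b) := by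
  intro z₀
  obtain ⟨A, jA, gA, D, hjA, hD, hz, hfg, hhol⟩ := hf.holo z₀
  obtain ⟨r, hr, hball⟩ := Metric.isOpen_iff.1 hD z₀ hz
  have hev := cp_eventually hf j.opensRange h₁ z₀
  have hev2 : ∀ᶠ w in 𝓝[≠] z₀, w ∈ Metric.ball z₀ r :=
    nhdsWithin_le_nhds (Metric.ball_mem_nhds z₀ hr)
  obtain ⟨w₁, hw₁, hw₁'⟩ := (hev.and hev2).exists
  rw [hfg w₁ (hball hw₁')] at hw₁
  obtain ⟨a, ha, haj⟩ := exists_elt jA (gA w₁) j.opensRange hw₁
  obtain ⟨β, k, htr⟩ := transition jA j a haj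
  have han : AnalyticOnNhd ℂ (fun u => gA u a) (Metric.ball z₀ r) :=
    ((hhol a).mono hball).analyticOnNhd Metric.isOpen_ball
  have hane : ∀ᶠ w in 𝓝[≠] z₀, gA w a ≠ 0 := by
    rcases (han z₀ (Metric.mem_ball_self hr)).eventually_eq_zero_or_eventually_ne_zero with h | h
    · exfalso
      have := han.eqOn_zero_of_preconnected_of_eventuallyEq_zero (convex_ball z₀ r).isPreconnected
        (Metric.mem_ball_self hr) h
      exact ha (this hw₁')
    · exact h
  have hq : MeromorphicAt (fun w => gA w (β b) / gA w a ^ k b) z₀ := by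
    have h1 : AnalyticAt ℂ (fun w => gA w (β b)) z₀ := (hhol (β b)).analyticAt (hD.mem_nhds hz)
    have h2 : AnalyticAt ℂ (fun w => gA w a) z₀ := (hhol a).analyticAt (hD.mem_nhds hz)
    exact h1.meromorphicAt.div (h2.meromorphicAt.pow (k b))
  refine hq.congr ?_
  filter_upwards [hane, hev2] with w hw hw'
  obtain ⟨g₂, hg₂, hg₂'⟩ := htr ℂ (gA w) hw
  rw [← hg₂' b]
  refine (cpFun_eq j g₂ ?_ b).symm
  rw [← hg₂, hfg w (hball hw')]

theorem cp_eventually_hom (hf : IsHolomorphicMap σ π f) {z₁ : ℂ} (h₁ : pt (f z₁) ∈ Set.range j) :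
    ∀ᶠ z in Filter.codiscrete ℂ, ∃ g : B →+* ℂ, Spec.map (CommRingCat.ofHom g) ≫ j = f z := by
  rw [eventually_codiscrete]
  intro z₀
  filter_upwards [cp_eventually hf j.opensRange h₁ z₀] with w hw
  exact cp_exists j w hw

/-- the homomorphism to the field of meromorphic functions -/
def cpHom (hf : IsHolomorphicMap σ π f) {z₁ : ℂ} (h₁ : pt (f z₁) ∈ Set.range j) : B →+* Mero where
  toFun b := mk (cpFun j f b) (cp_meromorphic j hf h₁ b)
  map_one' := by
    rw [← mk_one, mk_eq_iff]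
    filter_upwards [cp_eventually_hom j hf h₁] with w hw
    obtain ⟨g, hg⟩ := hw
    rw [cpFun_eq j g hg, map_one]
    rfl
  map_zero' := by
    rw [← mk_zero, mk_eq_iff]
    filter_upwards [cp_eventually_hom j hf h₁] with w hw
    obtain ⟨g, hg⟩ := hw
    rw [cpFun_eq j g hg, map_zero]
    rfl
  map_mul' b b' := by
    rw [mk_mul, mk_eq_iff]
    filter_upwards [cp_eventually_hom j hf h₁] with w hw
    obtain ⟨g, hg⟩ := hw
    rw [Pi.mul_apply, cpFun_eq j g hg, cpFun_eq j g hg, cpFun_eq j g hg, map_mul]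
  map_add' b b' := by
    rw [mk_add, mk_eq_iff]
    filter_upwards [cp_eventually_hom j hf h₁] with w hw
    obtain ⟨g, hg⟩ := hw
    rw [Pi.add_apply, cpFun_eq j g hg, cpFun_eq j g hg, cpFun_eq j g hg, map_add]

theorem cpHom_apply (hf : IsHolomorphicMap σ π f) {z₁ : ℂ} (h₁ : pt (f z₁) ∈ Set.range j) (b : B) :
    cpHom j hf h₁ b = mk (cpFun j f b) (cp_meromorphic j hf h₁ b) := rfl

/-- the point with values in the field of meromorphic functions is in every open set which the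
curve meets -/
theorem cp_mem (hf : IsHolomorphicMap σ π f) {z₁ : ℂ} (h₁ : pt (f z₁) ∈ Set.range j) (O : V.Opens)
    {z₀ : ℂ} (h₀ : pt (f z₀) ∈ O) :
    (Spec.map (CommRingCat.ofHom (cpHom j hf h₁)) ≫ j) (⊥ : PrimeSpectrum Mero) ∈ O := by
  by_contra hcon
  obtain ⟨w, hw1, hw2⟩ := ((cp_eventually hf j.opensRange h₁ z₀).and
    (cp_eventually hf O h₀ z₀)).exists
  obtain ⟨g, hg⟩ := cp_exists j w hw1
  rw [← hg] at hw2
  obtain ⟨b, hb, hbO⟩ := exists_elt j g O hw2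
  have h3 : cpHom j hf h₁ b = 0 := by
    by_contra hne
    apply hcon
    rw [comp_apply_bot]
    exact hbO _ hne
  rw [cpHom_apply, mk_eq_zero_iff] at h3
  have h4 : ∀ᶠ w' in 𝓝[≠] w, cpFun j f b w' = 0 := eq_nhdsNE h3 w
  have h5 := (cp_analyticAt j hf b hw1).continuousAt
  have h6 : cpFun j f b w = 0 := by
    have h7 : Filter.Tendsto (cpFun j f b) (𝓝[≠] w) (𝓝 (cpFun j f b w)) :=
      h5.tendsto.mono_left nhdsWithin_le_nhds
    exact tendsto_nhds_unique h7 (tendsto_const_nhds.congr' (h4.mono fun _ h => h.symm))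
  rw [cpFun_eq j g hg] at h6
  exact hb h6

/-- the point extends over the valuation rings -/
theorem cp_hasExt (hf : IsHolomorphicMap σ π f) {z₁ : ℂ} (h₁ : pt (f z₁) ∈ Set.range j) (z₀ : ℂ) :
    HasExt (Mz z₀) (Spec.map (CommRingCat.ofHom (cpHom j hf h₁)) ≫ j) := by
  obtain ⟨A, jA, gA, D, hjA, hD, hz, hfg, hhol⟩ := hf.holo z₀
  have h₀ : pt (f z₀) ∈ jA.opensRange := by
    rw [hfg z₀ hz]
    exact ⟨_, rfl⟩
  have hm := cp_mem j hf h₁ jA.opensRange h₀
  obtain ⟨χ, hχ⟩ := exists_hom_of_mem _ jA hm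
  obtain ⟨b₀, hb₀, hb₀j⟩ := exists_elt j (cpHom j hf h₁) jA.opensRange hm
  obtain ⟨β, k, htr⟩ := transition j jA b₀ hb₀j
  have hχmem : ∀ a, χ a ∈ Mz z₀ := by
    intro a
    obtain ⟨χ', hχ', hχ''⟩ := htr Mero (cpHom j hf h₁) hb₀
    have h1 : χ = χ' := map_comp_inj jA (hχ.trans hχ')
    rw [h1, hχ'' a, cpHom_apply, cpHom_apply, mk_pow, mk_div, mem_Mz, ord_mk]
    have han : AnalyticAt ℂ (fun w => gA w a) z₀ := (hhol a).analyticAt (hD.mem_nhds hz)
    refine le_of_le_of_eq han.meromorphicOrderAt_nonneg (meromorphicOrderAt_congr ?_)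
    have hne : ∀ᶠ w in 𝓝[≠] z₀, cpFun j f b₀ w ≠ 0 := by
      rw [cpHom_apply, Ne, mk_eq_zero_iff] at hb₀
      exact (meromorphicOrderAt_ne_top_iff_eventually_ne_zero
        (cp_meromorphic j hf h₁ b₀ z₀)).1 (order_ne_top (cp_meromorphic j hf h₁ b₀) hb₀ z₀)
    have hD' : ∀ᶠ w in 𝓝[≠] z₀, w ∈ D := nhdsWithin_le_nhds (hD.mem_nhds hz)
    filter_upwards [hne, hD', cp_eventually hf j.opensRange h₁ z₀] with w hw hwD hwj
    obtain ⟨g, hg⟩ := cp_exists j w hwj
    rw [cpFun_eq j g hg] at hw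
    obtain ⟨g₂, hg₂, hg₂'⟩ := htr ℂ g hw
    have h2 : gA w = g₂ := by
      apply map_comp_inj jA
      rw [← hg₂, hg, hfg w hwD]
    rw [Pi.div_apply, Pi.pow_apply, cpFun_eq j g hg, cpFun_eq j g hg, ← hg₂' a, h2]
  let χ₀ : A →+* Mz z₀ := χ.codRestrict (Mz z₀).toSubring hχmem
  refine ⟨Spec.map (CommRingCat.ofHom χ₀) ≫ jA, ?_⟩
  rw [← Category.assoc, ← Spec.map_comp, ← hχ]
  rfl

end

/-- An entire curve not contained in `V'` gives a point with values in the field of meromorphic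
functions. -/
theorem curve_to_pt (π : V ⟶ Sep.SpO F₀) (i : V' ⟶ V) [IsClosedImmersion i]
    (f : ℂ → (Spec (CommRingCat.of ℂ) ⟶ V)) (hf : IsEntireCurve σ π f)
    (hne : ∃ z, ¬ ∃ p : Spec (CommRingCat.of ℂ) ⟶ V', p ≫ i = f z) :
    ∃ x ∈ Pts π i (rhoM σ) VM,
      ¬ ∃ p : Spec (CommRingCat.of ℂ) ⟶ V,
        Spec.map (CommRingCat.ofHom (algebraMap ℂ Mero)) ≫ p = x := by
  obtain ⟨hf, z₂, w₂, hnc⟩ := hf
  obtain ⟨z₁, hz₁⟩ := hne
  let O : V.Opens := ⟨(Set.range i)ᶜ, i.isClosedEmbedding.isClosed_range.isOpen_compl⟩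
  have hz₁' : pt (f z₁) ∈ O := by
    rw [factors_iff_mem_range] at hz₁
    exact hz₁
  obtain ⟨B, j, g, D, hj, hD, hz, hfg, hhol, hjO⟩ := exists_chart_in hf z₁ O hz₁'
  have h₁ : pt (f z₁) ∈ Set.range j := by
    rw [hfg z₁ hz]
    exact ⟨_, rfl⟩
  refine ⟨Spec.map (CommRingCat.ofHom (cpHom j hf h₁)) ≫ j, ⟨?_, ?_, ?_⟩, ?_⟩
  · obtain ⟨α, hα⟩ := Spec.map_surjective (j ≫ π)
    rw [Category.assoc, ← hα, ← Spec.map_comp]
    congr 1
    ext r
    show cpHom j hf h₁ (α.hom r) = algebraMap ℂ Mero (σ (algebraMap (𝓞 F₀) F₀ r))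
    rw [cpHom_apply, ← mk_const, mk_eq_iff]
    filter_upwards [cp_eventually_hom j hf h₁] with w hw
    obtain ⟨g', hg'⟩ := hw
    rw [cpFun_eq j g' hg']
    have h2 := hf.structural w
    rw [← hg', Category.assoc, ← hα, ← Spec.map_comp] at h2
    have h3 := congrArg CommRingCat.Hom.hom (Spec.map_injective h2)
    exact RingHom.congr_fun h3 r
  · intro hmem
    have h2 : (Spec.map (CommRingCat.ofHom (cpHom j hf h₁)) ≫ j) (⊥ : PrimeSpectrum Mero) ∈ O :=
      hjO ⟨_, rfl⟩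
    exact h2 hmem
  · rintro _ ⟨z₀, rfl⟩
    exact cp_hasExt j hf h₁ z₀
  · rintro ⟨p, hp⟩
    have hpm : p (⊥ : PrimeSpectrum ℂ) ∈ Set.range j := by
      have h2 : (Spec.map (CommRingCat.ofHom (algebraMap ℂ Mero)) ≫ p) (⊥ : PrimeSpectrum Mero) =
          p (⊥ : PrimeSpectrum ℂ) := by
        rw [Scheme.Hom.comp_apply]
        congr 1
        exact Subsingleton.elim (α := PrimeSpectrum ℂ) _ _
      rw [← h2, hp]
      exact ⟨_, rfl⟩
    obtain ⟨γ, hγ⟩ := exists_hom_of_mem p j hpm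
    have hφ : (algebraMap ℂ Mero).comp γ = cpHom j hf h₁ := by
      apply map_comp_inj j
      rw [← hp, ← hγ, ← Category.assoc, ← Spec.map_comp]
      rfl
    -- `f = p` where `f` is in the chart
    have hconst : ∀ z, pt (f z) ∈ Set.range j → f z = p := by
      intro z hzj
      obtain ⟨g', hg'⟩ := cp_exists j z hzj
      have h3 : g' = γ := by
        ext b
        have h4 := RingHom.congr_fun hφ b
        rw [RingHom.comp_apply, cpHom_apply, ← mk_const, mk_eq_iff] at h4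
        have h5 : ∀ᶠ w' in 𝓝[≠] z, γ b = cpFun j f b w' := eq_nhdsNE h4 z
        have h6 : Filter.Tendsto (cpFun j f b) (𝓝[≠] z) (𝓝 (cpFun j f b z)) :=
          (cp_analyticAt j hf b hzj).continuousAt.tendsto.mono_left nhdsWithin_le_nhds
        have h7 := tendsto_nhds_unique h6 (tendsto_const_nhds.congr' h5)
        rw [cpFun_eq j g' hg'] at h7
        exact h7
      rw [← hg', h3, hγ]
    have hall : ∀ z₀, f z₀ = p := by
      intro z₀
      obtain ⟨A, jA, gA, D', hjA, hD', hz', hfg', hhol'⟩ := hf.holo z₀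
      have hev : ∀ᶠ w in 𝓝[≠] z₀, w ∈ D' ∧ f w = p := by
        filter_upwards [cp_eventually hf j.opensRange h₁ z₀,
          nhdsWithin_le_nhds (hD'.mem_nhds hz')] with w hw hw'
        exact ⟨hw', hconst w hw⟩
      obtain ⟨w₁, hw₁, hw₁'⟩ := hev.exists
      have h3 : gA z₀ = gA w₁ := by
        ext a
        have h4 : ∀ᶠ w in 𝓝[≠] z₀, gA w₁ a = gA w a := by
          filter_upwards [hev] with w hw
          have h5 : gA w₁ = gA w := by
            apply map_comp_inj jA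
            rw [← hfg' w₁ hw₁, ← hfg' w hw.1, hw₁', hw.2]
          rw [h5]
        have h6 : Filter.Tendsto (fun w => gA w a) (𝓝[≠] z₀) (𝓝 (gA z₀ a)) :=
          ((hhol' a).continuousOn.continuousAt (hD'.mem_nhds hz')).tendsto.mono_left
            nhdsWithin_le_nhds
        exact tendsto_nhds_unique h6 (tendsto_const_nhds.congr' h4)
      rw [hfg' z₀ hz', h3, ← hfg' w₁ hw₁, hw₁']
    exact hnc ((hall z₂).trans (hall w₂).symm)

end Pool.Agent.Work.MP_e97a4d_nt.Hyp
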