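import Pool.Agent.Work.MP_e97a4d_nt.Hyp.Backward
import Pool.Agent.Work.MP_e97a4d_nt.Hyp.Cond

/-!
Schemes closed in the complement of a coordinate subspace of projective space, with empty exceptional
set.
-/

set_option autoImplicit false

noncomputable section

namespace Pool.Agent.Work.MP_e97a4d_nt.Hyp

open AlgebraicGeometry CategoryTheory IsDedekindDomain NumberField
open HomogeneousLocalization
open Pool.Agent.Work.MP_e97a4d_nt.Sep Pool.Agent.Work.MP_e97a4d_nt.Sep.PSpace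
open Pool.Agent.Work.MP_e97a4d_nt.Vp Bk

attribute [local instance] MvPolynomial.gradedAlgebra

variable {F₀ : Type} [Field F₀] {m : ℕ}

/-- `V` is closed in the complement of `x_0 = ... = x_s = 0`, with underlying set defined by `E`. -/
structure Emb {V : Scheme.{0}} (k : V ⟶ PS F₀ m) (s : ℕ)
    (E : Finset (MvPolynomial (Fin (m + 1)) (𝓞 F₀))) : Prop where
  fac : ∃ j : V ⟶ (Us F₀ m s).toScheme, IsClosedImmersion j ∧ j ≫ (Us F₀ m s).ι = k
  rng : ∀ p : PS F₀ m, p ∈ Set.range k ↔ p ∈ Us F₀ m s ∧ p ∉ NE F₀ m E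

theorem Emb.mono {V : Scheme.{0}} {k : V ⟶ PS F₀ m} {s : ℕ}
    {E : Finset (MvPolynomial (Fin (m + 1)) (𝓞 F₀))} (h : Emb k s E) : Mono k := by
  obtain ⟨j, hj, rfl⟩ := h.fac
  infer_instance

theorem Emb.lft {V : Scheme.{0}} {k : V ⟶ PS F₀ m} {s : ℕ}
    {E : Finset (MvPolynomial (Fin (m + 1)) (𝓞 F₀))} (h : Emb k s E) :
    LocallyOfFiniteType (k ≫ psStr F₀ m) := by
  obtain ⟨j, hj, rfl⟩ := h.fac
  infer_instance

theorem Emb.qc [NumberField F₀] {V : Scheme.{0}} {k : V ⟶ PS F₀ m} {s : ℕ}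
    {E : Finset (MvPolynomial (Fin (m + 1)) (𝓞 F₀))} (h : Emb k s E) :
    QuasiCompact (k ≫ psStr F₀ m) := by
  obtain ⟨j, hj, rfl⟩ := h.fac
  have h1 : IsLocallyNoetherian (PS F₀ m) := LocallyOfFiniteType.isLocallyNoetherian (psStr F₀ m)
  have h2 : QuasiCompact (Us F₀ m s).ι := inferInstance
  infer_instance

/-- lifting morphisms to `V` -/
theorem Emb.lift {V : Scheme.{0}} {k : V ⟶ PS F₀ m} {s : ℕ}
    {E : Finset (MvPolynomial (Fin (m + 1)) (𝓞 F₀))} (h : Emb k s E)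
    {R : Type} [CommRing R] [IsDomain R] (g : Spec (CommRingCat.of R) ⟶ PS F₀ m)
    (h1 : Set.range g ⊆ Us F₀ m s) (h2 : g (⊥ : PrimeSpectrum R) ∉ NE F₀ m E) :
    ∃ y : Spec (CommRingCat.of R) ⟶ V, y ≫ k = g := by
  obtain ⟨j, hj, hjk⟩ := h.fac
  have h3 : Set.range g ⊆ Set.range (Us F₀ m s).ι := by
    rw [Scheme.Opens.range_ι]
    exact h1
  let g' := IsOpenImmersion.lift (Us F₀ m s).ι g h3
  have hg' : g' ≫ (Us F₀ m s).ι = g := IsOpenImmersion.lift_fac _ _ _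
  obtain ⟨y, hy⟩ := (factors_iff_generic j g').2 (by
    obtain ⟨q, hq⟩ := (h.rng (g (⊥ : PrimeSpectrum R))).2 ⟨h1 ⟨_, rfl⟩, h2⟩
    refine ⟨q, ?_⟩
    apply (Us F₀ m s).ι.isOpenEmbedding.injective
    show (j ≫ (Us F₀ m s).ι) q = (g' ≫ (Us F₀ m s).ι) (⊥ : PrimeSpectrum R)
    rw [hjk, hg', hq])
  exact ⟨y, by rw [← hjk, ← Category.assoc, hy, hg']⟩

theorem emb_kV (s : ℕ) (E : Finset (MvPolynomial (Fin (m + 1)) (𝓞 F₀))) : Emb (kV s E) s E :=
  ⟨⟨jV s E, inferInstance, rfl⟩, fun _ => mem_range_kV s E⟩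

section pts

variable {V : Scheme.{0}} {k : V ⟶ PS F₀ m} {s : ℕ}
  {E : Finset (MvPolynomial (Fin (m + 1)) (𝓞 F₀))}

/-- the point of `V` with given coordinates -/
theorem Emb.exists_point (h : Emb k s E) (hE : ∀ e ∈ E, ∃ d, e.IsHomogeneous d) (a : Fin (m + 1))
    (ha : (a : ℕ) ≤ s) {K : Type} [Field K] (ρ : 𝓞 F₀ →+* K)
    (u : Fin (m + 1) → K) (h0 : u a = 1) (he : ∀ e ∈ E, e.eval₂ ρ u = 0) :
    ∃ (x : Spec (CommRingCat.of K) ⟶ V) (φ : A F₀ a →+* K),
      φ.comp (cst F₀ a) = ρ ∧ (fun i => φ (ratio F₀ a i)) = u ∧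
      x ≫ k = Spec.map (CommRingCat.ofHom φ) ≫ chart F₀ a := by
  obtain ⟨φ, h1, h2⟩ := exists_pt ρ a u h0
  obtain ⟨x, hx⟩ := h.lift (Spec.map (CommRingCat.ofHom φ) ≫ chart F₀ a)
    (range_chart_subset s φ ha) (by
      rw [mem_NE_iff hE]
      rintro ⟨e, h3, h4⟩
      apply h4
      rw [h1, h2]
      exact he e h3)
  exact ⟨x, φ, h1, h2, hx⟩

theorem Emb.exists_coords (h : Emb k s E) (hE : ∀ e ∈ E, ∃ d, e.IsHomogeneous d) (a : Fin (m + 1))
    {K : Type} [Field K] (x : Spec (CommRingCat.of K) ⟶ V)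
    (hx : k (x (⊥ : PrimeSpectrum K)) ∈ (chart F₀ a).opensRange) :
    ∃ φ : A F₀ a →+* K, x ≫ k = Spec.map (CommRingCat.ofHom φ) ≫ chart F₀ a ∧
      ∀ e ∈ E, e.eval₂ (φ.comp (cst F₀ a)) (fun i => φ (ratio F₀ a i)) = 0 := by
  obtain ⟨φ, hφ⟩ := factor_of_closed (x ≫ k) a (by rw [MoveP.closedPoint_eq]; exact hx)
  refine ⟨φ, hφ, ?_⟩
  intro e he
  by_contra h'
  have h1 : (Spec.map (CommRingCat.ofHom φ) ≫ chart F₀ a) (⊥ : PrimeSpectrum K) ∈ NE F₀ m E :=
    (mem_NE_iff hE a φ).2 ⟨e, he, h'⟩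
  rw [← hφ] at h1
  exact ((h.rng _).1 ⟨x (⊥ : PrimeSpectrum K), rfl⟩).2 h1

theorem Emb.hasExt_iff (h : Emb k s E) (a : Fin (m + 1)) {K : Type} [Field K]
    (O : ValuationSubring K) (ρ : 𝓞 F₀ →+* K)
    (hρ : ∀ a, ρ a ∈ O) (x : Spec (CommRingCat.of K) ⟶ V) (φ : A F₀ a →+* K)
    (h0 : φ.comp (cst F₀ a) = ρ) (hx : x ≫ k = Spec.map (CommRingCat.ofHom φ) ≫ chart F₀ a) :
    HasExt O x ↔ ∀ j, ∃ l : Fin (m + 1), (l : ℕ) ≤ s ∧
      O.valuation (φ (ratio F₀ a j)) ≤ O.valuation (φ (ratio F₀ a l)) := by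
  have hinj : Function.Injective (algebraMap O K) := IsFractionRing.injective O K
  have hmono := h.mono
  constructor
  · rintro ⟨y, hy⟩ j
    have h1 : (y ≫ k) (IsLocalRing.closedPoint O) ∈ Us F₀ m s :=
      ((h.rng _).1 ⟨y (IsLocalRing.closedPoint O), rfl⟩).1
    obtain ⟨l, hl, hl'⟩ := mem_Us.1 h1
    obtain ⟨ψ, hψ⟩ := factor_of_closed (y ≫ k) l hl'
    refine ⟨l, hl, ?_⟩
    have h2 : Spec.map (CommRingCat.ofHom φ) ≫ chart F₀ a =
        Spec.map (CommRingCat.ofHom ((algebraMap O K).comp ψ)) ≫ chart F₀ l := by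
      rw [← hx, ← hy, Category.assoc, hψ, comp_chart (algebraMap O K) ψ]
    rw [PSpace.transition φ _ h2 j, map_mul]
    have h3 : O.valuation ((algebraMap O K).comp ψ (ratio F₀ l j)) ≤ 1 :=
      O.valuation_le_one (ψ (ratio F₀ l j))
    calc _ ≤ O.valuation (φ (ratio F₀ a l)) * 1 := by gcongr
      _ = _ := mul_one _
  · intro h'
    obtain ⟨j₀, hj₀⟩ := Finite.exists_max (fun j => O.valuation (φ (ratio F₀ a j)))
    obtain ⟨l, hl, hl'⟩ := h' j₀
    have hmax : ∀ i, O.valuation (φ (ratio F₀ a i)) ≤ O.valuation (φ (ratio F₀ a l)) :=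
      fun i => (hj₀ i).trans hl'
    have hne : φ (ratio F₀ a l) ≠ 0 := by
      intro h1
      have h2 := hmax a
      rw [h1, map_zero, ratio_self, map_one, map_one] at h2
      exact absurd h2 (by simp)
    have hO : ∀ i, φ (ratio F₀ a i) / φ (ratio F₀ a l) ∈ O := by
      intro i
      rw [← O.valuation_le_one_iff, map_div₀]
      have h3 : O.valuation (φ (ratio F₀ a l)) ≠ 0 := (O.valuation.ne_zero_iff).2 hne
      rw [div_le_one₀ (zero_lt_iff.2 h3)]
      exact hmax i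
    let ρ' : 𝓞 F₀ →+* O := ρ.codRestrict O.toSubring hρ
    obtain ⟨ψ, hψ1, hψ2⟩ := exists_pt (F₀ := F₀) (m := m) ρ' l
      (fun i => ⟨φ (ratio F₀ a i) / φ (ratio F₀ a l), hO i⟩) (Subtype.ext (div_self hne))
    have h4 : (algebraMap O K).comp ρ' = ρ := rfl
    have h5 : Spec.map (CommRingCat.ofHom φ) ≫ chart F₀ a =
        Spec.map (CommRingCat.ofHom ((algebraMap O K).comp ψ)) ≫ chart F₀ l := by
      apply MoveP.coords_unique φ _ _ (φ (ratio F₀ a l))⁻¹ (inv_ne_zero hne)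
      · intro i
        rw [RingHom.comp_apply, congrFun hψ2 i]
        show φ (ratio F₀ a i) / φ (ratio F₀ a l) = _
        rw [div_eq_inv_mul]
      · rw [chart_psStr, chart_psStr, ← Spec.map_comp, ← Spec.map_comp, ← CommRingCat.ofHom_comp,
          ← CommRingCat.ofHom_comp, RingHom.comp_assoc, hψ1, h0, h4]
    have h6 : Spec.map (CommRingCat.ofHom (algebraMap O K)) ≫
        Spec.map (CommRingCat.ofHom ψ) ≫ chart F₀ l = x ≫ k := by
      rw [hx, h5, comp_chart (algebraMap O K) ψ]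
    obtain ⟨y, hy⟩ := h.lift (Spec.map (CommRingCat.ofHom ψ) ≫ chart F₀ l)
      (range_chart_subset s ψ hl) (by
        have h7 := ((h.rng _).1 ⟨x (⊥ : PrimeSpectrum K), rfl⟩).2
        have h8 : k (x (⊥ : PrimeSpectrum K)) =
            (Spec.map (CommRingCat.ofHom ψ) ≫ chart F₀ l) (⊥ : PrimeSpectrum O) := by
          rw [← map_bot (algebraMap O K) hinj]
          show (x ≫ k) (⊥ : PrimeSpectrum K) = _
          rw [← h6]
          rfl
        rw [h8] at h7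
        exact h7)
    refine ⟨y, ?_⟩
    rw [← cancel_mono k, Category.assoc, hy, h6]

variable (k) in
/-- the closed subset `x_a = 0` of `V` -/
def Za (a : Fin (m + 1)) : TopologicalSpace.Closeds V where
  carrier := ((k ⁻¹ᵁ (chart F₀ a).opensRange : V.Opens) : Set V)ᶜ
  isClosed' := (k ⁻¹ᵁ (chart F₀ a).opensRange).isOpen.isClosed_compl

variable (k) in
/-- the inclusion of the closed subscheme `x_a = 0` in `V` -/
abbrev ia (a : Fin (m + 1)) : (Scheme.IdealSheafData.vanishingIdeal (Za k a)).subscheme ⟶ V :=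
  (Scheme.IdealSheafData.vanishingIdeal (Za k a)).subschemeι

theorem not_mem_range_ia {a : Fin (m + 1)} {p : V} :
    p ∉ Set.range (ia k a) ↔ k p ∈ (chart F₀ a).opensRange := by
  rw [Scheme.IdealSheafData.range_subschemeι, Scheme.IdealSheafData.coe_support_vanishingIdeal]
  show p ∉ ((k ⁻¹ᵁ (chart F₀ a).opensRange : V.Opens) : Set V)ᶜ ↔ _
  rw [Set.mem_compl_iff, not_not]
  rfl

/-- the points with coordinates normalised by `u_a = 1` -/
def CPtsA (a : Fin (m + 1)) (s : ℕ) (E : Finset (MvPolynomial (Fin (m + 1)) (𝓞 F₀)))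
    {K : Type} [Field K] (ρ : 𝓞 F₀ →+* K) (𝒱 : Set (ValuationSubring K)) :
    Set (Fin (m + 1) → K) :=
  {u | u a = 1 ∧ (∀ e ∈ E, e.eval₂ ρ u = 0) ∧
    ∀ O ∈ 𝒱, ∀ j, ∃ k : Fin (m + 1), (k : ℕ) ≤ s ∧ O.valuation (u j) ≤ O.valuation (u k)}

open Classical in
/-- the system with `x_0` and `x_a` exchanged -/
def swapSys (a : Fin (m + 1)) {s : ℕ} (hs : s ≤ m)
    (E : Finset (MvPolynomial (Fin (m + 1)) (𝓞 F₀))) : Sys F₀ :=
  ⟨m, s, hs, E.image (MvPolynomial.rename (Equiv.swap 0 a))⟩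

theorem mem_swapSys (a : Fin (m + 1)) (hs : s ≤ m) (ha : (a : ℕ) ≤ s)
    (E : Finset (MvPolynomial (Fin (m + 1)) (𝓞 F₀)))
    {K : Type} [Field K] (ρ : 𝓞 F₀ →+* K) (𝒱 : Set (ValuationSubring K)) (u : Fin (m + 1) → K) :
    u ∈ CPts (swapSys a hs E) ρ 𝒱 ↔ u ∘ Equiv.swap 0 a ∈ CPtsA a s E ρ 𝒱 := by
  classical
  have h1 : ∀ e : MvPolynomial (Fin (m + 1)) (𝓞 F₀),
      (MvPolynomial.rename (Equiv.swap 0 a) e).eval₂ ρ u = e.eval₂ ρ (u ∘ Equiv.swap 0 a) :=
    fun e => MvPolynomial.eval₂_rename _ _ _ _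
  have h2 : ∀ k : Fin (m + 1), ((Equiv.swap 0 a k : Fin (m + 1)) : ℕ) ≤ s ↔ (k : ℕ) ≤ s := by
    intro k
    by_cases hk0 : k = 0
    · subst hk0
      rw [Equiv.swap_apply_left]
      exact ⟨fun _ => Nat.zero_le _, fun _ => ha⟩
    · by_cases hka : k = a
      · subst hka
        rw [Equiv.swap_apply_right]
        exact ⟨fun _ => ha, fun _ => Nat.zero_le _⟩
      · rw [Equiv.swap_apply_of_ne_of_ne hk0 hka]
  constructor
  · rintro ⟨h3, h4, h5⟩
    refine ⟨?_, ?_, ?_⟩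
    · show u (Equiv.swap 0 a a) = 1
      rw [Equiv.swap_apply_right]
      exact h3
    · intro e he
      rw [← h1]
      exact h4 _ (Finset.mem_image.2 ⟨e, he, rfl⟩)
    · intro O hO j
      obtain ⟨k, hk, hk'⟩ := h5 O hO (Equiv.swap 0 a j)
      have hk1 : (k : ℕ) ≤ s := hk
      refine ⟨Equiv.swap 0 a k, (h2 k).2 hk1, ?_⟩
      show O.valuation (u (Equiv.swap 0 a j)) ≤ O.valuation (u (Equiv.swap 0 a (Equiv.swap 0 a k)))
      rw [Equiv.swap_apply_self]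
      exact hk'
  · rintro ⟨h3, h4, h5⟩
    refine ⟨?_, ?_, ?_⟩
    · have h6 : u (Equiv.swap 0 a a) = 1 := h3
      rw [Equiv.swap_apply_right] at h6
      exact h6
    · intro e he
      obtain ⟨e', he', rfl⟩ := Finset.mem_image.1 he
      exact (h1 e').trans (h4 _ he')
    · intro O hO j
      have hj : ∃ j' : Fin (m + 1), Equiv.swap 0 a j' = j :=
        ⟨Equiv.swap 0 a j, Equiv.swap_apply_self _ _ _⟩
      obtain ⟨j', rfl⟩ := hj
      obtain ⟨k, hk, hk'⟩ := h5 O hO j'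
      exact ⟨Equiv.swap 0 a k, (h2 k).2 hk, hk'⟩

theorem Emb.describes (h : Emb k s E) (hs : s ≤ m) (hE : ∀ e ∈ E, ∃ d, e.IsHomogeneous d)
    (a : Fin (m + 1)) (ha : (a : ℕ) ≤ s) :
    Describes (k ≫ psStr F₀ m) (ia k a) fun _ : Unit => swapSys a hs E := by
  intro K _ ρ 𝒱 h𝒱
  have hmono := h.mono
  have hsw : ∀ v : Fin (m + 1) → K, (v ∘ Equiv.swap 0 a) ∘ Equiv.swap 0 a = v := by
    intro v
    funext i
    simp
  have key := fun (u : CPts (swapSys a hs E) ρ 𝒱) =>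
    h.exists_point hE a ha ρ (u.1 ∘ Equiv.swap 0 a) ((mem_swapSys a hs ha E ρ 𝒱 u.1).1 u.2).1
      ((mem_swapSys a hs ha E ρ 𝒱 u.1).1 u.2).2.1
  choose θ Φ h1 h2 h3 using key
  refine ⟨fun _ => θ, fun _ => ?_, ?_, ?_⟩
  · intro u u' hu
    change θ u = θ u' at hu
    apply Subtype.ext
    have h4 : Φ u = Φ u' := chart_inj (by rw [← h3, ← h3, hu])
    have h5 : u.1 ∘ Equiv.swap 0 a = u'.1 ∘ Equiv.swap 0 a := by
      rw [← h2 u, ← h2 u', h4]
    exact (hsw u.1).symm.trans ((congrArg (fun v => v ∘ Equiv.swap 0 a) h5).trans (hsw u'.1))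
  · ext x
    simp only [Set.mem_iUnion, Set.mem_range, exists_const]
    constructor
    · rintro ⟨hx1, hx2, hx3⟩
      obtain ⟨φ, hφ, he⟩ := h.exists_coords hE a x (not_mem_range_ia.1 hx2)
      have h0 : φ.comp (cst F₀ a) = ρ := by
        rw [← over_iff φ ρ, ← hφ, Category.assoc]
        exact hx1
      rw [h0] at he
      have hmem : (fun i => φ (ratio F₀ a i)) ∘ Equiv.swap 0 a ∈ CPts (swapSys a hs E) ρ 𝒱 := by
        rw [mem_swapSys a hs ha, hsw]
        exact ⟨by show φ (ratio F₀ a a) = 1; rw [ratio_self, map_one], he, fun O hO =>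
          (h.hasExt_iff a O ρ (h𝒱 O hO) x φ h0 hφ).1 (hx3 O hO)⟩
      let u : CPts (swapSys a hs E) ρ 𝒱 := ⟨_, hmem⟩
      refine ⟨u, ?_⟩
      rw [← cancel_mono k, h3 u, hφ]
      have h5 : Φ u = φ := by
        apply PSpace.hom_ext
        · rw [h1 u, h0]
        · intro i
          have h6 := congrFun (h2 u) i
          rw [h6]
          show φ (ratio F₀ a (Equiv.swap 0 a (Equiv.swap 0 a i))) = _
          rw [Equiv.swap_apply_self]
      rw [h5]
    · rintro ⟨u, rfl⟩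
      refine ⟨?_, ?_, ?_⟩
      · rw [← Category.assoc, h3 u, over_iff]
        exact h1 u
      · rw [not_mem_range_ia]
        show (θ u ≫ k) (⊥ : PrimeSpectrum K) ∈ _
        rw [h3 u]
        exact ⟨_, rfl⟩
      · intro O hO
        rw [h.hasExt_iff a O ρ (h𝒱 O hO) (θ u) (Φ u) (h1 u) (h3 u)]
        intro j
        obtain ⟨l, hl, hl'⟩ := ((mem_swapSys a hs ha E ρ 𝒱 u.1).1 u.2).2.2 O hO j
        refine ⟨l, hl, ?_⟩
        rw [congrFun (h2 u) j, congrFun (h2 u) l]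
        exact hl'
  · intro k' _ τ ρ₀ hρ _ u
    have hτ : Function.Injective τ := τ.injective
    constructor
    · rintro ⟨p, hp⟩ j
      change Spec.map (CommRingCat.ofHom τ) ≫ p = θ u at hp
      have h4 : (p ≫ k) (IsLocalRing.closedPoint k') ∈ (chart F₀ a).opensRange := by
        rw [MoveP.closedPoint_eq, ← map_bot τ hτ]
        show (Spec.map (CommRingCat.ofHom τ) ≫ p ≫ k) (⊥ : PrimeSpectrum K) ∈ _
        rw [← Category.assoc, hp, h3 u]
        exact ⟨_, rfl⟩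
      obtain ⟨ψ, hψ⟩ := factor_of_closed (p ≫ k) a h4
      have h5 : τ.comp ψ = Φ u := by
        apply chart_inj
        rw [← h3 u, ← hp, Category.assoc, hψ, CommRingCat.ofHom_comp, Spec.map_comp,
          Category.assoc]
      have h6 := congrFun (h2 u) (Equiv.swap 0 a j)
      have h7 : (u.1 ∘ Equiv.swap 0 a) (Equiv.swap 0 a j) = u.1 j := congrFun (hsw u.1) j
      rw [h7] at h6
      rw [← h6, ← h5]
      exact ⟨_, rfl⟩
    · intro hu
      choose w hw using hu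
      have hw0 : (w ∘ Equiv.swap 0 a) a = 1 := by
        apply hτ
        show τ (w (Equiv.swap 0 a a)) = τ 1
        rw [Equiv.swap_apply_right]
        rw [hw, map_one]
        exact u.2.1
      have he : ∀ e ∈ E, e.eval₂ ρ₀ (w ∘ Equiv.swap 0 a) = 0 := by
        intro e he
        apply hτ
        rw [MvPolynomial.hom_eval₂, map_zero, ← hρ]
        have h4 : (fun i => τ ((w ∘ Equiv.swap 0 a) i)) = u.1 ∘ Equiv.swap 0 a :=
          funext fun i => hw _
        rw [h4]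
        exact ((mem_swapSys a hs ha E ρ 𝒱 u.1).1 u.2).2.1 e he
      obtain ⟨p, ψ, h5, h6, h7⟩ := h.exists_point hE a ha ρ₀ (w ∘ Equiv.swap 0 a) hw0 he
      refine ⟨p, ?_⟩
      rw [← cancel_mono k, Category.assoc, h7, h3 u, ← Category.assoc, ← Spec.map_comp,
        ← CommRingCat.ofHom_comp]
      have h8 : τ.comp ψ = Φ u := by
        apply PSpace.hom_ext
        · rw [RingHom.comp_assoc, h5, h1 u, hρ]
        · intro i
          have h9 := congrFun (h2 u) i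
          rw [RingHom.comp_apply, congrFun h6 i, h9]
          exact hw _
      rw [h8]

end pts

end Pool.Agent.Work.MP_e97a4d_nt.Hyp
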