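import Pool.Agent.Work.MP_e97a4d_nt.Hyp.Emb

/-!
Absence of entire curves and finiteness of integral points, for schemes closed in the complement of a
coordinate subspace; equations of such schemes.
-/

set_option autoImplicit false

noncomputable section

namespace Pool.Agent.Work.MP_e97a4d_nt.Hyp

open AlgebraicGeometry CategoryTheory IsDedekindDomain NumberField
open HomogeneousLocalization
open Pool.Agent.Work.MP_e97a4d_nt Pool.Agent.Work.MP_e97a4d_nt.Sep
open Pool.Agent.Work.MP_e97a4d_nt.Sep.PSpace Pool.Agent.Work.MP_e97a4d_nt.Vp Bk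

attribute [local instance] MvPolynomial.gradedAlgebra

variable {F₀ : Type} [Field F₀] {m : ℕ}

section iff

variable {V : Scheme.{0}} {k : V ⟶ PS F₀ m} {s : ℕ}
  {E : Finset (MvPolynomial (Fin (m + 1)) (𝓞 F₀))}

theorem noCurve_iff (σ : F₀ →+* ℂ) (h : Emb k s E) (hs : s ≤ m)
    (hE : ∀ e ∈ E, ∃ d, e.IsHomogeneous d) :
    NoCurve σ (k ≫ psStr F₀ m) ↔
      ∀ a : Fin (m + 1), (a : ℕ) ≤ s → CurveS σ (swapSys a hs E) := by
  have := h.lft
  have h1 : ∀ a : Fin (m + 1), (a : ℕ) ≤ s →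
      (CondI σ (k ≫ psStr F₀ m) (ia k a) ↔ CurveS σ (swapSys a hs E)) := fun a ha => by
    rw [condI_iff σ _ _ _ (h.describes hs hE a ha)]
    exact ⟨fun h => h (), fun h _ => h⟩
  constructor
  · intro H a ha
    rw [← h1 a ha]
    intro f hf
    exact absurd hf (H f)
  · intro H f hf
    obtain ⟨a, ha, ha'⟩ := mem_Us.1 ((h.rng _).1 ⟨f 0 (⊥ : PrimeSpectrum ℂ), rfl⟩).1
    obtain ⟨p, hp⟩ := (h1 a ha).2 (H a ha) f hf 0
    refine not_mem_range_ia.2 ha' ?_
    rw [← hp]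
    exact ⟨p (⊥ : PrimeSpectrum ℂ), rfl⟩

theorem finPts_iff [NumberField F₀] (h : Emb k s E) (hs : s ≤ m)
    (hE : ∀ e ∈ E, ∃ d, e.IsHomogeneous d) :
    FinPts (k ≫ psStr F₀ m) ↔
      ∀ a : Fin (m + 1), (a : ℕ) ≤ s → PointS (swapSys a hs E) := by
  have := h.lft
  have := h.qc
  have h1 : ∀ a : Fin (m + 1), (a : ℕ) ≤ s →
      (CondII (k ≫ psStr F₀ m) (ia k a) ↔ PointS (swapSys a hs E)) := fun a ha => by
    rw [condII_iff _ _ _ (h.describes hs hE a ha)]
    exact ⟨fun h => h (), fun h _ => h⟩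
  constructor
  · intro H a ha
    rw [← h1 a ha]
    intro F _ _ _ T
    exact (H F T).subset fun x hx => hx.1
  · intro H F _ _ _ T
    have h2 : ∀ a : {a : Fin (m + 1) // (a : ℕ) ≤ s},
        {x ∈ integralPoints (k ≫ psStr F₀ m) F T |
          ¬ ∃ y : Spec (CommRingCat.of (SInt F T)) ⟶ _, y ≫ ia k a.1 = x}.Finite := fun a =>
      (h1 a.1 a.2).2 (H a.1 a.2) F T
    refine (Set.finite_iUnion h2).subset ?_
    intro x hx
    obtain ⟨a, ha, ha'⟩ := mem_Us.1 ((h.rng _).1 ⟨x (⊥ : PrimeSpectrum (SInt F T)), rfl⟩).1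
    refine Set.mem_iUnion.2 ⟨⟨a, ha⟩, hx, ?_⟩
    rintro ⟨y, hy⟩
    refine not_mem_range_ia.2 ha' ?_
    rw [← hy]
    exact ⟨y (⊥ : PrimeSpectrum (SInt F T)), rfl⟩

end iff

/-- equations of a closed subscheme of the complement of `x_0 = ... = x_s = 0` -/
theorem exists_emb [NumberField F₀] {V : Scheme.{0}} {s : ℕ} (j : V ⟶ (Us F₀ m s).toScheme)
    [IsClosedImmersion j] : ∃ E : Finset (MvPolynomial (Fin (m + 1)) (𝓞 F₀)),
      (∀ e ∈ E, ∃ d, e.IsHomogeneous d) ∧ Emb (j ≫ (Us F₀ m s).ι) s E := by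
  classical
  have h1 : IsLocallyNoetherian (PS F₀ m) := LocallyOfFiniteType.isLocallyNoetherian (psStr F₀ m)
  have h2 : CompactSpace (PS F₀ m) := QuasiCompact.compactSpace_of_compactSpace (psStr F₀ m)
  have h3 : IsNoetherian (PS F₀ m) := ⟨⟩
  let W : Set (PS F₀ m) := (Us F₀ m s).ι '' (Set.range j)ᶜ
  have hWo : IsOpen W := (Us F₀ m s).ι.isOpenEmbedding.isOpenMap _
    j.isClosedEmbedding.isClosed_range.isOpen_compl
  have hWc : IsCompact W := TopologicalSpace.NoetherianSpace.isCompact W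
  obtain ⟨t, ht, hW⟩ := eq_finite_iUnion_of_isTopologicalBasis_of_isCompact_open
    (fun r : MvPolynomial (Fin (m + 1)) (𝓞 F₀) =>
      (ProjectiveSpectrum.basicOpen (G F₀ m) r : Set (ProjectiveSpectrum (G F₀ m))))
    (ProjectiveSpectrum.isTopologicalBasis_basic_opens (G F₀ m)) W hWc hWo
  let E : Finset (MvPolynomial (Fin (m + 1)) (𝓞 F₀)) :=
    ht.toFinset.biUnion fun r => (Finset.range (r.totalDegree + 1)).image
      fun i => MvPolynomial.homogeneousComponent i r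
  have hbasic : ∀ (r : MvPolynomial (Fin (m + 1)) (𝓞 F₀)) (p : PS F₀ m),
      p ∈ (ProjectiveSpectrum.basicOpen (G F₀ m) r : Set (ProjectiveSpectrum (G F₀ m))) ↔
        ∃ i ∈ Finset.range (r.totalDegree + 1),
          p ∈ Proj.basicOpen (G F₀ m) (MvPolynomial.homogeneousComponent i r) := by
    intro r p
    constructor
    · intro hp
      by_contra hcon
      push Not at hcon
      apply hp
      rw [← MvPolynomial.sum_homogeneousComponent r]
      refine sum_mem fun i hi => ?_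
      exact not_not.1 (hcon i hi)
    · rintro ⟨i, -, hi⟩ hr
      apply hi
      have h4 := p.asHomogeneousIdeal.isHomogeneous i hr
      have h5 : (DirectSum.decompose (G F₀ m) r i : MvPolynomial (Fin (m + 1)) (𝓞 F₀)) =
          MvPolynomial.homogeneousComponent i r :=
        MvPolynomial.decomposition.decompose'_apply r i
      rw [h5] at h4
      exact h4
  have hNE : ∀ p : PS F₀ m, p ∈ NE F₀ m E ↔ p ∈ W := by
    intro p
    have hWp : p ∈ W ↔ ∃ r ∈ t,
        p ∈ (ProjectiveSpectrum.basicOpen (G F₀ m) r : Set (ProjectiveSpectrum (G F₀ m))) := by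
      have h8 : p ∈ W ↔ p ∈ (⋃ r ∈ t,
        (ProjectiveSpectrum.basicOpen (G F₀ m) r : Set (ProjectiveSpectrum (G F₀ m)))) :=
          ⟨fun h => hW ▸ h, fun h => hW ▸ h⟩
      rw [h8]
      exact Set.mem_iUnion₂.trans ⟨fun ⟨r, hr, h⟩ => ⟨r, hr, h⟩, fun ⟨r, hr, h⟩ => ⟨r, hr, h⟩⟩
    rw [hWp, mem_NE]
    constructor
    · rintro ⟨e, he, l, hl⟩
      obtain ⟨r, hr, he'⟩ := Finset.mem_biUnion.1 he
      obtain ⟨i, hi, rfl⟩ := Finset.mem_image.1 he'
      refine ⟨r, ht.mem_toFinset.1 hr, (hbasic r p).2 ⟨i, hi, ?_⟩⟩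
      exact ProjectiveSpectrum.basicOpen_mul_le_left _ _ _ hl
    · rintro ⟨r, hr, hp⟩
      obtain ⟨i, hi, hp'⟩ := (hbasic r p).1 hp
      obtain ⟨l, hl⟩ := exists_chart p
      rw [opensRange_chart] at hl
      refine ⟨_, Finset.mem_biUnion.2 ⟨r, ht.mem_toFinset.2 hr, Finset.mem_image.2 ⟨i, hi, rfl⟩⟩, l, ?_⟩
      have h6 := ProjectiveSpectrum.basicOpen_mul (G F₀ m)
        (MvPolynomial.homogeneousComponent i r) (MvPolynomial.X l)
      have h7 : p ∈ ProjectiveSpectrum.basicOpen (G F₀ m)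
          (MvPolynomial.homogeneousComponent i r * MvPolynomial.X l) := by
        rw [h6]
        exact ⟨hp', hl⟩
      exact h7
  refine ⟨E, ?_, ⟨j, inferInstance, rfl⟩, ?_⟩
  · intro e he
    obtain ⟨r, hr, he'⟩ := Finset.mem_biUnion.1 he
    obtain ⟨i, hi, rfl⟩ := Finset.mem_image.1 he'
    exact ⟨i, MvPolynomial.homogeneousComponent_isHomogeneous i r⟩
  · intro p
    rw [hNE]
    constructor
    · rintro ⟨q, rfl⟩
      refine ⟨(j q).2, ?_⟩
      rintro ⟨q', hq', hq⟩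
      apply hq'
      have h4 : q' = j q := (Us F₀ m s).ι.isOpenEmbedding.injective hq
      exact ⟨q, h4.symm⟩
    · rintro ⟨hp1, hp2⟩
      by_contra hcon
      apply hp2
      refine ⟨⟨p, hp1⟩, ?_, rfl⟩
      rintro ⟨q, hq⟩
      apply hcon
      refine ⟨q, ?_⟩
      show (Us F₀ m s).ι (j q) = p
      rw [hq]
      rfl

open MvPolynomial in
/-- forms of the same degree with the same zeros -/
theorem homog0 (E : Finset (MvPolynomial (Fin (m + 1)) (𝓞 F₀)))
    (hE : ∀ e ∈ E, ∃ d, e.IsHomogeneous d) :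
    ∃ (e : ℕ) (E' : Finset (MvPolynomial (Fin (m + 1)) (𝓞 F₀))), 1 ≤ e ∧
      (∀ g ∈ E', g.IsHomogeneous e) ∧
      ∀ (K : Type) [Field K] (ρ : 𝓞 F₀ →+* K) (u : Fin (m + 1) → K), u ≠ 0 →
        ((∀ g ∈ E', g.eval₂ ρ u = 0) ↔ ∀ g ∈ E, g.eval₂ ρ u = 0) := by
  classical
  choose! d hd using hE
  let e := 1 + E.sup d
  have he : ∀ g ∈ E, d g ≤ e := fun g hg => by
    have := Finset.le_sup (f := d) hg
    omega
  refine ⟨e, E.biUnion fun g => Finset.univ.image fun l => g * X l ^ (e - d g), by omega, ?_, ?_⟩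
  · intro g hg
    obtain ⟨p, hp, hg⟩ := Finset.mem_biUnion.1 hg
    obtain ⟨l, -, rfl⟩ := Finset.mem_image.1 hg
    have h1 := (hd p hp).mul (isHomogeneous_X_pow (R := 𝓞 F₀) l (e - d p))
    rwa [Nat.add_sub_cancel' (he p hp)] at h1
  · intro K _ ρ u hu
    obtain ⟨l, hl⟩ : ∃ l, u l ≠ 0 := Function.ne_iff.mp hu
    constructor
    · intro h g hg
      have h1 := h _ (Finset.mem_biUnion.2 ⟨g, hg, Finset.mem_image.2 ⟨l, Finset.mem_univ _, rfl⟩⟩)
      rw [eval₂_mul, eval₂_pow, eval₂_X] at h1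
      exact (mul_eq_zero.1 h1).resolve_right (pow_ne_zero _ hl)
    · intro h g hg
      obtain ⟨p, hp, hg⟩ := Finset.mem_biUnion.1 hg
      obtain ⟨l, -, rfl⟩ := Finset.mem_image.1 hg
      rw [eval₂_mul, h p hp, zero_mul]

end Pool.Agent.Work.MP_e97a4d_nt.Hyp
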