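import Pool.Agent.Work.MP_e97a4d_nt.Hyp.Final0Defs
import Pool.Agent.Work.MP_e97a4d_nt.Hyp.Emb2
import Pool.Agent.Work.MP_e97a4d_nt.Hyp.Bridge
import Pool.Agent.Work.MP_e97a4d_nt.Hyp.Coord

/-!
Reduction to smooth hypersurfaces with empty exceptional set.
-/

set_option autoImplicit false

noncomputable section

namespace Pool.Agent.Work.MP_e97a4d_nt.Hyp

open AlgebraicGeometry CategoryTheory IsDedekindDomain NumberField Filter
open HomogeneousLocalization
open Pool.Agent.Work.MP_e97a4d_nt Pool.Agent.Work.MP_e97a4d_nt.Sep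
open Pool.Agent.Work.MP_e97a4d_nt.Sep.PSpace Pool.Agent.Work.MP_e97a4d_nt.Vp Bk

attribute [local instance] MvPolynomial.gradedAlgebra

variable {F₀ : Type} [Field F₀] {m : ℕ}

/-- condition (i) with the normalisation `u_a = 1` -/
def CurveSA (σ : F₀ →+* ℂ) (a : Fin (m + 1)) (s : ℕ) (E : Finset (MvPolynomial (Fin (m + 1)) (𝓞 F₀))) :
    Prop :=
  ∀ u ∈ CPtsA a s E (rhoM σ) VM, ∀ j, u j ∈ Set.range (algebraMap ℂ Mero)

/-- condition (ii) with the normalisation `u_a = 1` -/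
def PointSA (a : Fin (m + 1)) (s : ℕ) (E : Finset (MvPolynomial (Fin (m + 1)) (𝓞 F₀))) : Prop :=
  ∀ (F : Type) [Field F] [NumberField F] [Algebra F₀ F] (T : Finset (HeightOneSpectrum (𝓞 F))),
    (CPtsA a s E (rhoF F₀ F) (VF F T)).Finite

theorem comp_swap_swap {K : Type} (a : Fin (m + 1)) (v : Fin (m + 1) → K) :
    (v ∘ Equiv.swap 0 a) ∘ Equiv.swap 0 a = v := by
  funext i
  simp

theorem mem_swapSys' (a : Fin (m + 1)) {s : ℕ} (hs : s ≤ m) (ha : (a : ℕ) ≤ s)
    (E : Finset (MvPolynomial (Fin (m + 1)) (𝓞 F₀)))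
    {K : Type} [Field K] (ρ : 𝓞 F₀ →+* K) (𝒱 : Set (ValuationSubring K)) (u : Fin (m + 1) → K)
    (hu : u ∈ CPtsA a s E ρ 𝒱) : u ∘ Equiv.swap 0 a ∈ CPts (swapSys a hs E) ρ 𝒱 := by
  have h := mem_swapSys a hs ha E ρ 𝒱 (u ∘ Equiv.swap 0 a)
  rw [comp_swap_swap] at h
  exact h.2 hu

theorem curveS_swap (σ : F₀ →+* ℂ) (a : Fin (m + 1)) {s : ℕ} (hs : s ≤ m) (ha : (a : ℕ) ≤ s)
    (E : Finset (MvPolynomial (Fin (m + 1)) (𝓞 F₀))) :
    CurveS σ (swapSys a hs E) ↔ CurveSA σ a s E := by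
  constructor
  · intro H u hu j
    have h1 := H (u ∘ Equiv.swap 0 a) (mem_swapSys' a hs ha E _ _ u hu) (Equiv.swap 0 a j)
    have h2 : (u ∘ Equiv.swap 0 a) (Equiv.swap 0 a j) = u j := congrFun (comp_swap_swap a u) j
    rw [← h2]
    exact h1
  · intro H u hu j
    have h1 := H (u ∘ Equiv.swap 0 a) ((mem_swapSys a hs ha E _ _ _).1 hu) (Equiv.swap 0 a j)
    have h2 : (u ∘ Equiv.swap 0 a) (Equiv.swap 0 a j) = u j := congrFun (comp_swap_swap a u) j
    rw [← h2]
    exact h1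

theorem pointS_swap (a : Fin (m + 1)) {s : ℕ} (hs : s ≤ m) (ha : (a : ℕ) ≤ s)
    (E : Finset (MvPolynomial (Fin (m + 1)) (𝓞 F₀))) :
    PointS (swapSys a hs E) ↔ PointSA a s E := by
  constructor
  · intro H F _ _ _ T
    refine Set.Finite.of_injOn (f := fun u => u ∘ Equiv.swap 0 a) ?_ ?_ (H F T)
    · intro u hu
      exact mem_swapSys' a hs ha E _ _ u hu
    · intro u _ v _ huv
      rw [← comp_swap_swap a u, ← comp_swap_swap a v]
      exact congrArg (fun w => w ∘ Equiv.swap 0 a) huv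
  · intro H F _ _ _ T
    refine Set.Finite.of_injOn (f := fun u => u ∘ Equiv.swap 0 a) ?_ ?_ (H F T)
    · intro u hu
      exact (mem_swapSys a hs ha E _ _ _).1 hu
    · intro u _ v _ huv
      rw [← comp_swap_swap a u, ← comp_swap_swap a v]
      exact congrArg (fun w => w ∘ Equiv.swap 0 a) huv

theorem swapSys_one (a : Fin (m + 1)) {s : ℕ} (hs : s ≤ m) (f : MvPolynomial (Fin (m + 1)) (𝓞 F₀)) :
    swapSys a hs {f} = oneSys hs (MvPolynomial.rename (Equiv.swap 0 a) f) := by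
  classical
  unfold swapSys oneSys
  rw [Finset.image_singleton]

theorem curveCond0_iff (σ : F₀ →+* ℂ) {s : ℕ} (hs : s ≤ m) (f : MvPolynomial (Fin (m + 1)) (𝓞 F₀)) :
    CurveCond0 σ s f ↔ ∀ a : Fin (m + 1), (a : ℕ) ≤ s → CurveSA σ a s {f} := by
  have h2 : ∀ a : Fin (m + 1), (a : ℕ) ≤ s → ∀ k : Fin (m + 1),
      ((Equiv.swap 0 a k : Fin (m + 1)) : ℕ) ≤ s ↔ (k : ℕ) ≤ s := by
    intro a ha k
    by_cases hk0 : k = 0
    · subst hk0
      rw [Equiv.swap_apply_left]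
      exact ⟨fun _ => Nat.zero_le _, fun _ => ha⟩
    · by_cases hka : k = a
      · subst hka
        rw [Equiv.swap_apply_right]
        exact ⟨fun _ => ha, fun _ => Nat.zero_le _⟩
      · rw [Equiv.swap_apply_of_ne_of_ne hk0 hka]
  have h1 : ∀ a : Fin (m + 1), (a : ℕ) ≤ s →
      (CurveSA σ a s {f} ↔ CurveCond σ s (MvPolynomial.rename (Equiv.swap 0 a) f)) := by
    intro a ha
    rw [← curveS_swap σ a hs ha, swapSys_one, curveCond_iff σ hs]
  constructor
  · intro H a ha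
    rw [h1 a ha]
    intro u hu hf ho k
    have h3 := H a (u ∘ Equiv.swap 0 a) ha (fun k => hu _) (by
      filter_upwards [hf] with z hz
      refine ⟨?_, ?_⟩
      · show u (Equiv.swap 0 a a) z = 1
        rw [Equiv.swap_apply_right]
        exact hz.1
      · have h4 := hz.2
        rw [MvPolynomial.eval₂_rename] at h4
        exact h4) (by
      intro z j
      obtain ⟨k, hk, hk'⟩ := ho z (Equiv.swap 0 a j)
      refine ⟨Equiv.swap 0 a k, (h2 a ha k).2 hk, ?_⟩
      show meromorphicOrderAt (u (Equiv.swap 0 a (Equiv.swap 0 a k))) z ≤ _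
      rw [Equiv.swap_apply_self]
      exact hk') (Equiv.swap 0 a k)
    have h4 : (u ∘ Equiv.swap 0 a) (Equiv.swap 0 a k) = u k := congrFun (comp_swap_swap a u) k
    rw [h4] at h3
    exact h3
  · intro H a u ha hu hf ho k
    have h3 := (h1 a ha).1 (H a ha) (u ∘ Equiv.swap 0 a) (fun k => hu _) (by
      filter_upwards [hf] with z hz
      refine ⟨?_, ?_⟩
      · show u (Equiv.swap 0 a 0) z = 1
        rw [Equiv.swap_apply_left]
        exact hz.1
      · rw [MvPolynomial.eval₂_rename]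
        have h4 : ((fun k => (u ∘ Equiv.swap 0 a) k z) ∘ Equiv.swap 0 a) = fun k => u k z := by
          funext i
          simp
        rw [h4]
        exact hz.2) (by
      intro z j
      obtain ⟨k, hk, hk'⟩ := ho z (Equiv.swap 0 a j)
      refine ⟨Equiv.swap 0 a k, (h2 a ha k).2 hk, ?_⟩
      show meromorphicOrderAt (u (Equiv.swap 0 a (Equiv.swap 0 a k))) z ≤ _
      rw [Equiv.swap_apply_self]
      exact hk') (Equiv.swap 0 a k)
    have h4 : (u ∘ Equiv.swap 0 a) (Equiv.swap 0 a k) = u k := congrFun (comp_swap_swap a u) k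
    rw [h4] at h3
    exact h3

theorem pointCond0_iff {s : ℕ} (f : MvPolynomial (Fin (m + 1)) (𝓞 F₀)) :
    PointCond0 s f ↔ ∀ a : Fin (m + 1), (a : ℕ) ≤ s → PointSA a s {f} := by
  have key : ∀ (F : Type) [Field F] [NumberField F] [Algebra F₀ F]
      (T : Finset (HeightOneSpectrum (𝓞 F))),
      {u : Fin (m + 1) → F | (∃ a : Fin (m + 1), (a : ℕ) ≤ s ∧ u a = 1) ∧
          f.eval₂ ((algebraMap F₀ F).comp (algebraMap (𝓞 F₀) F₀)) u = 0 ∧
          ∀ v ∉ T, ∀ j : Fin (m + 1), ∃ k : Fin (m + 1), (k : ℕ) ≤ s ∧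
            v.valuation F (u j) ≤ v.valuation F (u k)} =
        ⋃ a : {a : Fin (m + 1) // (a : ℕ) ≤ s}, CPtsA a.1 s {f} (rhoF F₀ F) (VF F T) := by
    intro F _ _ _ T
    ext u
    rw [Set.mem_iUnion]
    constructor
    · rintro ⟨⟨a, ha, h1⟩, h2, h3⟩
      refine ⟨⟨a, ha⟩, h1, ?_, ?_⟩
      · intro e he
        rw [Finset.mem_singleton.1 he]
        exact h2
      · rintro O ⟨v, hv, rfl⟩ j
        obtain ⟨k, hk, hk2⟩ := h3 v hv j
        exact ⟨k, hk, ((v.valuation F).isEquiv_valuation_valuationSubring _ _).1 hk2⟩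
    · rintro ⟨⟨a, ha⟩, h1, h2, h3⟩
      refine ⟨⟨a, ha, h1⟩, h2 f (Finset.mem_singleton_self f), ?_⟩
      intro v hv j
      obtain ⟨k, hk, hk2⟩ := h3 _ ⟨v, hv, rfl⟩ j
      exact ⟨k, hk, ((v.valuation F).isEquiv_valuation_valuationSubring _ _).2 hk2⟩
  constructor
  · intro H a ha F _ _ _ T
    have h1 := H F T
    rw [key F T] at h1
    exact h1.subset (Set.subset_iUnion (fun a : {a : Fin (m + 1) // (a : ℕ) ≤ s} =>
      CPtsA a.1 s {f} (rhoF F₀ F) (VF F T)) ⟨a, ha⟩)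
  · intro H F _ _ _ T
    rw [key F T]
    exact Set.finite_iUnion fun a => H a.1 a.2 F T

theorem noCurve_iff' (σ : F₀ →+* ℂ) {V : Scheme.{0}} {k : V ⟶ PS F₀ m} {s : ℕ}
    {E : Finset (MvPolynomial (Fin (m + 1)) (𝓞 F₀))} (h : Emb k s E) (hs : s ≤ m)
    (hE : ∀ e ∈ E, ∃ d, e.IsHomogeneous d) :
    NoCurve σ (k ≫ psStr F₀ m) ↔ ∀ a : Fin (m + 1), (a : ℕ) ≤ s → CurveSA σ a s E := by
  rw [noCurve_iff σ h hs hE]
  exact forall_congr' fun a => forall_congr' fun ha => curveS_swap σ a hs ha E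

theorem finPts_iff' [NumberField F₀] {V : Scheme.{0}} {k : V ⟶ PS F₀ m} {s : ℕ}
    {E : Finset (MvPolynomial (Fin (m + 1)) (𝓞 F₀))} (h : Emb k s E) (hs : s ≤ m)
    (hE : ∀ e ∈ E, ∃ d, e.IsHomogeneous d) :
    FinPts (k ≫ psStr F₀ m) ↔ ∀ a : Fin (m + 1), (a : ℕ) ≤ s → PointSA a s E := by
  rw [finPts_iff h hs hE]
  exact forall_congr' fun a => forall_congr' fun ha => pointS_swap a hs ha E

theorem const_of_ratioConst {u : Fin (m + 1) → Mero} {a : Fin (m + 1)} (h : RatioConst u)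
    (h0 : u a = 1) : ∀ j, u j ∈ Set.range (algebraMap ℂ Mero) := by
  obtain ⟨g, c, hc⟩ := h
  have h1 : algebraMap ℂ Mero (c a) * g = 1 := by
    rw [← Algebra.smul_def, ← hc a, h0]
  have h4 : g = (algebraMap ℂ Mero (c a))⁻¹ := eq_inv_of_mul_eq_one_right h1
  intro j
  refine ⟨c j / c a, ?_⟩
  rw [hc j, Algebra.smul_def, map_div₀, h4, div_eq_mul_inv]

/-- a smooth hypersurface containing a given variety, with the same nonconstant curves -/
theorem exists_hyp0 [NumberField F₀] (σ : F₀ →+* ℂ) (Δ : ℕ → ℕ) (M s s' : ℕ) (hs : s ≤ M)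
    (hs' : s' = s ∨ (s = M ∧ s' = 2 * M + 1))
    (E : Finset (MvPolynomial (Fin (M + 1)) (𝓞 F₀))) (hE : ∀ e ∈ E, ∃ d, e.IsHomogeneous d) :
    ∃ f : MvPolynomial (Fin (2 * M + 1 + 1)) (𝓞 F₀), IsGood0 σ Δ (2 * M + 1) s' f ∧
      ((∀ a : Fin (M + 1), (a : ℕ) ≤ s → CurveSA σ a s E) → CurveCond0 σ s' f) ∧
      (PointCond0 s' f → ∀ a : Fin (M + 1), (a : ℕ) ≤ s → PointSA a s E) := by
  classical
  obtain ⟨e, E', he, hE', hEE⟩ := homog0 E hE
  obtain ⟨d, f, ι, hι, G, hd, hfd, hsm, hG, hGE, hGf, hcurve⟩ :=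
    thmA0 σ (Δ (2 * M + 1)) M e he E' hE'
  have hs'M : s' ≤ 2 * M + 1 := by omega
  have hgood : IsGood0 σ Δ (2 * M + 1) s' f := by
    refine ⟨hs'M, ⟨d, hd, hfd⟩, hsm ∅ (by simp), ?_⟩
    rcases hs' with h | ⟨h, h'⟩
    · refine hsm _ fun t ht => ?_
      have h2 : (t : ℕ) ≤ s' := ht
      omega
    · intro x hx _
      funext k
      refine hx k ?_
      have := k.2
      show (k : ℕ) ≤ s'
      omega
  refine ⟨f, hgood, ?_, ?_⟩
  · intro H
    rw [curveCond0_iff σ hs'M]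
    intro a ha u hu
    obtain ⟨hu0, huE, huv⟩ := hu
    have hfu : f.eval₂ (rhoM σ) u = 0 := huE f (Finset.mem_singleton_self _)
    by_cases hr : RatioConst u
    · exact const_of_ratioConst hr hu0
    · have hune : u ≠ 0 := by
        intro h
        rw [h] at hu0
        exact zero_ne_one hu0
      obtain ⟨hbig, hE0⟩ := (hGE Mero (rhoM σ) u hune).1 (hcurve u hr hfu)
      have haM : (a : ℕ) ≤ M := by
        by_contra hcon
        rw [hbig a (by omega)] at hu0
        exact zero_ne_one hu0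
      have haS : (a : ℕ) ≤ s := by
        rcases hs' with h | ⟨h, h'⟩ <;> omega
      have hlow : low u ⟨a, by omega⟩ = 1 := hu0
      have hlne : low u ≠ 0 := by
        intro h
        rw [h] at hlow
        exact zero_ne_one hlow
      have h4 : low u ∈ CPtsA (⟨a, by omega⟩ : Fin (M + 1)) s E (rhoM σ) VM := by
        refine ⟨hlow, (hEE Mero (rhoM σ) (low u) hlne).1 hE0, ?_⟩
        intro O hO j
        rcases hs' with h | ⟨h, h'⟩
        · obtain ⟨k, hk, hv⟩ := huv O hO (Fin.castLE (show M + 1 ≤ 2 * M + 1 + 1 by omega) j)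
          exact ⟨⟨k, by omega⟩, by show (k : ℕ) ≤ s; omega, hv⟩
        · exact ⟨j, by have := j.2; omega, le_rfl⟩
      have h5 := H ⟨a, by omega⟩ haS (low u) h4
      intro j
      by_cases hj : (j : ℕ) < M + 1
      · exact h5 ⟨j, hj⟩
      · refine ⟨0, ?_⟩
        rw [map_zero]
        exact (hbig j (by omega)).symm
  · intro H a ha F _ _ _ T
    rw [pointCond0_iff] at H
    have hss : s ≤ s' := by omega
    let a' : Fin (2 * M + 1 + 1) := Fin.castLE (by omega) a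
    refine Set.Finite.of_injOn (f := coord_ext) ?_ (coord_ext_inj.injOn) (H a' (by
      show (a : ℕ) ≤ s'; omega) F T)
    intro w hw
    obtain ⟨hw0, hwE, hwv⟩ := hw
    have h0 : coord_ext w a' = 1 := by rw [coord_ext_small]; exact hw0
    have hne : coord_ext w ≠ 0 := by
      intro h
      rw [h] at h0
      exact zero_ne_one h0
    have hwne : w ≠ 0 := by
      intro h
      rw [h] at hw0
      exact zero_ne_one hw0
    refine ⟨h0, ?_, ?_⟩
    · intro g hg
      rw [Finset.mem_singleton.1 hg]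
      apply hGf
      rw [hGE F (rhoF F₀ F) (coord_ext w) hne]
      refine ⟨fun k hk => coord_ext_big w k hk, ?_⟩
      rw [coord_low_ext]
      exact (hEE F (rhoF F₀ F) w hwne).2 hwE
    · intro O hO j
      by_cases hj : (j : ℕ) < M + 1
      · obtain ⟨k, hk, hv⟩ := hwv O hO ⟨j, hj⟩
        refine ⟨Fin.castLE (show M + 1 ≤ 2 * M + 1 + 1 by omega) k, ?_, ?_⟩
        · exact le_trans hk hss
        · have h1 : coord_ext w j = w ⟨j, hj⟩ := coord_ext_small w ⟨j, hj⟩
          have h2 : coord_ext w (Fin.castLE (show M + 1 ≤ 2 * M + 1 + 1 by omega) k) = w k :=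
            coord_ext_small w k
          rw [h1]
          exact hv.trans (le_of_eq (congrArg _ h2.symm))
      · refine ⟨0, Nat.zero_le _, ?_⟩
        have h1 : coord_ext w j = 0 := coord_ext_big w j (by omega)
        rw [h1, map_zero]
        exact zero_le

end Pool.Agent.Work.MP_e97a4d_nt.Hyp
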