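import Pool.Agent.Work.MP_e97a4d_nt.Hyp.FinalDefs

/-!
The two conditions for a form `f` when the exceptional set is empty, in coordinates.
-/

set_option autoImplicit false

noncomputable section

namespace Pool.Agent.Work.MP_e97a4d_nt.Hyp

open AlgebraicGeometry IsDedekindDomain NumberField Filter

variable {F₀ : Type} [Field F₀]

attribute [local instance] MvPolynomial.gradedAlgebra

/-- The complement of the linear subspace `x_0 = ... = x_s = 0` of `P^m`: the open subscheme where one of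
the coordinates `x_0, ..., x_s` does not vanish. -/
def linCompl (F₀ : Type) [Field F₀] (m s : ℕ) : (Sep.PS F₀ m).Opens :=
  ⨆ k : {k : Fin (m + 1) // (k : ℕ) ≤ s},
    Proj.basicOpen (MvPolynomial.homogeneousSubmodule (Fin (m + 1)) (𝓞 F₀)) (MvPolynomial.X k.1)

/-- `f` is a form of degree `>= Δ m` in `x_0, ..., x_m` such that the hypersurface `f = 0` and its
section by `x_0 = ... = x_s = 0` are smooth. -/
structure IsGood0 (σ : F₀ →+* ℂ) (Δ : ℕ → ℕ) (m s : ℕ) (f : MvPolynomial (Fin (m + 1)) (𝓞 F₀)) :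
    Prop where
  hs : s ≤ m
  deg : ∃ d, Δ m ≤ d ∧ f.IsHomogeneous d
  smooth : SmoothOn σ f ∅
  smooth_s : SmoothOn σ f {k | (k : ℕ) ≤ s}

/-- Every solution `u` of `f(u) = 0` in meromorphic functions on `ℂ`, normalised by `u_a = 1` for some
`a <= s`, such that at every point `z` the minimum of the orders of the `u_j` is attained for some
`j <= s`, is constant. -/
def CurveCond0 (σ : F₀ →+* ℂ) {m : ℕ} (s : ℕ) (f : MvPolynomial (Fin (m + 1)) (𝓞 F₀)) : Prop :=
  ∀ (a : Fin (m + 1)) (u : Fin (m + 1) → ℂ → ℂ), (a : ℕ) ≤ s → (∀ k, Meromorphic (u k)) →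
    (∀ᶠ z in codiscrete ℂ, u a z = 1 ∧
      f.eval₂ (σ.comp (algebraMap (𝓞 F₀) F₀)) (fun k => u k z) = 0) →
    (∀ (z : ℂ) (j : Fin (m + 1)), ∃ k : Fin (m + 1), (k : ℕ) ≤ s ∧
      meromorphicOrderAt (u k) z ≤ meromorphicOrderAt (u j) z) →
    ∀ k, ∃ c : ℂ, ∀ᶠ z in codiscrete ℂ, u k z = c

/-- For all finite extensions `F` of `F₀` and all finite sets `S` of places, there are only finitely many
solutions `u` of `f(u) = 0` in `F`, normalised by `u_a = 1` for some `a <= s`, such that for every `v`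
outside `S` the maximum of the `|u_j|_v` is attained for some `j <= s`. -/
def PointCond0 {m : ℕ} (s : ℕ) (f : MvPolynomial (Fin (m + 1)) (𝓞 F₀)) : Prop :=
  ∀ (F : Type) [Field F] [NumberField F] [Algebra F₀ F] (S : Finset (HeightOneSpectrum (𝓞 F))),
    {u : Fin (m + 1) → F | (∃ a : Fin (m + 1), (a : ℕ) ≤ s ∧ u a = 1) ∧
      f.eval₂ ((algebraMap F₀ F).comp (algebraMap (𝓞 F₀) F₀)) u = 0 ∧
      ∀ v ∉ S, ∀ j : Fin (m + 1), ∃ k : Fin (m + 1), (k : ℕ) ≤ s ∧
        v.valuation F (u j) ≤ v.valuation F (u k)}.Finite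

end Pool.Agent.Work.MP_e97a4d_nt.Hyp
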