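import Pool.Agent.Work.MP_e97a4d_nt.Hyp.CoordDefs

/-!
The two conditions for one form `f`, in coordinates.
-/

set_option autoImplicit false

noncomputable section

namespace Pool.Agent.Work.MP_e97a4d_nt.Hyp

open IsDedekindDomain NumberField Filter

variable {F₀ : Type} [Field F₀]

/-- Every solution `u` of `f(u) = 0`, `u_0 = 1` in meromorphic functions on `ℂ`, such that at every point
`z` the minimum of the orders of the `u_j` is attained for some `j <= s`, is constant. -/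
def CurveCond (σ : F₀ →+* ℂ) {m : ℕ} (s : ℕ) (f : MvPolynomial (Fin (m + 1)) (𝓞 F₀)) : Prop :=
  ∀ u : Fin (m + 1) → ℂ → ℂ, (∀ k, Meromorphic (u k)) →
    (∀ᶠ z in codiscrete ℂ, u 0 z = 1 ∧
      f.eval₂ (σ.comp (algebraMap (𝓞 F₀) F₀)) (fun k => u k z) = 0) →
    (∀ (z : ℂ) (j : Fin (m + 1)), ∃ k : Fin (m + 1), (k : ℕ) ≤ s ∧
      meromorphicOrderAt (u k) z ≤ meromorphicOrderAt (u j) z) →
    ∀ k, ∃ c : ℂ, ∀ᶠ z in codiscrete ℂ, u k z = c

/-- For all finite extensions `F` of `F₀` and all finite sets `S` of places, there are only finitely many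
solutions `u` of `f(u) = 0`, `u_0 = 1` in `F` such that for every `v` outside `S` the maximum of the
`|u_j|_v` is attained for some `j <= s`. -/
def PointCond {m : ℕ} (s : ℕ) (f : MvPolynomial (Fin (m + 1)) (𝓞 F₀)) : Prop :=
  ∀ (F : Type) [Field F] [NumberField F] [Algebra F₀ F] (S : Finset (HeightOneSpectrum (𝓞 F))),
    {u : Fin (m + 1) → F | u 0 = 1 ∧
      f.eval₂ ((algebraMap F₀ F).comp (algebraMap (𝓞 F₀) F₀)) u = 0 ∧
      ∀ v ∉ S, ∀ j : Fin (m + 1), ∃ k : Fin (m + 1), (k : ℕ) ≤ s ∧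
        v.valuation F (u j) ≤ v.valuation F (u k)}.Finite

end Pool.Agent.Work.MP_e97a4d_nt.Hyp
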