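import Mathlib

set_option autoImplicit false

noncomputable section

namespace Pool.Agent.Work.MP_e97a4d_nt.Hyp

open Metric Real

private lemma gr_norm_circleAverage_le {u : ℂ → ℂ} {R : ℝ} :
    ‖circleAverage u 0 R‖ ≤ circleAverage (fun z => ‖u z‖) 0 R := by
  rw [circleAverage_def, circleAverage_def, norm_smul, Real.norm_of_nonneg (by positivity),
    smul_eq_mul]
  exact mul_le_mul_of_nonneg_left
    (intervalIntegral.norm_integral_le_integral_norm Real.two_pi_pos.le) (by positivity)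

/-- Bound for the logarithmic derivative of a zero-free holomorphic function. -/
theorem norm_logDeriv_le {r ρ : ℝ} (hr : 0 ≤ r) (hρ : r < ρ) {g : ℂ → ℂ}
    (hg : AnalyticOnNhd ℂ g (closedBall 0 ρ)) (h0 : ∀ z ∈ closedBall (0 : ℂ) ρ, g z ≠ 0) {z : ℂ}
    (hz : ‖z‖ ≤ r) :
    ‖logDeriv g z‖ ≤ 64 * ρ / (ρ - r) ^ 2 * circleAverage (fun w => |Real.log ‖g w‖|) 0 ρ := by
  have hρ0 : 0 < ρ := hr.trans_lt hρ
  have hzb : z ∈ ball (0 : ℂ) ρ := by rw [mem_ball_zero_iff]; linarith
  have huc : ContinuousOn (fun w => Real.log ‖g w‖) (closedBall 0 ρ) := by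
    apply ContinuousOn.log
    · exact hg.continuousOn.norm
    · intro w hw
      exact norm_ne_zero_iff.2 (h0 w hw)
  have hucs : ContinuousOn (fun w => Real.log ‖g w‖) (sphere 0 ρ) := huc.mono sphere_subset_closedBall
  set u : ℂ → ℂ := fun w => ((Real.log ‖g w‖ : ℝ) : ℂ) with hu
  have hui : CircleIntegrable u 0 ρ :=
    (Complex.continuous_ofReal.comp_continuousOn hucs).circleIntegrable hρ0.le
  have hui' : CircleIntegrable (fun w => |Real.log ‖g w‖|) 0 ρ :=
    (hucs.abs).circleIntegrable hρ0.le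
  set F : ℂ → ℂ := fun w ↦ circleAverage (fun ζ ↦ herglotzRieszKernel 0 w ζ • u ζ) 0 ρ with hF
  have hFd := fun w (hw : w ∈ ball (0 : ℂ) ρ) =>
    hasDerivAt_circleAverage_herglotzRieszKernel_smul hui hw
  have hre : ∀ w ∈ ball (0 : ℂ) ρ, (F w).re = Real.log ‖g w‖ := by
    intro w hw
    rw [← InnerProductSpace.HarmonicOnNhd.circleAverage_re_herglotzRieszKernel_smul
      (f := fun w => Real.log ‖g w‖)
      (fun x hx ↦ (hg x hx).harmonicAt_log_norm (h0 x hx)) hw]
    exact re_circleAverage_herglotzRieszKernel_smul (hucs.circleIntegrable hρ0.le) hw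
  set h : ℂ → ℂ := fun w => Complex.exp (F w) / g w with hh
  have hhn : ∀ w ∈ ball (0 : ℂ) ρ, ‖h w‖ = 1 := by
    intro w hw
    rw [hh]
    simp only
    rw [norm_div, Complex.norm_exp, hre w hw, Real.exp_log, div_self]
    · exact norm_ne_zero_iff.2 (h0 w (ball_subset_closedBall hw))
    · exact norm_pos_iff.2 (h0 w (ball_subset_closedBall hw))
  have hhd : ∀ w ∈ ball (0 : ℂ) ρ, HasDerivAt h
      (h w * (circleAverage (fun ζ ↦ (2 * ζ / (ζ - w) ^ 2) • u ζ) 0 ρ - logDeriv g w)) w := by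
    intro w hw
    have hgw : g w ≠ 0 := h0 w (ball_subset_closedBall hw)
    have h1 := (hFd w hw).cexp
    have h2 := (hg w (ball_subset_closedBall hw)).differentiableAt.hasDerivAt
    have h3 := h1.div h2 hgw
    refine HasDerivAt.congr_deriv h3 ?_
    rw [logDeriv_apply, hh]
    simp only
    field_simp
    ring
  have hloc : h =ᶠ[nhds z] fun _ => h z := by
    apply Complex.eventually_eq_of_isLocalMax_norm
    · filter_upwards [isOpen_ball.mem_nhds hzb] with w hw
      exact (hhd w hw).differentiableAt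
    · filter_upwards [isOpen_ball.mem_nhds hzb] with w hw
      simp only [Function.comp]
      rw [hhn w hw, hhn z hzb]
  have hd0 : h z * (circleAverage (fun ζ ↦ (2 * ζ / (ζ - z) ^ 2) • u ζ) 0 ρ - logDeriv g z) = 0 := by
    rw [← (hhd z hzb).deriv, hloc.deriv_eq]
    simp
  have hhz : h z ≠ 0 := by
    intro h1
    have := hhn z hzb
    rw [h1] at this
    simp at this
  have heq : logDeriv g z = circleAverage (fun ζ ↦ (2 * ζ / (ζ - z) ^ 2) • u ζ) 0 ρ := by
    rcases mul_eq_zero.1 hd0 with h1 | h1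
    · exact absurd h1 hhz
    · exact (sub_eq_zero.1 h1).symm
  have hpos : 0 < ρ - r := by linarith
  have hA : 0 ≤ circleAverage (fun w => |Real.log ‖g w‖|) 0 ρ :=
    circleAverage_nonneg_of_nonneg fun w _ => abs_nonneg _
  rw [heq]
  have hb : circleAverage (fun ζ => ‖(2 * ζ / (ζ - z) ^ 2) • u ζ‖) 0 ρ ≤
      circleAverage (fun ζ => (2 * ρ / (ρ - r) ^ 2) • |Real.log ‖g ζ‖|) 0 ρ := by
    have hne : ∀ ζ ∈ sphere (0 : ℂ) ρ, ζ - z ≠ 0 := by
      intro ζ hζ h1
      rw [mem_sphere_zero_iff_norm] at hζ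
      rw [sub_eq_zero.1 h1] at hζ
      linarith
    apply circleAverage_mono
    · apply ContinuousOn.circleIntegrable hρ0.le
      apply ContinuousOn.norm
      have h1 : ContinuousOn (fun x : ℂ => 2 * x / (x - z) ^ 2) (sphere 0 ρ) := by
        apply ContinuousOn.div (by fun_prop) (by fun_prop)
        intro ζ hζ
        exact pow_ne_zero 2 (hne ζ hζ)
      exact h1.fun_smul (Complex.continuous_ofReal.comp_continuousOn hucs)
    · exact (continuousOn_const.fun_smul hucs.abs).circleIntegrable hρ0.le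
    · intro ζ hζ
      rw [abs_of_pos hρ0] at hζ
      rw [norm_smul, smul_eq_mul]
      have h1 : ‖u ζ‖ = |Real.log ‖g ζ‖| := by
        rw [hu]
        simp only
        rw [Complex.norm_real, Real.norm_eq_abs]
      rw [h1]
      apply mul_le_mul_of_nonneg_right _ (abs_nonneg _)
      rw [norm_div, norm_mul, norm_pow, Complex.norm_ofNat, mem_sphere_zero_iff_norm.1 hζ]
      have h2 : ρ - r ≤ ‖ζ - z‖ := by
        have h3 := norm_sub_norm_le ζ z
        rw [mem_sphere_zero_iff_norm.1 hζ] at h3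
        linarith
      exact div_le_div_of_nonneg_left (by positivity) (by positivity)
        (pow_le_pow_left₀ hpos.le h2 2)
  have hb2 : circleAverage (fun ζ => (2 * ρ / (ρ - r) ^ 2) • |Real.log ‖g ζ‖|) 0 ρ =
      (2 * ρ / (ρ - r) ^ 2) * circleAverage (fun w => |Real.log ‖g w‖|) 0 ρ := by
    rw [circleAverage_fun_smul, smul_eq_mul]
  refine gr_norm_circleAverage_le.trans (hb.trans ?_)
  rw [hb2]
  apply mul_le_mul_of_nonneg_right _ hA
  apply div_le_div_of_nonneg_right _ (by positivity)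
  linarith

end Pool.Agent.Work.MP_e97a4d_nt.Hyp
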