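import Pool.Agent.Work.MP_e97a4d_nt.Hyp.Defs

set_option autoImplicit false

noncomputable section

namespace Pool.Agent.Work.MP_e97a4d_nt.Hyp

open AlgebraicGeometry CategoryTheory IsDedekindDomain NumberField

variable {F₀ : Type} [Field F₀] {V V' : Scheme.{0}}

/-- A finite affine open cover `Spec (A w)` of `V` and a finite family of affine locally closed
subschemes `Spec (C l)` covering the complement of `V'`, each of which is contained in the charts with
index in `idx l` and disjoint from the others. -/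
structure Pieces (π : V ⟶ Sep.SpO F₀) (i : V' ⟶ V) where
  W : Type
  fW : Fintype W
  dW : DecidableEq W
  A : W → CommRingCat.{0}
  j : ∀ w, Spec (A w) ⟶ V
  oj : ∀ w, IsOpenImmersion (j w)
  cstA : ∀ w, 𝓞 F₀ →+* A w
  cstA_eq : ∀ w, j w ≫ π = Spec.map (CommRingCat.ofHom (cstA w))
  ftA : ∀ w, (cstA w).FiniteType
  cover : ∀ v : V, ∃ w, v ∈ Set.range (j w)
  L : Type
  fL : Finite L
  C : L → CommRingCat.{0}
  ι : ∀ l, Spec (C l) ⟶ V
  cst : ∀ l, 𝓞 F₀ →+* C l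
  cst_eq : ∀ l, ι l ≫ π = Spec.map (CommRingCat.ofHom (cst l))
  ft : ∀ l, (cst l).FiniteType
  idx : L → Finset W
  idx_ne : ∀ l, (idx l).Nonempty
  α : ∀ l, ∀ w ∈ idx l, (A w ⟶ C l)
  comp : ∀ l w (h : w ∈ idx l), Spec.map (α l w h) ≫ j w = ι l
  idx_spec : ∀ l w, w ∉ idx l → ∀ v ∈ Set.range (ι l), v ∉ Set.range (j w)
  mem_iff : ∀ v : V, v ∉ Set.range i ↔ ∃ l, v ∈ Set.range (ι l)
  lift : ∀ l (K : Type) [Field K] (x : Spec (CommRingCat.of K) ⟶ V),
    x (⊥ : PrimeSpectrum K) ∈ Set.range (ι l) → ∃ y : Spec (CommRingCat.of K) ⟶ Spec (C l), y ≫ ι l = x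
  inj : ∀ l (K : Type) [Field K] (y y' : Spec (CommRingCat.of K) ⟶ Spec (C l)),
    y ≫ ι l = y' ≫ ι l → y = y'

end Pool.Agent.Work.MP_e97a4d_nt.Hyp
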