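import Pool.Agent.Work.MP_e97a4d_nt.Hyp.PiecesDefs

set_option autoImplicit false

noncomputable section

namespace Pool.Agent.Work.MP_e97a4d_nt.Hyp

open AlgebraicGeometry CategoryTheory IsDedekindDomain NumberField

/-- the locally closed subscheme `I = 0`, `f ≠ 0` of an affine scheme -/
private theorem piecesEx_affine (A : CommRingCat.{0}) (I : Ideal A) (f : A) :
    ∃ (C : CommRingCat.{0}) (θ : A ⟶ C), θ.hom.FiniteType ∧
      (∀ x : Spec A, x ∈ Set.range (Spec.map θ) ↔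
        (I : Set A) ⊆ x.asIdeal ∧ f ∉ x.asIdeal) ∧
      (∀ (K : Type) [Field K] (φ : A →+* K), (∀ a ∈ I, φ a = 0) → φ f ≠ 0 →
        ∃ φ' : C →+* K, φ'.comp θ.hom = φ) ∧
      ∀ (K : Type) [Field K] (φ φ' : C →+* K), φ.comp θ.hom = φ'.comp θ.hom → φ = φ' := by
  let R := (A : Type) ⧸ I
  let r : R := Ideal.Quotient.mk I f
  let C := Localization.Away r
  refine ⟨CommRingCat.of C, CommRingCat.ofHom ((algebraMap R C).comp (Ideal.Quotient.mk I)),
    ?_, ?_, ?_, ?_⟩
  · refine RingHom.FiniteType.comp ?_ (RingHom.FiniteType.of_surjective _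
      Ideal.Quotient.mk_surjective)
    rw [RingHom.finiteType_algebraMap]
    exact IsLocalization.finiteType_of_monoid_fg (Submonoid.powers r) C
  · intro x
    have h1 : Set.range (PrimeSpectrum.comap (algebraMap R C)) =
        (PrimeSpectrum.basicOpen r : Set (PrimeSpectrum R)) :=
      PrimeSpectrum.localization_away_comap_range C r
    have h2 : Set.range (PrimeSpectrum.comap (Ideal.Quotient.mk I)) =
        PrimeSpectrum.zeroLocus (I : Set A) := by
      have := range_comap_of_surjective R (Ideal.Quotient.mk I) Ideal.Quotient.mk_surjective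
      rw [Ideal.mk_ker] at this
      exact this
    constructor
    · rintro ⟨c, rfl⟩
      have h3 : PrimeSpectrum.comap (algebraMap R C) c ∈
          (PrimeSpectrum.basicOpen r : Set (PrimeSpectrum R)) := by
        rw [← h1]; exact ⟨c, rfl⟩
      have h4 : PrimeSpectrum.comap (Ideal.Quotient.mk I)
          (PrimeSpectrum.comap (algebraMap R C) c) ∈ PrimeSpectrum.zeroLocus (I : Set A) := by
        rw [← h2]; exact ⟨_, rfl⟩
      exact ⟨h4, h3⟩
    · rintro ⟨h3, h4⟩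
      have h5 : x ∈ Set.range (PrimeSpectrum.comap (Ideal.Quotient.mk I)) := by
        rw [h2]; exact h3
      obtain ⟨y, hy⟩ := h5
      have h6 : y ∈ Set.range (PrimeSpectrum.comap (algebraMap R C)) := by
        rw [h1]
        intro h7
        apply h4
        rw [← hy]
        exact h7
      obtain ⟨c, hc⟩ := h6
      refine ⟨c, ?_⟩
      rw [← hy, ← hc]
      rfl
  · intro K _ φ hI hf
    let φ₁ : R →+* K := Ideal.Quotient.lift I φ hI
    have hr : IsUnit (φ₁ r) := by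
      show IsUnit (Ideal.Quotient.lift I φ hI (Ideal.Quotient.mk I f))
      rw [Ideal.Quotient.lift_mk]
      exact IsUnit.mk0 _ hf
    refine ⟨IsLocalization.Away.lift r hr, ?_⟩
    refine RingHom.ext fun a => ?_
    show IsLocalization.Away.lift r hr (algebraMap R C (Ideal.Quotient.mk I a)) = φ a
    rw [IsLocalization.Away.lift_eq]
    rfl
  · intro K _ φ φ' h
    apply IsLocalization.ringHom_ext (Submonoid.powers r)
    apply Ideal.Quotient.ringHom_ext
    exact h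

variable {F₀ : Type} [Field F₀] [NumberField F₀] {V V' : Scheme.{0}}

private theorem piecesEx_data {W : Type} [Fintype W] [DecidableEq W] (A : W → CommRingCat.{0})
    (j : ∀ w, Spec (A w) ⟶ V) (oj : ∀ w, IsOpenImmersion (j w)) (hA : ∀ w, IsNoetherianRing (A w))
    (i : V' ⟶ V) [IsClosedImmersion i] (s : Finset W) (w₀ : W) :
    ∃ (I : Ideal (A w₀)) (G : Finset (A w₀)),
      (∀ x : Spec (A w₀), (I : Set (A w₀)) ⊆ x.asIdeal ↔ ∀ w, w ∉ s → j w₀ x ∉ Set.range (j w)) ∧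
      ∀ x : Spec (A w₀), (∃ f ∈ G, f ∉ x.asIdeal) ↔
        (∀ w ∈ s, j w₀ x ∈ Set.range (j w)) ∧ j w₀ x ∉ Set.range i := by
  classical
  have hopen : ∀ w, IsOpen (Set.range (j w)) := fun w =>
    have := oj w
    (j w).isOpenEmbedding.isOpen_range
  have hcl : IsClosed (Set.range i) := i.isClosedEmbedding.isClosed_range
  have hcont : Continuous (j w₀) := (j w₀).continuous
  have hT : IsClosed (⋂ w ∈ sᶜ, (j w₀ ⁻¹' (Set.range (j w))ᶜ : Set (Spec (A w₀)))) :=
    isClosed_biInter fun w _ => (hopen w).isClosed_compl.preimage hcont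
  obtain ⟨I, hI⟩ := (PrimeSpectrum.isClosed_iff_zeroLocus_ideal _).1 hT
  have hO : IsOpen ((⋂ w ∈ s, (j w₀ ⁻¹' (Set.range (j w)) : Set (Spec (A w₀)))) ∩
      (j w₀ ⁻¹' (Set.range i)ᶜ : Set (Spec (A w₀)))) :=
    (isOpen_biInter_finset fun w _ => (hopen w).preimage hcont).inter
      (hcl.isOpen_compl.preimage hcont)
  have := hA w₀
  have hcpt : IsCompact ((⋂ w ∈ s, (j w₀ ⁻¹' (Set.range (j w)) : Set (Spec (A w₀)))) ∩
      (j w₀ ⁻¹' (Set.range i)ᶜ : Set (Spec (A w₀)))) :=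
    TopologicalSpace.NoetherianSpace.isCompact (α := PrimeSpectrum (A w₀)) _
  obtain ⟨G, hG⟩ := PrimeSpectrum.isCompact_isOpen_iff.1 ⟨hcpt, hO⟩
  refine ⟨I, G, fun x => ?_, fun x => ?_⟩
  · have h1 : (I : Set (A w₀)) ⊆ x.asIdeal ↔
        x ∈ ⋂ w ∈ sᶜ, (j w₀ ⁻¹' (Set.range (j w))ᶜ : Set (Spec (A w₀))) :=
      (Set.ext_iff.1 hI x).symm
    rw [h1]
    simp only [Set.mem_iInter, Finset.mem_compl]
    rfl
  · have h1 : ¬ (G : Set (A w₀)) ⊆ x.asIdeal ↔
        x ∈ (⋂ w ∈ s, (j w₀ ⁻¹' (Set.range (j w)) : Set (Spec (A w₀)))) ∩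
      (j w₀ ⁻¹' (Set.range i)ᶜ : Set (Spec (A w₀))) := Set.ext_iff.1 hG x
    have h2 : (∃ f ∈ G, f ∉ x.asIdeal) ↔ ¬ (G : Set (A w₀)) ⊆ x.asIdeal := by
      rw [Set.not_subset]
      rfl
    rw [h2, h1, Set.mem_inter_iff]
    simp only [Set.mem_iInter]
    rfl

theorem exists_pieces (π : V ⟶ Sep.SpO F₀) [LocallyOfFiniteType π] [QuasiCompact π] (i : V' ⟶ V)
    [IsClosedImmersion i] : Nonempty (Pieces π i) := by
  classical
  have hcpt : CompactSpace V := QuasiCompact.compactSpace_of_compactSpace π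
  let 𝒰 := V.affineOpenCover
  obtain ⟨s, hs⟩ := isCompact_univ.elim_finite_subcover (fun x : 𝒰.I₀ => Set.range (𝒰.f x))
    (fun x => (𝒰.f x).isOpenEmbedding.isOpen_range)
    (fun v _ => Set.mem_iUnion.2 ⟨𝒰.idx v, 𝒰.covers v⟩)
  let W := {x // x ∈ s}
  let A : W → CommRingCat.{0} := fun w => 𝒰.X w.1
  let j : ∀ w, Spec (A w) ⟶ V := fun w => 𝒰.f w.1
  have oj : ∀ w, IsOpenImmersion (j w) := fun w => 𝒰.map_prop w.1
  have hcst : ∀ w, ∃ c : 𝓞 F₀ →+* A w, j w ≫ π = Spec.map (CommRingCat.ofHom c) := by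
    intro w
    obtain ⟨c, hc⟩ := Spec.map_surjective (j w ≫ π)
    exact ⟨c.hom, by rw [← hc]; rfl⟩
  choose cstA cstA_eq using hcst
  have ftA : ∀ w, (cstA w).FiniteType := by
    intro w
    have := oj w
    have hft : LocallyOfFiniteType (Spec.map (CommRingCat.ofHom (cstA w))) := by
      rw [← cstA_eq]; infer_instance
    rw [HasRingHomProperty.Spec_iff (P := @LocallyOfFiniteType)] at hft
    exact hft
  have hA : ∀ w, IsNoetherianRing (A w) := by
    intro w
    let _ : Algebra (𝓞 F₀) (A w) := (cstA w).toAlgebra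
    have : Algebra.FiniteType (𝓞 F₀) (A w) := ftA w
    exact Algebra.FiniteType.isNoetherianRing (𝓞 F₀) (A w)
  have hcover : ∀ v : V, ∃ w, v ∈ Set.range (j w) := by
    intro v
    have h1 := hs (Set.mem_univ v)
    simp only [Set.mem_iUnion] at h1
    obtain ⟨x, hx, hv⟩ := h1
    exact ⟨⟨x, hx⟩, hv⟩
  -- the data of a nonempty set of charts
  let P := {t : Finset W // t.Nonempty}
  let w₀ : P → W := fun p => p.2.choose
  have hw₀ : ∀ p : P, w₀ p ∈ p.1 := fun p => p.2.choose_spec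
  choose I G hI hG using fun p : P => piecesEx_data A j oj hA i p.1 (w₀ p)
  let L := Σ p : P, {f // f ∈ G p}
  choose C θ hθft hθr hθl hθi using fun l : L => piecesEx_affine (A (w₀ l.1)) (I l.1) l.2.1
  let ι : ∀ l, Spec (C l) ⟶ V := fun l => Spec.map (θ l) ≫ j (w₀ l.1)
  have hrange : ∀ (l : L) (v : V), v ∈ Set.range (ι l) ↔
      ∃ x : Spec (A (w₀ l.1)), j (w₀ l.1) x = v ∧ (I l.1 : Set (A (w₀ l.1))) ⊆ x.asIdeal ∧
        l.2.1 ∉ x.asIdeal := by
    intro l v
    constructor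
    · rintro ⟨c, rfl⟩
      exact ⟨Spec.map (θ l) c, rfl, (hθr l _).1 ⟨c, rfl⟩⟩
    · rintro ⟨x, rfl, hx⟩
      obtain ⟨c, rfl⟩ := (hθr l x).2 hx
      exact ⟨c, rfl⟩
  have hr1 : ∀ (l : L) (v : V), v ∈ Set.range (ι l) → (∀ w ∈ l.1.1, v ∈ Set.range (j w)) ∧
      (∀ w, w ∉ l.1.1 → v ∉ Set.range (j w)) ∧ v ∉ Set.range i := by
    intro l v hv
    obtain ⟨x, rfl, hx1, hx2⟩ := (hrange l v).1 hv
    have h1 := (hG l.1 x).1 ⟨l.2.1, l.2.2, hx2⟩
    exact ⟨h1.1, (hI l.1 x).1 hx1, h1.2⟩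
  have hα : ∀ (l : L) (w : W) (_ : w ∈ l.1.1), ∃ α : A w ⟶ C l, Spec.map α ≫ j w = ι l := by
    intro l w hw
    have := oj w
    have h1 : Set.range (ι l) ⊆ Set.range (j w) := fun v hv => (hr1 l v hv).1 w hw
    obtain ⟨α, hα⟩ := Spec.map_surjective (IsOpenImmersion.lift (j w) (ι l) h1)
    exact ⟨α, by rw [hα, IsOpenImmersion.lift_fac]⟩
  refine ⟨{
    W := W
    fW := inferInstance
    dW := inferInstance
    A := A
    j := j
    oj := oj
    cstA := cstA
    cstA_eq := cstA_eq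
    ftA := ftA
    cover := hcover
    L := L
    fL := inferInstance
    C := C
    ι := ι
    cst := fun l => (θ l).hom.comp (cstA (w₀ l.1))
    cst_eq := ?_
    ft := fun l => (hθft l).comp (ftA _)
    idx := fun l => l.1.1
    idx_ne := fun l => l.1.2
    α := fun l w h => (hα l w h).choose
    comp := fun l w h => (hα l w h).choose_spec
    idx_spec := fun l w hw v hv => (hr1 l v hv).2.1 w hw
    mem_iff := ?_
    lift := ?_
    inj := ?_ }⟩
  · intro l
    show (Spec.map (θ l) ≫ j (w₀ l.1)) ≫ π = _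
    rw [Category.assoc, cstA_eq, ← Spec.map_comp]
    rfl
  · intro v
    constructor
    · intro hv
      let t : Finset W := Finset.univ.filter fun w => v ∈ Set.range (j w)
      have ht : t.Nonempty := by
        obtain ⟨w, hw⟩ := hcover v
        exact ⟨w, Finset.mem_filter.2 ⟨Finset.mem_univ w, hw⟩⟩
      let p : P := ⟨t, ht⟩
      obtain ⟨x, hx⟩ := (Finset.mem_filter.1 (hw₀ p)).2
      have h1 : ∃ f ∈ G p, f ∉ x.asIdeal := by
        refine (hG p x).2 ⟨fun w hw => ?_, ?_⟩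
        · rw [hx]
          exact (Finset.mem_filter.1 hw).2
        · rw [hx]
          exact hv
      obtain ⟨f, hf, hfx⟩ := h1
      refine ⟨⟨p, ⟨f, hf⟩⟩, (hrange _ v).2 ⟨x, hx, ?_, hfx⟩⟩
      refine (hI p x).2 fun w hw => ?_
      rw [hx]
      intro h2
      exact hw (Finset.mem_filter.2 ⟨Finset.mem_univ w, h2⟩)
    · rintro ⟨l, hl⟩
      exact (hr1 l v hl).2.2
  · intro l K _ x hx
    have := oj (w₀ l.1)
    obtain ⟨a, ha, ha1, ha2⟩ := (hrange l _).1 hx
    have h1 : Set.range x ⊆ Set.range (j (w₀ l.1)) := by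
      rintro _ ⟨b, rfl⟩
      have hb : b = (⊥ : PrimeSpectrum K) := Subsingleton.elim (α := PrimeSpectrum K) _ _
      rw [hb]
      exact ⟨a, ha⟩
    obtain ⟨φ, hφ⟩ := Spec.map_surjective (IsOpenImmersion.lift (j (w₀ l.1)) x h1)
    have h2 : Spec.map φ ≫ j (w₀ l.1) = x := by rw [hφ, IsOpenImmersion.lift_fac]
    have h3 : Spec.map φ (⊥ : PrimeSpectrum K) = a := by
      apply (j (w₀ l.1)).isOpenEmbedding.injective
      rw [ha, ← h2]
      rfl
    have h4 : ∀ b, φ.hom b = 0 ↔ b ∈ a.asIdeal := by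
      intro b
      rw [← h3]
      rfl
    obtain ⟨φ', hφ'⟩ := hθl l K φ.hom (fun b hb => (h4 b).2 (ha1 hb)) (fun h => ha2 ((h4 _).1 h))
    refine ⟨Spec.map (CommRingCat.ofHom φ'), ?_⟩
    show Spec.map (CommRingCat.ofHom φ') ≫ Spec.map (θ l) ≫ j (w₀ l.1) = x
    rw [← Category.assoc, ← Spec.map_comp, ← h2]
    congr 2
    apply CommRingCat.hom_ext
    exact hφ'
  · intro l K _ y y' h
    have := oj (w₀ l.1)
    obtain ⟨φ, rfl⟩ := Spec.map_surjective y
    obtain ⟨φ', rfl⟩ := Spec.map_surjective y'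
    have h1 : (Spec.map φ ≫ Spec.map (θ l)) ≫ j (w₀ l.1) =
        (Spec.map φ' ≫ Spec.map (θ l)) ≫ j (w₀ l.1) := by
      rw [Category.assoc, Category.assoc]
      exact h
    rw [cancel_mono, ← Spec.map_comp, ← Spec.map_comp] at h1
    have h2 := congrArg CommRingCat.Hom.hom (Spec.map_injective h1)
    congr 1
    apply CommRingCat.hom_ext
    exact hθi l K φ.hom φ'.hom h2

end Pool.Agent.Work.MP_e97a4d_nt.Hyp
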