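import Pool.Agent.Work.MP_e97a4d_nt.Hyp.Trans
import Pool.Agent.Work.MP_e97a4d_nt.VpInt
import Pool.Agent.Work.MP_e97a4d_nt.SIntDed

/-!
Points of schemes over the ring of `S`-integers, locally.
-/

set_option autoImplicit false

noncomputable section

namespace Pool.Agent.Work.MP_e97a4d_nt.Hyp

open AlgebraicGeometry CategoryTheory IsDedekindDomain NumberField
open Pool.Agent.Work.MP_e97a4d_nt

variable {F₀ : Type} [Field F₀] {V V' : Scheme.{0}}
variable {F : Type} [Field F] [NumberField F] {S : Finset (HeightOneSpectrum (𝓞 F))}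

theorem sp_injective : Function.Injective (algebraMap (SInt F S) F) := fun _ _ h => Subtype.ext h

theorem sp_exists_div (u : F) : ∃ b s : SInt F S, s ≠ 0 ∧ u * algebraMap (SInt F S) F s = algebraMap _ F b := by
  obtain ⟨n, d, hd, hnd⟩ := IsFractionRing.div_surjective (A := 𝓞 F) u
  have hd0 : algebraMap (𝓞 F) F d ≠ 0 :=
    IsFractionRing.to_map_ne_zero_of_mem_nonZeroDivisors hd
  refine ⟨algebraMap (𝓞 F) (SInt F S) n, algebraMap (𝓞 F) (SInt F S) d, ?_, ?_⟩
  · intro h
    apply hd0
    have := congrArg (algebraMap (SInt F S) F) h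
    rw [map_zero] at this
    exact this
  · show u * algebraMap (𝓞 F) F d = algebraMap (𝓞 F) F n
    rw [← hnd, div_mul_cancel₀ _ hd0]

/-- the nonzero primes of the ring of `S`-integers -/
theorem sp_prime_val (p : PrimeSpectrum (SInt F S)) (hp : p ≠ ⊥) :
    ∃ v : HeightOneSpectrum (𝓞 F), v ∉ S ∧ ∀ u : F, v.valuation F u ≤ 1 →
      ∃ b s : SInt F S, s ∉ p.asIdeal ∧ u * algebraMap (SInt F S) F s = algebraMap _ F b := by
  classical
  obtain ⟨a, ha0, ha⟩ := Vp.exists_away F S
  have hpr : (p.asIdeal.comap (algebraMap (𝓞 F) (SInt F S))).IsPrime := Ideal.comap_isPrime _ _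
  have hau : IsUnit (algebraMap (𝓞 F) (SInt F S) a) :=
    IsLocalization.map_units (SInt F S) (⟨a, Submonoid.mem_powers a⟩ : Submonoid.powers a)
  have hne : p.asIdeal.comap (algebraMap (𝓞 F) (SInt F S)) ≠ ⊥ := by
    intro hbot
    apply hp
    apply PrimeSpectrum.ext
    show p.asIdeal = ⊥
    rw [eq_bot_iff]
    intro x hx
    obtain ⟨⟨c, s⟩, hc⟩ := IsLocalization.surj (Submonoid.powers a) x
    have h1 : algebraMap (𝓞 F) (SInt F S) c ∈ p.asIdeal := by
      rw [← hc]
      exact Ideal.mul_mem_right _ _ hx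
    have h2 : c ∈ p.asIdeal.comap (algebraMap (𝓞 F) (SInt F S)) := h1
    rw [hbot] at h2
    have h3 : c = 0 := h2
    rw [h3, map_zero] at hc
    have h4 : IsUnit (algebraMap (𝓞 F) (SInt F S) s) := IsLocalization.map_units _ s
    exact (mul_eq_zero.1 hc).resolve_right h4.ne_zero
  let v : HeightOneSpectrum (𝓞 F) := ⟨p.asIdeal.comap (algebraMap (𝓞 F) (SInt F S)), hpr, hne⟩
  have hnot : ∀ c : 𝓞 F, v.valuation F (algebraMap (𝓞 F) F c) = 1 →
      algebraMap (𝓞 F) (SInt F S) c ∉ p.asIdeal := by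
    intro c hc hmem
    have h1 : v.valuation F (algebraMap (𝓞 F) F c) < 1 := by
      rw [HeightOneSpectrum.valuation_lt_one_iff_mem]
      exact hmem
    rw [hc] at h1
    exact lt_irrefl _ h1
  refine ⟨v, ?_, fun u hu => ?_⟩
  · intro hv
    obtain ⟨c, hc0, hlt, hone⟩ := Vp.exists_generator F S
    have hcF : (c : F) ≠ 0 := fun h => hc0 (by exact_mod_cast h)
    have hinv : ((c : F)⁻¹) ∈ (S : Set (HeightOneSpectrum (𝓞 F))).integer F := by
      intro w hw
      rw [map_inv₀, hone w hw, inv_one]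
    have hu : IsUnit (algebraMap (𝓞 F) (SInt F S) c) := by
      refine IsUnit.of_mul_eq_one ⟨(c : F)⁻¹, hinv⟩ (Subtype.ext ?_)
      change algebraMap (𝓞 F) F c * (c : F)⁻¹ = 1
      exact mul_inv_cancel₀ hcF
    have h2 : v.valuation F (algebraMap (𝓞 F) F c) < 1 := hlt v hv
    rw [HeightOneSpectrum.valuation_lt_one_iff_mem] at h2
    exact p.2.ne_top (Ideal.eq_top_of_isUnit_mem _ h2 hu)
  · let T : Finset (HeightOneSpectrum (𝓞 F)) := (HeightOneSpectrum.Support.finite (𝓞 F) u).toFinset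
    have hT : ∀ w, w ∈ T ↔ 1 < w.valuation F u := fun w => by
      rw [Set.Finite.mem_toFinset]; rfl
    have hvT : v ∉ T := by
      rw [hT]
      exact not_lt.2 hu
    obtain ⟨c, hc0, hlt, hone⟩ := Vp.exists_generator F T
    obtain ⟨n, hn⟩ := Vp.exists_pow_mul_le F T (c : F) u hlt
    have h1 : ∀ w : HeightOneSpectrum (𝓞 F), w.valuation F ((c : F) ^ n * u) ≤ 1 := by
      intro w
      by_cases hw : w ∈ T
      · exact hn w hw
      · rw [map_mul, map_pow, hone w hw, one_pow, one_mul]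
        rw [hT] at hw
        exact not_lt.1 hw
    obtain ⟨r, hr⟩ := HeightOneSpectrum.mem_integers_of_valuation_le_one F _ h1
    refine ⟨algebraMap (𝓞 F) (SInt F S) r, algebraMap (𝓞 F) (SInt F S) (c ^ n), ?_, ?_⟩
    · apply hnot
      rw [map_pow, map_pow]
      have h2 : v.valuation F (algebraMap (𝓞 F) F c) = 1 := hone v hvT
      rw [h2, one_pow]
    · show u * algebraMap (𝓞 F) F (c ^ n) = algebraMap (𝓞 F) F r
      rw [hr, map_pow, mul_comm]

/-- the embedding of a localization -/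
def spKappa (s : SInt F S) (hs : s ≠ 0) : Localization.Away s →+* F :=
  IsLocalization.Away.lift s (g := algebraMap (SInt F S) F)
    (isUnit_iff_ne_zero.2 (fun h => hs (sp_injective (by rw [h, map_zero]))))

theorem spKappa_comp (s : SInt F S) (hs : s ≠ 0) :
    (spKappa s hs).comp (algebraMap (SInt F S) (Localization.Away s)) = algebraMap (SInt F S) F :=
  IsLocalization.Away.lift_comp _ _

theorem spKappa_apply (s : SInt F S) (hs : s ≠ 0) (r : SInt F S) :
    spKappa s hs (algebraMap (SInt F S) (Localization.Away s) r) = algebraMap (SInt F S) F r :=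
  RingHom.congr_fun (spKappa_comp s hs) r

theorem spKappa_injective (s : SInt F S) (hs : s ≠ 0) : Function.Injective (spKappa s hs) := by
  rw [injective_iff_map_eq_zero]
  intro c hc
  obtain ⟨⟨b, t⟩, hb⟩ := IsLocalization.surj (Submonoid.powers s) c
  have h1 := congrArg (spKappa s hs) hb
  rw [map_mul, hc, zero_mul, spKappa_apply] at h1
  have h2 : b = 0 := sp_injective (by rw [← h1, map_zero])
  have h3 : IsUnit (algebraMap (SInt F S) (Localization.Away s) t) := IsLocalization.map_units _ t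
  have h4 : c * algebraMap (SInt F S) (Localization.Away s) t = 0 := by
    rw [hb]
    show algebraMap (SInt F S) (Localization.Away s) b = 0
    rw [h2, map_zero]
  exact h3.mul_left_eq_zero.1 h4

/-- the morphism from the principal open subscheme -/
abbrev spU (s : SInt F S) : Spec (CommRingCat.of (Localization.Away s)) ⟶ Spec (CommRingCat.of (SInt F S)) :=
  Spec.map (CommRingCat.ofHom (algebraMap (SInt F S) (Localization.Away s)))

instance (s : SInt F S) : IsOpenImmersion (spU s) := inferInstance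

theorem range_spU (s : SInt F S) :
    Set.range (spU s) = (PrimeSpectrum.basicOpen s : Set (PrimeSpectrum (SInt F S))) :=
  PrimeSpectrum.localization_away_comap_range (Localization.Away s) s

/-- restriction of a morphism from an affine chart of finite type to the complement of a closed set -/
theorem sp_factor [Algebra F₀ F] {A : CommRingCat.{0}} (α : 𝓞 F₀ →+* A) (hα : α.FiniteType)
    (ψ : A →+* F) (hψ : ψ.comp α = rhoF F₀ F) (p : PrimeSpectrum (SInt F S))
    (h : ∀ a, ∃ b s : SInt F S, s ∉ p.asIdeal ∧ ψ a * algebraMap (SInt F S) F s = algebraMap _ F b) :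
    ∃ (s : SInt F S) (_ : s ∉ p.asIdeal) (hs0 : s ≠ 0) (θ : A →+* Localization.Away s),
      (spKappa s hs0).comp θ = ψ := by
  classical
  let _ : Algebra (𝓞 F₀) A := α.toAlgebra
  have hft : Algebra.FiniteType (𝓞 F₀) A := hα
  obtain ⟨t, ht⟩ := hft.out
  choose b s hs hb using h
  let s' : SInt F S := ∏ a ∈ t, s a
  have hs' : s' ∉ p.asIdeal := by
    intro hmem
    obtain ⟨a, -, ha⟩ := (Ideal.IsPrime.prod_mem_iff (p := p.asIdeal)).1 hmem
    exact hs a ha
  have hs0 : s' ≠ 0 := fun h => hs' (by rw [h]; exact zero_mem _)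
  have hmem : ∀ a : A, ψ a ∈ (spKappa s' hs0).range := by
    intro a
    have ha : a ∈ Algebra.adjoin (𝓞 F₀) (t : Set A) := by rw [ht]; trivial
    induction ha using Algebra.adjoin_induction with
    | mem a ha =>
      obtain ⟨c, hc⟩ : s a ∣ s' := Finset.dvd_prod_of_mem _ ha
      refine ⟨algebraMap (SInt F S) _ (b a * c) * IsLocalization.Away.invSelf s', ?_⟩
      have h1 : spKappa s' hs0 (IsLocalization.Away.invSelf s') * algebraMap (SInt F S) F s' = 1 := by
        rw [← spKappa_apply s' hs0, ← map_mul, mul_comm, IsLocalization.Away.mul_invSelf, map_one]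
      have h2 : algebraMap (SInt F S) F s' ≠ 0 := right_ne_zero_of_mul_eq_one h1
      rw [map_mul, spKappa_apply]
      apply mul_right_cancel₀ h2
      rw [mul_assoc, h1, mul_one, hc, map_mul, map_mul, ← mul_assoc, hb]
    | algebraMap r =>
      have h1 : ψ (algebraMap (𝓞 F₀) A r) = rhoF F₀ F r := RingHom.congr_fun hψ r
      rw [h1]
      refine ⟨algebraMap (SInt F S) _ (structHom F₀ F S r), ?_⟩
      rw [spKappa_apply]
      rfl
    | add a b _ _ ha hb => rw [map_add]; exact add_mem ha hb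
    | mul a b _ _ ha hb => rw [map_mul]; exact mul_mem ha hb
  let e : Localization.Away s' ≃+* (spKappa s' hs0).range :=
    RingEquiv.ofBijective (spKappa s' hs0).rangeRestrict
      ⟨fun x y hxy => spKappa_injective s' hs0 (congrArg Subtype.val hxy),
        (spKappa s' hs0).rangeRestrict_surjective⟩
  refine ⟨s', hs', hs0, (e.symm : (spKappa s' hs0).range →+* Localization.Away s').comp
    (ψ.codRestrict (spKappa s' hs0).range hmem), ?_⟩
  ext a
  have h1 : e (e.symm (ψ.codRestrict (spKappa s' hs0).range hmem a)) =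
      ψ.codRestrict (spKappa s' hs0).range hmem a := e.apply_symm_apply _
  exact congrArg Subtype.val h1

/-- local form of a point -/
theorem sp_chart (x : Spec (CommRingCat.of (SInt F S)) ⟶ V) {A : CommRingCat.{0}} (j : Spec A ⟶ V)
    [IsOpenImmersion j] (s : SInt F S)
    (h : ∀ q : PrimeSpectrum (SInt F S), s ∉ q.asIdeal → x q ∈ Set.range j) :
    ∃ θ : A →+* Localization.Away s, Spec.map (CommRingCat.ofHom θ) ≫ j = spU s ≫ x := by
  have h1 : Set.range (spU s ≫ x) ⊆ Set.range j := by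
    rintro _ ⟨y, rfl⟩
    have h2 : spU s y ∈ Set.range (spU s) := ⟨y, rfl⟩
    rw [range_spU] at h2
    exact h _ h2
  obtain ⟨g, hg⟩ := Spec.map_surjective (IsOpenImmersion.lift j _ h1)
  refine ⟨g.hom, ?_⟩
  have h2 : CommRingCat.ofHom g.hom = g := rfl
  rw [h2, hg, IsOpenImmersion.lift_fac]

theorem sp_exists_elt (x : Spec (CommRingCat.of (SInt F S)) ⟶ V) (O : V.Opens)
    (p : PrimeSpectrum (SInt F S)) (h : x p ∈ O) :
    ∃ s : SInt F S, s ∉ p.asIdeal ∧ ∀ q : PrimeSpectrum (SInt F S), s ∉ q.asIdeal → x q ∈ O := by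
  have h1 : p ∈ (x ⁻¹ᵁ O : (Spec (CommRingCat.of (SInt F S))).Opens) := h
  obtain ⟨_, ⟨b, rfl⟩, hpb, hbU⟩ := PrimeSpectrum.isTopologicalBasis_basic_opens.exists_subset_of_mem_open
    h1 (x ⁻¹ᵁ O).isOpen
  exact ⟨b, hpb, fun q hq => hbU hq⟩

/-- the generic point of an integral point -/
def gen (x : Spec (CommRingCat.of (SInt F S)) ⟶ V) : Spec (CommRingCat.of F) ⟶ V :=
  Spec.map (CommRingCat.ofHom (algebraMap (SInt F S) F)) ≫ x

theorem kappa_spU (s : SInt F S) (hs : s ≠ 0) :
    Spec.map (CommRingCat.ofHom (spKappa s hs)) ≫ spU s =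
      Spec.map (CommRingCat.ofHom (algebraMap (SInt F S) F)) := by
  rw [← Spec.map_comp, ← CommRingCat.ofHom_comp, spKappa_comp]

theorem gen_bot (x : Spec (CommRingCat.of (SInt F S)) ⟶ V) :
    (gen x) (⊥ : PrimeSpectrum F) = x (⊥ : PrimeSpectrum (SInt F S)) := by
  show x (Spec.map (CommRingCat.ofHom (algebraMap (SInt F S) F)) (⊥ : PrimeSpectrum F)) = _
  congr 1
  apply PrimeSpectrum.ext
  change Ideal.comap (algebraMap (SInt F S) F) ⊥ = ⊥
  exact (RingHom.injective_iff_ker_eq_bot _).1 sp_injective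

theorem sp_bot_mem (x : Spec (CommRingCat.of (SInt F S)) ⟶ V) (O : V.Opens)
    (p : PrimeSpectrum (SInt F S)) (h : x p ∈ O) : x (⊥ : PrimeSpectrum (SInt F S)) ∈ O := by
  have h1 : p ∈ (x ⁻¹ᵁ O : (Spec (CommRingCat.of (SInt F S))).Opens) := h
  have h2 : (⊥ : PrimeSpectrum (SInt F S)) ⤳ p := (PrimeSpectrum.le_iff_specializes _ _).1 bot_le
  exact h2.mem_open (x ⁻¹ᵁ O).isOpen h1

/-- two points which are equal over a principal open subscheme -/
theorem sp_eq_of_away (x x' : Spec (CommRingCat.of (SInt F S)) ⟶ V) (s : SInt F S)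
    (h : spU s ≫ x = spU s ≫ x') (p : PrimeSpectrum (SInt F S)) (hp : s ∉ p.asIdeal) :
    ∃ U : (Spec (CommRingCat.of (SInt F S))).Opens, p ∈ U ∧ U.ι ≫ x = U.ι ≫ x' := by
  refine ⟨(spU s).opensRange, ?_, ?_⟩
  · show p ∈ Set.range (spU s)
    rw [range_spU]
    exact hp
  · have h1 : IsOpenImmersion.lift (spU s) (spU s).opensRange.ι
        (by rw [Scheme.Opens.range_ι]; exact le_rfl) ≫ spU s = (spU s).opensRange.ι :=
      IsOpenImmersion.lift_fac _ _ _
    rw [← h1, Category.assoc, Category.assoc, h]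

/-- two integral points with the same generic point and values in the same chart near `p` -/
theorem sp_local_eq (x x' : Spec (CommRingCat.of (SInt F S)) ⟶ V) (hg : gen x = gen x')
    {A : CommRingCat.{0}} (j : Spec A ⟶ V) [IsOpenImmersion j] (p : PrimeSpectrum (SInt F S))
    (h : x p ∈ Set.range j) (h' : x' p ∈ Set.range j) :
    ∃ U : (Spec (CommRingCat.of (SInt F S))).Opens, p ∈ U ∧ U.ι ≫ x = U.ι ≫ x' := by
  obtain ⟨s, hs, hs2⟩ := sp_exists_elt x j.opensRange p h
  obtain ⟨s', hs', hs2'⟩ := sp_exists_elt x' j.opensRange p h'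
  have hp : s * s' ∉ p.asIdeal := fun h => (p.2.mem_or_mem h).elim hs hs'
  have h0 : s * s' ≠ 0 := fun h => hp (by rw [h]; exact zero_mem _)
  obtain ⟨θ, hθ⟩ := sp_chart x j (s * s') (fun q hq => hs2 q (fun h => hq (Ideal.mul_mem_right _ _ h)))
  obtain ⟨θ', hθ'⟩ := sp_chart x' j (s * s') (fun q hq => hs2' q (fun h => hq (Ideal.mul_mem_left _ _ h)))
  have h1 : (spKappa (s * s') h0).comp θ = (spKappa (s * s') h0).comp θ' := by
    apply map_comp_inj j
    rw [CommRingCat.ofHom_comp, CommRingCat.ofHom_comp, Spec.map_comp, Spec.map_comp, Category.assoc,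
      Category.assoc, hθ, hθ', ← Category.assoc, ← Category.assoc, kappa_spU]
    exact hg
  have h2 : θ = θ' := by
    ext a
    exact spKappa_injective _ h0 (RingHom.congr_fun h1 a)
  exact sp_eq_of_away x x' (s * s') (by rw [← hθ, ← hθ', h2]) p hp

end Pool.Agent.Work.MP_e97a4d_nt.Hyp
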