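import Pool.Agent.Work.MP_e97a4d_nt.Hyp.Mero

/-!
Size systems: an abstract version of the calculus of characteristic functions; generic families of
linear forms.
-/

set_option autoImplicit false

noncomputable section

namespace Pool.Agent.Work.MP_e97a4d_nt.Hyp

/-- `Sz j c u` stands for `T(u) <= (c + o(1)) T(ξ)` near suitable radii (on windows which shrink when `j`
increases). -/
structure SizeSys {n : ℕ} (ξ : Fin n → Mero) where
  Sz : ℕ → ℝ → Mero → Prop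
  mono : ∀ {j j' : ℕ} {c c' : ℝ} {u : Mero}, j ≤ j' → c ≤ c' → Sz j c u → Sz j' c' u
  const : ∀ {u : Mero} (j : ℕ), D u = 0 → Sz j 0 u
  add : ∀ {j : ℕ} {c c' : ℝ} {u v : Mero}, 0 ≤ c → 0 ≤ c' → Sz j c u → Sz j c' v → Sz j (c + c') (u + v)
  mul : ∀ {j : ℕ} {c c' : ℝ} {u v : Mero}, 0 ≤ c → 0 ≤ c' → Sz j c u → Sz j c' v → Sz j (c + c') (u * v)
  inv : ∀ {j : ℕ} {c : ℝ} {u : Mero}, 0 ≤ c → Sz j c u → Sz j c u⁻¹
  logD : ∀ {j : ℕ} {c : ℝ} {u : Mero}, 0 ≤ c → u ≠ 0 → Sz j c u → Sz (j + 1) (2 * c) (D u / u)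
  root : ∀ {j : ℕ} {c : ℝ} {u : Mero} {N : ℕ}, 0 < N → Sz j c (u ^ N) → Sz j (c / N) u
  base : ∀ k, Sz 0 2 (ξ k)
  final : ∀ {j : ℕ} {c : ℝ}, (∀ k, Sz j c (ξ k)) → 1 ≤ n * c

/-- pairs `i < j` -/
abbrev Pair (n : ℕ) := {q : Fin n × Fin n // q.1 < q.2}

/-- A generic family of linear forms `L_p` in `n` variables: any `n` of them are independent, and for any
disjoint pairs `(p_s, q_s)`, `s` in `Pair n`, the vectors `L_{q_s} ∧ L_{p_s}` are independent. -/
structure Gen {P R : Type} [CommRing R] {n : ℕ} (L : P → Fin n → R) : Prop where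
  g1 : ∀ p : Fin n → P, Function.Injective p → (Matrix.of fun i k => L (p i) k).det ≠ 0
  g2 : ∀ p q : Pair n → P, Function.Injective (Sum.elim p q) →
    (Matrix.of fun s t : Pair n =>
      L (q s) t.1.1 * L (p s) t.1.2 - L (q s) t.1.2 * L (p s) t.1.1).det ≠ 0

/-- the value of a linear form -/
def lin {n : ℕ} (L : Fin n → ℂ) (ξ : Fin n → Mero) : Mero := ∑ k, L k • ξ k

end Pool.Agent.Work.MP_e97a4d_nt.Hyp
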